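import Pool.Agent.Lib.MP_bbe012_lc.PG.A10

/-!
# Counting, rational version: the linear algebra
-/

namespace Pool.Agent.Lib.MP_bbe012_lc.PM

open Finset PG

/-- Rational vectors which are orthogonal to a real vector `P ≠ 0` are orthogonal to a rational vector, normalised by its largest coordinate.

Proof. Let `W` be the `ℚ`-span of the `v s` in `n → ℚ`. If `W = ⊤`, every basis vector `Pi.single j 1` is a rational combination of the `v s`; the map `x ↦ ∑ j, P j * (x j : ℝ)` is additive and `ℚ`-linear from `n → ℚ` to `ℝ` and vanishes on the `v s`, so on `W`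
(`Submodule.span_induction`, or `Submodule.span_le` for its kernel), so `P j = 0` for all `j`: contradiction. So `W ≠ ⊤` and there is a non zero `f : (n → ℚ) →ₗ[ℚ] ℚ` with `W ≤ ker f` (`Submodule.exists_le_ker_of_lt_top`); `Q₀ j = f (Pi.single j 1)`, `f x = ∑ j, x j * Q₀ j`
(`LinearMap.pi_apply_eq_sum_univ`), `Q₀ ≠ 0`. Let `j₁` be an index with `|Q₀ j₁|` maximal (`Finset.exists_max_image`), and `Q j = Q₀ j / |Q₀ j₁|`. -/
theorem rat_normal {S n : Type} [Fintype n] (v : S → n → ℚ) (P : n → ℝ) (hP : ∃ j, P j ≠ 0)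
    (h : ∀ s, ∑ j, P j * (v s j : ℝ) = 0) :
    ∃ Q : n → ℚ, (∀ j, |Q j| ≤ 1) ∧ (∃ j, |Q j| = 1) ∧ ∀ s, ∑ j, Q j * v s j = 0 := by
  classical
  obtain ⟨j₀, hj₀⟩ := hP
  let W : Submodule ℚ (n → ℚ) := Submodule.span ℚ (Set.range v)
  let L : (n → ℚ) →ₗ[ℚ] ℝ :=
    { toFun := fun x => ∑ j, P j * (x j : ℝ)
      map_add' := by
        intro x y
        rw [← Finset.sum_add_distrib]
        refine Finset.sum_congr rfl fun j _ => ?_
        rw [Pi.add_apply, Rat.cast_add, mul_add]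
      map_smul' := by
        intro c x
        rw [RingHom.id_apply, Rat.smul_def, Finset.mul_sum]
        refine Finset.sum_congr rfl fun j _ => ?_
        rw [Pi.smul_apply, smul_eq_mul, Rat.cast_mul]
        ring }
  have hWL : W ≤ LinearMap.ker L := by
    refine Submodule.span_le.2 ?_
    rintro _ ⟨s, rfl⟩
    exact h s
  have hW : W < ⊤ := by
    refine lt_top_iff_ne_top.2 fun hT => hj₀ ?_
    have h1 : (Pi.single j₀ (1 : ℚ) : n → ℚ) ∈ LinearMap.ker L := hWL (hT ▸ Submodule.mem_top)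
    have h2 : ∑ j, P j * (((Pi.single j₀ (1 : ℚ) : n → ℚ) j : ℚ) : ℝ) = 0 := h1
    rw [Finset.sum_eq_single j₀ (fun j _ hj => by rw [Pi.single_eq_of_ne hj, Rat.cast_zero, mul_zero])
      (fun hj => absurd (Finset.mem_univ _) hj), Pi.single_eq_same, Rat.cast_one, mul_one] at h2
    exact h2
  obtain ⟨f, hf0, hfW⟩ := Submodule.exists_le_ker_of_lt_top W hW
  let Q₀ : n → ℚ := fun j => f (Pi.single j 1)
  have hfx : ∀ x : n → ℚ, f x = ∑ j, x j * Q₀ j := by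
    intro x
    conv_lhs => rw [pi_eq_sum_univ' x]
    rw [map_sum]
    refine Finset.sum_congr rfl fun j _ => ?_
    rw [map_smul, smul_eq_mul]
  have hne : ∃ j, Q₀ j ≠ 0 := by
    by_contra hcon
    push Not at hcon
    apply hf0
    refine LinearMap.ext fun x => ?_
    rw [hfx x, LinearMap.zero_apply]
    exact Finset.sum_eq_zero fun j _ => by rw [hcon j, mul_zero]
  obtain ⟨j₂, hj₂⟩ := hne
  obtain ⟨j₁, _, hj₁⟩ := Finset.exists_max_image Finset.univ (fun j => |Q₀ j|) ⟨j₂, Finset.mem_univ _⟩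
  have hpos : 0 < |Q₀ j₁| := lt_of_lt_of_le (abs_pos.2 hj₂) (hj₁ j₂ (Finset.mem_univ _))
  refine ⟨fun j => Q₀ j / |Q₀ j₁|, fun j => ?_, ⟨j₁, ?_⟩, fun s => ?_⟩
  · rw [abs_div, abs_abs, div_le_one hpos]
    exact hj₁ j (Finset.mem_univ _)
  · rw [abs_div, abs_abs, div_self hpos.ne']
  · have h1 : f (v s) = 0 := hfW (Submodule.subset_span ⟨s, rfl⟩)
    rw [hfx] at h1
    calc ∑ j, Q₀ j / |Q₀ j₁| * v s j = (∑ j, v s j * Q₀ j) / |Q₀ j₁| := by
          rw [Finset.sum_div]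
          refine Finset.sum_congr rfl fun j _ => ?_
          ring
      _ = 0 := by rw [h1, zero_div]

/-- The rational version of `stage`.

Proof. `stage` (PG/A10.lean) with the same `h`, `T₀`; its real `P` gives `∑ (j, a), P j a * (σ ^ a * cf σ j) = 0` for `σ ∈ S`, so apply `rat_normal` to the rational vectors `v σ (j, a) = (∏ l, σ l ^ a l) * cf σ j` (index type `J × (ι → Fin (2 * h + 1))`, `S` as the subtype `↥S`), and uncurry. -/
theorem stageQ (ι J : Type) [Fintype ι] [DecidableEq ι] [Nonempty ι] [Fintype J] [DecidableEq J] [Nonempty J]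
    (r B c : ℝ) (κ A M : ℕ) (hr : 0 < r) (hB : 0 ≤ B) (hc : 0 < c)
    (hM : 2 ^ (Fintype.card ι + 2) * Fintype.card ι * Fintype.card J ≤ M) :
    ∃ h T₀ : ℕ, ∀ T : ℕ, T₀ ≤ T → ∀ (θ₀ : ι → ℝ) (N : J → (ι → ℝ) → ℝ) (ν : J → (ι → ℕ) → ℝ),
      (∀ j, Exp r B θ₀ (N j) (ν j)) → (∃ j b, dg b ≤ κ ∧ c ≤ |ν j b|) →
      ∀ ℓ : ℝ, 0 < ℓ → ℓ ^ M * (T : ℝ) ^ (2 * M - 1) ≤ 1 → ∀ (S : Set (ι → ℚ)) (cf : (ι → ℚ) → J → ℤ),
        (∀ σ ∈ S, (∀ i, HLE T (σ i)) ∧ (∀ i, |(σ i : ℝ) - θ₀ i| ≤ ℓ) ∧ (∀ j, |cf σ j| ≤ (T : ℤ) ^ A) ∧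
          ∑ j, (cf σ j : ℝ) * N j (fun i => (σ i : ℝ)) = 0) →
        ∃ P : J → (ι → Fin (2 * h + 1)) → ℚ, (∀ j a, |P j a| ≤ 1) ∧ (∃ j a, |P j a| = 1) ∧
          ∀ σ ∈ S, ∑ j, (∑ a, P j a * ∏ l, σ l ^ (a l : ℕ)) * (cf σ j : ℚ) = 0 := by
  classical
  obtain ⟨h, T₀, hst⟩ := stage ι J r B c κ A M hr hB hc hM
  refine ⟨h, T₀, fun T hT θ₀ N ν hE hν ℓ hℓ hℓM S cf hS => ?_⟩
  obtain ⟨P, _, ⟨j₀, a₀, hja⟩, hP3⟩ := hst T hT θ₀ N ν hE hν ℓ hℓ hℓM S cf hS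
  obtain ⟨Q, hQ1, ⟨⟨j₁, a₁⟩, hQ2⟩, hQ3⟩ := rat_normal (S := S) (n := J × (ι → Fin (2 * h + 1)))
    (fun σ ja => (∏ l, (σ : ι → ℚ) l ^ (ja.2 l : ℕ)) * (cf σ ja.1 : ℚ)) (fun ja => P ja.1 ja.2)
    ⟨(j₀, a₀), fun h0 => by
      have h1 : P j₀ a₀ = 0 := h0
      rw [h1, abs_zero] at hja
      exact zero_ne_one hja⟩
    (fun σ => by
      have h1 := hP3 σ σ.2
      rw [Fintype.sum_prod_type, ← h1]
      refine Finset.sum_congr rfl fun j _ => ?_
      rw [Finset.sum_mul]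
      refine Finset.sum_congr rfl fun a _ => ?_
      push_cast
      ring)
  refine ⟨fun j a => Q (j, a), fun j a => hQ1 (j, a), ⟨j₁, a₁, hQ2⟩, fun σ hσ => ?_⟩
  have h1 := hQ3 ⟨σ, hσ⟩
  rw [Fintype.sum_prod_type] at h1
  rw [← h1]
  refine Finset.sum_congr rfl fun j _ => ?_
  rw [Finset.sum_mul]
  refine Finset.sum_congr rfl fun a _ => ?_
  ring

end Pool.Agent.Lib.MP_bbe012_lc.PM
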