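import Mathlib
import Pool.Agent.Lib.MP_bbe012_lc.LocWeyl

/-!
# Finite generation of the twisted de Rham cohomology over an arbitrary base ring

For an integral domain `B` of characteristic zero, `h ∈ B[x]` nonzero and `τ ∈ B`, every fraction
`G / h^κ` is, up to a nonzero factor of `B`, a combination of finitely many fixed fractions
`x^a / h^K0` modulo derivatives (for the twist `h^τ`).
-/

namespace Pool.Agent.Lib.MP_bbe012_lc.PM

open Module MvPolynomial

section field

variable {𝕜 : Type*} [Field 𝕜] [CharZero 𝕜] {n : ℕ}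

/-- The space of derivatives. -/
noncomputable def exactS (h : MvPolynomial (Fin n) 𝕜) (κ : 𝕜) : Submodule 𝕜 (Loc h) :=
  ⨆ i, LinearMap.range (DD h κ i)

omit [CharZero 𝕜] in
theorem mem_exactS (h : MvPolynomial (Fin n) 𝕜) (κ : 𝕜) (v : Loc h) :
    v ∈ exactS h κ ↔ ∃ m : Fin n → Loc h, v = ∑ l, DD h κ l (m l) := by
  constructor
  · intro hv
    obtain ⟨f, hf, hsum⟩ := (Submodule.mem_iSup_iff_exists_finsupp _ _).mp hv
    choose m hm using hf
    refine ⟨m, ?_⟩
    rw [← hsum, Finsupp.sum_fintype _ _ (fun _ => rfl)]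
    exact Finset.sum_congr rfl fun l _ => (hm l).symm
  · rintro ⟨m, rfl⟩
    refine Submodule.sum_mem _ fun l _ => ?_
    exact Submodule.mem_iSup_of_mem l ⟨m l, rfl⟩

instance finite_coh (h : MvPolynomial (Fin n) 𝕜) (κ : 𝕜) :
    FiniteDimensional 𝕜 (Loc h ⧸ exactS h κ) := by
  obtain ⟨F, hF, htop⟩ := (loc_weyl h κ).coker_finite
  change F ⊔ exactS h κ = ⊤ at htop
  have h1 : Function.Surjective ((exactS h κ).mkQ.domRestrict F) := by
    intro w
    obtain ⟨v, rfl⟩ := Submodule.mkQ_surjective (exactS h κ) w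
    have hv : v ∈ F ⊔ exactS h κ := by rw [htop]; trivial
    obtain ⟨f, hf, e, he, rfl⟩ := Submodule.mem_sup.mp hv
    refine ⟨⟨f, hf⟩, ?_⟩
    rw [LinearMap.domRestrict_apply, map_add]
    have : (exactS h κ).mkQ e = 0 := by
      rw [Submodule.mkQ_apply, Submodule.Quotient.mk_eq_zero]; exact he
    rw [this, add_zero]
  exact Module.Finite.of_surjective _ h1

/-- The classes of the fractions `G / h^K`. -/
noncomputable def cls (h : MvPolynomial (Fin n) 𝕜) (κ : 𝕜) (K : ℕ) :
    MvPolynomial (Fin n) 𝕜 →ₗ[𝕜] Loc h ⧸ exactS h κ :=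
  (exactS h κ).mkQ ∘ₗ fracMap h K

omit [CharZero 𝕜] in
theorem range_cls_mono (h : MvPolynomial (Fin n) 𝕜) (κ : 𝕜) :
    Monotone fun K => LinearMap.range (cls h κ K) := by
  refine monotone_nat_of_le_succ fun K => ?_
  rintro _ ⟨G, rfl⟩
  refine ⟨G * h ^ 1, ?_⟩
  change (exactS h κ).mkQ (fracMap h (K + 1) (G * h ^ 1)) = (exactS h κ).mkQ (fracMap h K G)
  rw [← fracMap_shift]

theorem exists_range_cls (h : MvPolynomial (Fin n) 𝕜) (κ : 𝕜) :
    ∃ K, LinearMap.range (cls h κ K) = ⊤ := by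
  obtain ⟨K, hK⟩ := monotone_stabilizes_iff_noetherian.mpr
    (inferInstance : IsNoetherian 𝕜 (Loc h ⧸ exactS h κ))
    ⟨fun K => LinearMap.range (cls h κ K), range_cls_mono h κ⟩
  refine ⟨K, ?_⟩
  rw [eq_top_iff]
  rintro w -
  obtain ⟨v, rfl⟩ := Submodule.mkQ_surjective (exactS h κ) w
  obtain ⟨G, K', rfl⟩ := exists_frac h v
  have h1 : (exactS h κ).mkQ (iota h G * invH h ^ K') ∈ LinearMap.range (cls h κ (K + K')) := by
    refine range_cls_mono h κ (Nat.le_add_left K' K) ?_
    exact ⟨G, rfl⟩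
  have h2 := hK (K + K') (Nat.le_add_right _ _)
  change LinearMap.range (cls h κ K) = LinearMap.range (cls h κ (K + K')) at h2
  rw [h2]
  exact h1

/-- Finitely many monomials over a fixed power of `h` generate the cohomology. -/
theorem exists_generators (h : MvPolynomial (Fin n) 𝕜) (κ : 𝕜) :
    ∃ (m K0 : ℕ) (a : Fin m → Fin n →₀ ℕ), ∀ w : Loc h, ∃ (c : Fin m → 𝕜) (g : Fin n → Loc h),
      w = ∑ j, c j • fracMap h K0 (monomial (a j) 1) + ∑ l, DD h κ l (g l) := by
  obtain ⟨K0, hK0⟩ := exists_range_cls h κ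
  have hspan : Submodule.span 𝕜 (Set.range fun a : Fin n →₀ ℕ => cls h κ K0 (monomial a 1)) = ⊤ := by
    rw [← hK0, eq_comm, LinearMap.range_eq_map, ← (basisMonomials (Fin n) 𝕜).span_eq,
      Submodule.map_span, ← Set.range_comp]
    congr 1
  have hfg : (Submodule.span 𝕜 (Set.range fun a : Fin n →₀ ℕ =>
      cls h κ K0 (monomial a 1))).FG := by
    rw [hspan]
    exact Module.finite_def.mp (finite_coh h κ)
  obtain ⟨s, hs, hs2⟩ := Submodule.fg_span_iff_fg_span_finset_subset _ |>.mp hfg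
  rw [hspan] at hs2
  choose f hf using fun v : s => hs v.2
  refine ⟨s.card, K0, fun j => f (s.equivFin.symm j), fun w => ?_⟩
  have h1 : (exactS h κ).mkQ w ∈ Submodule.span 𝕜 (s : Set (Loc h ⧸ exactS h κ)) := by
    rw [← hs2]; trivial
  have h2 : (s : Set (Loc h ⧸ exactS h κ)) =
      Set.range fun j : Fin s.card => cls h κ K0 (monomial (f (s.equivFin.symm j)) 1) := by
    ext v
    constructor
    · intro hv
      refine ⟨s.equivFin ⟨v, hv⟩, ?_⟩
      have := hf ⟨v, hv⟩
      simpa using this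
    · rintro ⟨j, rfl⟩
      have := hf (s.equivFin.symm j)
      change cls h κ K0 (monomial (f (s.equivFin.symm j)) 1) = _ at this
      change cls h κ K0 (monomial (f (s.equivFin.symm j)) 1) ∈ (s : Set (Loc h ⧸ exactS h κ))
      rw [this]
      exact (s.equivFin.symm j).2
  rw [h2, Submodule.mem_span_range_iff_exists_fun] at h1
  obtain ⟨c, hc⟩ := h1
  have h3 : w - ∑ j, c j • fracMap h K0 (monomial (f (s.equivFin.symm j)) 1) ∈ exactS h κ := by
    rw [← Submodule.Quotient.mk_eq_zero, ← Submodule.mkQ_apply, map_sub, ← hc, map_sum,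
      sub_eq_zero]
    refine Finset.sum_congr rfl fun j _ => ?_
    rw [map_smul]
    rfl
  obtain ⟨g, hg⟩ := (mem_exactS h κ _).mp h3
  exact ⟨c, g, by rw [← hg]; abel⟩

end field

/-! ### Clearing denominators -/

section domain

variable {B : Type*} [CommRing B] {n : ℕ}

/-- The divergence of `g h^(τ - K)` divided by `h^(τ - K - 1)`. -/
noncomputable def dvg (h : MvPolynomial (Fin n) B) (τ : B) (K : ℕ)
    (g : Fin n → MvPolynomial (Fin n) B) : MvPolynomial (Fin n) B :=
  ∑ l, (h * pderiv l (g l) + (C τ - (K : MvPolynomial (Fin n) B)) * (pderiv l h * g l))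

theorem map_dvg {B' : Type*} [CommRing B'] (φ : B →+* B') (h : MvPolynomial (Fin n) B) (τ : B)
    (K : ℕ) (g : Fin n → MvPolynomial (Fin n) B) :
    map φ (dvg h τ K g) = dvg (map φ h) (φ τ) K (fun l => map φ (g l)) := by
  simp only [dvg, map_sum, map_add, map_mul, map_sub, map_C, map_natCast, pderiv_map]

variable [IsDomain B]

theorem clear_one (G : MvPolynomial (Fin n) (FractionRing B)) :
    ∃ b : B, b ≠ 0 ∧ ∃ G' : MvPolynomial (Fin n) B,
      map (algebraMap B (FractionRing B)) G' = C (algebraMap B (FractionRing B) b) * G := by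
  induction G using MvPolynomial.induction_on with
  | C a =>
    obtain ⟨p, q, rfl⟩ := IsLocalization.exists_mk'_eq (nonZeroDivisors B) a
    refine ⟨q, nonZeroDivisors.ne_zero q.2, C p, ?_⟩
    rw [map_C, ← C_mul]
    congr 1
    rw [mul_comm]
    exact (IsLocalization.mk'_spec _ p q).symm
  | add p q hp hq =>
    obtain ⟨b1, hb1, G1, h1⟩ := hp
    obtain ⟨b2, hb2, G2, h2⟩ := hq
    refine ⟨b1 * b2, mul_ne_zero hb1 hb2, C b2 * G1 + C b1 * G2, ?_⟩
    rw [map_add, map_mul, map_mul, h1, h2, map_C, map_C, map_mul, C_mul]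
    ring
  | mul_X p i hp =>
    obtain ⟨b1, hb1, G1, h1⟩ := hp
    refine ⟨b1, hb1, G1 * X i, ?_⟩
    rw [map_mul, h1, map_X, mul_assoc]

/-- Simultaneous clearing of denominators for a finite family. -/
theorem clear_fin {ι : Type} (s : Finset ι) (G : ι → MvPolynomial (Fin n) (FractionRing B)) :
    ∃ b : B, b ≠ 0 ∧ ∃ G' : ι → MvPolynomial (Fin n) B,
      ∀ i ∈ s, map (algebraMap B (FractionRing B)) (G' i) =
        C (algebraMap B (FractionRing B) b) * G i := by
  classical
  choose b hb G' hG' using fun i => clear_one (G i)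
  refine ⟨∏ i ∈ s, b i, Finset.prod_ne_zero_iff.mpr fun i _ => hb i,
    fun i => C (∏ j ∈ s.erase i, b j) * G' i, fun i hi => ?_⟩
  rw [map_mul, hG', map_C, ← Finset.mul_prod_erase s b hi, map_mul, C_mul]
  ring

omit [IsDomain B] in
theorem mapF_injective : Function.Injective
    (map (algebraMap B (FractionRing B)) : MvPolynomial (Fin n) B →+* _) :=
  map_injective _ (IsFractionRing.injective B (FractionRing B))

theorem mapF_ne_zero {h : MvPolynomial (Fin n) B} (h0 : h ≠ 0) :
    map (algebraMap B (FractionRing B)) h ≠ 0 := by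
  intro h1
  exact h0 (mapF_injective (by rw [h1, map_zero]))

omit [IsDomain B] in
/-- The sum of derivatives of fractions. -/
theorem sum_DD_frac {𝕜 : Type*} [Field 𝕜] (h : MvPolynomial (Fin n) 𝕜) (τ : 𝕜) (K : ℕ)
    (g : Fin n → MvPolynomial (Fin n) 𝕜) :
    ∑ l, DD h τ l (fracMap h K (g l)) = fracMap h (K + 1) (dvg h τ K g) := by
  rw [dvg, map_sum]
  refine Finset.sum_congr rfl fun l _ => ?_
  rw [fracMap_apply, DD_frac, fracMap_apply]
  congr 2
  rw [smul_eq_C_mul, C_sub, map_natCast]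

theorem fracMap_injective {𝕜 : Type*} [Field 𝕜] {h : MvPolynomial (Fin n) 𝕜} (h0 : h ≠ 0) (K : ℕ) :
    Function.Injective (fracMap h K) := by
  intro a b hab
  simp only [fracMap_apply] at hab
  have e : invH h ^ K * iota h h ^ K = 1 := by
    rw [← mul_pow, mul_comm, iota_mul_invH, one_pow]
  have h1 := congrArg (fun v => v * iota h h ^ K) hab
  simp only [mul_assoc, e, mul_one] at h1
  exact iota_injective h h0 h1

/-- **Finite generation with explicit certificates.** -/
theorem exact_gen [CharZero B] (h : MvPolynomial (Fin n) B) (h0 : h ≠ 0) (τ : B) :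
    ∃ (m K0 : ℕ) (a : Fin m → Fin n →₀ ℕ), ∀ (G : MvPolynomial (Fin n) B) (κ : ℕ),
      ∃ (c : B), c ≠ 0 ∧ ∃ (p : Fin m → B) (K : ℕ), κ ≤ K + 1 ∧ K0 ≤ K + 1 ∧
        ∃ g : Fin n → MvPolynomial (Fin n) B,
          C c * G * h ^ (K + 1 - κ) =
            ∑ j, C (p j) * monomial (a j) 1 * h ^ (K + 1 - K0) + dvg h τ K g := by
  have : CharZero (FractionRing B) :=
    charZero_of_injective_algebraMap (IsFractionRing.injective B (FractionRing B))
  set ι : B →+* FractionRing B := algebraMap B (FractionRing B) with hι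
  have hinj : Function.Injective ι := IsFractionRing.injective B (FractionRing B)
  set h' : MvPolynomial (Fin n) (FractionRing B) := map ι h with hh'
  have h'0 : h' ≠ 0 := mapF_ne_zero h0
  obtain ⟨m, K0, a, hgen⟩ := exists_generators h' (ι τ)
  refine ⟨m, K0, a, fun G κ => ?_⟩
  obtain ⟨c', v, hv⟩ := hgen (fracMap h' κ (map ι G))
  -- common denominators of the `v l`
  choose G0 Kl hG0 using fun l => exists_frac h' (v l)
  set K : ℕ := κ + K0 + ∑ l, Kl l with hK
  have hKl : ∀ l, Kl l ≤ K := fun l => by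
    have := Finset.single_le_sum (f := Kl) (fun _ _ => Nat.zero_le _) (Finset.mem_univ l)
    omega
  obtain ⟨b1, hb1, g', hg'⟩ := clear_fin (Finset.univ : Finset (Fin n))
    (fun l => G0 l * h' ^ (K - Kl l))
  -- denominators of the coefficients
  obtain ⟨b2, hb2⟩ := IsLocalization.exist_integer_multiples_of_finite (nonZeroDivisors B) c'
  choose p' hp' using hb2
  have hp'' : ∀ j, ι (p' j) = ι b2 * c' j := by
    intro j
    rw [hp' j, Algebra.smul_def]
  have hb20 : (b2 : B) ≠ 0 := nonZeroDivisors.ne_zero b2.2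
  refine ⟨b1 * b2, mul_ne_zero hb1 hb20, fun j => b1 * p' j, K, by omega, by omega,
    fun l => C (b2 : B) * g' l, ?_⟩
  apply mapF_injective
  rw [map_add, map_dvg, map_sum]
  apply fracMap_injective h'0 (K + 1)
  rw [map_add, ← sum_DD_frac]
  have e1 : fracMap h' (K + 1) (map ι (C (b1 * (b2 : B)) * G * h ^ (K + 1 - κ))) =
      ι (b1 * b2) • fracMap h' κ (map ι G) := by
    have h1 := fracMap_shift h' κ (K + 1 - κ) (map ι G)
    have h2 : κ + (K + 1 - κ) = K + 1 := by omega
    rw [h2] at h1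
    rw [h1, ← map_smul, smul_eq_C_mul]
    congr 1
    rw [map_mul, map_mul, map_C, map_pow, mul_assoc]
  have e2 : ∀ l, fracMap h' K (map ι (C (b2 : B) * g' l)) = ι (b1 * b2) • v l := by
    intro l
    have h1 := fracMap_shift h' (Kl l) (K - Kl l) (G0 l)
    have h2 : Kl l + (K - Kl l) = K := by have := hKl l; omega
    rw [h2, fracMap_apply, ← hG0 l] at h1
    rw [h1, ← map_smul, smul_eq_C_mul]
    congr 1
    rw [map_mul, map_C, hg' l (Finset.mem_univ l), map_mul, C_mul]
    ring
  have e3 : ∀ j, fracMap h' (K + 1) (map ι (C (b1 * p' j) * monomial (a j) 1 * h ^ (K + 1 - K0))) =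
      ι (b1 * b2) • c' j • fracMap h' K0 (monomial (a j) 1) := by
    intro j
    have h1 := fracMap_shift h' K0 (K + 1 - K0) (monomial (a j) 1)
    have h2 : K0 + (K + 1 - K0) = K + 1 := by omega
    rw [h2] at h1
    rw [h1, smul_smul, ← map_smul, smul_eq_C_mul]
    congr 1
    rw [map_mul, map_mul, map_C, map_monomial, map_one, map_pow, map_mul, hp'', map_mul]
    rw [← mul_assoc]
    congr 2
    rw [map_mul ι b1, C_mul, C_mul, C_mul]
    ring
  rw [e1, hv, smul_add, Finset.smul_sum, Finset.smul_sum, map_sum]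
  congr 1
  · exact Finset.sum_congr rfl fun j _ => (e3 j).symm
  · refine Finset.sum_congr rfl fun l _ => ?_
    rw [e2, map_smul]

end domain

end Pool.Agent.Lib.MP_bbe012_lc.PM
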