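import Pool.Agent.Lib.MP_bbe012_lc.PM.Defs
import Pool.Agent.Lib.MP_bbe012_lc.PM.Gen

/-!
# Spanning fractions modulo divergences

`exists_span` is the theorem `exact_gen` for the base ring of polynomials in `θ` and `t`, written in the ring of polynomials in `θ, t` and `x`.
-/

namespace Pool.Agent.Lib.MP_bbe012_lc.PM

open MvPolynomial MeasureTheory Set PP PG

/-- Polynomials in `θ` and `x` as polynomials in `x` over the polynomials in `θ`. -/
noncomputable def split (s n : ℕ) : Pz s n →ₐ[ℚ] MvPolynomial (Fin n) (MvPolynomial (Fin s) ℚ) :=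
  aeval (Sum.elim (fun j => C (X j)) X)

/-- The inverse map. -/
noncomputable def unsplit (s n : ℕ) : MvPolynomial (Fin n) (MvPolynomial (Fin s) ℚ) →+* Pz s n :=
  eval₂Hom (rename Sum.inl : MvPolynomial (Fin s) ℚ →ₐ[ℚ] Pz s n).toRingHom fun i => X (Sum.inr i)

theorem unsplit_C (s n : ℕ) (c : MvPolynomial (Fin s) ℚ) : unsplit s n (C c) = par n c := by
  rw [unsplit, coe_eval₂Hom, eval₂_C]
  rfl

theorem unsplit_X (s n : ℕ) (i : Fin n) : unsplit s n (X i) = X (Sum.inr i) := by
  rw [unsplit, coe_eval₂Hom, eval₂_X]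

theorem unsplit_split {s n : ℕ} (w : Pz s n) : unsplit s n (split s n w) = w := by
  induction w using MvPolynomial.induction_on with
  | C a =>
    rw [split, aeval_C, IsScalarTower.algebraMap_apply ℚ (MvPolynomial (Fin s) ℚ)
      (MvPolynomial (Fin n) (MvPolynomial (Fin s) ℚ)), algebraMap_eq, algebraMap_eq, unsplit_C, par,
      rename_C]
  | add p q hp hq => rw [map_add, map_add, hp, hq]
  | mul_X p i hp =>
    rw [map_mul, map_mul, hp]
    congr 1
    rw [split, aeval_X]
    cases i with
    | inl j => rw [Sum.elim_inl, unsplit_C, par, rename_X]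
    | inr j => rw [Sum.elim_inr, unsplit_X]

theorem split_injective (s n : ℕ) : Function.Injective (split s n) :=
  Function.LeftInverse.injective unsplit_split

theorem pderiv_par {s n : ℕ} (l : Fin n) (c : MvPolynomial (Fin s) ℚ) : pderiv (Sum.inr l) (par n c) = 0 := by
  induction c using MvPolynomial.induction_on with
  | C a => rw [par, rename_C, pderiv_C]
  | add p q hp hq =>
    rw [par] at hp hq ⊢
    rw [map_add, map_add, hp, hq, add_zero]
  | mul_X p i hp =>
    rw [par] at hp ⊢
    rw [map_mul, pderiv_mul, hp, rename_X, pderiv_X_of_ne (by simp)]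
    ring

theorem unsplit_pderiv {s n : ℕ} (l : Fin n) (g : MvPolynomial (Fin n) (MvPolynomial (Fin s) ℚ)) :
    unsplit s n (pderiv l g) = pderiv (Sum.inr l) (unsplit s n g) := by
  induction g using MvPolynomial.induction_on with
  | C a => rw [pderiv_C, map_zero, unsplit_C, pderiv_par]
  | add p q hp hq => rw [map_add, map_add, hp, hq, map_add, map_add]
  | mul_X p i hp =>
    rw [pderiv_mul, map_add, map_mul, map_mul, hp, map_mul, pderiv_mul, unsplit_X]
    congr 2
    by_cases h : i = l
    · subst h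
      rw [pderiv_X_self, pderiv_X_self, map_one]
    · rw [pderiv_X_of_ne (Ne.symm h |> fun h' => by simpa using h), map_zero, pderiv_X_of_ne (by simpa using h)]

theorem up_injective (s n : ℕ) : Function.Injective (up : Pz s n → Pz (s + 1) n) := by
  intro a b hab
  have hf : Function.Injective (Sum.map (Fin.castSucc : Fin s → Fin (s + 1)) (id : Fin n → Fin n)) :=
    Sum.map_injective.mpr ⟨Fin.castSucc_injective s, Function.injective_id⟩
  exact rename_injective _ hf hab

theorem unsplit_dvg {s n : ℕ} (h : Pz s n) (K : ℕ)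
    (g : Fin n → MvPolynomial (Fin n) (MvPolynomial (Fin (s + 1)) ℚ)) :
    unsplit (s + 1) n (dvg (split (s + 1) n (up h)) (X (Fin.last s)) K g) =
      dv h K fun l => unsplit (s + 1) n (g l) := by
  rw [dvg, dv, map_sum]
  refine Finset.sum_congr rfl fun l _ => ?_
  rw [map_add, map_mul, map_mul, map_mul, map_sub, map_natCast, unsplit_pderiv, unsplit_pderiv,
    unsplit_split, unsplit_C, par, rename_X, tz]

/-- Finitely many fractions `e_b / h ^ k₀` span all fractions modulo divergences, up to a factor `δ(θ, t)`. -/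
theorem exists_span {s n : ℕ} {h : Pz s n} (h0 : h ≠ 0) :
    ∃ (m k₀ : ℕ) (e : Fin m → Pz (s + 1) n), ∀ (w : Pz (s + 1) n) (k : ℕ),
      ∃ (δ : MvPolynomial (Fin (s + 1)) ℚ) (c : Fin m → MvPolynomial (Fin (s + 1)) ℚ) (K : ℕ) (g : Fin n → Pz (s + 1) n),
        δ ≠ 0 ∧ k ≤ K + 1 ∧ k₀ ≤ K + 1 ∧
          par n δ * w * up h ^ (K + 1 - k) = (∑ b, par n (c b) * e b) * up h ^ (K + 1 - k₀) + dv h K g := by
  have h1 : split (s + 1) n (up h) ≠ 0 := by
    intro h2
    apply h0
    apply up_injective s n
    apply split_injective (s + 1) n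
    rw [h2]
    have : up (0 : Pz s n) = 0 := map_zero _
    rw [this, map_zero]
  obtain ⟨m, K0, a, hgen⟩ := exact_gen (split (s + 1) n (up h)) h1 (X (Fin.last s))
  refine ⟨m, K0, fun j => unsplit (s + 1) n (monomial (a j) 1), fun w k => ?_⟩
  obtain ⟨δ, hδ, c, K, hk, hk0, g, hg⟩ := hgen (split (s + 1) n w) k
  refine ⟨δ, c, K, fun l => unsplit (s + 1) n (g l), hδ, hk, hk0, ?_⟩
  have h3 := congrArg (unsplit (s + 1) n) hg
  rw [map_mul, map_mul, map_pow, map_add, unsplit_dvg, map_sum, unsplit_split, unsplit_split, unsplit_C] at h3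
  rw [h3, Finset.sum_mul]
  congr 1
  refine Finset.sum_congr rfl fun j _ => ?_
  rw [map_mul, map_mul, map_pow, unsplit_split, unsplit_C]

end Pool.Agent.Lib.MP_bbe012_lc.PM
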