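import Pool.Agent.Lib.MP_bbe012_lc.PM.Vx
import Pool.Agent.Lib.MP_bbe012_lc.PM.Span
import Pool.Agent.Lib.MP_bbe012_lc.PG.BFam
import Pool.Agent.Lib.MP_bbe012_lc.Bd

/-!
# Unbounded domains and denominators of both signs

The substitution `x = y / (1 - y ^ 2)` (Bd.lean) transforms the set `{x | l(θ, x) > 0 for l ∈ L}` into a subset of the cube, and the two signs of
`Q` give two regions of the kind considered in `exists_V`.
-/

namespace Pool.Agent.Lib.MP_bbe012_lc.PM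

open MvPolynomial MeasureTheory Set PP PG Filter Topology

/-- The polynomial `∏ (1 - y_i ^ 2) ^ N * G(θ, y / (1 - y ^ 2))`. -/
noncomputable def shz {s n : ℕ} (N : ℕ) (G : Pz s n) : Pz s n :=
  ∑ m ∈ G.support, C (coeff m G) * ((∏ j : Fin s, X (Sum.inl j) ^ m (Sum.inl j)) *
    ∏ i : Fin n, (X (Sum.inr i) ^ m (Sum.inr i) * (1 - X (Sum.inr i) ^ 2) ^ (N - m (Sum.inr i))))

private theorem vl_as_sum {s n : ℕ} (G : Pz s n) (θ : Fin s → ℝ) (x : Fin n → ℝ) :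
    vl G θ x = ∑ m ∈ G.support, ((coeff m G : ℚ) : ℝ) * ((∏ j : Fin s, θ j ^ m (Sum.inl j)) *
      ∏ i : Fin n, x i ^ m (Sum.inr i)) := by
  rw [vl, aeval_def, eval₂_eq']
  refine Finset.sum_congr rfl fun m _ => ?_
  rw [Fintype.prod_sum_type]
  rfl

theorem vl_shz {s n N : ℕ} {G : Pz s n} (hN : G.totalDegree ≤ N) (θ : Fin s → ℝ) {y : Fin n → ℝ} (hy : y ∈ cube n) :
    vl (shz N G) θ y = ww y ^ N * vl G θ (phi y) := by
  rw [vl_as_sum G θ (phi y), Finset.mul_sum, vl, shz, map_sum]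
  refine Finset.sum_congr rfl fun m hm => ?_
  have h1 : ∀ i : Fin n, y i ^ m (Sum.inr i) * (1 - y i ^ 2) ^ (N - m (Sum.inr i)) =
      (1 - y i ^ 2) ^ N * phi y i ^ m (Sum.inr i) := by
    intro i
    have h2 := one_sub_sq_pos (hy i)
    have h4 : m (Sum.inr i) ≤ N := by
      refine le_trans ?_ ((le_totalDegree hm).trans hN)
      rw [Finsupp.sum]
      by_cases h5 : m (Sum.inr i) = 0
      · rw [h5]; exact Nat.zero_le _
      · exact Finset.single_le_sum (f := fun a => m a) (fun _ _ => Nat.zero_le _) (Finsupp.mem_support_iff.mpr h5)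
    have h3 : (1 - y i ^ 2) ^ N = (1 - y i ^ 2) ^ (N - m (Sum.inr i)) * (1 - y i ^ 2) ^ m (Sum.inr i) := by
      rw [← pow_add, Nat.sub_add_cancel h4]
    rw [h3, phi, div_pow]
    field_simp
  simp only [map_mul, map_prod, map_pow, map_sub, map_one, aeval_X, aeval_C, Sum.elim_inl, Sum.elim_inr]
  rw [Finset.prod_congr rfl fun i _ => h1 i, Finset.prod_mul_distrib, Finset.prod_pow, ← ww]
  rw [eq_ratCast]
  ring

private theorem vl_mul {s n : ℕ} (G H : Pz s n) (θ : Fin s → ℝ) (x : Fin n → ℝ) : vl (G * H) θ x = vl G θ x * vl H θ x :=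
  map_mul _ _ _

private theorem vl_pow {s n : ℕ} (G : Pz s n) (k : ℕ) (θ : Fin s → ℝ) (x : Fin n → ℝ) : vl (G ^ k) θ x = vl G θ x ^ k :=
  map_pow _ _ _

private theorem vl_neg {s n : ℕ} (G : Pz s n) (θ : Fin s → ℝ) (x : Fin n → ℝ) : vl (-G) θ x = - vl G θ x :=
  map_neg _ _

private theorem vl_prod {s n : ℕ} {ι : Type} (t : Finset ι) (G : ι → Pz s n) (θ : Fin s → ℝ) (x : Fin n → ℝ) :
    vl (∏ i ∈ t, G i) θ x = ∏ i ∈ t, vl (G i) θ x :=
  map_prod _ _ _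

private theorem continuous_vl {s n : ℕ} (G : Pz s n) (θ : Fin s → ℝ) : Continuous fun x => vl G θ x :=
  (vl_cont G).comp (continuous_const.prodMk continuous_id)

/-- The value in terms of the coefficients. -/
private theorem vl_eq_split {s n : ℕ} (G : Pz s n) (θ : Fin s → ℝ) (x : Fin n → ℝ) :
    vl G θ x = eval x (map (aeval θ : MvPolynomial (Fin s) ℚ →ₐ[ℚ] ℝ).toRingHom (split s n G)) := by
  induction G using MvPolynomial.induction_on with
  | C a =>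
    rw [vl, aeval_C, split, aeval_C, IsScalarTower.algebraMap_apply ℚ (MvPolynomial (Fin s) ℚ)
      (MvPolynomial (Fin n) (MvPolynomial (Fin s) ℚ)), algebraMap_eq, algebraMap_eq, map_C, eval_C]
    simp
  | add p q hp hq =>
    rw [map_add, map_add, map_add, ← hp, ← hq]
    exact map_add _ _ _
  | mul_X p i hp =>
    rw [map_mul, map_mul, map_mul, ← hp, vl_mul]
    congr 1
    cases i with
    | inl j => simp [vl, split]
    | inr j => simp [vl, split]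

/-- A coefficient whose nonvanishing at `θ` implies that `G(θ, x)` is not the zero polynomial. -/
private theorem exists_coeff {s n : ℕ} {G : Pz s n} (hG : G ≠ 0) :
    ∃ c : MvPolynomial (Fin s) ℚ, c ≠ 0 ∧ ∀ θ : Fin s → ℝ, aeval θ c ≠ 0 → ∃ x, vl G θ x ≠ 0 := by
  have h1 : split s n G ≠ 0 := by
    intro h2
    apply hG
    apply split_injective s n
    rw [h2, map_zero]
  obtain ⟨m, hm⟩ := ne_zero_iff.mp h1
  refine ⟨coeff m (split s n G), hm, fun θ hθ => ?_⟩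
  by_contra hcon
  push Not at hcon
  apply hθ
  have h3 : map (aeval θ : MvPolynomial (Fin s) ℚ →ₐ[ℚ] ℝ).toRingHom (split s n G) = 0 := by
    apply MvPolynomial.funext
    intro x
    rw [← vl_eq_split, hcon, map_zero]
  have h4 := congrArg (coeff m) h3
  rw [coeff_map, coeff_zero] at h4
  exact h4

/-- Finitely many coefficients. -/
private theorem exists_coeff_list {s n : ℕ} (L : List (Pz s n)) (hL : ∀ l ∈ L, l ≠ 0) :
    ∃ c : MvPolynomial (Fin s) ℚ, c ≠ 0 ∧ ∀ θ : Fin s → ℝ, aeval θ c ≠ 0 → ∀ l ∈ L, ∃ x, vl l θ x ≠ 0 := by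
  induction L with
  | nil => exact ⟨1, one_ne_zero, fun _ _ l hl => absurd hl (List.not_mem_nil)⟩
  | cons a L ih =>
    obtain ⟨c, hc, hc2⟩ := ih fun l hl => hL l (List.mem_cons_of_mem _ hl)
    obtain ⟨d, hd, hd2⟩ := exists_coeff (hL a List.mem_cons_self)
    refine ⟨d * c, mul_ne_zero hd hc, fun θ hθ l hl => ?_⟩
    rw [map_mul] at hθ
    rcases List.mem_cons.mp hl with rfl | hl
    · exact hd2 θ (left_ne_zero_of_mul hθ)
    · exact hc2 θ (right_ne_zero_of_mul hθ) l hl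

private theorem exists_vl_ne {s n : ℕ} {G : Pz s n} (hG : G ≠ 0) : ∃ θ x, vl G θ x ≠ 0 := by
  by_contra hcon
  push Not at hcon
  apply hG
  apply map_injective (algebraMap ℚ ℝ) (algebraMap ℚ ℝ).injective
  rw [map_zero]
  apply MvPolynomial.funext
  intro v
  rw [eval_map, map_zero]
  have h1 := hcon (fun j => v (Sum.inl j)) (fun i => v (Sum.inr i))
  rw [vl, aeval_def] at h1
  have h2 : (Sum.elim (fun j => v (Sum.inl j)) fun i => v (Sum.inr i)) = v := by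
    ext i
    cases i <;> rfl
  rw [h2] at h1
  exact h1

theorem shz_ne_zero {s n N : ℕ} {G : Pz s n} (hN : G.totalDegree ≤ N) (hG : G ≠ 0) : shz N G ≠ 0 := by
  obtain ⟨θ, x, hx⟩ := exists_vl_ne hG
  obtain ⟨y, hy, rfl⟩ := phi_surj x
  intro h0
  have h1 := vl_shz hN θ hy
  rw [h0] at h1
  have h2 : vl (0 : Pz s n) θ y = 0 := map_zero _
  rw [h2] at h1
  exact mul_ne_zero (pow_pos (ww_pos hy) _).ne' hx h1.symm

/-- The transformed polynomial. -/
noncomputable def sh {s n : ℕ} (G : Pz s n) : Pz s n := shz G.totalDegree G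

theorem vl_sh {s n : ℕ} (G : Pz s n) (θ : Fin s → ℝ) {y : Fin n → ℝ} (hy : y ∈ cube n) :
    vl (sh G) θ y = ww y ^ G.totalDegree * vl G θ (phi y) :=
  vl_shz le_rfl θ hy

theorem vl_sh_pos {s n : ℕ} (G : Pz s n) (θ : Fin s → ℝ) {y : Fin n → ℝ} (hy : y ∈ cube n) :
    0 < vl (sh G) θ y ↔ 0 < vl G θ (phi y) := by
  rw [vl_sh G θ hy]
  exact mul_pos_iff_of_pos_left (pow_pos (ww_pos hy) _)

theorem sh_ne_zero {s n : ℕ} {G : Pz s n} (hG : G ≠ 0) : sh G ≠ 0 := shz_ne_zero le_rfl hG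

private theorem mem_cube_iff {n : ℕ} (x : Fin n → ℝ) : x ∈ cube n ↔ ∀ i, x i ^ 2 < 1 := by
  constructor
  · intro hx i
    have := one_sub_sq_pos (hx i)
    linarith
  · intro hx i
    exact mem_Ioo_of_pos (by linarith [hx i])

/-- The polynomials which define the region: the transformed `l` and `Q`. -/
noncomputable def pp {s n : ℕ} (L : List (Pz s n)) (Q : Pz s n) : Fin (L.length + 1) → Pz s n :=
  Fin.snoc (fun i => sh (L.get i)) (sh Q)

theorem rg_pp {s n : ℕ} (L : List (Pz s n)) (Q : Pz s n) (θ : Fin s → ℝ) (y : Fin n → ℝ) :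
    y ∈ rg (pp L Q) θ ↔ y ∈ cube n ∧ (∀ l ∈ L, 0 < vl l θ (phi y)) ∧ 0 < vl Q θ (phi y) := by
  rw [rg, mem_ofPred_eq, ← mem_cube_iff]
  refine and_congr_right fun hy => ?_
  rw [Fin.forall_fin_succ']
  refine and_congr ?_ ?_
  · simp only [pp, Fin.snoc_castSucc, vl_sh_pos _ θ hy]
    constructor
    · intro h l hl
      obtain ⟨i, hi⟩ := List.mem_iff_get.mp hl
      rw [← hi]
      exact h i
    · intro h i
      exact h _ (List.get_mem _ _)
  · simp only [pp, Fin.snoc_last, vl_sh_pos _ θ hy]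

theorem image_rg {s n : ℕ} (L : List (Pz s n)) (Q : Pz s n) (θ : Fin s → ℝ) :
    phi '' rg (pp L Q) θ = {x | (∀ l ∈ L, 0 < vl l θ x) ∧ 0 < vl Q θ x} := by
  ext x
  constructor
  · rintro ⟨y, hy, rfl⟩
    exact ((rg_pp L Q θ y).mp hy).2
  · intro hx
    obtain ⟨y, hy, rfl⟩ := phi_surj x
    exact ⟨y, (rg_pp L Q θ y).mpr ⟨hy, hx⟩, rfl⟩

theorem hh_pp_ne {s n : ℕ} {L : List (Pz s n)} {Q : Pz s n} (hL : ∀ l ∈ L, l ≠ 0) (hQ : Q ≠ 0) :
    hh (pp L Q) ≠ 0 := by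
  rw [hh]
  refine mul_ne_zero (Finset.prod_ne_zero_iff.mpr fun i _ => ?_) (Finset.prod_ne_zero_iff.mpr fun i _ => ?_)
  · refine Fin.lastCases ?_ (fun j => ?_) i
    · rw [pp, Fin.snoc_last]
      exact sh_ne_zero hQ
    · rw [pp, Fin.snoc_castSucc]
      exact sh_ne_zero (hL _ (List.get_mem _ _))
  · intro h0
    have h1 : vl (1 - X (Sum.inr i) ^ 2 : Pz s n) 0 0 = 1 := by
      simp [vl]
    rw [h0] at h1
    have h2 : vl (0 : Pz s n) 0 0 = 0 := map_zero _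
    rw [h2] at h1
    exact zero_ne_one h1

private theorem isOpen_rg {s n r : ℕ} (p : Fin r → Pz s n) (θ : Fin s → ℝ) : IsOpen (rg p θ) := by
  have h1 : rg p θ = cube n ∩ ⋂ j, {x | 0 < vl (p j) θ x} := by
    ext x
    rw [rg, mem_ofPred_eq, mem_inter_iff, mem_cube_iff, mem_iInter]
    rfl
  rw [h1]
  exact isOpen_cube.inter (isOpen_iInter_of_finite fun j => isOpen_lt continuous_const (continuous_vl _ θ))

/-- The product of the transformed `l`. -/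
noncomputable def pL {s n : ℕ} (L : List (Pz s n)) : Pz s n := ∏ i : Fin L.length, sh (L.get i)

/-- The numerators. -/
noncomputable def numW {s n : ℕ} (L : List (Pz s n)) (Q : Pz s n) (D : ℕ) (a : Fin n → Fin (D + 1)) : Pz s n :=
  ((∏ i : Fin n, (1 + X (Sum.inr i) ^ 2)) * ∏ i : Fin n, (X (Sum.inr i) ^ (a i : ℕ) * (1 - X (Sum.inr i) ^ 2) ^ (D - (a i : ℕ)))) *
    (((∏ i : Fin n, (1 - X (Sum.inr i) ^ 2)) ^ Q.totalDegree * pL L ^ (D + 2)) * sh Q ^ (D + 1))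

theorem vl_hh_pp {s n : ℕ} (L : List (Pz s n)) (Q : Pz s n) (θ : Fin s → ℝ) (y : Fin n → ℝ) :
    vl (hh (pp L Q)) θ y = vl (pL L) θ y * vl (sh Q) θ y * ww y := by
  rw [hh, vl_mul, vl_prod, vl_prod, Fin.prod_univ_castSucc, pL, vl_prod, ww]
  simp only [pp, Fin.snoc_castSucc, Fin.snoc_last]
  congr 1
  refine Finset.prod_congr rfl fun i _ => ?_
  simp [vl]

theorem vl_numW {s n : ℕ} (L : List (Pz s n)) (Q : Pz s n) (D : ℕ) (a : Fin n → Fin (D + 1)) (θ : Fin s → ℝ)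
    {y : Fin n → ℝ} (hy : y ∈ cube n) :
    vl (numW L Q D a) θ y = (∏ i, (1 + y i ^ 2)) * (ww y ^ D * ∏ i, phi y i ^ (a i : ℕ)) *
      ((ww y ^ Q.totalDegree * vl (pL L) θ y ^ (D + 2)) * vl (sh Q) θ y ^ (D + 1)) := by
  have h1 : ∀ i : Fin n, y i ^ (a i : ℕ) * (1 - y i ^ 2) ^ (D - (a i : ℕ)) =
      (1 - y i ^ 2) ^ D * phi y i ^ (a i : ℕ) := by
    intro i
    have h2 := one_sub_sq_pos (hy i)
    have h4 : (a i : ℕ) ≤ D := Nat.lt_succ_iff.mp (a i).2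
    have h3 : (1 - y i ^ 2) ^ D = (1 - y i ^ 2) ^ (D - (a i : ℕ)) * (1 - y i ^ 2) ^ (a i : ℕ) := by
      rw [← pow_add, Nat.sub_add_cancel h4]
    rw [h3, phi, div_pow]
    field_simp
  have h5 : vl (∏ i : Fin n, (1 + X (Sum.inr i) ^ 2) : Pz s n) θ y = ∏ i, (1 + y i ^ 2) := by
    rw [vl_prod]
    refine Finset.prod_congr rfl fun i _ => ?_
    simp [vl]
  have h6 : vl (∏ i : Fin n, (X (Sum.inr i) ^ (a i : ℕ) * (1 - X (Sum.inr i) ^ 2) ^ (D - (a i : ℕ))) : Pz s n) θ y =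
      ww y ^ D * ∏ i, phi y i ^ (a i : ℕ) := by
    rw [vl_prod, ww, ← Finset.prod_pow, ← Finset.prod_mul_distrib]
    refine Finset.prod_congr rfl fun i _ => ?_
    rw [← h1]
    simp [vl]
  have h7 : vl (∏ i : Fin n, (1 - X (Sum.inr i) ^ 2) : Pz s n) θ y = ww y := by
    rw [vl_prod, ww]
    refine Finset.prod_congr rfl fun i _ => ?_
    simp [vl]
  rw [numW, vl_mul, vl_mul, vl_mul, vl_mul, vl_pow, vl_pow, vl_pow, h5, h6, h7]

/-- The integrand after the substitution. -/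
theorem integrand_eq {s n : ℕ} (L : List (Pz s n)) (Q : Pz s n) (D : ℕ) (θ : Fin s → ℝ) {y : Fin n → ℝ}
    (hy : y ∈ rg (pp L Q) θ) (P : (Fin n → Fin (D + 1)) → ℝ) :
    (∑ a, P a * vl (numW L Q D a) θ y) / vl (hh (pp L Q)) θ y ^ (D + 2) =
      jac y * ((∑ a, P a * ∏ i, phi y i ^ (a i : ℕ)) / vl Q θ (phi y)) := by
  obtain ⟨hyc, hyL, hyQ⟩ := (rg_pp L Q θ y).mp hy
  have hw := (ww_pos hyc).ne'
  have hpL : vl (pL L) θ y ≠ 0 := by
    rw [pL, vl_prod]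
    refine Finset.prod_ne_zero_iff.mpr fun i _ => ?_
    exact ((vl_sh_pos _ θ hyc).mpr (hyL _ (List.get_mem _ _))).ne'
  have hQ1 : vl (sh Q) θ y ≠ 0 := ((vl_sh_pos _ θ hyc).mpr hyQ).ne'
  have h1 : ∀ a, P a * vl (numW L Q D a) θ y = (P a * ∏ i, phi y i ^ (a i : ℕ)) *
      ((∏ i, (1 + y i ^ 2)) * ww y ^ D * ((ww y ^ Q.totalDegree * vl (pL L) θ y ^ (D + 2)) * vl (sh Q) θ y ^ (D + 1))) := by
    intro a
    rw [vl_numW L Q D a θ hyc]
    ring
  rw [Finset.sum_congr rfl fun a _ => h1 a, ← Finset.sum_mul, vl_hh_pp]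
  have hj : jac y = (∏ i, (1 + y i ^ 2)) / ww y ^ 2 := by
    rw [jac, Finset.prod_div_distrib, Finset.prod_pow, ww]
  rw [hj]
  have hQ2 : vl Q θ (phi y) = vl (sh Q) θ y / ww y ^ Q.totalDegree := by
    rw [vl_sh Q θ hyc]
    field_simp
  rw [hQ2]
  field_simp
  ring

/-- The case `Q > 0`. -/
theorem exists_W1 {s n : ℕ} (L : List (Pz s n)) (Q : Pz s n) (hL : ∀ l ∈ L, l ≠ 0) (hQ : Q ≠ 0) (D : ℕ) :
    ∃ (z : MvPolynomial (Fin s) ℚ) (V : (Fin n → Fin (D + 1)) → (Fin s → ℝ) → ℝ), z ≠ 0 ∧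
      (∀ a, AnalyticOnNhd ℝ (V a) {θ | aeval θ z ≠ 0}) ∧
      ∀ θ : Fin s → ℝ, aeval θ z ≠ 0 → ∀ P : (Fin n → Fin (D + 1)) → ℝ,
        IntegrableOn (fun x => (∑ a, P a * ∏ i, x i ^ (a i : ℕ)) / vl Q θ x) {x | (∀ l ∈ L, 0 < vl l θ x) ∧ 0 < vl Q θ x} →
          ∫ x in {x | (∀ l ∈ L, 0 < vl l θ x) ∧ 0 < vl Q θ x}, (∑ a, P a * ∏ i, x i ^ (a i : ℕ)) / vl Q θ x =
            ∑ a, P a * V a θ := by
  obtain ⟨N, ⟨ε⟩⟩ : ∃ N, Nonempty ((Fin n → Fin (D + 1)) ≃ Fin N) := ⟨_, ⟨Fintype.equivFin _⟩⟩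
  obtain ⟨z, V, hz, hV, hI⟩ := exists_V (pp L Q) (hh_pp_ne hL hQ) (fun i => numW L Q D (ε.symm i)) (D + 2)
  refine ⟨z, fun a => V (ε a), hz, fun a => hV _, fun θ hθ P hP => ?_⟩
  have hmeas : MeasurableSet (rg (pp L Q) θ) := (isOpen_rg _ θ).measurableSet
  have hsub : rg (pp L Q) θ ⊆ cube n := fun y hy => ((rg_pp L Q θ y).mp hy).1
  have hsum : ∀ y, ∑ i, P (ε.symm i) * vl (numW L Q D (ε.symm i)) θ y = ∑ a, P a * vl (numW L Q D a) θ y := fun y =>
    Equiv.sum_comp ε.symm fun a => P a * vl (numW L Q D a) θ y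
  have h1 := hI θ hθ fun i => P (ε.symm i)
  simp only [hsum] at h1
  rw [← image_rg] at hP ⊢
  rw [change_integrable hmeas hsub] at hP
  rw [change_integral hmeas hsub]
  have h2 : ∫ y in rg (pp L Q) θ, jac y * ((∑ a, P a * ∏ i, phi y i ^ (a i : ℕ)) / vl Q θ (phi y)) =
      ∫ y in rg (pp L Q) θ, (∑ a, P a * vl (numW L Q D a) θ y) / vl (hh (pp L Q)) θ y ^ (D + 2) :=
    setIntegral_congr_fun hmeas fun y hy => (integrand_eq L Q D θ hy P).symm
  rw [h2, h1 ((integrableOn_congr_fun (fun y hy => integrand_eq L Q D θ hy P) hmeas).mpr hP)]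
  rw [← Equiv.sum_comp ε.symm fun a => P a * V (ε a) θ]
  simp only [Equiv.apply_symm_apply]

/-- Unbounded domains (substitution `x = y / (1 - y ^ 2)`, as in Bd.lean), denominators of both signs. (helper91) -/
theorem exists_W {s : ℕ} (F : Fam s) (D : ℕ) :
    ∃ (z : MvPolynomial (Fin s) ℚ) (V : (Fin F.n → Fin (D + 1)) → (Fin s → ℝ) → ℝ), z ≠ 0 ∧
      (∀ a, AnalyticOnNhd ℝ (V a) {θ | aeval θ z ≠ 0}) ∧
      (∀ θ : Fin s → ℝ, aeval θ z ≠ 0 → (∃ x, vl F.Q θ x ≠ 0) ∧ ∀ l ∈ F.L, ∃ x, vl l θ x ≠ 0) ∧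
      ∀ θ : Fin s → ℝ, aeval θ z ≠ 0 → ∀ P : (Fin F.n → Fin (D + 1)) → ℝ,
        IntegrableOn (fun x => (∑ a, P a * ∏ i, x i ^ (a i : ℕ)) / vl F.Q θ x) {x | ∀ l ∈ F.L, 0 < vl l θ x} →
          ∫ x in {x | ∀ l ∈ F.L, 0 < vl l θ x}, (∑ a, P a * ∏ i, x i ^ (a i : ℕ)) / vl F.Q θ x = ∑ a, P a * V a θ := by
  obtain ⟨z1, V1, hz1, hV1, hI1⟩ := exists_W1 F.L F.Q F.L0 F.Q0 D
  obtain ⟨z2, V2, hz2, hV2, hI2⟩ := exists_W1 F.L (-F.Q) F.L0 (neg_ne_zero.mpr F.Q0) D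
  obtain ⟨c1, hc1, hc1'⟩ := exists_coeff F.Q0
  obtain ⟨c2, hc2, hc2'⟩ := exists_coeff_list F.L F.L0
  refine ⟨z1 * z2 * (c1 * c2), fun a θ => V1 a θ - V2 a θ, mul_ne_zero (mul_ne_zero hz1 hz2) (mul_ne_zero hc1 hc2),
    fun a θ hθ => ?_, fun θ hθ => ?_, fun θ hθ P hP => ?_⟩
  · simp only [mem_ofPred_eq, map_mul] at hθ
    exact (hV1 a θ (left_ne_zero_of_mul (left_ne_zero_of_mul hθ))).sub
      (hV2 a θ (right_ne_zero_of_mul (left_ne_zero_of_mul hθ)))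
  · simp only [map_mul] at hθ
    exact ⟨hc1' θ (left_ne_zero_of_mul (right_ne_zero_of_mul hθ)), hc2' θ (right_ne_zero_of_mul (right_ne_zero_of_mul hθ))⟩
  · simp only [map_mul] at hθ
    set A : Set (Fin F.n → ℝ) := {x | ∀ l ∈ F.L, 0 < vl l θ x} with hA
    set f : (Fin F.n → ℝ) → ℝ := fun x => (∑ a, P a * ∏ i, x i ^ (a i : ℕ)) / vl F.Q θ x with hf
    have hAo : IsOpen A := by
      have : A = ⋂ l ∈ {l | l ∈ F.L}, {x | 0 < vl l θ x} := by
        ext x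
        simp [hA]
      rw [this]
      exact (List.finite_toSet F.L).isOpen_biInter fun l _ => isOpen_lt continuous_const (continuous_vl l θ)
    set A1 : Set (Fin F.n → ℝ) := {x | (∀ l ∈ F.L, 0 < vl l θ x) ∧ 0 < vl F.Q θ x} with hA1
    set A2 : Set (Fin F.n → ℝ) := {x | (∀ l ∈ F.L, 0 < vl l θ x) ∧ 0 < vl (-F.Q) θ x} with hA2
    have hA1o : IsOpen A1 := hAo.inter (isOpen_lt continuous_const (continuous_vl F.Q θ))
    have hA2o : IsOpen A2 := hAo.inter (isOpen_lt continuous_const (continuous_vl (-F.Q) θ))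
    have hd : Disjoint A1 A2 := by
      rw [Set.disjoint_left]
      intro x h1 h2
      have h3 := h1.2
      have h4 := h2.2
      rw [vl_neg] at h4
      linarith
    have hsub : A1 ∪ A2 ⊆ A := by
      rintro x (h | h)
      · exact h.1
      · exact h.1
    have hzero : ∀ x ∈ A \ (A1 ∪ A2), f x = 0 := by
      intro x hx
      have h1 : vl F.Q θ x = 0 := by
        rcases lt_trichotomy (vl F.Q θ x) 0 with h | h | h
        · exact absurd (Or.inr ⟨hx.1, by rw [vl_neg]; linarith⟩) hx.2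
        · exact h
        · exact absurd (Or.inl ⟨hx.1, h⟩) hx.2
      simp only [hf, h1, div_zero]
    have e1 : ∫ x in A, f x = ∫ x in A1 ∪ A2, f x :=
      setIntegral_eq_of_subset_of_forall_sdiff_eq_zero (μ := volume) hAo.measurableSet hsub hzero
    have e2 : ∫ x in A1 ∪ A2, f x = (∫ x in A1, f x) + ∫ x in A2, f x :=
      setIntegral_union hd hA2o.measurableSet (hP.mono_set (subset_union_left.trans hsub))
        (hP.mono_set (subset_union_right.trans hsub))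
    have e3 : ∫ x in A1, f x = ∑ a, P a * V1 a θ :=
      hI1 θ (left_ne_zero_of_mul (left_ne_zero_of_mul hθ)) P (hP.mono_set (subset_union_left.trans hsub))
    have e4 : ∀ x, (∑ a, P a * ∏ i, x i ^ (a i : ℕ)) / vl (-F.Q) θ x = - f x := by
      intro x
      rw [vl_neg, div_neg]
    have e5 : ∫ x in A2, - f x = ∑ a, P a * V2 a θ := by
      have h1 := hI2 θ (right_ne_zero_of_mul (left_ne_zero_of_mul hθ)) P
      simp only [e4] at h1
      exact h1 (hP.mono_set (subset_union_right.trans hsub)).neg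
    rw [integral_neg] at e5
    rw [e1, e2, e3]
    have e6 : ∫ x in A2, f x = - ∑ a, P a * V2 a θ := by linarith
    rw [e6, ← sub_eq_add_neg, ← Finset.sum_sub_distrib]
    exact Finset.sum_congr rfl fun a _ => by ring

end Pool.Agent.Lib.MP_bbe012_lc.PM
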