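import Pool.Agent.Lib.MP_bbe012_lc.PM.Cc3

/-!
# Components of the complement of a hypersurface: finiteness, chains of rational points
-/

set_option autoImplicit false

namespace Pool.Agent.Lib.MP_bbe012_lc.PM

open MvPolynomial MeasureTheory Set PG Filter Topology

/-- The complement of a hypersurface has finitely many connected components, each with a rational point. -/
theorem finite_components {s : ℕ} (z : MvPolynomial (Fin s) ℚ) (hz : z ≠ 0) :
    ∃ E : Finset (Fin s → ℚ), (∀ e ∈ E, aeval (cst e) z ≠ 0) ∧ ∀ θ : Fin s → ℝ, aeval θ z ≠ 0 →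
      ∃ e ∈ E, θ ∈ connectedComponentIn {θ : Fin s → ℝ | aeval θ z ≠ 0} (cst e) :=
  comp_finite_rat z hz

/-- `q` is a chain of rational points from `e` to `θ`, in `[-R, R]^s`, with steps so small that `z` has no zeros on the segments. -/
def IsChain {s : ℕ} (z : MvPolynomial (Fin s) ℚ) (C₀ d₀ R : ℕ) (e θ : Fin s → ℚ) (q : List (Fin s → ℚ)) : Prop :=
  q.head? = some e ∧ q.getLast? = some θ ∧ (∀ x ∈ q, ∀ i, |x i| ≤ R) ∧
    ∀ m, m + 1 < q.length → ∀ i, (C₀ : ℚ) * (R + 1) ^ d₀ * |(q.getD (m + 1) θ) i - (q.getD m θ) i| < |aeval (q.getD m θ) z|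

/-- bounds and Lipschitz constants on boxes -/
theorem lip {s : ℕ} (z : MvPolynomial (Fin s) ℚ) : ∃ C₀ d₀ : ℕ, ∀ (R : ℕ) (x y : Fin s → ℝ) (δ : ℝ),
    (∀ i, |x i| ≤ R) → (∀ i, |y i| ≤ R) → 0 ≤ δ → (∀ i, |x i - y i| ≤ δ) →
      |aeval x z| ≤ C₀ * ((R : ℝ) + 1) ^ d₀ ∧ |aeval x z - aeval y z| ≤ C₀ * ((R : ℝ) + 1) ^ d₀ * δ := by
  induction z using MvPolynomial.induction_on with
  | C a =>
    refine ⟨⌈|(a : ℝ)|⌉₊, 0, fun R x y δ _ _ hδ _ => ?_⟩
    rw [aeval_C, aeval_C, sub_self, abs_zero, pow_zero, mul_one]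
    refine ⟨?_, by positivity⟩
    exact Nat.le_ceil _
  | add p q hp hq =>
    obtain ⟨C₁, d₁, h1⟩ := hp
    obtain ⟨C₂, d₂, h2⟩ := hq
    refine ⟨C₁ + C₂, d₁ + d₂, fun R x y δ hx hy hδ hxy => ?_⟩
    obtain ⟨a1, a2⟩ := h1 R x y δ hx hy hδ hxy
    obtain ⟨b1, b2⟩ := h2 R x y δ hx hy hδ hxy
    have hR : (1 : ℝ) ≤ (R : ℝ) + 1 := by
      have : (0 : ℝ) ≤ R := Nat.cast_nonneg R
      linarith
    have e1 : ((R : ℝ) + 1) ^ d₁ ≤ ((R : ℝ) + 1) ^ (d₁ + d₂) := pow_le_pow_right₀ hR (by omega)
    have e2 : ((R : ℝ) + 1) ^ d₂ ≤ ((R : ℝ) + 1) ^ (d₁ + d₂) := pow_le_pow_right₀ hR (by omega)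
    have f1 : (C₁ : ℝ) * ((R : ℝ) + 1) ^ d₁ ≤ C₁ * ((R : ℝ) + 1) ^ (d₁ + d₂) :=
      mul_le_mul_of_nonneg_left e1 (Nat.cast_nonneg _)
    have f2 : (C₂ : ℝ) * ((R : ℝ) + 1) ^ d₂ ≤ C₂ * ((R : ℝ) + 1) ^ (d₁ + d₂) :=
      mul_le_mul_of_nonneg_left e2 (Nat.cast_nonneg _)
    rw [map_add, map_add, Nat.cast_add]
    constructor
    · have := abs_add_le (aeval x p) (aeval x q)
      nlinarith
    · have h3 : aeval x p + aeval x q - (aeval y p + aeval y q) =
          (aeval x p - aeval y p) + (aeval x q - aeval y q) := by ring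
      have h4 := abs_add_le (aeval x p - aeval y p) (aeval x q - aeval y q)
      have g1 := mul_le_mul_of_nonneg_right f1 hδ
      have g2 := mul_le_mul_of_nonneg_right f2 hδ
      rw [h3]
      linarith
  | mul_X p i hp =>
    obtain ⟨C₁, d₁, h1⟩ := hp
    refine ⟨C₁, d₁ + 1, fun R x y δ hx hy hδ hxy => ?_⟩
    obtain ⟨a1, a2⟩ := h1 R x y δ hx hy hδ hxy
    have hR : (0 : ℝ) ≤ (R : ℝ) := Nat.cast_nonneg R
    have hC : (0 : ℝ) ≤ C₁ * ((R : ℝ) + 1) ^ d₁ := by positivity
    have e0 : (C₁ : ℝ) * ((R : ℝ) + 1) ^ (d₁ + 1) = C₁ * ((R : ℝ) + 1) ^ d₁ * ((R : ℝ) + 1) := by ring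
    rw [map_mul, map_mul, aeval_X, aeval_X, e0]
    constructor
    · rw [abs_mul]
      exact mul_le_mul a1 (by linarith [hx i]) (abs_nonneg _) hC
    · have h3 : aeval x p * x i - aeval y p * y i = aeval x p * (x i - y i) + (aeval x p - aeval y p) * y i := by ring
      rw [h3]
      refine (abs_add_le _ _).trans ?_
      rw [abs_mul, abs_mul]
      have g1 := mul_le_mul a1 (hxy i) (abs_nonneg _) hC
      have g2 := mul_le_mul a2 (hy i) (abs_nonneg _) (by positivity)
      nlinarith

theorem cast_aeval {s : ℕ} (z : MvPolynomial (Fin s) ℚ) (q : Fin s → ℚ) : ((aeval q z : ℚ) : ℝ) = aeval (cst q) z := by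
  have h := MvPolynomial.aeval_algebraMap_apply ℝ q z
  exact h.symm

theorem exists_chain {s : ℕ} (z : MvPolynomial (Fin s) ℚ) : ∃ C₀ d₀ : ℕ, ∀ e θ : Fin s → ℚ, aeval (cst e) z ≠ 0 →
    (cst θ ∈ connectedComponentIn {θ : Fin s → ℝ | aeval θ z ≠ 0} (cst e) ↔ ∃ R q, aeval (cst θ) z ≠ 0 ∧ IsChain z C₀ d₀ R e θ q) := by
  obtain ⟨C₀, d₀, hL⟩ := lip z
  refine ⟨C₀, d₀, fun e θ he => ⟨fun h => ?_, ?_⟩⟩
  · have hop : IsOpen {θ : Fin s → ℝ | aeval θ z ≠ 0} := isOpen_NZq z
    have hθ : aeval (cst θ) z ≠ 0 := connectedComponentIn_subset _ _ h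
    have hpc : IsPathConnected (connectedComponentIn {θ : Fin s → ℝ | aeval θ z ≠ 0} (cst e)) :=
      (hop.connectedComponentIn.isConnected_iff_isPathConnected).1
        ⟨⟨_, mem_connectedComponentIn he⟩, isPreconnected_connectedComponentIn⟩
    obtain ⟨γ, hγ⟩ := hpc.joinedIn (cst e) (mem_connectedComponentIn he) (cst θ) h
    obtain ⟨g, hg⟩ : ∃ g : ℝ → Fin s → ℝ, g = γ.extend := ⟨_, rfl⟩
    have hgc : Continuous g := by
      rw [hg]
      exact γ.continuous_extend
    have hg0 : g 0 = cst e := by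
      rw [hg]
      exact γ.extend_zero
    have hg1 : g 1 = cst θ := by
      rw [hg]
      exact γ.extend_one
    have hgm : ∀ t ∈ Icc (0 : ℝ) 1, aeval (g t) z ≠ 0 := by
      intro t ht
      rw [hg, γ.extend_apply ht]
      exact connectedComponentIn_subset _ _ (hγ ⟨t, ht⟩)
    have hzc : Continuous fun t => |aeval (g t) z| := by
      have h1 : Continuous fun x : Fin s → ℝ => aeval x z := by
        have h2 : (fun x : Fin s → ℝ => aeval x z) = fun x => MvPolynomial.eval x (map (algebraMap ℚ ℝ) z) := by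
          funext x
          rw [eval_map, aeval_def]
        rw [h2]
        exact MvPolynomial.continuous_eval _
      exact (h1.comp hgc).abs
    obtain ⟨t0, ht0, hmin⟩ := isCompact_Icc.exists_isMinOn (⟨0, by simp⟩ : (Icc (0 : ℝ) 1).Nonempty) hzc.continuousOn
    obtain ⟨c, hc⟩ : ∃ c, c = |aeval (g t0) z| := ⟨_, rfl⟩
    have hc0 : 0 < c := by
      rw [hc]
      exact abs_pos.2 (hgm t0 ht0)
    have hcm : ∀ t ∈ Icc (0 : ℝ) 1, c ≤ |aeval (g t) z| := by
      intro t ht
      rw [hc]
      exact hmin ht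
    obtain ⟨Cb, hCb⟩ := isCompact_Icc.exists_bound_of_continuousOn (s := Icc (0 : ℝ) 1) (f := g) hgc.continuousOn
    obtain ⟨R, hR⟩ : ∃ R : ℕ, R = ⌈Cb⌉₊ + 1 := ⟨_, rfl⟩
    have hRb : ∀ t ∈ Icc (0 : ℝ) 1, ∀ i, |g t i| + 1 ≤ R := by
      intro t ht i
      have h1 := hCb t ht
      have h2 : |g t i| ≤ ‖g t‖ := norm_le_pi_norm (g t) i
      have h3 := Nat.le_ceil Cb
      rw [hR]
      push_cast
      linarith
    obtain ⟨L, hLd⟩ : ∃ L : ℝ, L = C₀ * ((R : ℝ) + 1) ^ d₀ := ⟨_, rfl⟩
    have hL0 : 0 ≤ L := by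
      rw [hLd]
      positivity
    obtain ⟨δ, hδ⟩ : ∃ δ : ℝ, δ = min 1 (c / (8 * (L + 1))) := ⟨_, rfl⟩
    have hδ0 : 0 < δ := by
      rw [hδ]
      positivity
    have hδ1 : δ ≤ 1 := by
      rw [hδ]
      exact min_le_left _ _
    have hLδ : L * δ ≤ c / 8 := by
      have h1 : δ ≤ c / (8 * (L + 1)) := by
        rw [hδ]
        exact min_le_right _ _
      have h2 : L * δ ≤ L * (c / (8 * (L + 1))) := mul_le_mul_of_nonneg_left h1 hL0
      have h3 : L * (c / (8 * (L + 1))) ≤ c / 8 := by
        rw [← mul_div_assoc, div_le_div_iff₀ (by positivity) (by norm_num)]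
        nlinarith
      linarith
    obtain ⟨η, hη, hu⟩ := Metric.uniformContinuousOn_iff.1
      (isCompact_Icc.uniformContinuousOn_of_continuous (s := Icc (0 : ℝ) 1) hgc.continuousOn) δ hδ0
    obtain ⟨n, hn⟩ := exists_nat_one_div_lt hη
    obtain ⟨N, hN⟩ : ∃ N : ℕ, N = n + 1 := ⟨_, rfl⟩
    have hN0 : (0 : ℝ) < N := by
      rw [hN]
      positivity
    have hrat : ∀ t : ℝ, ∃ q : Fin s → ℚ, ∀ i, |(q i : ℝ) - g t i| < δ := by
      intro t
      have h1 : ∀ i, ∃ q : ℚ, |(q : ℝ) - g t i| < δ := by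
        intro i
        obtain ⟨q, h1, h2⟩ := exists_rat_btwn (show g t i - δ < g t i + δ by linarith)
        exact ⟨q, by rw [abs_lt]; constructor <;> linarith⟩
      choose q hq using h1
      exact ⟨q, hq⟩
    choose rr hrr using hrat
    obtain ⟨r, hr⟩ : ∃ r : ℕ → Fin s → ℚ, r = fun k => if k = 0 then e else if k = N then θ else rr ((k : ℝ) / N) :=
      ⟨_, rfl⟩
    have hr0 : r 0 = e := by
      rw [hr]
      simp
    have hrN : r N = θ := by
      rw [hr]
      have : N ≠ 0 := by omega
      simp [this]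
    have htk : ∀ k : ℕ, k ≤ N → (k : ℝ) / N ∈ Icc (0 : ℝ) 1 := by
      intro k hk
      have : (k : ℝ) ≤ N := by exact_mod_cast hk
      exact ⟨by positivity, by rw [div_le_one hN0]; exact this⟩
    have hra : ∀ k : ℕ, k ≤ N → ∀ i, |(r k i : ℝ) - g ((k : ℝ) / N) i| < δ := by
      intro k hk i
      by_cases h0 : k = 0
      · rw [h0, hr0, Nat.cast_zero, zero_div, hg0]
        change |(e i : ℝ) - (e i : ℝ)| < δ
        rw [sub_self, abs_zero]
        exact hδ0
      · by_cases h1 : k = N
        · rw [h1, hrN, div_self hN0.ne', hg1]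
          change |(θ i : ℝ) - (θ i : ℝ)| < δ
          rw [sub_self, abs_zero]
          exact hδ0
        · have h2 : r k = rr ((k : ℝ) / N) := by
            rw [hr]
            simp [h0, h1]
          rw [h2]
          exact hrr _ i
    have hrb : ∀ k : ℕ, k ≤ N → ∀ i, |cst (r k) i| ≤ R := by
      intro k hk i
      have h1 := hra k hk i
      have h2 := hRb _ (htk k hk) i
      change |(r k i : ℝ)| ≤ R
      have h3 : |(r k i : ℝ)| ≤ |(r k i : ℝ) - g ((k : ℝ) / N) i| + |g ((k : ℝ) / N) i| := by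
        have := abs_add_le ((r k i : ℝ) - g ((k : ℝ) / N) i) (g ((k : ℝ) / N) i)
        rwa [sub_add_cancel] at this
      linarith
    have hgb : ∀ k : ℕ, k ≤ N → ∀ i, |g ((k : ℝ) / N) i| ≤ R := by
      intro k hk i
      linarith [hRb _ (htk k hk) i]
    have hzr : ∀ k : ℕ, k ≤ N → c / 2 ≤ |aeval (cst (r k)) z| := by
      intro k hk
      have h1 := (hL R (g ((k : ℝ) / N)) (cst (r k)) δ (hgb k hk) (hrb k hk) hδ0.le fun i => by
        rw [abs_sub_comm]
        exact (hra k hk i).le).2
      rw [← hLd] at h1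
      have h2 := hcm _ (htk k hk)
      have h3 := abs_sub_abs_le_abs_sub (aeval (g ((k : ℝ) / N)) z) (aeval (cst (r k)) z)
      linarith
    have hstep : ∀ m : ℕ, m + 1 ≤ N → ∀ i, |(r (m + 1) i : ℝ) - (r m i : ℝ)| ≤ 3 * δ := by
      intro m hm i
      have h1 := hra (m + 1) hm i
      have h2 := hra m (by omega) i
      have h3 : dist (((m + 1 : ℕ) : ℝ) / N) ((m : ℝ) / N) < η := by
        rw [Real.dist_eq, ← sub_div]
        have h4 : (((m + 1 : ℕ) : ℝ) - m) = 1 := by
          push_cast
          ring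
        rw [h4, abs_of_pos (by positivity), hN]
        push_cast
        exact hn
      have h5 := hu _ (htk (m + 1) hm) _ (htk m (by omega)) h3
      have h6 : |g (((m + 1 : ℕ) : ℝ) / N) i - g ((m : ℝ) / N) i| < δ := by
        rw [← Real.dist_eq]
        exact lt_of_le_of_lt (dist_le_pi_dist _ _ i) h5
      rw [abs_lt] at h1 h2 h6
      rw [abs_le]
      constructor <;> linarith [h1.1, h1.2, h2.1, h2.2, h6.1, h6.2]
    have hlen : ((List.range (N + 1)).map r).length = N + 1 := by
      rw [List.length_map, List.length_range]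
    have hgetD : ∀ m, m < N + 1 → ((List.range (N + 1)).map r).getD m θ = r m := by
      intro m hm
      rw [List.getD_eq_getElem _ _ (by rw [hlen]; exact hm), List.getElem_map, List.getElem_range]
    refine ⟨R, (List.range (N + 1)).map r, hθ, ?_, ?_, ?_, ?_⟩
    · rw [List.head?_eq_getElem?, List.getElem?_map, List.getElem?_range (by omega), Option.map_some, hr0]
    · rw [List.getLast?_eq_getElem?, hlen, Nat.add_sub_cancel, List.getElem?_map, List.getElem?_range (by omega),
        Option.map_some, hrN]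
    · intro x hx i
      obtain ⟨k, hk, rfl⟩ := List.mem_map.1 hx
      have h1 : k ≤ N := by
        have := List.mem_range.1 hk
        omega
      have h2 : |(r k i : ℝ)| ≤ R := hrb k h1 i
      exact_mod_cast h2
    · intro m hm i
      rw [hlen] at hm
      rw [hgetD m (by omega), hgetD (m + 1) (by omega)]
      have h1 := hstep m (by omega) i
      have h2 := hzr m (by omega)
      have h3 : L * |(r (m + 1) i : ℝ) - (r m i : ℝ)| ≤ L * (3 * δ) := mul_le_mul_of_nonneg_left h1 hL0
      have h4 : (C₀ : ℝ) * ((R : ℝ) + 1) ^ d₀ * |(r (m + 1) i : ℝ) - (r m i : ℝ)| < |((aeval (r m) z : ℚ) : ℝ)| := by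
        rw [← hLd, cast_aeval]
        linarith
      exact_mod_cast h4
  · rintro ⟨R, q, hθ, hq1, hq2, hq3, hq4⟩
    have key : ∀ m, m < q.length → cst (q.getD m θ) ∈ connectedComponentIn {θ : Fin s → ℝ | aeval θ z ≠ 0} (cst e) := by
      intro m
      induction m with
      | zero =>
        intro hm
        have h1 : q.getD 0 θ = e := by
          rw [List.getD_eq_getElem?_getD, ← List.head?_eq_getElem?, hq1]
          rfl
        rw [h1]
        exact mem_connectedComponentIn he
      | succ m ih =>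
        intro hm
        have hm' := ih (by omega)
        rw [connectedComponentIn_eq hm']
        have hmem0 : q.getD m θ ∈ q := by
          rw [List.getD_eq_getElem _ _ (by omega : m < q.length)]
          exact List.getElem_mem _
        have hmem1 : q.getD (m + 1) θ ∈ q := by
          rw [List.getD_eq_getElem _ _ hm]
          exact List.getElem_mem _
        have hseg : segment ℝ (cst (q.getD m θ)) (cst (q.getD (m + 1) θ)) ⊆ {θ : Fin s → ℝ | aeval θ z ≠ 0} := by
          intro x hx
          have hz0 : aeval (cst (q.getD m θ)) z ≠ 0 := connectedComponentIn_subset _ _ hm'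
          rcases isEmpty_or_nonempty (Fin s) with hs | hs
          · have : x = cst (q.getD m θ) := Subsingleton.elim _ _
            rw [this]
            exact hz0
          · obtain ⟨i0, -, hi0⟩ := Finset.exists_max_image (Finset.univ : Finset (Fin s))
              (fun i => |(q.getD (m + 1) θ) i - (q.getD m θ) i|) ⟨hs.some, Finset.mem_univ _⟩
            have h4 := hq4 m hm i0
            have h4' : (C₀ : ℝ) * ((R : ℝ) + 1) ^ d₀ * |((q.getD (m + 1) θ) i0 : ℝ) - ((q.getD m θ) i0 : ℝ)| <
                |aeval (cst (q.getD m θ)) z| := by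
              rw [← cast_aeval]
              exact_mod_cast h4
            have hb0 : ∀ i, |cst (q.getD m θ) i| ≤ R := by
              intro i
              have := hq3 _ hmem0 i
              change |((q.getD m θ) i : ℝ)| ≤ R
              exact_mod_cast this
            have hb1 : ∀ i, |cst (q.getD (m + 1) θ) i| ≤ R := by
              intro i
              have := hq3 _ hmem1 i
              change |((q.getD (m + 1) θ) i : ℝ)| ≤ R
              exact_mod_cast this
            obtain ⟨a, b, ha, hb, hab, rfl⟩ := hx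
            have hxi : ∀ i, (a • cst (q.getD m θ) + b • cst (q.getD (m + 1) θ)) i =
                a * cst (q.getD m θ) i + b * cst (q.getD (m + 1) θ) i := fun i => rfl
            have hL1 := hL R (a • cst (q.getD m θ) + b • cst (q.getD (m + 1) θ)) (cst (q.getD m θ))
              |((q.getD (m + 1) θ) i0 : ℝ) - ((q.getD m θ) i0 : ℝ)| ?_ hb0 (abs_nonneg _) ?_
            · intro h0
              have h5 := hL1.2
              rw [h0, zero_sub, abs_neg] at h5
              linarith
            · intro i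
              rw [hxi]
              refine (abs_add_le _ _).trans ?_
              rw [abs_mul, abs_mul, abs_of_nonneg ha, abs_of_nonneg hb]
              have e1 := mul_le_mul_of_nonneg_left (hb0 i) ha
              have e2 := mul_le_mul_of_nonneg_left (hb1 i) hb
              have e3 : a * (R : ℝ) + b * R = R := by rw [← add_mul, hab, one_mul]
              linarith
            · intro i
              rw [hxi]
              have e1 : a * cst (q.getD m θ) i + b * cst (q.getD (m + 1) θ) i - cst (q.getD m θ) i =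
                  b * (((q.getD (m + 1) θ) i : ℝ) - ((q.getD m θ) i : ℝ)) := by
                have : a = 1 - b := by linarith
                rw [this]
                unfold cst
                ring
              rw [e1, abs_mul, abs_of_nonneg hb]
              have e2 : |((q.getD (m + 1) θ) i : ℝ) - ((q.getD m θ) i : ℝ)| ≤
                  |((q.getD (m + 1) θ) i0 : ℝ) - ((q.getD m θ) i0 : ℝ)| := by
                have := hi0 i (Finset.mem_univ i)
                exact_mod_cast this
              have e3 : b ≤ 1 := by linarith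
              nlinarith [abs_nonneg (((q.getD (m + 1) θ) i : ℝ) - ((q.getD m θ) i : ℝ))]
        exact (convex_segment _ _).isPreconnected.subset_connectedComponentIn (left_mem_segment ℝ _ _) hseg
          (right_mem_segment ℝ _ _)
    have hne : q ≠ [] := by
      rintro rfl
      simp at hq1
    have hlen : 0 < q.length := List.length_pos_iff.2 hne
    have h1 : q.getD (q.length - 1) θ = θ := by
      rw [List.getD_eq_getElem?_getD, ← List.getLast?_eq_getElem?, hq2]
      rfl
    have h2 := key (q.length - 1) (by omega)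
    rwa [h1] at h2

end Pool.Agent.Lib.MP_bbe012_lc.PM
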