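import Pool.Agent.Lib.MP_bbe012_lc.PM.GBa

/-!
# Finitely many fractions generate the regularised values

Modulo fractions with a certificate of order `j` (see Codim.lean; here over the field of rational functions of `θ`), the fractions
`w / h ^ κ` which do not depend on `t` are combinations of finitely many ones.
-/

namespace Pool.Agent.Lib.MP_bbe012_lc.PM.GB

open MvPolynomial PP PG Module

theorem sg_ne_zero {s n : ℕ} {h : Pz s n} (h0 : h ≠ 0) : sg s n h ≠ 0 := fun h1 =>
  h0 (sg_injective s n (by rw [h1, map_zero]))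

/-- Generators over the field, with numerators in `ℚ[θ, x]`. -/
theorem exists_gens {s n : ℕ} {h : Pz s n} (h0 : h ≠ 0) (j : ℕ) :
    ∃ (k N : ℕ) (W : Fin N → Pz s n), ∀ v : Loc (sg s n h), ∃ q : Fin N → Ks s,
      v - ∑ i, q i • fracMap (sg s n h) k (sg s n (W i)) ∈ GF.certSub (sg s n h) j := by
  have := GF.certSub_finite (sg_ne_zero h0) j
  obtain ⟨N, b, hb⟩ := Module.Finite.exists_fin (R := Ks s) (M := Loc (sg s n h) ⧸ GF.certSub (sg s n h) j)
  choose u hu using fun i => Submodule.mkQ_surjective (GF.certSub (sg s n h) j) (b i)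
  obtain ⟨k, p, hp⟩ := GF.exists_frac_common N u
  choose e he p' hp' using fun i => clear_one (B := MvPolynomial (Fin s) ℚ) (p i)
  refine ⟨k, N, fun i => unsplit s n (p' i), fun v => ?_⟩
  have h1 : (GF.certSub (sg s n h) j).mkQ v ∈ Submodule.span (Ks s) (Set.range b) := by
    rw [hb]; trivial
  rw [Submodule.mem_span_range_iff_exists_fun] at h1
  obtain ⟨c, hc⟩ := h1
  refine ⟨fun i => c i / ik s (e i), ?_⟩
  rw [← Submodule.Quotient.mk_eq_zero, ← Submodule.mkQ_apply, map_sub, ← hc, map_sum, sub_eq_zero]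
  refine Finset.sum_congr rfl fun i _ => ?_
  rw [map_smul, ← hu i, hp i]
  have h2 : sg s n (unsplit s n (p' i)) = ik s (e i) • p i := by
    rw [sg_apply, split_unsplit, smul_eq_C_mul]
    exact hp' i
  rw [h2, map_smul, map_smul, smul_smul, div_mul_cancel₀ _ (ik_ne (he i))]

theorem gen_basis {s n : ℕ} {h : Pz s n} (h0 : h ≠ 0) (j : ℕ) :
    ∃ (k N : ℕ) (W : Fin N → Pz s n), ∀ (κ M : ℕ) (w : Fin M → Pz s n),
      ∃ (d : MvPolynomial (Fin s) ℚ) (q : Fin M → Fin N → MvPolynomial (Fin s) ℚ) (s0 : ℕ)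
        (c : MvPolynomial (Fin (s + 1)) ℚ) (K : ℕ) (w' : Fin M → Pz (s + 1) n) (g : Fin M → Fin n → Pz (s + 1) n),
        d ≠ 0 ∧ spt 0 c ≠ 0 ∧ ∀ l,
          tz s n ^ s0 * par n c * up (par n d * w l * h ^ (k + K + 1) - (∑ i, par n (q l i) * W i) * h ^ (κ + K + 1)) =
            tz s n ^ (s0 + j) * w' l + dv h (k + κ + K) (g l) := by
  obtain ⟨k, N, W, hW⟩ := exists_gens h0 j
  refine ⟨k, N, W, fun κ M w => ?_⟩
  have hs0 := sg_ne_zero h0
  choose q hq using fun l => hW (fracMap (sg s n h) κ (sg s n (w l)))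
  -- a common denominator
  obtain ⟨d, hd⟩ := IsLocalization.exist_integer_multiples_of_finite (nonZeroDivisors (MvPolynomial (Fin s) ℚ))
    fun p : Fin M × Fin N => q p.1 p.2
  choose q' hq' using hd
  have hq'' : ∀ l i, ik s (q' (l, i)) = ik s d * q l i := by
    intro l i
    have := hq' (l, i)
    rw [Algebra.smul_def] at this
    exact this
  have hd0 : (d : MvPolynomial (Fin s) ℚ) ≠ 0 := nonZeroDivisors.ne_zero d.2
  -- the differences
  obtain ⟨p, hp⟩ : ∃ p : Fin M → Pz s n, ∀ l, p l = par n (d : MvPolynomial (Fin s) ℚ) * w l * h ^ k -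
      (∑ i, par n (q' (l, i)) * W i) * h ^ κ := ⟨_, fun _ => rfl⟩
  have hcert : ∀ l, GF.Cert (sg s n h) j (sg s n (p l)) (k + κ) := by
    intro l
    rw [← GF.mem_certSub hs0]
    have e1 : fracMap (sg s n h) (k + κ) (sg s n (p l)) =
        ik s d • (fracMap (sg s n h) κ (sg s n (w l)) -
          ∑ i, q l i • fracMap (sg s n h) k (sg s n (W i))) := by
      have e2 := fracMap_shift (sg s n h) κ k (sg s n (w l))
      rw [add_comm κ k] at e2
      have e3 : ∀ i, fracMap (sg s n h) k (sg s n (W i)) =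
          fracMap (sg s n h) (k + κ) (sg s n (W i) * sg s n h ^ κ) := fun i =>
        fracMap_shift (sg s n h) k κ (sg s n (W i))
      rw [e2, Finset.sum_congr rfl fun i _ => by rw [e3 i], smul_sub, Finset.smul_sum, ← map_smul]
      simp only [smul_smul, ← hq'', ← map_smul]
      rw [← map_sum, ← map_sub]
      congr 1
      rw [hp, map_sub, map_mul, map_mul, map_mul, map_pow, map_pow, sg_par, map_sum, Finset.sum_mul]
      congr 1
      · rw [smul_eq_C_mul]; ring
      · refine Finset.sum_congr rfl fun i _ => ?_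
        rw [map_mul, sg_par, smul_eq_C_mul]; ring
    rw [e1]
    exact Submodule.smul_mem _ _ (hq l)
  obtain ⟨c, hc, K0, a, hKa, HC⟩ := GF.unify M _ hcert
  have HC' := fun l => (HC l).shift 1
  choose v g hvg using HC'
  rw [← hKa] at hvg
  -- the multiplier
  obtain ⟨c1, hc1⟩ := GF.eq_X_pow_mul c
  obtain ⟨ν, hν⟩ : ∃ ν, ν = c.natTrailingDegree := ⟨_, rfl⟩
  rw [← hν] at hc1 hvg
  have hc10 : c1.coeff 0 ≠ 0 := by
    have h1 : c.coeff ν ≠ 0 := by
      rw [hν]
      exact Polynomial.trailingCoeff_nonzero_iff_nonzero.mpr hc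
    have h2 := Polynomial.coeff_X_pow_mul c1 ν 0
    rw [zero_add, ← hc1] at h2
    rwa [h2] at h1
  obtain ⟨e0, he0, c1', hc1'⟩ := clear_poly c1
  have hspt : spt 0 c1' ≠ 0 := by
    intro h1
    have h2 := congrArg (fun r => Polynomial.coeff r 0) hc1'
    simp only [Polynomial.coeff_map, coeff_ct, h1, map_zero, Polynomial.coeff_C_mul] at h2
    exact mul_ne_zero (ik_ne he0) hc10 h2.symm
  -- the numerators
  obtain ⟨E, hE, G', hG'⟩ := clear_fin (B := MvPolynomial (Fin s) ℚ) (Finset.univ : Finset (Fin M × Option (Fin n)))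
    (fun r => Option.elim r.2 (v r.1) (g r.1))
  have hG1 : ∀ l, tau s n (untau s n (G' (l, none))) = C (ik s E) * v l := by
    intro l
    rw [tau_apply, tau'_untau]
    exact hG' (l, none) (Finset.mem_univ _)
  have hG2 : ∀ l i, tau s n (untau s n (G' (l, some i))) = C (ik s E) * g l i := by
    intro l i
    rw [tau_apply, tau'_untau]
    exact hG' (l, some i) (Finset.mem_univ _)
  have hbC : ∀ r : Ks s, GF.beta n (Polynomial.C r) = C r := by
    intro r
    simp [GF.beta]
  have hbX : ∀ m : ℕ, GF.beta (F := Ks s) n (Polynomial.X ^ m) = X (Fin.last n) ^ m := by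
    intro m
    simp [GF.beta]
  have hPC : GF.hP (C (ik s e0) : MvPolynomial (Fin n) (Ks s)) = C (ik s e0) := rename_C _ _
  refine ⟨d, fun l i => q' (l, i), ν, rename Fin.castSucc E * c1', a, fun l => up (par n e0) * untau s n (G' (l, none)),
    fun l i => up (par n e0) * untau s n (G' (l, some i)), hd0, ?_, fun l => ?_⟩
  · rw [← coeff_ct, map_mul, ct_rename, Polynomial.coeff_C_mul, coeff_ct]
    exact mul_ne_zero hE hspt
  · have e1 : par n (d : MvPolynomial (Fin s) ℚ) * w l * h ^ (k + a + 1) -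
        (∑ i, par n (q' (l, i)) * W i) * h ^ (κ + a + 1) = p l * h ^ (a + 1) := by
      rw [hp, add_assoc k a 1, add_assoc κ a 1, pow_add h k, pow_add h κ]
      ring
    rw [e1]
    apply tau_injective s n
    have e2 : up (p l * h ^ (a + 1)) = up (p l) * up h ^ (a + 1) := by
      rw [up, map_mul, map_pow]
      rfl
    have e3 : par n (rename Fin.castSucc E * c1') = par n (rename Fin.castSucc E) * par n c1' := by
      rw [par, map_mul]
      rfl
    have e4 : GF.beta n c = X (Fin.last n) ^ ν * GF.beta n c1 := by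
      rw [hc1, map_mul, hbX]
    have e5 : GF.divg (sg s n h) (k + κ + a) (fun i => tau s n (up (par n e0) * untau s n (G' (l, some i)))) =
        GF.beta n (Polynomial.C (ik s e0 * ik s E)) * GF.divg (sg s n h) (k + κ + a) (g l) := by
      rw [← GF.divg_smul]
      congr 1
      funext i
      rw [map_mul, hG2, tau_up, sg_par, hPC, hbC, C_mul]
      ring
    rw [map_add, tau_dv, e5, e2, e3, map_mul, map_mul, map_mul, map_mul, map_mul, map_mul, map_pow, map_pow, map_pow, tau_tz, tau_par, tau_par,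
      ct_rename, Polynomial.map_C, hc1', map_mul, hbC, hbC, hG1, tau_up, tau_up, tau_up, sg_par, hPC, hbC, C_mul]
    have e6 := hvg l
    rw [e4, hbX] at e6
    calc _ = C (ik s e0) * C (ik s E) * (X (Fin.last n) ^ ν * GF.beta n c1 * GF.hP (sg s n (p l)) * GF.hP (sg s n h) ^ (a + 1)) := by
          ring
      _ = _ := by rw [e6]; ring

end Pool.Agent.Lib.MP_bbe012_lc.PM.GB
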