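import Pool.Agent.Lib.MP_bbe012_lc.PM.Vx2

/-!
# Laurent expansion of `t ^ (-ν) G(t)` at `0+`
-/

namespace Pool.Agent.Lib.MP_bbe012_lc.PM

open Filter Topology Set
open scoped Nat

theorem iteratedDeriv_dslope {G : ℝ → ℝ} (hG : AnalyticAt ℝ G 0) (ν : ℕ) :
    iteratedDeriv (ν + 1) G 0 / ((ν + 1)! : ℝ) = iteratedDeriv ν (dslope G 0) 0 / (ν ! : ℝ) := by
  obtain ⟨p, hp⟩ := hG
  have hG1 : AnalyticAt ℝ (dslope G 0) 0 := ⟨_, hp.has_fpower_series_dslope_fslope⟩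
  have hmul : G = fun t => G 0 + (t - 0) * dslope G 0 t := by
    funext t
    have := sub_smul_dslope G 0 t
    rw [smul_eq_mul] at this
    rw [this]; ring
  have h1 := (iteratedDeriv_mul_sub hG1 ν).eq_of_nhds
  have h2 : iteratedDeriv (ν + 1) G 0 = iteratedDeriv (ν + 1) (fun t => (t - 0) * dslope G 0 t) 0 := by
    conv_lhs => rw [hmul]
    rw [iteratedDeriv_const_add (Nat.succ_pos ν)]
  rw [h2, h1, sub_self, zero_mul, zero_add, Nat.factorial_succ]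
  have h3 : ((ν ! : ℕ) : ℝ) ≠ 0 := by exact_mod_cast Nat.factorial_ne_zero _
  have h4 : (ν : ℝ) + 1 ≠ 0 := by positivity
  push_cast
  field_simp

/-- The constant term of `t ^ (-ν) G(t)` at `0+`. -/
theorem tendsto_laurent (ν : ℕ) : ∀ {G : ℝ → ℝ}, AnalyticAt ℝ G 0 →
    ∃ a : Fin ν → ℝ, Tendsto (fun t : ℝ => t⁻¹ ^ ν * G t - ∑ i, a i * t⁻¹ ^ ((i : ℕ) + 1)) (𝓝[>] 0)
      (𝓝 (iteratedDeriv ν G 0 / (ν ! : ℝ))) := by
  induction ν with
  | zero =>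
    intro G hG
    refine ⟨fun i => 0, ?_⟩
    have h1 : Tendsto G (𝓝[>] 0) (𝓝 (G 0)) := hG.continuousAt.tendsto.mono_left nhdsWithin_le_nhds
    simpa using h1
  | succ ν ih =>
    intro G hG
    obtain ⟨p, hp⟩ := hG
    have hG1 : AnalyticAt ℝ (dslope G 0) 0 := ⟨_, hp.has_fpower_series_dslope_fslope⟩
    obtain ⟨a, ha⟩ := ih hG1
    refine ⟨Fin.snoc a (G 0), ?_⟩
    rw [iteratedDeriv_dslope ⟨p, hp⟩]
    refine ha.congr' ?_
    filter_upwards [self_mem_nhdsWithin] with t ht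
    have ht0 : t ≠ 0 := ne_of_gt ht
    have h1 : G t = G 0 + t * dslope G 0 t := by
      have := sub_smul_dslope G 0 t
      rw [smul_eq_mul, sub_zero] at this
      rw [this]; ring
    rw [Fin.sum_univ_castSucc, h1]
    simp only [Fin.snoc_castSucc, Fin.snoc_last, Fin.val_castSucc, Fin.val_last]
    have h2 : t⁻¹ ^ (ν + 1) * (G 0 + t * dslope G 0 t) =
        G 0 * t⁻¹ ^ (ν + 1) + t⁻¹ ^ ν * dslope G 0 t := by
      rw [pow_succ]
      field_simp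
    rw [h2]
    ring

end Pool.Agent.Lib.MP_bbe012_lc.PM
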