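import Mathlib

/-!
# Solutions of analytic Pfaffian systems are analytic

The step lemma `pf_step`: if `∂ G_b / ∂ τ = ∑_c A_bc G_c` near `(p₀, τ₀)`, `A_bc` is analytic at `(p₀, τ₀)` and `G_b(·, τ₀)` is analytic at `p₀`, then `G_b` is analytic at `(p₀, τ₀)`. Proof: for
`w = (h, u)` near zero the curve `γ(σ) = G(p₀ + h, τ₀ + σ u)`, `0 ≤ σ ≤ 1`, satisfies `γ = g(w) + u K(w) γ` in the Banach space `C([0, 1])^m`, with the Volterra operator
`(K(w) γ)_b(σ) = ∫_0^σ ∑_c A_bc(p₀ + h, τ₀ + σ' u) γ_c(σ') dσ'`; it depends analytically on `w` (`pf_superpos`), so `γ = (1 - u K(w))⁻¹ g(w)` is analytic in `w`.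
-/

namespace Pool.Agent.Lib.MP_bbe012_lc.PM

open Filter Topology

section superposition

variable {X E F : Type*} [TopologicalSpace X] [CompactSpace X] [NormedAddCommGroup E] [NormedSpace ℝ E]
  [NormedAddCommGroup F] [NormedSpace ℝ F]

/-- A continuous multilinear map, applied pointwise to continuous functions. -/
private noncomputable def pf_mlin {n : ℕ} (q : ContinuousMultilinearMap ℝ (fun _ : Fin n => E) F) :
    ContinuousMultilinearMap ℝ (fun _ : Fin n => C(X, E)) C(X, F) :=
  MultilinearMap.mkContinuous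
    { toFun := fun v => ⟨fun x => q (fun i => v i x), q.cont.comp (continuous_pi fun i => (v i).continuous)⟩
      map_update_add' := by
        intro _ v i a b
        refine ContinuousMap.ext fun x => ?_
        have h1 : ∀ c : C(X, E), (fun k => (Function.update v i c) k x) =
            Function.update (fun k => v k x) i (c x) := by
          intro c
          funext k
          by_cases hk : k = i
          · subst hk
            simp only [Function.update_self]
          · simp only [Function.update_of_ne hk]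
        simp only [ContinuousMap.coe_mk, ContinuousMap.add_apply, h1, q.map_update_add]
      map_update_smul' := by
        intro _ v i a b
        refine ContinuousMap.ext fun x => ?_
        have h1 : ∀ c : C(X, E), (fun k => (Function.update v i c) k x) =
            Function.update (fun k => v k x) i (c x) := by
          intro c
          funext k
          by_cases hk : k = i
          · subst hk
            simp only [Function.update_self]
          · simp only [Function.update_of_ne hk]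
        simp only [ContinuousMap.coe_mk, ContinuousMap.smul_apply, h1, q.map_update_smul] }
    ‖q‖ (by
      intro v
      refine (ContinuousMap.norm_le _ (by positivity)).2 fun x => ?_
      refine (q.le_opNorm _).trans ?_
      exact mul_le_mul_of_nonneg_left (Finset.prod_le_prod (fun _ _ => norm_nonneg _)
        fun i _ => (v i).norm_coe_le_norm x) (norm_nonneg _))

private theorem pf_mlin_apply {n : ℕ} (q : ContinuousMultilinearMap ℝ (fun _ : Fin n => E) F)
    (v : Fin n → C(X, E)) (x : X) : pf_mlin (X := X) q v x = q (fun i => v i x) := rfl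

private theorem pf_mlin_norm {n : ℕ} (q : ContinuousMultilinearMap ℝ (fun _ : Fin n => E) F) :
    ‖pf_mlin (X := X) q‖ ≤ ‖q‖ :=
  MultilinearMap.mkContinuous_norm_le _ (norm_nonneg _) _

/-- Superposition with an analytic function is analytic. -/
private theorem pf_superpos [CompleteSpace F] {A : E → F} {x₀ : E} (hA : AnalyticAt ℝ A x₀) :
    ∃ S : C(X, E) → C(X, F), AnalyticAt ℝ S 0 ∧ ∀ᶠ v in 𝓝 (0 : C(X, E)), ∀ x, S v x = A (x₀ + v x) := by
  obtain ⟨q, r, hq⟩ := hA
  let Q : FormalMultilinearSeries ℝ C(X, E) C(X, F) := fun n => pf_mlin (X := X) (q n)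
  have hrad : q.radius ≤ Q.radius := FormalMultilinearSeries.radius_le_of_le fun n => pf_mlin_norm (q n)
  have hpos : 0 < Q.radius := lt_of_lt_of_le (lt_of_lt_of_le hq.r_pos hq.r_le) hrad
  refine ⟨Q.sum, (Q.hasFPowerSeriesOnBall hpos).analyticAt, ?_⟩
  filter_upwards [Metric.eball_mem_nhds (0 : C(X, E)) hq.r_pos] with v hv x
  have h1 : HasSum (fun n => Q n fun _ => v) (Q.sum v) :=
    Q.hasSum (Metric.eball_subset_eball (hq.r_le.trans hrad) hv)
  have h2 : HasSum (fun n => (Q n fun _ => v) x) (Q.sum v x) := h1.mapL (ContinuousMap.evalCLM ℝ x)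
  have h3 : HasSum (fun n => q n fun _ => v x) (A (x₀ + v x)) := by
    refine hq.hasSum ?_
    rw [Metric.mem_eball, edist_zero_right] at hv ⊢
    refine lt_of_le_of_lt ?_ hv
    rw [enorm_le_iff_norm_le]
    exact v.norm_coe_le_norm x
  exact h2.unique h3

end superposition

/-- The primitive of a continuous function on `[0, 1]`. -/
private noncomputable def pf_prim : C(unitInterval, ℝ) →L[ℝ] C(unitInterval, ℝ) :=
  LinearMap.mkContinuous
    { toFun := fun f => ⟨fun σ => ∫ x in (0 : ℝ)..σ, f (Set.projIcc 0 1 zero_le_one x),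
        (intervalIntegral.continuous_primitive (fun a b =>
          (f.continuous.comp continuous_projIcc).intervalIntegrable a b) 0).comp continuous_subtype_val⟩
      map_add' := by
        intro f g
        refine ContinuousMap.ext fun σ => ?_
        simp only [ContinuousMap.coe_mk, ContinuousMap.add_apply]
        exact intervalIntegral.integral_add ((f.continuous.comp continuous_projIcc).intervalIntegrable _ _)
          ((g.continuous.comp continuous_projIcc).intervalIntegrable _ _)
      map_smul' := by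
        intro c f
        refine ContinuousMap.ext fun σ => ?_
        simp only [ContinuousMap.coe_mk, ContinuousMap.smul_apply, RingHom.id_apply]
        exact intervalIntegral.integral_smul c _ }
    1 (by
      intro f
      rw [one_mul]
      refine (ContinuousMap.norm_le _ (norm_nonneg _)).2 fun σ => ?_
      have h1 := intervalIntegral.norm_integral_le_of_norm_le_const (a := 0) (b := (σ : ℝ)) (C := ‖f‖)
        (f := fun x => f (Set.projIcc 0 1 zero_le_one x)) fun x _ => f.norm_coe_le_norm _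
      refine h1.trans ?_
      rw [sub_zero, abs_of_nonneg σ.2.1]
      exact mul_le_of_le_one_right (norm_nonneg _) σ.2.2)

private theorem pf_prim_apply (f : C(unitInterval, ℝ)) (σ : unitInterval) :
    pf_prim f σ = ∫ x in (0 : ℝ)..σ, f (Set.projIcc 0 1 zero_le_one x) := rfl

/-- Linear equations in a Banach space which depend analytically on a parameter. -/
private theorem pf_inv {Y W : Type*} [NormedAddCommGroup Y] [NormedSpace ℝ Y] [CompleteSpace Y] [NormedAddCommGroup W]
    [NormedSpace ℝ W] {K : W → (Y →L[ℝ] Y)} (hK : AnalyticAt ℝ K 0)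
    {u : W → ℝ} (hu : AnalyticAt ℝ u 0) (hu0 : u 0 = 0) {g : W → Y} (hg : AnalyticAt ℝ g 0) :
    ∃ c : W → Y, AnalyticAt ℝ c 0 ∧ ∀ᶠ w in 𝓝 (0 : W), ∀ γ : Y, γ - u w • K w γ = g w → c w = γ := by
  let U : W → (Y →L[ℝ] Y) := fun w => 1 - u w • K w
  have hU : AnalyticAt ℝ U 0 := analyticAt_const.sub (hu.smul hK)
  have hU0 : U 0 = 1 := by
    change 1 - u 0 • K 0 = 1
    rw [hu0, zero_smul, sub_zero]
  have hunit : ∀ᶠ w in 𝓝 (0 : W), IsUnit (U w) := by
    have h1 : {x : Y →L[ℝ] Y | IsUnit x} ∈ 𝓝 (U 0) := by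
      rw [hU0]
      exact Units.isOpen.mem_nhds isUnit_one
    exact hU.continuousAt.eventually h1
  have hc : AnalyticAt ℝ (fun w => Ring.inverse (U w) (g w)) 0 := by
    have h1 : AnalyticAt ℝ (fun w => Ring.inverse (U w)) 0 := by
      have h2 : AnalyticAt ℝ Ring.inverse (U 0) := by
        rw [hU0]
        exact analyticAt_inverse (𝕜 := ℝ) (1 : (Y →L[ℝ] Y)ˣ)
      exact h2.comp hU
    exact ((ContinuousLinearMap.apply ℝ Y).flip.analyticAt_bilinear _).comp₂ h1 hg
  refine ⟨fun w => Ring.inverse (U w) (g w), hc, ?_⟩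
  filter_upwards [hunit] with w hw γ hγ
  have h1 : g w = U w γ := by
    rw [← hγ]
    rfl
  have h2 : (Ring.inverse (U w) * U w) γ = γ := by
    rw [Ring.inverse_mul_cancel _ hw]
    rfl
  rw [h1]
  exact h2

private theorem pf_solve {B Y W : Type*} [NormedRing B] [NormedAlgebra ℝ B] [NormedAddCommGroup W]
    [NormedSpace ℝ W] [NormedAddCommGroup Y] [NormedSpace ℝ Y] [CompleteSpace Y] {m : ℕ} (π : Fin m → Y →L[ℝ] B)
    (i : Fin m → B →L[ℝ] Y) (prim : B →L[ℝ] B) {L : Fin m → Fin m → W → B} (hL : ∀ b c, AnalyticAt ℝ (L b c) 0)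
    {u : W → ℝ} (hu : AnalyticAt ℝ u 0) (hu0 : u 0 = 0) {g : Fin m → W → B} (hg : ∀ b, AnalyticAt ℝ (g b) 0) :
    ∃ c : W → Y, AnalyticAt ℝ c 0 ∧ ∀ᶠ w in 𝓝 (0 : W), ∀ γ : Y,
      γ - u w • (∑ b, ∑ c, i b (prim (L b c w * π c γ))) = ∑ b, i b (g b w) → c w = γ := by
  let K : W → (Y →L[ℝ] Y) := fun w => ∑ b, ∑ c, (i b ∘L prim) ∘L ((ContinuousLinearMap.mul ℝ B (L b c w)) ∘L π c)
  have hK : AnalyticAt ℝ K 0 := by
    refine Finset.analyticAt_fun_sum _ fun b _ => Finset.analyticAt_fun_sum _ fun c _ => ?_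
    have h1 : AnalyticAt ℝ (fun w => ContinuousLinearMap.mul ℝ B (L b c w)) 0 :=
      ((ContinuousLinearMap.mul ℝ B).analyticAt _).comp (hL b c)
    have h2 : AnalyticAt ℝ (fun w => (ContinuousLinearMap.mul ℝ B (L b c w)) ∘L π c) 0 :=
      (((ContinuousLinearMap.compL ℝ Y B B).flip (π c)).analyticAt _).comp h1
    exact ((ContinuousLinearMap.compL ℝ Y B Y (i b ∘L prim)).analyticAt _).comp h2
  have hg' : AnalyticAt ℝ (fun w => ∑ b, i b (g b w)) 0 :=
    Finset.analyticAt_fun_sum _ fun b _ => ((i b).analyticAt _).comp (hg b)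
  obtain ⟨c, hc1, hc2⟩ := pf_inv hK hu hu0 hg'
  refine ⟨c, hc1, ?_⟩
  filter_upwards [hc2] with w hw γ hγ
  refine hw γ ?_
  rw [← hγ]
  change γ - u w • (∑ b, ∑ c, (i b ∘L prim) ∘L ((ContinuousLinearMap.mul ℝ B (L b c w)) ∘L π c)) γ = _
  congr 2
  rw [_root_.sum_apply]
  refine Finset.sum_congr rfl fun b _ => ?_
  rw [_root_.sum_apply]
  rfl

/-- `w = (h, u)` gives the path `σ ↦ (h, σ u)`. -/
private noncomputable def pf_ray (E : Type*) [NormedAddCommGroup E] [NormedSpace ℝ E] :
    E × ℝ →L[ℝ] C(unitInterval, E × ℝ) :=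
  LinearMap.mkContinuous
    { toFun := fun w => ⟨fun σ => (w.1, (σ : ℝ) * w.2), by fun_prop⟩
      map_add' := by
        intro v w
        refine ContinuousMap.ext fun σ => ?_
        simp only [ContinuousMap.coe_mk, ContinuousMap.add_apply, Prod.fst_add, Prod.snd_add, Prod.mk_add_mk, mul_add]
      map_smul' := by
        intro c w
        refine ContinuousMap.ext fun σ => ?_
        simp only [ContinuousMap.coe_mk, ContinuousMap.smul_apply, Prod.smul_fst, Prod.smul_snd, Prod.smul_mk,
          RingHom.id_apply, smul_eq_mul]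
        rw [mul_left_comm] }
    1 (by
      intro w
      rw [one_mul]
      refine (ContinuousMap.norm_le _ (norm_nonneg _)).2 fun σ => ?_
      refine norm_prod_le_iff.2 ⟨norm_fst_le w, ?_⟩
      refine le_trans ?_ (norm_snd_le w)
      change ‖(σ : ℝ) * w.2‖ ≤ ‖w.2‖
      rw [norm_mul, Real.norm_eq_abs, abs_of_nonneg σ.2.1]
      exact mul_le_of_le_one_left (norm_nonneg _) σ.2.2)

private theorem pf_ray_apply {E : Type*} [NormedAddCommGroup E] [NormedSpace ℝ E] (w : E × ℝ) (σ : unitInterval) :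
    pf_ray E w σ = (w.1, (σ : ℝ) * w.2) := rfl

/-- The step: an ordinary differential equation with parameters. -/
private theorem pf_step {E : Type*} [NormedAddCommGroup E] [NormedSpace ℝ E] {m : ℕ} {G : Fin m → E × ℝ → ℝ}
    {A : Fin m → Fin m → E × ℝ → ℝ} {p₀ : E} {τ₀ : ℝ} (hA : ∀ b c, AnalyticAt ℝ (A b c) (p₀, τ₀))
    (hG : ∀ᶠ q : E × ℝ in 𝓝 (p₀, τ₀), ∀ b, HasDerivAt (fun τ => G b (q.1, τ)) (∑ c, A b c q * G c q) q.2)
    (h0 : ∀ b, AnalyticAt ℝ (fun p => G b (p, τ₀)) p₀) : ∀ b, AnalyticAt ℝ (G b) (p₀, τ₀) := by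
  classical
  choose S hS1 hS2 using fun b c => pf_superpos (X := unitInterval) (hA b c)
  have hΛ0 : pf_ray E 0 = 0 := map_zero _
  let L : Fin m → Fin m → E × ℝ → C(unitInterval, ℝ) := fun b c w => S b c (pf_ray E w)
  have hL : ∀ b c, AnalyticAt ℝ (L b c) 0 := by
    intro b c
    have h1 : AnalyticAt ℝ (S b c) (pf_ray E 0) := by
      rw [hΛ0]
      exact hS1 b c
    exact h1.comp ((pf_ray E).analyticAt 0)
  have hLe : ∀ᶠ w in 𝓝 (0 : E × ℝ), ∀ b c, ∀ σ : unitInterval,
      L b c w σ = A b c (p₀ + w.1, τ₀ + (σ : ℝ) * w.2) := by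
    refine Filter.eventually_all.2 fun b => Filter.eventually_all.2 fun c => ?_
    have h1 : Tendsto (pf_ray E) (𝓝 0) (𝓝 0) := by
      have h2 := (pf_ray E).continuous.tendsto 0
      rwa [hΛ0] at h2
    filter_upwards [h1.eventually (hS2 b c)] with w hw σ
    have h3 := hw σ
    rw [pf_ray_apply] at h3
    exact h3
  have hg : ∀ b, AnalyticAt ℝ (fun w : E × ℝ => G b (p₀ + w.1, τ₀) • (1 : C(unitInterval, ℝ))) 0 := by
    intro b
    have h1 : AnalyticAt ℝ (fun w : E × ℝ => p₀ + w.1) 0 := analyticAt_const.add analyticAt_fst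
    have h2 : AnalyticAt ℝ (fun p => G b (p, τ₀)) ((fun w : E × ℝ => p₀ + w.1) 0) := by
      have h3 : (fun w : E × ℝ => p₀ + w.1) 0 = p₀ := add_zero p₀
      rw [h3]
      exact h0 b
    have h4 : AnalyticAt ℝ (fun w : E × ℝ => G b (p₀ + w.1, τ₀)) 0 :=
      AnalyticAt.comp (g := fun p => G b (p, τ₀)) (f := fun w : E × ℝ => p₀ + w.1) h2 h1
    exact h4.smul analyticAt_const
  obtain ⟨c, hc1, hc2⟩ := pf_solve (Y := Fin m → C(unitInterval, ℝ)) (fun c => ContinuousLinearMap.proj c)
    (fun b => ContinuousLinearMap.single ℝ (fun _ => C(unitInterval, ℝ)) b) pf_prim hL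
    (u := fun w : E × ℝ => w.2) analyticAt_snd rfl hg
  have key : ∀ᶠ w in 𝓝 (0 : E × ℝ), ∀ b, c w b 1 = G b (p₀ + w.1, τ₀ + w.2) := by
    obtain ⟨ε, hε, hball⟩ := Metric.eventually_nhds_iff_ball.1 hG
    filter_upwards [hLe, hc2, Metric.ball_mem_nhds (0 : E × ℝ) hε] with w hw1 hw2 hw3 b
    have hmem : ∀ σ : ℝ, 0 ≤ σ → σ ≤ 1 → ((p₀ + w.1, τ₀ + σ * w.2) : E × ℝ) ∈ Metric.ball (p₀, τ₀) ε := by
      intro σ h1 h2
      rw [Metric.mem_ball, dist_eq_norm] at hw3 ⊢
      rw [sub_zero] at hw3
      rw [Prod.mk_sub_mk, add_sub_cancel_left, add_sub_cancel_left]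
      refine lt_of_le_of_lt (norm_prod_le_iff.2 ⟨norm_fst_le w, ?_⟩) hw3
      refine le_trans ?_ (norm_snd_le w)
      change ‖σ * w.2‖ ≤ ‖w.2‖
      rw [norm_mul, Real.norm_eq_abs, abs_of_nonneg h1]
      exact mul_le_of_le_one_left (norm_nonneg _) h2
    have hder : ∀ (b : Fin m) (σ : ℝ), 0 ≤ σ → σ ≤ 1 → HasDerivAt (fun x : ℝ => G b (p₀ + w.1, τ₀ + x * w.2))
        (w.2 * ∑ c, A b c (p₀ + w.1, τ₀ + σ * w.2) * G c (p₀ + w.1, τ₀ + σ * w.2)) σ := by
      intro b σ h1 h2
      have h3 := hball _ (hmem σ h1 h2) b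
      have h4 : HasDerivAt (fun x : ℝ => τ₀ + x * w.2) w.2 σ := by
        have h5 := ((hasDerivAt_id σ).mul_const w.2).const_add τ₀
        rw [one_mul] at h5
        exact h5
      have h6 := HasDerivAt.comp σ (h₂ := fun τ => G b (p₀ + w.1, τ)) h3 h4
      rw [mul_comm] at h6
      exact h6
    let γ : Fin m → C(unitInterval, ℝ) := fun b => ⟨fun σ => G b (p₀ + w.1, τ₀ + (σ : ℝ) * w.2), by
      refine continuous_iff_continuousAt.2 fun σ => ?_
      exact ContinuousAt.comp (g := fun x : ℝ => G b (p₀ + w.1, τ₀ + x * w.2))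
        (hder b σ σ.2.1 σ.2.2).continuousAt continuous_subtype_val.continuousAt⟩
    have hcγ : c w = γ := by
      refine hw2 γ ?_
      funext b
      refine ContinuousMap.ext fun σ => ?_
      have h2 : (∑ b, ∑ c, (ContinuousLinearMap.single ℝ (fun _ => C(unitInterval, ℝ)) b)
          (pf_prim (L b c w * (ContinuousLinearMap.proj (R := ℝ) (φ := fun _ => C(unitInterval, ℝ)) c) γ))) b =
          pf_prim (∑ c, L b c w * γ c) := by
        rw [Finset.sum_apply, Finset.sum_eq_single b]
        · rw [Finset.sum_apply, map_sum]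
          refine Finset.sum_congr rfl fun c _ => ?_
          change (Pi.single b (pf_prim (L b c w * γ c)) : Fin m → C(unitInterval, ℝ)) b = _
          rw [Pi.single_eq_same]
        · intro b' _ hb
          rw [Finset.sum_apply]
          refine Finset.sum_eq_zero fun c _ => ?_
          change (Pi.single b' (pf_prim (L b' c w * γ c)) : Fin m → C(unitInterval, ℝ)) b = 0
          rw [Pi.single_eq_of_ne (Ne.symm hb)]
        · intro h
          exact absurd (Finset.mem_univ _) h
      have h8 : (∑ b, (ContinuousLinearMap.single ℝ (fun _ => C(unitInterval, ℝ)) b)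
          (G b (p₀ + w.1, τ₀) • (1 : C(unitInterval, ℝ)))) b = G b (p₀ + w.1, τ₀) • (1 : C(unitInterval, ℝ)) := by
        rw [Finset.sum_apply, Finset.sum_eq_single b]
        · change (Pi.single b (G b (p₀ + w.1, τ₀) • (1 : C(unitInterval, ℝ))) : Fin m → C(unitInterval, ℝ)) b = _
          rw [Pi.single_eq_same]
        · intro b' _ hb
          change (Pi.single b' (G b' (p₀ + w.1, τ₀) • (1 : C(unitInterval, ℝ))) : Fin m → C(unitInterval, ℝ)) b = 0
          rw [Pi.single_eq_of_ne (Ne.symm hb)]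
        · intro h
          exact absurd (Finset.mem_univ _) h
      rw [h8, Pi.sub_apply, Pi.smul_apply, h2]
      change γ b σ - w.2 * (pf_prim (∑ c, L b c w * γ c)) σ = G b (p₀ + w.1, τ₀) • (1 : ℝ)
      rw [pf_prim_apply, ← intervalIntegral.integral_const_mul]
      have h3 := intervalIntegral.integral_eq_sub_of_hasDerivAt (a := 0) (b := (σ : ℝ))
        (f := fun x : ℝ => G b (p₀ + w.1, τ₀ + x * w.2))
        (f' := fun x : ℝ => w.2 * (∑ c, L b c w * γ c : C(unitInterval, ℝ)) (Set.projIcc 0 1 zero_le_one x))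
        (by
          intro x hx
          rw [Set.uIcc_of_le σ.2.1] at hx
          have hx1 : x ∈ Set.Icc (0 : ℝ) 1 := ⟨hx.1, hx.2.trans σ.2.2⟩
          have h4 := hder b x hx1.1 hx1.2
          rw [Set.projIcc_of_mem zero_le_one hx1, ContinuousMap.sum_apply]
          have h5 : (∑ c, (L b c w * γ c) (⟨x, hx1⟩ : unitInterval)) =
              ∑ c, A b c (p₀ + w.1, τ₀ + x * w.2) * G c (p₀ + w.1, τ₀ + x * w.2) := by
            refine Finset.sum_congr rfl fun c _ => ?_
            rw [ContinuousMap.mul_apply, hw1 b c ⟨x, hx1⟩]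
            rfl
          rw [h5]
          exact h4)
        ((continuous_const.mul ((∑ c, L b c w * γ c : C(unitInterval, ℝ)).continuous.comp
          continuous_projIcc)).intervalIntegrable _ _)
      rw [h3]
      have h6 : γ b σ = G b (p₀ + w.1, τ₀ + (σ : ℝ) * w.2) := rfl
      rw [h6, smul_eq_mul, mul_one]
      simp only [zero_mul, add_zero, sub_sub_cancel]
    rw [hcγ]
    change G b (p₀ + w.1, τ₀ + (1 : ℝ) * w.2) = _
    rw [one_mul]
  intro b
  have hsub : AnalyticAt ℝ (fun q : E × ℝ => q - (p₀, τ₀)) (p₀, τ₀) := analyticAt_id.sub analyticAt_const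
  have h1 : AnalyticAt ℝ (fun w => c w b 1) 0 := by
    have h2 : AnalyticAt ℝ (fun w => c w b) 0 := analyticAt_pi_iff.1 hc1 b
    exact ((ContinuousMap.evalCLM ℝ (1 : unitInterval)).analyticAt _).comp h2
  have h3 : AnalyticAt ℝ (fun q : E × ℝ => c (q - (p₀, τ₀)) b 1) (p₀, τ₀) := by
    have h5 : (p₀, τ₀) - (p₀, τ₀) = (0 : E × ℝ) := sub_self _
    rw [← h5] at h1
    exact AnalyticAt.comp (g := fun w => c w b 1) (f := fun q : E × ℝ => q - (p₀, τ₀)) h1 hsub
  refine h3.congr ?_
  have h6 : Tendsto (fun q : E × ℝ => q - (p₀, τ₀)) (𝓝 (p₀, τ₀)) (𝓝 0) := by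
    have h7 := hsub.continuousAt.tendsto
    rwa [sub_self] at h7
  filter_upwards [h6.eventually key] with q hq
  have h8 := hq b
  have h9 : ((p₀ + (q - (p₀, τ₀)).1, τ₀ + (q - (p₀, τ₀)).2) : E × ℝ) = q := by
    refine Prod.ext ?_ ?_
    · change p₀ + (q.1 - p₀) = q.1
      abel
    · change τ₀ + (q.2 - τ₀) = q.2
      abel
  rw [h9] at h8
  exact h8

/-- Solutions of a Pfaffian system in `θ` which are analytic in `t` for one value of `θ` are analytic in `(θ, t)`. -/
theorem analyticAt_of_pfaffian {s m : ℕ} {F : Fin m → (Fin s → ℝ) × ℝ → ℝ} {Γ : Fin s → Fin m → Fin m → (Fin s → ℝ) × ℝ → ℝ}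
    {θ₀ : Fin s → ℝ} {t₀ : ℝ} (hΓ : ∀ j b c, AnalyticAt ℝ (Γ j b c) (θ₀, t₀))
    (hF : ∀ᶠ p : (Fin s → ℝ) × ℝ in 𝓝 (θ₀, t₀), ∀ j b,
      HasDerivAt (fun τ : ℝ => F b (p.1 + τ • (Pi.single j 1 : Fin s → ℝ), p.2)) (∑ c, Γ j b c p * F c p) 0)
    (ht : ∀ b, AnalyticAt ℝ (fun t => F b (θ₀, t)) t₀) : ∀ b, AnalyticAt ℝ (F b) (θ₀, t₀) := by
  classical
  let P : Finset (Fin s) → (Fin s → ℝ) × ℝ → (Fin s → ℝ) × ℝ := fun J p => (fun i => if i ∈ J then p.1 i else θ₀ i, p.2)
  have hP0 : ∀ J, P J (θ₀, t₀) = (θ₀, t₀) := by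
    intro J
    refine Prod.ext ?_ rfl
    funext i
    change (if i ∈ J then θ₀ i else θ₀ i) = θ₀ i
    rw [ite_self]
  have hPa : ∀ J p, AnalyticAt ℝ (P J) p := by
    intro J p
    refine AnalyticAt.prod (analyticAt_pi_iff.2 fun i => ?_) analyticAt_snd
    by_cases hi : i ∈ J
    · simp only [if_pos hi]
      exact ((ContinuousLinearMap.proj (R := ℝ) (φ := fun _ : Fin s => ℝ) i).analyticAt _).comp analyticAt_fst
    · simp only [if_neg hi]
      exact analyticAt_const
  have main : ∀ J : Finset (Fin s), ∀ b, AnalyticAt ℝ (fun p => F b (P J p)) (θ₀, t₀) := by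
    intro J
    induction J using Finset.induction_on with
    | empty =>
      intro b
      have h1 : (fun p => F b (P ∅ p)) = fun p : (Fin s → ℝ) × ℝ => F b (θ₀, p.2) := by
        funext p
        have h2 : P ∅ p = (θ₀, p.2) := by
          refine Prod.ext ?_ rfl
          funext i
          change (if i ∈ (∅ : Finset (Fin s)) then p.1 i else θ₀ i) = θ₀ i
          rw [if_neg (Finset.notMem_empty i)]
        rw [h2]
      rw [h1]
      exact AnalyticAt.comp (g := fun t => F b (θ₀, t)) (f := fun p : (Fin s → ℝ) × ℝ => p.2) (ht b) analyticAt_snd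
    | insert j J hj ih =>
      -- the affine map `(p, τ) ↦ P J p + (τ - θ₀ j) e_j`
      let R : ((Fin s → ℝ) × ℝ) × ℝ → (Fin s → ℝ) × ℝ := fun q =>
        ((P J q.1).1 + (q.2 - θ₀ j) • (Pi.single j 1 : Fin s → ℝ), (P J q.1).2)
      have hR0 : R ((θ₀, t₀), θ₀ j) = (θ₀, t₀) := by
        change ((P J (θ₀, t₀)).1 + (θ₀ j - θ₀ j) • (Pi.single j 1 : Fin s → ℝ), (P J (θ₀, t₀)).2) = (θ₀, t₀)
        rw [hP0, sub_self, zero_smul, add_zero]
      have hRa : ∀ q, AnalyticAt ℝ R q := by
        intro q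
        have h1 : AnalyticAt ℝ (fun q : ((Fin s → ℝ) × ℝ) × ℝ => P J q.1) q :=
          AnalyticAt.comp (g := P J) (f := fun q : ((Fin s → ℝ) × ℝ) × ℝ => q.1) (hPa J q.1) analyticAt_fst
        have h2 : AnalyticAt ℝ (fun q : ((Fin s → ℝ) × ℝ) × ℝ => (P J q.1).1) q :=
          AnalyticAt.comp (g := Prod.fst) (f := fun q : ((Fin s → ℝ) × ℝ) × ℝ => P J q.1) analyticAt_fst h1
        have h3 : AnalyticAt ℝ (fun q : ((Fin s → ℝ) × ℝ) × ℝ => (P J q.1).2) q :=
          AnalyticAt.comp (g := Prod.snd) (f := fun q : ((Fin s → ℝ) × ℝ) × ℝ => P J q.1) analyticAt_snd h1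
        have h4 : AnalyticAt ℝ (fun q : ((Fin s → ℝ) × ℝ) × ℝ => (q.2 - θ₀ j) • (Pi.single j 1 : Fin s → ℝ)) q :=
          AnalyticAt.smul (analyticAt_snd.sub analyticAt_const) analyticAt_const
        exact AnalyticAt.prod (h2.add h4) h3
      have hstep := pf_step (E := (Fin s → ℝ) × ℝ) (G := fun b q => F b (R q)) (A := fun b c q => Γ j b c (R q))
        (p₀ := (θ₀, t₀)) (τ₀ := θ₀ j)
        (by
          intro b c
          have h1 := hΓ j b c
          rw [← hR0] at h1
          exact AnalyticAt.comp (g := Γ j b c) (f := R) h1 (hRa _))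
        (by
          have h1 : Tendsto R (𝓝 ((θ₀, t₀), θ₀ j)) (𝓝 (θ₀, t₀)) := by
            have h2 := (hRa ((θ₀, t₀), θ₀ j)).continuousAt.tendsto
            rwa [hR0] at h2
          filter_upwards [h1.eventually hF] with q hq b
          have h2 := hq j b
          have h3 : HasDerivAt (fun τ : ℝ => τ - q.2) 1 q.2 := (hasDerivAt_id q.2).sub_const q.2
          have h4 : HasDerivAt (fun τ : ℝ => F b ((R q).1 + (τ - q.2) • (Pi.single j 1 : Fin s → ℝ), (R q).2))
              ((∑ c, Γ j b c (R q) * F c (R q)) * 1) q.2 := by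
            have h5 : HasDerivAt (fun τ : ℝ => F b ((R q).1 + τ • (Pi.single j 1 : Fin s → ℝ), (R q).2))
                (∑ c, Γ j b c (R q) * F c (R q)) (q.2 - q.2) := by
              rw [sub_self]
              exact h2
            exact HasDerivAt.comp q.2
              (h₂ := fun τ : ℝ => F b ((R q).1 + τ • (Pi.single j 1 : Fin s → ℝ), (R q).2)) h5 h3
          rw [mul_one] at h4
          have h6 : (fun τ : ℝ => F b (R (q.1, τ))) =
              fun τ : ℝ => F b ((R q).1 + (τ - q.2) • (Pi.single j 1 : Fin s → ℝ), (R q).2) := by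
            funext τ
            have h7 : R (q.1, τ) = ((R q).1 + (τ - q.2) • (Pi.single j 1 : Fin s → ℝ), (R q).2) := by
              refine Prod.ext ?_ rfl
              change (P J q.1).1 + (τ - θ₀ j) • (Pi.single j 1 : Fin s → ℝ) =
                ((P J q.1).1 + (q.2 - θ₀ j) • (Pi.single j 1 : Fin s → ℝ)) + (τ - q.2) • (Pi.single j 1 : Fin s → ℝ)
              rw [add_assoc, ← add_smul]
              congr 2
              ring
            rw [h7]
          rw [h6]
          exact h4)
        (by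
          intro b
          have h1 : (fun p : (Fin s → ℝ) × ℝ => F b (R (p, θ₀ j))) = fun p => F b (P J p) := by
            funext p
            have h2 : R (p, θ₀ j) = P J p := by
              change ((P J p).1 + (θ₀ j - θ₀ j) • (Pi.single j 1 : Fin s → ℝ), (P J p).2) = P J p
              rw [sub_self, zero_smul, add_zero]
            rw [h2]
          rw [h1]
          exact ih b)
      intro b
      have h1 : (fun p : (Fin s → ℝ) × ℝ => F b (P (insert j J) p)) = fun p => F b (R (p, p.1 j)) := by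
        funext p
        have h2 : P (insert j J) p = R (p, p.1 j) := by
          refine Prod.ext ?_ rfl
          funext i
          change (if i ∈ insert j J then p.1 i else θ₀ i) =
            (if i ∈ J then p.1 i else θ₀ i) + (p.1 j - θ₀ j) • (Pi.single j 1 : Fin s → ℝ) i
          by_cases hi : i = j
          · subst hi
            rw [if_pos (Finset.mem_insert_self _ _), if_neg hj, Pi.single_eq_same, smul_eq_mul, mul_one]
            ring
          · rw [Pi.single_eq_of_ne hi, smul_zero, add_zero]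
            by_cases hiJ : i ∈ J
            · rw [if_pos hiJ, if_pos (Finset.mem_insert_of_mem hiJ)]
            · rw [if_neg hiJ, if_neg (fun h => (Finset.mem_insert.1 h).elim hi hiJ)]
        rw [h2]
      rw [h1]
      have h3 : AnalyticAt ℝ (fun p : (Fin s → ℝ) × ℝ => (p, p.1 j)) (θ₀, t₀) :=
        AnalyticAt.prod analyticAt_id
          (((ContinuousLinearMap.proj (R := ℝ) (φ := fun _ : Fin s => ℝ) j).analyticAt _).comp analyticAt_fst)
      exact AnalyticAt.comp (g := fun q => F b (R q)) (f := fun p : (Fin s → ℝ) × ℝ => (p, p.1 j)) (hstep b) h3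
  intro b
  have h1 := main Finset.univ b
  have h2 : (fun p => F b (P Finset.univ p)) = F b := by
    funext p
    have h3 : P Finset.univ p = p := by
      refine Prod.ext ?_ rfl
      funext i
      change (if i ∈ Finset.univ then p.1 i else θ₀ i) = p.1 i
      rw [if_pos (Finset.mem_univ i)]
    rw [h3]
  rw [h2] at h1
  exact h1

end Pool.Agent.Lib.MP_bbe012_lc.PM
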