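import Mathlib

/-!
# Derivatives in `t` of analytic functions of `(θ, t)`, and a limit
-/

namespace Pool.Agent.Lib.MP_bbe012_lc.PM

open Filter Topology Set
open scoped Nat

section two

variable {E : Type*} [NormedAddCommGroup E] [NormedSpace ℝ E]

/-- The derivative in `t`. -/
noncomputable def dT (H : E × ℝ → ℝ) (p : E × ℝ) : ℝ := fderiv ℝ H p (0, 1)

theorem analyticAt_dT {H : E × ℝ → ℝ} {p : E × ℝ} (hH : AnalyticAt ℝ H p) : AnalyticAt ℝ (dT H) p := by
  have h1 := hH.fderiv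
  exact (ContinuousLinearMap.analyticAt
    (ContinuousLinearMap.apply ℝ ℝ ((0 : E), (1 : ℝ))) _).comp h1

theorem analyticAt_iter {H : E × ℝ → ℝ} {p : E × ℝ} (hH : AnalyticAt ℝ H p) (ν : ℕ) :
    AnalyticAt ℝ (dT^[ν] H) p := by
  induction ν with
  | zero => exact hH
  | succ ν ih =>
    rw [Function.iterate_succ_apply']
    exact analyticAt_dT ih

theorem deriv_slice {H : E × ℝ → ℝ} {θ : E} {t : ℝ} (hH : AnalyticAt ℝ H (θ, t)) :
    deriv (fun τ => H (θ, τ)) t = dT H (θ, t) := by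
  have h1 : HasFDerivAt H (fderiv ℝ H (θ, t)) (θ, t) := hH.differentiableAt.hasFDerivAt
  have h2 : HasDerivAt (fun τ : ℝ => (θ, τ)) ((0 : E), (1 : ℝ)) t :=
    (hasDerivAt_const t θ).prodMk (hasDerivAt_id t)
  exact (h1.comp_hasDerivAt t h2).deriv

theorem iteratedDeriv_slice {H : E × ℝ → ℝ} {θ : E} {M : ℝ} (hH : AnalyticAt ℝ H (θ, M)) (ν : ℕ) :
    iteratedDeriv ν (fun t => H (θ, t)) =ᶠ[𝓝 M] fun t => dT^[ν] H (θ, t) := by
  induction ν with
  | zero => rw [iteratedDeriv_zero]; exact EventuallyEq.rfl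
  | succ ν ih =>
    rw [iteratedDeriv_succ]
    refine ih.deriv.trans ?_
    have h1 : ∀ᶠ p in 𝓝 (θ, M), AnalyticAt ℝ (dT^[ν] H) p :=
      (analyticAt_iter hH ν).eventually_analyticAt
    have h2 : Tendsto (fun t : ℝ => (θ, t)) (𝓝 M) (𝓝 (θ, M)) :=
      (continuous_const.prodMk continuous_id).tendsto M
    filter_upwards [h2.eventually h1] with t ht
    rw [deriv_slice ht, Function.iterate_succ_apply']

/-- The value at `t = M` of the `ν`-th derivative in `t` is analytic in `θ`. -/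
theorem analyticAt_iteratedDeriv {H : E × ℝ → ℝ} {θ : E} {M : ℝ}
    (hH : AnalyticAt ℝ H (θ, M)) (ν : ℕ) :
    AnalyticAt ℝ (fun θ' => iteratedDeriv ν (fun t => H (θ', t)) M) θ := by
  have h1 : AnalyticAt ℝ (fun θ' : E => dT^[ν] H (θ', M)) θ := by
    have h2 : AnalyticAt ℝ (fun θ' : E => (θ', M)) θ := analyticAt_id.prod analyticAt_const
    exact AnalyticAt.comp (g := dT^[ν] H) (f := fun θ' : E => (θ', M)) (x := θ)
      (analyticAt_iter hH ν) h2
  refine h1.congr ?_
  have h3 : ∀ᶠ p in 𝓝 (θ, M), AnalyticAt ℝ H p := hH.eventually_analyticAt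
  have h4 : Tendsto (fun θ' : E => (θ', M)) (𝓝 θ) (𝓝 (θ, M)) :=
    (continuous_id.prodMk continuous_const).tendsto θ
  filter_upwards [h4.eventually h3] with θ' hθ'
  exact ((iteratedDeriv_slice hθ' ν).eq_of_nhds).symm

end two

section one

theorem iteratedDeriv_mul_sub {G : ℝ → ℝ} {M : ℝ} (hG : AnalyticAt ℝ G M) (ν : ℕ) :
    iteratedDeriv (ν + 1) (fun t => (t - M) * G t) =ᶠ[𝓝 M]
      fun t => (t - M) * iteratedDeriv (ν + 1) G t + (ν + 1) * iteratedDeriv ν G t := by
  have hA : ∀ ν, AnalyticAt ℝ (iteratedDeriv ν G) M := by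
    intro ν
    rw [iteratedDeriv_eq_iterate]
    exact hG.iterated_deriv ν
  have hd : ∀ ν, ∀ᶠ t in 𝓝 M, HasDerivAt (iteratedDeriv ν G) (iteratedDeriv (ν + 1) G t) t := by
    intro ν
    filter_upwards [(hA ν).eventually_analyticAt] with t ht
    rw [iteratedDeriv_succ]
    exact ht.differentiableAt.hasDerivAt
  induction ν with
  | zero =>
    rw [zero_add, iteratedDeriv_one, iteratedDeriv_one]
    filter_upwards [hd 0] with t ht
    rw [iteratedDeriv_zero, zero_add, iteratedDeriv_one] at ht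
    have h1 := ((hasDerivAt_id t).sub_const M).mul ht
    rw [iteratedDeriv_zero]
    refine h1.deriv.trans ?_
    simp only [id]
    push_cast
    ring
  | succ ν ih =>
    rw [iteratedDeriv_succ]
    refine ih.deriv.trans ?_
    filter_upwards [hd ν, hd (ν + 1)] with t ht1 ht2
    have h1 := (((hasDerivAt_id t).sub_const M).mul ht2).add (ht1.const_mul ((ν : ℝ) + 1))
    refine h1.deriv.trans ?_
    simp only [id]
    push_cast
    ring

/-- If `G(t) = (t - M)^ν J(t)` for `t > M` near `M` and `J → L`, the `ν`-th derivative of `G` at `M` is `ν! L`. -/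
theorem iteratedDeriv_of_tendsto (ν : ℕ) {J : ℝ → ℝ} {M L : ℝ} (hJ : Tendsto J (𝓝[>] M) (𝓝 L)) :
    ∀ {G : ℝ → ℝ}, AnalyticAt ℝ G M → (∀ᶠ t in 𝓝[>] M, G t = (t - M) ^ ν * J t) →
      iteratedDeriv ν G M = (ν ! : ℝ) * L := by
  induction ν with
  | zero =>
    intro G hG h
    rw [iteratedDeriv_zero, Nat.factorial_zero, Nat.cast_one, one_mul]
    have h1 : Tendsto G (𝓝[>] M) (𝓝 (G M)) := hG.continuousAt.tendsto.mono_left nhdsWithin_le_nhds
    have h2 : Tendsto G (𝓝[>] M) (𝓝 L) := by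
      refine hJ.congr' ?_
      filter_upwards [h] with t ht
      rw [ht, pow_zero, one_mul]
    exact tendsto_nhds_unique h1 h2
  | succ ν ih =>
    intro G hG h
    have h0 : G M = 0 := by
      have h1 : Tendsto G (𝓝[>] M) (𝓝 (G M)) :=
        hG.continuousAt.tendsto.mono_left nhdsWithin_le_nhds
      have h2 : Tendsto (fun t : ℝ => (t - M) ^ (ν + 1) * J t) (𝓝[>] M) (𝓝 (0 * L)) := by
        refine Tendsto.mul ?_ hJ
        have h3 : Tendsto (fun t : ℝ => (t - M) ^ (ν + 1)) (𝓝 M) (𝓝 ((M - M) ^ (ν + 1))) := by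
          have : Continuous fun t : ℝ => (t - M) ^ (ν + 1) := by fun_prop
          exact this.tendsto M
        rw [sub_self, zero_pow (Nat.succ_ne_zero ν)] at h3
        exact h3.mono_left nhdsWithin_le_nhds
      rw [zero_mul] at h2
      refine tendsto_nhds_unique h1 (h2.congr' ?_)
      filter_upwards [h] with t ht
      exact ht.symm
    obtain ⟨p, hp⟩ := hG
    have hG1 : AnalyticAt ℝ (dslope G M) M := ⟨_, hp.has_fpower_series_dslope_fslope⟩
    have hmul : ∀ t, G t = (t - M) * dslope G M t := by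
      intro t
      have := sub_smul_dslope G M t
      rw [smul_eq_mul, h0, sub_zero] at this
      exact this.symm
    have h1 := ih hG1 (by
      filter_upwards [h, self_mem_nhdsWithin] with t ht htM
      have htM' : t - M ≠ 0 := sub_ne_zero.mpr (ne_of_gt htM)
      rw [hmul t, pow_succ'] at ht
      have h2 : (t - M) * dslope G M t = (t - M) * ((t - M) ^ ν * J t) := by rw [ht]; ring
      exact mul_left_cancel₀ htM' h2)
    have h2 : G = fun t => (t - M) * dslope G M t := funext hmul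
    rw [h2, (iteratedDeriv_mul_sub hG1 ν).eq_of_nhds, h1, sub_self, zero_mul, zero_add,
      Nat.factorial_succ]
    push_cast
    ring

theorem contDiffAt_of_analyticAt {G : ℝ → ℝ} {M : ℝ} (hG : AnalyticAt ℝ G M) (ν : ℕ) :
    ContDiffAt ℝ ν G M := hG.contDiffAt

theorem iteratedDeriv_lin {N : ℕ} (ν : ℕ) (P : Fin N → ℝ) {G : Fin N → ℝ → ℝ} {M : ℝ}
    (hG : ∀ i, AnalyticAt ℝ (G i) M) :
    iteratedDeriv ν (fun t => ∑ i, P i * G i t) M = ∑ i, P i * iteratedDeriv ν (G i) M := by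
  rw [iteratedDeriv_fun_sum (fun i _ => (contDiffAt_const.mul (contDiffAt_of_analyticAt (hG i) ν)))]
  exact Finset.sum_congr rfl fun i _ => iteratedDeriv_const_mul_field (P i) (G i)

end one

end Pool.Agent.Lib.MP_bbe012_lc.PM
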