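import Pool.Agent.Lib.MP_bbe012_lc.PM.Vx3

/-!
# The regularised integral of a combination, for all positive exponents
-/

namespace Pool.Agent.Lib.MP_bbe012_lc.PM

open MvPolynomial MeasureTheory Set PP PG Filter Topology

theorem analyticAt_poly {s : ℕ} (f : MvPolynomial (Fin (s + 1)) ℚ) (q : (Fin s → ℝ) × ℝ) :
    AnalyticAt ℝ (fun q : (Fin s → ℝ) × ℝ => (aeval (Fin.snoc q.1 q.2 : Fin (s + 1) → ℝ) f : ℝ)) q := by
  induction f using MvPolynomial.induction_on with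
  | C a => simp only [aeval_C]; exact analyticAt_const
  | add p q hp hq => simp only [map_add]; exact hp.add hq
  | mul_X p i hp =>
    simp only [map_mul, aeval_X]
    refine hp.mul ?_
    refine Fin.lastCases ?_ (fun i => ?_) i
    · simp only [Fin.snoc_last]
      exact analyticAt_snd
    · simp only [Fin.snoc_castSucc]
      exact ((ContinuousLinearMap.proj (R := ℝ) (φ := fun _ : Fin s => ℝ) i).comp
        (ContinuousLinearMap.fst ℝ (Fin s → ℝ) ℝ)).analyticAt q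

theorem analyticAt_poly_t {s : ℕ} (f : MvPolynomial (Fin (s + 1)) ℚ) (θ : Fin s → ℝ) (t : ℝ) :
    AnalyticAt ℝ (fun t : ℝ => (aeval (Fin.snoc θ t : Fin (s + 1) → ℝ) f : ℝ)) t := by
  have h1 : AnalyticAt ℝ (fun t : ℝ => (θ, t)) t := analyticAt_const.prod analyticAt_id
  exact AnalyticAt.comp (g := fun q : (Fin s → ℝ) × ℝ =>
    (aeval (Fin.snoc q.1 q.2 : Fin (s + 1) → ℝ) f : ℝ)) (f := fun t : ℝ => (θ, t)) (x := t)
    (analyticAt_poly f (θ, t)) h1

/-- The regularised integral as a combination of `FI`, for large exponents. -/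
theorem reg_large {s n r N : ℕ} (p : Fin r → Pz s n) (W : Fin N → Pz s n) (k M : ℕ)
    (θ : Fin s → ℝ) (P : Fin N → ℝ) {t : ℝ} (ht : (k : ℝ) ≤ t) :
    ∫ x in rg p θ, (∑ i, P i * vl (W i) θ x) / vl (hh p) θ x ^ k * vl (hh p) θ x ^ t =
      ∑ i, P i * FI p (up (W i)) (k + M) θ (t + M) := by
  have h1 : ∀ i, P i * FI p (up (W i)) (k + M) θ (t + M) =
      ∫ x in rg p θ, P i * (vl (W i) θ x * vl (hh p) θ x ^ (t - k)) := by
    intro i
    rw [integral_const_mul, FI]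
    congr 1
    refine setIntegral_congr_fun (vx_rg_meas p θ) fun x _ => ?_
    rw [vx_vl_up]
    congr 2
    push_cast
    ring
  simp only [h1]
  rw [← integral_finsetSum]
  · refine setIntegral_congr_fun (vx_rg_meas p θ) fun x hx => ?_
    have hp := vx_hh_pos p θ hx
    change (∑ i, P i * vl (W i) θ x) / vl (hh p) θ x ^ k * vl (hh p) θ x ^ t =
      ∑ i, P i * (vl (W i) θ x * vl (hh p) θ x ^ (t - k))
    rw [Real.rpow_sub hp, Real.rpow_natCast, div_mul_eq_mul_div, mul_div_assoc, Finset.sum_mul]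
    exact Finset.sum_congr rfl fun i _ => by ring
  · intro i _
    exact (vx_int p θ (vx_vl_cont (W i) θ) (by linarith)).const_mul _

/-- The identity which continues analytically. -/
theorem reg_identity {s n r N m : ℕ} (p : Fin r → Pz s n) (W : Fin N → Pz s n) (k M k₀ : ℕ)
    (hM : k₀ ≤ M)
    {e : Fin m → Pz (s + 1) n} {δ : Fin N → MvPolynomial (Fin (s + 1)) ℚ}
    {c : Fin N → Fin m → MvPolynomial (Fin (s + 1)) ℚ} {K : Fin N → ℕ}
    {g : Fin N → Fin n → Pz (s + 1) n} (hk : ∀ i, k + M ≤ K i + 1) (hk₀ : ∀ i, k₀ ≤ K i + 1)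
    (hid : ∀ i, par n (δ i) * up (W i) * up (hh p) ^ (K i + 1 - (k + M)) =
      (∑ b, par n (c i b) * e b) * up (hh p) ^ (K i + 1 - k₀) + dv (hh p) (K i) (g i))
    (θ : Fin s → ℝ) (P : Fin N → ℝ)
    (hu : IntegrableOn (fun x => (∑ i, P i * vl (W i) θ x) / vl (hh p) θ x ^ k) (rg p θ))
    {t : ℝ} (ht : 0 < t) :
    aeval (Fin.snoc θ (t + M) : Fin (s + 1) → ℝ) (∏ i, δ i) *
      ∫ x in rg p θ, (∑ i, P i * vl (W i) θ x) / vl (hh p) θ x ^ k * vl (hh p) θ x ^ t =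
      ∑ i, P i * ∑ b, aeval (Fin.snoc θ (t + M) : Fin (s + 1) → ℝ)
        (c i b * ∏ j ∈ Finset.univ.erase i, δ j) * FI p (e b) k₀ θ (t + M) := by
  have hadd : ∀ t : ℝ, AnalyticAt ℝ (fun t : ℝ => t + (M : ℝ)) t :=
    fun t => analyticAt_id.add analyticAt_const
  have hpoly : ∀ (f : MvPolynomial (Fin (s + 1)) ℚ) (t : ℝ),
      AnalyticAt ℝ (fun t : ℝ => (aeval (Fin.snoc θ (t + M) : Fin (s + 1) → ℝ) f : ℝ)) t := by
    intro f t
    exact AnalyticAt.comp (g := fun t : ℝ => (aeval (Fin.snoc θ t : Fin (s + 1) → ℝ) f : ℝ))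
      (f := fun t : ℝ => t + (M : ℝ)) (x := t) (analyticAt_poly_t f θ (t + M)) (hadd t)
  have hA1 : AnalyticOnNhd ℝ (fun t : ℝ => (aeval (Fin.snoc θ (t + M) : Fin (s + 1) → ℝ) (∏ i, δ i) : ℝ) *
      ∫ x in rg p θ, (∑ i, P i * vl (W i) θ x) / vl (hh p) θ x ^ k * vl (hh p) θ x ^ t) (Ioi 0) :=
    fun t ht => (hpoly _ t).mul ((mellin p θ hu).1 t ht)
  have hA2 : AnalyticOnNhd ℝ (fun t : ℝ => ∑ i, P i * ∑ b,
      (aeval (Fin.snoc θ (t + M) : Fin (s + 1) → ℝ) (c i b * ∏ j ∈ Finset.univ.erase i, δ j) : ℝ) *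
        FI p (e b) k₀ θ (t + M)) (Ioi 0) := by
    intro t ht
    refine Finset.analyticAt_fun_sum _ fun i _ => analyticAt_const.mul ?_
    refine Finset.analyticAt_fun_sum _ fun b _ => (hpoly _ t).mul ?_
    refine AnalyticAt.comp (g := fun t : ℝ => FI p (e b) k₀ θ t) (f := fun t : ℝ => t + (M : ℝ))
      (x := t) (FI_analytic p (e b) k₀ θ ?_) (hadd t)
    have h1 : (k₀ : ℝ) ≤ M := by exact_mod_cast hM
    have h2 : (0 : ℝ) < t := ht
    linarith
  have hlarge : ∀ t : ℝ, (k : ℝ) + ∑ i, ((K i : ℝ) + 2) < t →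
      (aeval (Fin.snoc θ (t + M) : Fin (s + 1) → ℝ) (∏ i, δ i) : ℝ) *
      ∫ x in rg p θ, (∑ i, P i * vl (W i) θ x) / vl (hh p) θ x ^ k * vl (hh p) θ x ^ t =
      ∑ i, P i * ∑ b, (aeval (Fin.snoc θ (t + M) : Fin (s + 1) → ℝ)
        (c i b * ∏ j ∈ Finset.univ.erase i, δ j) : ℝ) * FI p (e b) k₀ θ (t + M) := by
    intro t ht
    have hs0 : ∀ i, 0 ≤ (K i : ℝ) + 2 := fun i => by positivity
    have hsum : ∀ i, (K i : ℝ) + 2 ≤ ∑ i, ((K i : ℝ) + 2) := fun i =>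
      Finset.single_le_sum (f := fun i => (K i : ℝ) + 2) (fun i _ => hs0 i) (Finset.mem_univ i)
    have hsum0 : 0 ≤ ∑ i, ((K i : ℝ) + 2) := Finset.sum_nonneg fun i _ => hs0 i
    have hM0 : (0 : ℝ) ≤ M := Nat.cast_nonneg M
    rw [reg_large p W k M θ P (by linarith), Finset.mul_sum]
    refine Finset.sum_congr rfl fun i _ => ?_
    have h1 := FI_span p (hk i) (hk₀ i) (hid i) θ (t := t + M) (by
      have := hsum i
      have hk0 : (0 : ℝ) ≤ k := Nat.cast_nonneg k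
      linarith)
    have h2 : (aeval (Fin.snoc θ (t + M) : Fin (s + 1) → ℝ) (∏ i, δ i) : ℝ) =
        aeval (Fin.snoc θ (t + M) : Fin (s + 1) → ℝ) (∏ j ∈ Finset.univ.erase i, δ j) *
          aeval (Fin.snoc θ (t + M) : Fin (s + 1) → ℝ) (δ i) := by
      rw [← map_mul, mul_comm, Finset.mul_prod_erase _ _ (Finset.mem_univ i)]
    rw [h2]
    calc _ = P i * (aeval (Fin.snoc θ (t + M) : Fin (s + 1) → ℝ) (∏ j ∈ Finset.univ.erase i, δ j) *
          (aeval (Fin.snoc θ (t + M) : Fin (s + 1) → ℝ) (δ i) *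
            FI p (up (W i)) (k + M) θ (t + M))) := by ring
      _ = _ := by
        rw [h1, Finset.mul_sum]
        congr 1
        refine Finset.sum_congr rfl fun b _ => ?_
        rw [map_mul]
        ring
  set T0 : ℝ := (k : ℝ) + ∑ i, ((K i : ℝ) + 2) with hT0
  have hT0' : 0 ≤ T0 := by
    rw [hT0]
    have hsum0 : 0 ≤ ∑ i, ((K i : ℝ) + 2) := Finset.sum_nonneg fun i _ => by positivity
    have hk0 : (0 : ℝ) ≤ k := Nat.cast_nonneg k
    linarith
  have hpre : IsPreconnected (Ioi (0 : ℝ)) := isPreconnected_Ioi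
  have hmem : T0 + 1 ∈ Ioi (0 : ℝ) := by
    change 0 < T0 + 1
    linarith
  have hev := hA1.eqOn_of_preconnected_of_eventuallyEq hA2 hpre hmem (by
    filter_upwards [lt_mem_nhds (show T0 < T0 + 1 by linarith)] with t ht
    exact hlarge t ht)
  exact hev ht

end Pool.Agent.Lib.MP_bbe012_lc.PM
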