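import Pool.Agent.Lib.MP_bbe012_lc.PM.Vx1
import Pool.Agent.Lib.MP_bbe012_lc.PM.Vx2
import Pool.Agent.Lib.MP_bbe012_lc.PM.Vx4
import Pool.Agent.Lib.MP_bbe012_lc.PM.Pf
import Pool.Agent.Lib.MP_bbe012_lc.PM.Span

/-!
# The values of the absolutely convergent integrals as analytic functions of `θ`
-/

namespace Pool.Agent.Lib.MP_bbe012_lc.PM

open MvPolynomial MeasureTheory Set PP PG Filter Topology
open scoped Nat

/-- The basic integrals are analytic at `(θ₀, M)` if the system of differential equations is regular there. -/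
theorem FI_analyticAt {s n r m : ℕ} (p : Fin r → Pz s n) (k₀ M : ℕ) {e : Fin m → Pz (s + 1) n}
    {δ : Fin s × Fin m → MvPolynomial (Fin (s + 1)) ℚ}
    {c : Fin s × Fin m → Fin m → MvPolynomial (Fin (s + 1)) ℚ} {K : Fin s × Fin m → ℕ}
    {g : Fin s × Fin m → Fin n → Pz (s + 1) n}
    (hk : ∀ q, k₀ + 1 ≤ K q + 1) (hk₀ : ∀ q, k₀ ≤ K q + 1)
    (hid : ∀ q : Fin s × Fin m, par n (δ q) * td (hh p) k₀ (e q.2) q.1 * up (hh p) ^ (K q + 1 - (k₀ + 1)) =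
      (∑ b, par n (c q b) * e b) * up (hh p) ^ (K q + 1 - k₀) + dv (hh p) (K q) (g q))
    (hM : k₀ + 2 ≤ M) (hMK : ∀ q, K q + 2 ≤ M) (θ₀ : Fin s → ℝ)
    (hδ : ∀ q, (aeval (Fin.snoc θ₀ (M : ℝ) : Fin (s + 1) → ℝ) (δ q) : ℝ) ≠ 0) (b : Fin m) :
    AnalyticAt ℝ (fun q : (Fin s → ℝ) × ℝ => FI p (e b) k₀ q.1 q.2) (θ₀, (M : ℝ)) := by
  refine analyticAt_of_pfaffian (F := fun b (q : (Fin s → ℝ) × ℝ) => FI p (e b) k₀ q.1 q.2)
    (Γ := fun j b c' (q : (Fin s → ℝ) × ℝ) =>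
      (aeval (Fin.snoc q.1 q.2 : Fin (s + 1) → ℝ) (c (j, b) c') : ℝ) /
        (aeval (Fin.snoc q.1 q.2 : Fin (s + 1) → ℝ) (δ (j, b)) : ℝ))
    (θ₀ := θ₀) (t₀ := (M : ℝ)) ?_ ?_ ?_ b
  · intro j b c'
    exact (analyticAt_poly _ _).div (analyticAt_poly _ _) (hδ (j, b))
  · have h1 : ∀ᶠ q : (Fin s → ℝ) × ℝ in 𝓝 (θ₀, (M : ℝ)), (k₀ : ℝ) + 1 < q.2 := by
      refine (continuous_snd.tendsto (θ₀, (M : ℝ))).eventually (lt_mem_nhds ?_)
      have : ((k₀ + 2 : ℕ) : ℝ) ≤ M := by exact_mod_cast hM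
      push_cast at this
      change (k₀ : ℝ) + 1 < (M : ℝ)
      linarith
    have h2 : ∀ᶠ q : (Fin s → ℝ) × ℝ in 𝓝 (θ₀, (M : ℝ)), ∀ jb, (K jb : ℝ) + 1 < q.2 := by
      rw [eventually_all]
      intro jb
      refine (continuous_snd.tendsto (θ₀, (M : ℝ))).eventually (lt_mem_nhds ?_)
      have : ((K jb + 2 : ℕ) : ℝ) ≤ M := by exact_mod_cast hMK jb
      push_cast at this
      change (K jb : ℝ) + 1 < (M : ℝ)
      linarith
    have h3 : ∀ᶠ q : (Fin s → ℝ) × ℝ in 𝓝 (θ₀, (M : ℝ)), ∀ jb,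
        (aeval (Fin.snoc q.1 q.2 : Fin (s + 1) → ℝ) (δ jb) : ℝ) ≠ 0 := by
      rw [eventually_all]
      intro jb
      exact (analyticAt_poly (δ jb) (θ₀, (M : ℝ))).continuousAt.eventually_ne (hδ jb)
    filter_upwards [h1, h2, h3] with q hq1 hq2 hq3 j b
    have h4 := FI_deriv p (e b) k₀ hq1 q.1 j
    refine h4.congr_deriv ?_
    have h5 := FI_span p (hk (j, b)) (hk₀ (j, b)) (hid (j, b)) q.1 (hq2 (j, b))
    have h6 := hq3 (j, b)
    change FI p (td (hh p) k₀ (e b) j) (k₀ + 1) q.1 q.2 = _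
    change _ * FI p (td (hh p) k₀ (e b) j) (k₀ + 1) q.1 q.2 = _ at h5
    rw [← mul_right_inj' h6, h5, Finset.mul_sum]
    refine Finset.sum_congr rfl fun c' _ => ?_
    change _ = _ * (_ / _ * FI p (e c') k₀ q.1 q.2)
    field_simp
  · intro b
    refine FI_analytic p (e b) k₀ θ₀ ?_
    have : ((k₀ + 2 : ℕ) : ℝ) ≤ M := by exact_mod_cast hM
    push_cast at this
    linarith

theorem exists_V {s n r N : ℕ} (p : Fin r → Pz s n) (hp : hh p ≠ 0) (W : Fin N → Pz s n) (k : ℕ) :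
    ∃ (z : MvPolynomial (Fin s) ℚ) (V : Fin N → (Fin s → ℝ) → ℝ), z ≠ 0 ∧
      (∀ i, AnalyticOnNhd ℝ (V i) {θ | aeval θ z ≠ 0}) ∧
      ∀ θ : Fin s → ℝ, aeval θ z ≠ 0 → ∀ P : Fin N → ℝ,
        IntegrableOn (fun x => (∑ i, P i * vl (W i) θ x) / vl (hh p) θ x ^ k) (rg p θ) →
          ∫ x in rg p θ, (∑ i, P i * vl (W i) θ x) / vl (hh p) θ x ^ k = ∑ i, P i * V i θ := by
  obtain ⟨m, k₀, e, hspan⟩ := exists_span hp
  -- the system of differential equations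
  choose δ c K g hδ hK hK0 hid using fun q : Fin s × Fin m => hspan (td (hh p) k₀ (e q.2) q.1) (k₀ + 1)
  -- the integer `M`
  obtain ⟨M, hM, hM2⟩ := exists_M (f := ∏ q, δ q) (Finset.prod_ne_zero_iff.mpr fun q _ => hδ q)
    (k₀ + 2 + ∑ q, (K q + 2))
  have hMK : ∀ q, K q + 2 ≤ M := fun q => by
    have := Finset.single_le_sum (f := fun q => K q + 2) (fun _ _ => Nat.zero_le _) (Finset.mem_univ q)
    omega
  -- the fractions `W i / h ^ (k + M)`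
  choose δ' c' K' g' hδ' hK' hK0' hid' using fun i => hspan (up (W i)) (k + M)
  obtain ⟨ν, Δ1, hΔ1, hΔ1'⟩ := exists_factor M (f := ∏ i, δ' i)
    (Finset.prod_ne_zero_iff.mpr fun i _ => hδ' i)
  set H : Fin N → (Fin s → ℝ) × ℝ → ℝ := fun i q =>
    (∑ b, (aeval (Fin.snoc q.1 q.2 : Fin (s + 1) → ℝ) (c' i b * ∏ j ∈ Finset.univ.erase i, δ' j) : ℝ) *
      FI p (e b) k₀ q.1 q.2) / (aeval (Fin.snoc q.1 q.2 : Fin (s + 1) → ℝ) Δ1 : ℝ) with hHdef
  -- analyticity of `H`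
  have hHan : ∀ θ : Fin s → ℝ, aeval θ (spt M Δ1 * spt M (∏ q, δ q)) ≠ (0 : ℝ) → ∀ i,
      AnalyticAt ℝ (H i) (θ, (M : ℝ)) := by
    intro θ hθ i
    rw [map_mul, mul_ne_zero_iff, aeval_spt, aeval_spt] at hθ
    obtain ⟨hθ1, hθ2⟩ := hθ
    rw [map_prod, Finset.prod_ne_zero_iff] at hθ2
    refine AnalyticAt.div ?_ (analyticAt_poly _ _) hθ1
    refine Finset.analyticAt_fun_sum _ fun b _ => (analyticAt_poly _ _).mul ?_
    exact FI_analyticAt p k₀ M hK hK0 hid (by omega) hMK θ (fun q => hθ2 q (Finset.mem_univ q)) b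
  have hfac : (ν ! : ℝ) ≠ 0 := by exact_mod_cast Nat.factorial_ne_zero ν
  refine ⟨spt M Δ1 * spt M (∏ q, δ q), fun i θ => iteratedDeriv ν (fun t => H i (θ, t)) M / (ν ! : ℝ),
    mul_ne_zero hΔ1' hM2, ?_, ?_⟩
  · intro i θ hθ
    exact (analyticAt_iteratedDeriv (hHan θ hθ i) ν).div analyticAt_const hfac
  · intro θ hθ P hu
    have hslice : ∀ i, AnalyticAt ℝ (fun t : ℝ => H i (θ, t)) (M : ℝ) := by
      intro i
      exact AnalyticAt.comp (g := H i) (f := fun t : ℝ => (θ, t)) (x := (M : ℝ)) (hHan θ hθ i)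
        (analyticAt_const.prod analyticAt_id)
    have hθ1 : (aeval (Fin.snoc θ (M : ℝ) : Fin (s + 1) → ℝ) Δ1 : ℝ) ≠ 0 := by
      rw [map_mul, mul_ne_zero_iff, aeval_spt] at hθ
      exact hθ.1
    -- the limit
    have hlim : Tendsto (fun t : ℝ => ∫ x in rg p θ,
        (∑ i, P i * vl (W i) θ x) / vl (hh p) θ x ^ k * vl (hh p) θ x ^ (t - M)) (𝓝[>] (M : ℝ))
        (𝓝 (∫ x in rg p θ, (∑ i, P i * vl (W i) θ x) / vl (hh p) θ x ^ k)) := by
      refine ((mellin p θ hu).2).comp ?_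
      refine tendsto_nhdsWithin_of_tendsto_nhds_of_eventually_within _ ?_ ?_
      · have h1 : Tendsto (fun t : ℝ => t - (M : ℝ)) (𝓝 (M : ℝ)) (𝓝 ((M : ℝ) - M)) := by
          have : Continuous fun t : ℝ => t - (M : ℝ) := by fun_prop
          exact this.tendsto _
        rw [sub_self] at h1
        exact h1.mono_left nhdsWithin_le_nhds
      · filter_upwards [self_mem_nhdsWithin] with t ht
        have ht' : (M : ℝ) < t := ht
        exact sub_pos.mpr ht'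
    have hGan : AnalyticAt ℝ (fun t : ℝ => ∑ i, P i * H i (θ, t)) (M : ℝ) :=
      Finset.analyticAt_fun_sum _ fun i _ => analyticAt_const.mul (hslice i)
    have hev : ∀ᶠ t : ℝ in 𝓝[>] (M : ℝ), ∑ i, P i * H i (θ, t) = (t - M) ^ ν *
        ∫ x in rg p θ, (∑ i, P i * vl (W i) θ x) / vl (hh p) θ x ^ k * vl (hh p) θ x ^ (t - M) := by
      have hne : ∀ᶠ t : ℝ in 𝓝[>] (M : ℝ), (aeval (Fin.snoc θ t : Fin (s + 1) → ℝ) Δ1 : ℝ) ≠ 0 :=
        nhdsWithin_le_nhds ((analyticAt_poly_t Δ1 θ (M : ℝ)).continuousAt.eventually_ne hθ1)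
      filter_upwards [self_mem_nhdsWithin, hne] with t ht htne
      have ht' : (M : ℝ) < t := ht
      have ht0 : 0 < t - M := sub_pos.mpr ht'
      have h1 := reg_identity p W k M k₀ (by omega) hK' hK0' hid' θ P hu ht0
      rw [sub_add_cancel, hΔ1, map_mul, map_pow, aeval_tM] at h1
      have h2 : ∑ i, P i * H i (θ, t) = (∑ i, P i * ∑ b,
          (aeval (Fin.snoc θ t : Fin (s + 1) → ℝ) (c' i b * ∏ j ∈ Finset.univ.erase i, δ' j) : ℝ) *
            FI p (e b) k₀ θ t) / (aeval (Fin.snoc θ t : Fin (s + 1) → ℝ) Δ1 : ℝ) := by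
        rw [Finset.sum_div]
        refine Finset.sum_congr rfl fun i _ => ?_
        rw [hHdef]
        rw [mul_div_assoc]
      rw [h2, ← h1, div_eq_iff htne]
      ring
    have h3 := iteratedDeriv_of_tendsto ν hlim hGan hev
    rw [iteratedDeriv_lin ν P hslice] at h3
    have h4 : ∑ i, P i * (iteratedDeriv ν (fun t => H i (θ, t)) M / (ν ! : ℝ)) =
        (∑ i, P i * iteratedDeriv ν (fun t => H i (θ, t)) M) / (ν ! : ℝ) := by
      rw [Finset.sum_div]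
      exact Finset.sum_congr rfl fun i _ => by rw [mul_div_assoc]
    rw [h4, h3, mul_div_cancel_left₀ _ hfac]

end Pool.Agent.Lib.MP_bbe012_lc.PM
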