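import Pool.Agent.Lib.MP_bbe012_lc.PM.Defs
import Pool.Agent.Lib.MP_bbe012_lc.PG.A1
import Pool.Agent.Lib.MP_bbe012_lc.PG.A2

/-!
# Density: almost all rational points of large height lie in a compact set on which `|z|` is bounded from below
-/

namespace Pool.Agent.Lib.MP_bbe012_lc.PM

open MvPolynomial MeasureTheory Set PP PG Filter Topology

/-- few rational numbers of height at most `T` have absolute value larger than `R` -/
private theorem dens_big (T R : ℕ) (hR : 1 ≤ R) (hT : 1 ≤ T) :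
    ({a : ℚ | HLE T a ∧ (R : ℚ) < |a|}.ncard : ℝ) ≤ 3 * (T : ℝ) ^ 2 / R := by
  classical
  have hsub : {a : ℚ | HLE T a ∧ (R : ℚ) < |a|} ⊆
      ((Finset.Icc (-(T : ℤ)) T ×ˢ Finset.Icc 1 (T / R)).image
        fun p : ℤ × ℕ => (p.1 : ℚ) / (p.2 : ℚ) : Finset ℚ) := by
    rintro a ⟨⟨h1, h2⟩, h3⟩
    rw [Finset.mem_coe, Finset.mem_image]
    refine ⟨(a.num, a.den), ?_, Rat.num_div_den a⟩
    rw [Finset.mem_product, Finset.mem_Icc, Finset.mem_Icc]
    refine ⟨⟨by omega, by omega⟩, a.den_pos, ?_⟩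
    rw [Nat.le_div_iff_mul_le (by omega)]
    have h4 : (0 : ℚ) < (a.den : ℚ) := by exact_mod_cast a.den_pos
    have h5 : |a| * a.den = |(a.num : ℚ)| := by
      have h6 : a * a.den = a.num := Rat.mul_den_eq_num a
      rw [← h6, abs_mul, abs_of_pos h4]
    have h7 : (R : ℚ) * a.den ≤ |(a.num : ℚ)| := by
      rw [← h5]
      exact mul_le_mul_of_nonneg_right h3.le h4.le
    have h8 : |(a.num : ℚ)| ≤ T := by
      have h9 : ((a.num.natAbs : ℕ) : ℚ) ≤ (T : ℚ) := by exact_mod_cast h1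
      rwa [Nat.cast_natAbs, Int.cast_abs] at h9
    have h10 : (a.den : ℚ) * R ≤ T := by
      rw [mul_comm]
      exact h7.trans h8
    exact_mod_cast h10
  have h1 : {a : ℚ | HLE T a ∧ (R : ℚ) < |a|}.ncard ≤ (2 * T + 1) * (T / R) := by
    calc _ ≤ (((Finset.Icc (-(T : ℤ)) T ×ˢ Finset.Icc 1 (T / R)).image
          fun p : ℤ × ℕ => (p.1 : ℚ) / (p.2 : ℚ) : Finset ℚ) : Set ℚ).ncard :=
          ncard_le_ncard hsub (Finset.finite_toSet _)
      _ ≤ (Finset.Icc (-(T : ℤ)) T ×ˢ Finset.Icc 1 (T / R)).card := by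
          rw [ncard_coe_finset]
          exact Finset.card_image_le
      _ = (2 * T + 1) * (T / R) := by
          rw [Finset.card_product, Int.card_Icc, Nat.card_Icc]
          congr 1
          omega
  have hR0 : (0 : ℝ) < R := by exact_mod_cast hR
  have hT1 : (1 : ℝ) ≤ T := by exact_mod_cast hT
  calc ({a : ℚ | HLE T a ∧ (R : ℚ) < |a|}.ncard : ℝ) ≤ (((2 * T + 1) * (T / R) : ℕ) : ℝ) := by
        exact_mod_cast h1
    _ = (2 * (T : ℝ) + 1) * ((T / R : ℕ) : ℝ) := by push_cast; ring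
    _ ≤ (3 * T) * ((T : ℝ) / R) := by
        apply mul_le_mul _ Nat.cast_div_le (by positivity) (by positivity)
        linarith
    _ = 3 * (T : ℝ) ^ 2 / R := by ring

/-- a polynomial as a sum over a box of exponents -/
private theorem dens_box {s : ℕ} (z : MvPolynomial (Fin s) ℚ) (hz : z ≠ 0) : ∃ (κ : ℕ)
    (a : (Fin s → Fin (κ + 1)) → ℚ), (∃ b, a b ≠ 0) ∧ ∀ θ : Fin s → ℝ,
      aeval θ z = ∑ b, (a b : ℝ) * ∏ i, θ i ^ (b i : ℕ) := by
  classical
  obtain ⟨κ, hκ⟩ : ∃ κ, ∀ m ∈ z.support, ∀ i, m i ≤ κ := by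
    refine ⟨z.totalDegree, fun m hm i => ?_⟩
    refine le_trans ?_ (le_totalDegree hm)
    rw [Finsupp.sum]
    by_cases hi : m i = 0
    · rw [hi]
      exact Nat.zero_le _
    · exact Finset.single_le_sum (f := fun j => m j) (fun _ _ => Nat.zero_le _)
        (Finsupp.mem_support_iff.2 hi)
  obtain ⟨tf, htf⟩ : ∃ tf : (Fin s → Fin (κ + 1)) → (Fin s →₀ ℕ), ∀ b i, tf b i = (b i : ℕ) :=
    ⟨fun b => Finsupp.equivFunOnFinite.symm fun i => (b i : ℕ), fun b i => rfl⟩
  have hinj : Function.Injective tf := by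
    intro b b' h
    funext i
    apply Fin.ext
    rw [← htf, ← htf, h]
  have hsurj : ∀ m ∈ z.support, ∃ b, tf b = m := by
    intro m hm
    refine ⟨fun i => ⟨m i, by have := hκ m hm i; omega⟩, ?_⟩
    ext i
    rw [htf]
  refine ⟨κ, fun b => coeff (tf b) z, ?_, fun θ => ?_⟩
  · obtain ⟨m, hm⟩ := support_nonempty.2 hz
    obtain ⟨b, hb⟩ := hsurj m hm
    refine ⟨b, ?_⟩
    show coeff (tf b) z ≠ 0
    rw [hb]
    exact mem_support_iff.1 hm
  · have h1 : aeval θ z = ∑ m ∈ z.support, ((coeff m z : ℚ) : ℝ) * ∏ i, θ i ^ m i := by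
      rw [aeval_def, eval₂_eq']
      rfl
    rw [h1]
    have h2 : ∑ m ∈ z.support, ((coeff m z : ℚ) : ℝ) * ∏ i, θ i ^ m i
        = ∑ m ∈ Finset.univ.image tf, ((coeff m z : ℚ) : ℝ) * ∏ i, θ i ^ m i := by
      apply Finset.sum_subset
      · intro m hm
        obtain ⟨b, hb⟩ := hsurj m hm
        exact Finset.mem_image.2 ⟨b, Finset.mem_univ _, hb⟩
      · intro m _ hm
        rw [notMem_support_iff.1 hm, Rat.cast_zero, zero_mul]
    rw [h2, Finset.sum_image (fun b _ b' _ h => hinj h)]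
    apply Finset.sum_congr rfl
    intro b _
    congr 1
    apply Finset.prod_congr rfl
    intro i _
    rw [htf]

theorem dens {s : ℕ} (hs : 0 < s) {z : MvPolynomial (Fin s) ℚ} (hz : z ≠ 0) {ε : ℝ} (hε : 0 < ε) :
    ∃ S : Set (Fin s → ℝ), IsCompact S ∧ (∀ θ ∈ S, aeval θ z ≠ 0) ∧ ∃ T₀ : ℕ, ∀ T : ℕ, T₀ ≤ T →
      ({θ : Fin s → ℚ | (∀ i, HLE T (θ i)) ∧ cst θ ∉ S}.ncard : ℝ) ≤
        ε * ({θ : Fin s → ℚ | ∀ i, HLE T (θ i)}.ncard : ℝ) := by
  classical
  obtain ⟨κ, a, ⟨b₀, hb₀⟩, hz'⟩ := dens_box z hz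
  obtain ⟨c, hc, hcT⟩ := many_HLE 0 ⟨by simp, by simp⟩ 1 one_pos
  obtain ⟨C, γ, hC, hγ0, -, hcount⟩ := count_multi' (Fin s) κ
  have hcs : 0 < c ^ s := pow_pos hc s
  -- the radius
  obtain ⟨R, hR⟩ : ∃ R : ℕ, 2 * (s * 3 ^ s) / (ε * c ^ s) ≤ R := exists_nat_ge _
  obtain ⟨R, hR1, hR⟩ : ∃ R : ℕ, 1 ≤ R ∧ 2 * (s * 3 ^ s) / (ε * c ^ s) ≤ R :=
    ⟨R + 1, by omega, by push_cast; linarith⟩
  have hR0 : (0 : ℝ) < R := by exact_mod_cast hR1
  have hR1' : (1 : ℝ) ≤ R := by exact_mod_cast hR1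
  obtain ⟨ρ, hρ⟩ : ∃ ρ : ℝ, ρ = |(a b₀ : ℝ) * ∏ i, (R : ℝ) ^ (b₀ i : ℕ)| := ⟨_, rfl⟩
  have hρ0 : 0 < ρ := by
    rw [hρ, abs_pos]
    refine mul_ne_zero (by exact_mod_cast hb₀) (Finset.prod_ne_zero_iff.2 fun i _ => ?_)
    positivity
  -- the lower bound of `|z|`
  obtain ⟨ε', hε'0, hε'1, hε'⟩ : ∃ ε' : ℝ, 0 < ε' ∧ ε' ≤ ρ ∧
      C * (2 * R) ^ s * (ε' / ρ) ^ γ ≤ ε / 4 * c ^ s := by
    have h1 : Tendsto (fun x : ℝ => C * (2 * R) ^ s * (x / ρ) ^ γ) (𝓝[>] 0) (𝓝 0) := by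
      have h2 : Tendsto (fun x : ℝ => (x / ρ) ^ γ) (𝓝 0) (𝓝 ((0 / ρ) ^ γ)) :=
        (tendsto_id.div_const ρ).rpow_const (Or.inr hγ0.le)
      rw [zero_div, Real.zero_rpow hγ0.ne'] at h2
      have h3 := h2.const_mul (C * (2 * (R : ℝ)) ^ s)
      rw [mul_zero] at h3
      exact h3.mono_left nhdsWithin_le_nhds
    have h4 : ∀ᶠ x : ℝ in 𝓝[>] 0, C * (2 * R) ^ s * (x / ρ) ^ γ < ε / 4 * c ^ s :=
      h1.eventually_lt_const (by positivity)
    have h5 : ∀ᶠ x : ℝ in 𝓝[>] 0, x < ρ :=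
      (eventually_lt_nhds hρ0).filter_mono nhdsWithin_le_nhds
    obtain ⟨x, ⟨h6, h7⟩, h8⟩ := ((h4.and h5).and eventually_mem_nhdsWithin).exists
    exact ⟨x, h8, h7.le, h6.le⟩
  obtain ⟨T₁, hT₁⟩ : ∃ T₁ : ℕ, 4 * (C * (2 * R) ^ s) / (ε * c ^ s) ≤ T₁ := exists_nat_ge _
  have hcont : Continuous fun θ : Fin s → ℝ => aeval θ z := by
    have h : (fun θ : Fin s → ℝ => aeval θ z) = fun θ => ∑ b, (a b : ℝ) * ∏ i, θ i ^ (b i : ℕ) :=
      funext hz'
    rw [h]
    fun_prop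
  refine ⟨{θ | (∀ i, |θ i| ≤ R) ∧ ε' ≤ |aeval θ z|}, ?_, ?_, max 1 T₁, fun T hT => ?_⟩
  · -- compact
    apply Metric.isCompact_of_isClosed_isBounded
    · have hc1 : IsClosed {θ : Fin s → ℝ | ∀ i, |θ i| ≤ R} := by
        have h : {θ : Fin s → ℝ | ∀ i, |θ i| ≤ R} = ⋂ i, {θ : Fin s → ℝ | |θ i| ≤ R} := by
          ext θ
          simp
        rw [h]
        exact isClosed_iInter fun i => isClosed_le (by fun_prop) continuous_const
      have hc2 : IsClosed {θ : Fin s → ℝ | ε' ≤ |aeval θ z|} :=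
        isClosed_le continuous_const (continuous_abs.comp hcont)
      exact hc1.inter hc2
    · apply (Metric.isBounded_closedBall (x := (0 : Fin s → ℝ)) (r := R)).subset
      rintro θ ⟨h1, -⟩
      rw [Metric.mem_closedBall, dist_zero_right, pi_norm_le_iff_of_nonneg hR0.le]
      intro i
      rw [Real.norm_eq_abs]
      exact h1 i
  · rintro θ ⟨-, h⟩ h0
    rw [h0, abs_zero] at h
    linarith
  · have hT1 : 1 ≤ T := (le_max_left _ _).trans hT
    have hT1' : (1 : ℝ) ≤ T := by exact_mod_cast hT1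
    have hTT : (T₁ : ℝ) ≤ T := by exact_mod_cast (le_max_right _ _).trans hT
    obtain ⟨H, hH⟩ : ∃ H : Finset ℚ, ∀ x, x ∈ H ↔ HLE T x :=
      ⟨(finite_HLE T).toFinset, fun x => (finite_HLE T).mem_toFinset⟩
    have hHset : {x : ℚ | HLE T x} = (H : Set ℚ) := by
      ext x
      rw [Finset.mem_coe, hH]
      rfl
    have hHle : (H.card : ℝ) ≤ 3 * (T : ℝ) ^ 2 := by
      have h := ncard_HLE_le hT1
      rw [hHset, ncard_coe_finset] at h
      exact_mod_cast h
    have hHge : c * (T : ℝ) ^ 2 ≤ H.card := by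
      refine (hcT T hT1).trans ?_
      have h : {a : ℚ | HLE T a ∧ |(a : ℝ) - ((0 : ℚ) : ℝ)| ≤ 1}.ncard ≤ H.card := by
        rw [← ncard_coe_finset]
        apply ncard_le_ncard _ (Finset.finite_toSet _)
        rintro x ⟨hx, -⟩
        exact Finset.mem_coe.2 ((hH x).2 hx)
      exact_mod_cast h
    -- the total number
    have htot : (({θ : Fin s → ℚ | ∀ i, HLE T (θ i)}.ncard : ℕ) : ℝ) = (H.card : ℝ) ^ s := by
      have h : {θ : Fin s → ℚ | ∀ i, HLE T (θ i)} = (Fintype.piFinset (fun _ : Fin s => H) : Set _) := by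
        ext θ
        rw [Finset.mem_coe, Fintype.mem_piFinset]
        exact forall_congr' fun i => (hH _).symm
      rw [h, ncard_coe_finset, Fintype.card_piFinset]
      simp
    have htotge : c ^ s * ((T : ℝ) ^ 2) ^ s ≤ (H.card : ℝ) ^ s := by
      rw [← mul_pow]
      exact pow_le_pow_left₀ (by positivity) hHge s
    -- the large points
    obtain ⟨B₁, hB₁⟩ : ∃ B₁ : Finset (Fin s → ℚ), B₁ = Finset.univ.biUnion fun i : Fin s =>
      (Fintype.piFinset fun j : Fin s => if j = i then H.filter (fun x => (R : ℚ) < |x|) else H) :=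
      ⟨_, rfl⟩
    have hB₁c : (B₁.card : ℝ) ≤ s * (3 ^ s * ((T : ℝ) ^ 2) ^ s / R) := by
      have h1 : ∀ i : Fin s, (((Fintype.piFinset fun j : Fin s =>
          if j = i then H.filter (fun x => (R : ℚ) < |x|) else H).card : ℕ) : ℝ)
          ≤ 3 ^ s * ((T : ℝ) ^ 2) ^ s / R := by
        intro i
        rw [Fintype.card_piFinset, ← Finset.mul_prod_erase Finset.univ _ (Finset.mem_univ i)]
        rw [if_pos rfl]
        have h2 : ∏ j ∈ Finset.univ.erase i, (if j = i then H.filter (fun x => (R : ℚ) < |x|)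
            else H).card = H.card ^ (s - 1) := by
          rw [Finset.prod_congr rfl (g := fun _ => H.card)]
          · rw [Finset.prod_const, Finset.card_erase_of_mem (Finset.mem_univ i), Finset.card_univ,
              Fintype.card_fin]
          · intro j hj
            rw [if_neg (Finset.ne_of_mem_erase hj)]
        rw [h2]
        have h3 : ((H.filter (fun x => (R : ℚ) < |x|)).card : ℝ) ≤ 3 * (T : ℝ) ^ 2 / R := by
          have h4 := dens_big T R hR1 hT1
          have h5 : {a : ℚ | HLE T a ∧ (R : ℚ) < |a|}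
              = (H.filter (fun x => (R : ℚ) < |x|) : Set ℚ) := by
            ext x
            rw [Finset.mem_coe, Finset.mem_filter, hH]
            rfl
          rw [h5, ncard_coe_finset] at h4
          exact h4
        push_cast
        calc ((H.filter (fun x => (R : ℚ) < |x|)).card : ℝ) * (H.card : ℝ) ^ (s - 1)
            ≤ (3 * (T : ℝ) ^ 2 / R) * (3 * (T : ℝ) ^ 2) ^ (s - 1) :=
              mul_le_mul h3 (pow_le_pow_left₀ (by positivity) hHle _) (by positivity) (by positivity)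
          _ = (3 * (T : ℝ) ^ 2) ^ (s - 1 + 1) / R := by
              rw [pow_succ]
              ring
          _ = 3 ^ s * ((T : ℝ) ^ 2) ^ s / R := by
              rw [Nat.sub_add_cancel hs, mul_pow]
      rw [hB₁]
      calc ((Finset.univ.biUnion fun i : Fin s => (Fintype.piFinset fun j : Fin s =>
            if j = i then H.filter (fun x => (R : ℚ) < |x|) else H)).card : ℝ)
          ≤ ((∑ i : Fin s, (Fintype.piFinset fun j : Fin s =>
            if j = i then H.filter (fun x => (R : ℚ) < |x|) else H).card : ℕ) : ℝ) := by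
            exact_mod_cast Finset.card_biUnion_le
        _ ≤ ∑ _i : Fin s, 3 ^ s * ((T : ℝ) ^ 2) ^ s / R := by
            push_cast
            apply Finset.sum_le_sum
            intro i _
            exact h1 i
        _ = s * (3 ^ s * ((T : ℝ) ^ 2) ^ s / R) := by
            rw [Finset.sum_const, Finset.card_univ, Fintype.card_fin, nsmul_eq_mul]
    -- the points near the hypersurface
    obtain ⟨X, hX⟩ : ∃ X : Finset ℝ, X = (H.filter fun x => |x| ≤ (R : ℚ)).image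
      fun x : ℚ => ((x : ℝ) - 0) / R := ⟨_, rfl⟩
    obtain ⟨B₂, hB₂⟩ : ∃ B₂ : Finset (Fin s → ℝ), B₂ = (Fintype.piFinset fun _ : Fin s => X).filter
      fun x => |∑ b : Fin s → Fin (κ + 1), ((a b : ℝ) * ∏ i, (R : ℝ) ^ (b i : ℕ)) * ∏ i, x i ^ (b i : ℕ)|
        ≤ ε' := ⟨_, rfl⟩
    have hB₂c : (B₂.card : ℝ) ≤ C * (1 + R * (T : ℝ) ^ 2) ^ s
        * ((1 + R * (T : ℝ) ^ 2)⁻¹ + (ε' / ρ) ^ γ) := by
      have h := hcount (fun b => (a b : ℝ) * ∏ i, (R : ℝ) ^ (b i : ℕ)) ρ ε' (R * (T : ℝ) ^ 2)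
        (fun _ => X) hρ0 hε'0 hε'1 (by positivity) (fun _ => by
          rw [hX]
          exact icount_heights T 0 R hR0 _ fun x hx => (hH x).1 (Finset.mem_filter.1 hx).1)
        (fun _ x hx => by
          rw [hX] at hx
          obtain ⟨y, hy, rfl⟩ := Finset.mem_image.1 hx
          have h1 : |y| ≤ (R : ℚ) := (Finset.mem_filter.1 hy).2
          have h2 : |(y : ℝ)| ≤ (R : ℝ) := by exact_mod_cast h1
          rw [sub_zero, abs_div, abs_of_pos hR0, div_le_one hR0]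
          exact h2) ⟨b₀, hρ.le⟩
      rw [Fintype.card_fin] at h
      rw [hB₂]
      exact h
    -- the bad points
    have hbad : ({θ : Fin s → ℚ | (∀ i, HLE T (θ i)) ∧
        cst θ ∉ {θ : Fin s → ℝ | (∀ i, |θ i| ≤ R) ∧ ε' ≤ |aeval θ z|}}.ncard : ℝ)
        ≤ B₁.card + B₂.card := by
      have h1 : {θ : Fin s → ℚ | (∀ i, HLE T (θ i)) ∧
          cst θ ∉ {θ : Fin s → ℝ | (∀ i, |θ i| ≤ R) ∧ ε' ≤ |aeval θ z|}}
          ⊆ (B₁ : Set (Fin s → ℚ)) ∪ (((Fintype.piFinset fun _ : Fin s => H).filter fun θ =>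
            (fun i => ((θ i : ℝ) - 0) / R) ∈ B₂ : Finset (Fin s → ℚ)) : Set (Fin s → ℚ)) := by
        rintro θ ⟨h2, h3⟩
        by_cases h4 : ∃ i, (R : ℚ) < |θ i|
        · left
          obtain ⟨i, hi⟩ := h4
          rw [Finset.mem_coe, hB₁, Finset.mem_biUnion]
          refine ⟨i, Finset.mem_univ _, Fintype.mem_piFinset.2 fun j => ?_⟩
          split_ifs with hj
          · rw [hj, Finset.mem_filter]
            exact ⟨(hH _).2 (h2 i), hi⟩
          · exact (hH _).2 (h2 j)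
        · right
          push Not at h4
          have h5 : ∀ i, |cst θ i| ≤ R := fun i => by
            have := h4 i
            have h6 : |((θ i : ℚ) : ℝ)| ≤ (R : ℝ) := by exact_mod_cast this
            exact h6
          have h6 : |aeval (cst θ) z| ≤ ε' := by
            by_contra h7
            push Not at h7
            exact h3 ⟨h5, h7.le⟩
          rw [Finset.mem_coe, Finset.mem_filter, Fintype.mem_piFinset]
          refine ⟨fun i => (hH _).2 (h2 i), ?_⟩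
          rw [hB₂, Finset.mem_filter, Fintype.mem_piFinset]
          refine ⟨fun i => ?_, ?_⟩
          · rw [hX]
            exact Finset.mem_image.2 ⟨θ i, Finset.mem_filter.2 ⟨(hH _).2 (h2 i), h4 i⟩, rfl⟩
          · refine le_trans (le_of_eq ?_) h6
            rw [hz']
            congr 1
            apply Finset.sum_congr rfl
            intro b _
            rw [mul_assoc, ← Finset.prod_mul_distrib]
            congr 1
            apply Finset.prod_congr rfl
            intro i _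
            show (R : ℝ) ^ (b i : ℕ) * (((θ i : ℝ) - 0) / R) ^ (b i : ℕ) = (θ i : ℝ) ^ (b i : ℕ)
            rw [sub_zero, ← mul_pow, mul_div_cancel₀ _ hR0.ne']
      have h2 : {θ : Fin s → ℚ | (∀ i, HLE T (θ i)) ∧
          cst θ ∉ {θ : Fin s → ℝ | (∀ i, |θ i| ≤ R) ∧ ε' ≤ |aeval θ z|}}.ncard
          ≤ B₁.card + B₂.card := by
        refine (ncard_le_ncard h1 ((Finset.finite_toSet _).union (Finset.finite_toSet _))).trans ?_
        refine (ncard_union_le _ _).trans ?_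
        rw [ncard_coe_finset, ncard_coe_finset]
        apply Nat.add_le_add_left
        apply Finset.card_le_card_of_injOn (fun (θ : Fin s → ℚ) i => ((θ i : ℝ) - 0) / R)
        · intro θ hθ
          exact (Finset.mem_filter.1 (Finset.mem_coe.1 hθ)).2
        · intro θ _ θ' _ h
          funext i
          have h3 : ((θ i : ℝ) - 0) / R = ((θ' i : ℝ) - 0) / R := congrFun h i
          rw [sub_zero, sub_zero, div_left_inj' hR0.ne'] at h3
          exact_mod_cast h3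
      exact_mod_cast h2
    -- the estimates
    rw [htot]
    have hTs : 0 < ((T : ℝ) ^ 2) ^ s := by positivity
    have hE1 : (B₁.card : ℝ) ≤ ε / 2 * (c ^ s * ((T : ℝ) ^ 2) ^ s) := by
      refine hB₁c.trans ?_
      have h1 : (s : ℝ) * 3 ^ s / R ≤ ε / 2 * c ^ s := by
        rw [div_le_iff₀ (by positivity)] at hR
        rw [div_le_iff₀ hR0]
        nlinarith
      calc (s : ℝ) * (3 ^ s * ((T : ℝ) ^ 2) ^ s / R) = ((s : ℝ) * 3 ^ s / R) * ((T : ℝ) ^ 2) ^ s := by ring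
        _ ≤ (ε / 2 * c ^ s) * ((T : ℝ) ^ 2) ^ s := mul_le_mul_of_nonneg_right h1 hTs.le
        _ = _ := by ring
    have hE2 : (B₂.card : ℝ) ≤ ε / 2 * (c ^ s * ((T : ℝ) ^ 2) ^ s) := by
      refine hB₂c.trans ?_
      have hRT : (1 : ℝ) ≤ R * (T : ℝ) ^ 2 := by nlinarith
      have h1 : (1 + R * (T : ℝ) ^ 2) ^ s ≤ (2 * R) ^ s * ((T : ℝ) ^ 2) ^ s := by
        rw [← mul_pow]
        apply pow_le_pow_left₀ (by positivity)
        nlinarith
      have h2 : (1 + R * (T : ℝ) ^ 2)⁻¹ ≤ (T : ℝ)⁻¹ := by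
        apply inv_anti₀ (by positivity)
        nlinarith
      have h3 : C * (2 * R) ^ s * (T : ℝ)⁻¹ ≤ ε / 4 * c ^ s := by
        rw [← div_eq_mul_inv, div_le_iff₀ (by positivity)]
        rw [div_le_iff₀ (by positivity)] at hT₁
        nlinarith
      calc C * (1 + R * (T : ℝ) ^ 2) ^ s * ((1 + R * (T : ℝ) ^ 2)⁻¹ + (ε' / ρ) ^ γ)
          ≤ C * ((2 * R) ^ s * ((T : ℝ) ^ 2) ^ s) * ((T : ℝ)⁻¹ + (ε' / ρ) ^ γ) := by
            apply mul_le_mul
            · exact mul_le_mul_of_nonneg_left h1 (by linarith)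
            · linarith
            · positivity
            · positivity
        _ = (C * (2 * R) ^ s * (T : ℝ)⁻¹ + C * (2 * R) ^ s * (ε' / ρ) ^ γ) * ((T : ℝ) ^ 2) ^ s := by
            ring
        _ ≤ (ε / 4 * c ^ s + ε / 4 * c ^ s) * ((T : ℝ) ^ 2) ^ s :=
            mul_le_mul_of_nonneg_right (by linarith) hTs.le
        _ = _ := by ring
    calc _ ≤ (B₁.card : ℝ) + B₂.card := hbad
      _ ≤ ε * (c ^ s * ((T : ℝ) ^ 2) ^ s) := by linarith
      _ ≤ ε * (H.card : ℝ) ^ s := mul_le_mul_of_nonneg_left htotge hε.le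

end Pool.Agent.Lib.MP_bbe012_lc.PM
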