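import Pool.Agent.Lib.MP_bbe012_lc.PM.Defs

/-!
# Relations over `ℚ[θ]`
-/

namespace Pool.Agent.Lib.MP_bbe012_lc.PM

open MvPolynomial Set

/-- Among finitely many functions on `Ω` some are linearly independent over `ℚ[θ]`, and all the others depend on these, with a common denominator `δ`.

Proof. Let `B` be a finite set of indices of maximal cardinality with the property of independence (`∀ P, (∀ θ ∈ Ω, ∑ b ∈ B, ... = 0) → ∀ b ∈ B, P b = 0`; the empty set has it; `Finset.exists_maximal`, or `Nat.findGreatest` on cardinalities). For `β ∉ B` the set `insert β B` does not have it: some `P` with `∑ b ∈ insert β B, aeval θ (P b) * V b θ = 0` on `Ω` and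
`P b₀ ≠ 0` for some `b₀ ∈ insert β B`; if `P β = 0`, independence of `B` gives `P b = 0` for `b ∈ B`, a contradiction. So `P β ≠ 0` and `P β V_β = ∑ b ∈ B, - P b V_b`. For `β ∈ B` use `1 * V_β = V_β`. So for every `β` there are `δ β ≠ 0` and `ρ' β b`; take `δ = ∏ β, δ β` and `ρ β b = (∏ β' ≠ β, δ β') * ρ' β b` (`Finset.mul_prod_erase`). -/
theorem exists_relations {s : ℕ} {η : Type} [Fintype η] [DecidableEq η] (Ω : Set (Fin s → ℝ))
    (V : η → (Fin s → ℝ) → ℝ) :
    ∃ (B : Finset η) (δ : MvPolynomial (Fin s) ℚ) (ρ : η → η → MvPolynomial (Fin s) ℚ), δ ≠ 0 ∧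
      (∀ P : η → MvPolynomial (Fin s) ℚ, (∀ θ ∈ Ω, ∑ b ∈ B, aeval θ (P b) * V b θ = 0) → ∀ b ∈ B, P b = 0) ∧
      ∀ β, ∀ θ ∈ Ω, aeval θ δ * V β θ = ∑ b ∈ B, aeval θ (ρ β b) * V b θ := by
  classical
  -- independence of a finite set of indices
  let Ind : Finset η → Prop := fun B =>
    ∀ P : η → MvPolynomial (Fin s) ℚ,
      (∀ θ ∈ Ω, ∑ b ∈ B, aeval θ (P b) * V b θ = 0) → ∀ b ∈ B, P b = 0
  have hempty : Ind ∅ := by
    intro P _ b hb
    simp at hb
  have hne : (Finset.univ.filter Ind).Nonempty :=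
    ⟨∅, Finset.mem_filter.mpr ⟨Finset.mem_univ _, hempty⟩⟩
  obtain ⟨B, hBmem, hBmax⟩ := Finset.exists_max_image (Finset.univ.filter Ind) Finset.card hne
  have hB : Ind B := (Finset.mem_filter.mp hBmem).2
  have hmax : ∀ C : Finset η, Ind C → C.card ≤ B.card := fun C hC =>
    hBmax C (Finset.mem_filter.mpr ⟨Finset.mem_univ _, hC⟩)
  -- every function depends on the chosen ones
  have key : ∀ β : η, ∃ (d : MvPolynomial (Fin s) ℚ) (r : η → MvPolynomial (Fin s) ℚ), d ≠ 0 ∧
      ∀ θ ∈ Ω, aeval θ d * V β θ = ∑ b ∈ B, aeval θ (r b) * V b θ := by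
    intro β
    by_cases hβ : β ∈ B
    · refine ⟨1, fun b => if b = β then 1 else 0, one_ne_zero, ?_⟩
      intro θ _
      rw [Finset.sum_eq_single β]
      · simp
      · intro b _ hb
        simp [hb]
      · intro h
        exact absurd hβ h
    · have hnot : ¬ Ind (insert β B) := by
        intro h
        have h1 := hmax _ h
        rw [Finset.card_insert_of_notMem hβ] at h1
        omega
      have hnot' : ∃ P : η → MvPolynomial (Fin s) ℚ,
          (∀ θ ∈ Ω, ∑ b ∈ insert β B, aeval θ (P b) * V b θ = 0) ∧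
            ∃ b ∈ insert β B, P b ≠ 0 := by
        by_contra hcon
        apply hnot
        intro P hP b hb
        by_contra hne0
        exact hcon ⟨P, hP, b, hb, hne0⟩
      obtain ⟨P, hP, b₀, hb₀, hPb₀⟩ := hnot'
      have hsplit : ∀ θ ∈ Ω, aeval θ (P β) * V β θ + ∑ b ∈ B, aeval θ (P b) * V b θ = 0 := by
        intro θ hθ
        have := hP θ hθ
        rwa [Finset.sum_insert hβ] at this
      have hPβ : P β ≠ 0 := by
        intro h0
        have h2 : ∀ θ ∈ Ω, ∑ b ∈ B, aeval θ (P b) * V b θ = 0 := by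
          intro θ hθ
          have := hsplit θ hθ
          rw [h0, map_zero, zero_mul, zero_add] at this
          exact this
        have h3 := hB P h2
        rcases Finset.mem_insert.mp hb₀ with h4 | h4
        · rw [h4] at hPb₀
          exact hPb₀ h0
        · exact hPb₀ (h3 b₀ h4)
      refine ⟨P β, fun b => - P b, hPβ, ?_⟩
      intro θ hθ
      have h5 := hsplit θ hθ
      have h6 : ∑ b ∈ B, aeval θ (- P b) * V b θ = - ∑ b ∈ B, aeval θ (P b) * V b θ := by
        rw [← Finset.sum_neg_distrib]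
        refine Finset.sum_congr rfl fun b _ => ?_
        rw [map_neg, neg_mul]
      rw [h6]
      linarith
  choose d r hd hr using key
  refine ⟨B, ∏ β, d β, fun β b => (∏ β' ∈ Finset.univ.erase β, d β') * r β b, ?_, hB, ?_⟩
  · exact Finset.prod_ne_zero_iff.mpr fun β _ => hd β
  · intro β θ hθ
    have h7 : (∏ β', d β') = (∏ β' ∈ Finset.univ.erase β, d β') * d β := by
      rw [mul_comm]
      exact (Finset.mul_prod_erase Finset.univ d (Finset.mem_univ β)).symm
    rw [h7, map_mul, mul_assoc, hr β θ hθ, Finset.mul_sum]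
    refine Finset.sum_congr rfl fun b _ => ?_
    rw [map_mul, mul_assoc]

end Pool.Agent.Lib.MP_bbe012_lc.PM
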