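import Pool.Agent.Lib.MP_bbe012_lc.PM.NvB
import Pool.Agent.Lib.MP_bbe012_lc.TotalComp

/-!
# Polynomials in periods which do not vanish are recognised
-/

namespace Pool.Agent.Lib.MP_bbe012_lc.PM

open MvPolynomial MeasureTheory Set PP PG HC Filter Topology

instance instPrimcodableBndCB : Primcodable (PosCert × PosCert) :=
  @Primcodable.prod _ _ instPrimcodablePosCert instPrimcodablePosCert

instance instPrimcodableBndC : Primcodable BndC := @Primcodable.prod _ _ inferInstance instPrimcodableBndCB

instance instPrimcodableBndCL : Primcodable (List BndC) := @Primcodable.list _ instPrimcodableBndC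

instance instPrimcodableNvCertA : Primcodable ((PCode × PCode) × (PCode × PCert)) :=
  @Primcodable.prod _ _ inferInstance instPrimcodableNGB

instance instPrimcodableNvCert : Primcodable NvCert :=
  @Primcodable.prod _ _ instPrimcodableNvCertA instPrimcodableBndCL

section generic

open Primrec

variable {α : Type} [Primcodable α]

theorem pr_numI {x : α → PCode × List PeriodCode} {j : α → ℕ} (hx : Primrec x) (hj : Primrec j) :
    Primrec fun a => numI (x a) (j a) := by
  have hl : Primrec fun a => (x a).2 := snd.comp hx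
  have hn : Primrec fun a => (x a).2.length := list_length.comp hl
  have h1 : PrimrecPred fun a => j a < (x a).2.length := nat_lt.comp hj hn
  have h2 : Primrec fun a => (x a).2.getD (j a) default := (list_getD default).comp hl hj
  have h3 : Primrec fun a => (x a).2.getD (j a - (x a).2.length) default :=
    (list_getD default).comp hl (nat_sub.comp hj hn)
  exact Primrec.ite h1 (fst.comp h2) (snd.comp h3)

theorem pr_bnd {L : α → List BndC} {j : α → ℕ} (hL : Primrec L) (hj : Primrec j) :
    Primrec fun a => bnd (L a) (j a) := (list_getD ((qnat 0, qnat 0), default)).comp hL hj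

theorem pr_cstI {q : α → QCode} (hq : Primrec q) : Primrec fun a => cstI (q a) :=
  pair (const 0) (pair (pair (pr_constC hq) (const (pcNat 1))) (const []))

theorem pr_affC {L : α → List BndC} {j : α → ℕ} (hL : Primrec L) (hj : Primrec j) :
    Primrec fun a => affC (L a) (j a) := by
  have h1 : Primrec fun a => (bnd (L a) (j a)).1 := fst.comp (pr_bnd hL hj)
  have h2 : Primrec fun a => (bnd (L a) (j a)).1.1 := fst.comp h1
  have h3 : Primrec fun a => (bnd (L a) (j a)).1.2 := snd.comp h1
  have h4 : Primrec fun a => qadd (bnd (L a) (j a)).1.2 (qneg (bnd (L a) (j a)).1.1) :=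
    primrec_qadd.comp h3 (primrec_qneg.comp h2)
  exact pr_append (pr_constC h2) (pr_mul (pr_constC h4) (pr_var hj))

theorem pr_subG {k : α → ℕ} {G : α → PCode} (hk : Primrec k) (hG : Primrec G) :
    Primrec fun a => subG (k a) (G a) := by
  have h1 : Primrec fun q : α × ℕ => k q.1 := hk.comp fst
  have h2 : Primrec fun q : α × ℕ => pcVar q.2 ++ pcMul (pcVar (k q.1 + k q.1)) (pcVar (k q.1 + q.2)) :=
    pr_append (pr_var snd) (pr_mul (pr_var (nat_add.comp h1 h1)) (pr_var (nat_add.comp h1 snd)))
  exact pr_subst (L := fun a i => pcVar i ++ pcMul (pcVar (k a + k a)) (pcVar (k a + i))) hk h2.to₂ hG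

theorem pr_uvwC {k : α → ℕ} {G U V W : α → PCode} (hk : Primrec k) (hG : Primrec G) (hU : Primrec U)
    (hV : Primrec V) (hW : Primrec W) : Primrec fun a => uvwC (k a) (G a) (U a) (V a) (W a) := by
  have h1 : Primrec fun a => k a + k a := nat_add.comp hk hk
  exact pr_append (pr_subG hk hG) (pr_neg (pr_append (pr_trunc h1 hU) (pr_append
    (pr_mul (pr_var h1) (pr_trunc h1 hV)) (pr_mul (pr_append (pr_mul (pr_var h1) (pr_var h1)) (pr_nat 1)) hW))))

end generic

open Primrec in
theorem primrecPred_nvChk : PrimrecPred fun y : (PCode × List PeriodCode) × NvCert => nvChk y.1 y.2 := by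
  have hx : Primrec fun y : (PCode × List PeriodCode) × NvCert => y.1 := fst
  have hG : Primrec fun y : (PCode × List PeriodCode) × NvCert => y.1.1 := fst.comp fst
  have hk : Primrec fun y : (PCode × List PeriodCode) × NvCert => y.1.2.length := list_length.comp (snd.comp fst)
  have hkk : Primrec fun y : (PCode × List PeriodCode) × NvCert => y.1.2.length + y.1.2.length := nat_add.comp hk hk
  have c1 : Primrec fun y : (PCode × List PeriodCode) × NvCert => y.2.1 := fst.comp snd
  have hL : Primrec fun y : (PCode × List PeriodCode) × NvCert => y.2.2 := snd.comp snd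
  have c11 : Primrec fun y : (PCode × List PeriodCode) × NvCert => y.2.1.1 := fst.comp c1
  have c12 : Primrec fun y : (PCode × List PeriodCode) × NvCert => y.2.1.2 := snd.comp c1
  have hU : Primrec fun y : (PCode × List PeriodCode) × NvCert => y.2.1.1.1 := fst.comp c11
  have hV : Primrec fun y : (PCode × List PeriodCode) × NvCert => y.2.1.1.2 := snd.comp c11
  have hW : Primrec fun y : (PCode × List PeriodCode) × NvCert => y.2.1.2.1 := fst.comp c12
  have hp : Primrec fun y : (PCode × List PeriodCode) × NvCert => y.2.1.2.2 := snd.comp c12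
  have h1 : PrimrecPred fun y : (PCode × List PeriodCode) × NvCert =>
      pcIsZero (y.1.2.length + y.1.2.length + 1) (uvwC y.1.2.length y.1.1 y.2.1.1.1 y.2.1.1.2 y.2.1.2.1) :=
    pr_isZero (succ.comp hkk) (pr_uvwC hk hG hU hV hW)
  have hb : Primrec fun q : ℕ × ((PCode × List PeriodCode) × NvCert) => bnd q.2.2.2 q.1 :=
    pr_bnd (hL.comp snd) fst
  have hb1 : Primrec fun q : ℕ × ((PCode × List PeriodCode) × NvCert) => (bnd q.2.2.2 q.1).1 := fst.comp hb
  have hb2 : Primrec fun q : ℕ × ((PCode × List PeriodCode) × NvCert) => (bnd q.2.2.2 q.1).2 := snd.comp hb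
  have hn : Primrec fun q : ℕ × ((PCode × List PeriodCode) × NvCert) => numI q.2.1 q.1 :=
    pr_numI (hx.comp snd) fst
  have h2 : PrimrecRel fun (j : ℕ) (y : (PCode × List PeriodCode) × NvCert) =>
      ltChk (cstI (bnd y.2.2 j).1.1) (numI y.1 j) (bnd y.2.2 j).2.1 ∧
      ltChk (numI y.1 j) (cstI (bnd y.2.2 j).1.2) (bnd y.2.2 j).2.2 :=
    (pr_ltChk (pr_cstI (fst.comp hb1)) hn (fst.comp hb2)).and
      (pr_ltChk hn (pr_cstI (snd.comp hb1)) (snd.comp hb2))
  have h3 : PrimrecPred fun y : (PCode × List PeriodCode) × NvCert => ∀ j < y.1.2.length + y.1.2.length,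
      ltChk (cstI (bnd y.2.2 j).1.1) (numI y.1 j) (bnd y.2.2 j).2.1 ∧
      ltChk (numI y.1 j) (cstI (bnd y.2.2 j).1.2) (bnd y.2.2 j).2.2 :=
    (h2.forall_mem_list.comp (list_range.comp hkk) Primrec.id).of_eq fun y => by
      simp only [List.mem_range, id]
  have ha : Primrec fun q : ((PCode × List PeriodCode) × NvCert) × ℕ => affC q.1.2.2 q.2 :=
    pr_affC (hL.comp fst) snd
  have h4 : PrimrecPred fun y : (PCode × List PeriodCode) × NvCert =>
      posC (y.1.2.length + y.1.2.length) (pcSubst (y.1.2.length + y.1.2.length) (affC y.2.2)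
        (pcMul y.2.1.1.1 y.2.1.1.1 ++ pcMul y.2.1.1.2 y.2.1.1.2)) y.2.1.2.2 :=
    pr_posC hkk (pr_subst (L := fun (y : (PCode × List PeriodCode) × NvCert) i => affC y.2.2 i) hkk ha.to₂
      (pr_append (pr_mul hU hU) (pr_mul hV hV))) hp
  exact h1.and (h3.and h4)

/-- Polynomials in periods which do not vanish are recognised. -/
theorem exists_nv : ∃ g : PCode × List PeriodCode →. Unit, Partrec g ∧
    ∀ x : PCode × List PeriodCode, (∀ X ∈ x.2, PeriodAdmissible X) → ((g x).Dom ↔ ¬ Vanishes x) := by
  obtain ⟨g, hg, hd⟩ := exists_search nvChk primrecPred_nvChk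
  exact ⟨g, hg, fun x hx => (hd x).trans (nvChk_iff hx)⟩

end Pool.Agent.Lib.MP_bbe012_lc.PM
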