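import Pool.Agent.Lib.MP_bbe012_lc.PM.Defs
import Pool.Agent.Lib.MP_bbe012_lc.Adv

/-!
# Moving supports: the data of the algorithm
-/

namespace Pool.Agent.Lib.MP_bbe012_lc.PM

open MvPolynomial MeasureTheory Set PP PG

/-- The rational point coded by a list. -/
noncomputable def ptq (s : ℕ) (x : List QCode) : Fin s → ℚ := fun i => qval (x.getD i (qnat 0))

/-- The exponents `a` as a finitely supported function. -/
noncomputable def fx {n D : ℕ} (a : Fin n → Fin (D + 1)) : Fin n →₀ ℕ :=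
  Finsupp.equivFunOnFinite.symm fun i => (a i : ℕ)

/-- The coefficients coded by a list. -/
noncomputable def cfq {n D : ℕ} (c : List QCode) (a : Fin n → Fin (D + 1)) : ℚ :=
  qval (c.getD (Fintype.equivFin (Fin n → Fin (D + 1)) a) (qnat 0))

/-- The integral coded by `I` belongs to the family `F` at `θ`, and the coefficients of its numerator are the numbers `c a`. -/
def MatchM {s : ℕ} (F : Fam s) (D : ℕ) (θ : Fin s → ℚ) (c : (Fin F.n → Fin (D + 1)) → ℚ) (I : IntCode) : Prop :=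
  I.1 = F.n ∧ pcPoly F.n I.2.1.2 = spz F.Q θ ∧ (∀ t ∈ I.2.2, ∃ l ∈ F.L, pcPoly F.n t.2 = spz l θ) ∧
    (∀ l ∈ F.L, ∃ t ∈ I.2.2, pcPoly F.n t.2 = spz l θ) ∧ pcPoly F.n I.2.1.1 = ∑ a, monomial (fx a) (c a)

/-- The functions `V` give the values of the integrals of the family `F`, outside `z = 0`. -/
structure WSpec {s : ℕ} (F : Fam s) (D : ℕ) (z : MvPolynomial (Fin s) ℚ)
    (V : (Fin F.n → Fin (D + 1)) → (Fin s → ℝ) → ℝ) : Prop where
  ana : ∀ a, AnalyticOnNhd ℝ (V a) {θ | aeval θ z ≠ 0}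
  nz : ∀ θ : Fin s → ℝ, aeval θ z ≠ 0 → (∃ x, vl F.Q θ x ≠ 0) ∧ ∀ l ∈ F.L, ∃ x, vl l θ x ≠ 0
  val : ∀ θ : Fin s → ℝ, aeval θ z ≠ 0 → ∀ P : (Fin F.n → Fin (D + 1)) → ℝ,
    IntegrableOn (fun x => (∑ a, P a * ∏ i, x i ^ (a i : ℕ)) / vl F.Q θ x) {x | ∀ l ∈ F.L, 0 < vl l θ x} →
      ∫ x in {x | ∀ l ∈ F.L, 0 < vl l θ x}, (∑ a, P a * ∏ i, x i ^ (a i : ℕ)) / vl F.Q θ x = ∑ a, P a * V a θ

/-- The indices of all the functions. -/
abbrev IdxM {s μ : ℕ} (F : Fin μ → Fam s) (D : ℕ) := Σ k : Fin μ, (Fin (F k).n → Fin (D + 1))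

/-- A base point `e`, and relations with coefficients in `ℚ[θ]` on the component of `e`. -/
structure RelM {s μ : ℕ} (F : Fin μ → Fam s) (D : ℕ) where
  e : Fin s → ℚ
  B : Finset (IdxM F D)
  δ : MvPolynomial (Fin s) ℚ
  ρ : IdxM F D → IdxM F D → MvPolynomial (Fin s) ℚ

/-- The component of `e` in the complement of `z = 0`. -/
def Om {s : ℕ} (z : MvPolynomial (Fin s) ℚ) (e : Fin s → ℚ) : Set (Fin s → ℝ) :=
  connectedComponentIn {θ : Fin s → ℝ | aeval θ z ≠ 0} (cst e)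

/-- The relations are correct and complete on the component of `e`. -/
structure RelOK {s μ D : ℕ} {F : Fin μ → Fam s} (z : MvPolynomial (Fin s) ℚ) (V : IdxM F D → (Fin s → ℝ) → ℝ)
    (R : RelM F D) : Prop where
  base : aeval (cst R.e) z ≠ 0
  δ0 : R.δ ≠ 0
  indep : ∀ P : IdxM F D → MvPolynomial (Fin s) ℚ,
    (∀ θ ∈ Om z R.e, ∑ b ∈ R.B, aeval θ (P b) * V b θ = 0) → ∀ b ∈ R.B, P b = 0
  rel : ∀ β, ∀ θ ∈ Om z R.e, aeval θ R.δ * V β θ = ∑ b ∈ R.B, aeval θ (R.ρ β b) * V b θ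

/-- The coefficient of `V b` after the reduction of `∑ c a V_(k, a)` at `θ`, up to the factor `δ(θ)`. -/
noncomputable def lnM {s μ D : ℕ} {F : Fin μ → Fam s} (R : RelM F D) (θ : Fin s → ℚ) (k : Fin μ)
    (c : (Fin (F k).n → Fin (D + 1)) → ℚ) (b : IdxM F D) : ℚ := ∑ a, c a * eval θ (R.ρ ⟨k, a⟩ b)

/-- Certificate for the equality of the integrals coded by `I` and `J`. -/
def PairM {s μ D : ℕ} {F : Fin μ → Fam s} (R : RelM F D) (θ : Fin s → ℚ) (k k' : Fin μ)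
    (c : (Fin (F k).n → Fin (D + 1)) → ℚ) (c' : (Fin (F k').n → Fin (D + 1)) → ℚ) (I J : IntCode) : Prop :=
  MatchM (F k) D θ c I ∧ MatchM (F k') D θ c' J ∧ ∀ b ∈ R.B, lnM R θ k c b = lnM R θ k' c' b

/-- There is a certificate for the equality of the periods of the pair `Z`, in the component of `R.e`. -/
def GoodZ {s μ D : ℕ} {F : Fin μ → Fam s} (z : MvPolynomial (Fin s) ℚ) (R : RelM F D) (Z : PeriodCode × PeriodCode) :
    Prop :=
  ∃ θ : Fin s → ℚ, cst θ ∈ Om z R.e ∧ eval θ R.δ ≠ 0 ∧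
    (∃ k k' c c', PairM R θ k k' c c' Z.1.1 Z.2.1) ∧ ∃ k k' c c', PairM R θ k k' c c' Z.1.2 Z.2.2

end Pool.Agent.Lib.MP_bbe012_lc.PM
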