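import Pool.Agent.Lib.MP_bbe012_lc.PM.Cc
import Pool.Agent.Lib.MP_bbe012_lc.PM.Dx
import Pool.Agent.Lib.MP_bbe012_lc.PP.CodePrim
import Pool.Agent.Lib.MP_bbe012_lc.PP.CodeA

/-!
# The component of a rational point is semidecidable
-/

set_option autoImplicit false

namespace Pool.Agent.Lib.MP_bbe012_lc.PM

open MvPolynomial PP PG Primrec

theorem cst_ptq (s : ℕ) (x : List QCode) : cst (ptq s x) = point s x := rfl

private theorem qval_evalCode3 {s : ℕ} (z : MvPolynomial (Fin s) ℚ) {p : PCode} (hp : pcPoly s p = z) (x : List QCode) :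
    qval (evalCode s x p) = aeval (ptq s x) z := by
  have h := pcEval_point s x p
  rw [pcEval, hp] at h
  have h2 := cast_aeval z (ptq s x)
  rw [cst_ptq, h] at h2
  exact_mod_cast h2.symm

private theorem exists_ptq3 {s : ℕ} (p : Fin s → ℚ) : ∃ x : List QCode, ptq s x = p := by
  choose c hc using fun i => exists_qval (p i)
  refine ⟨List.ofFn c, ?_⟩
  funext i
  have h1 : (List.ofFn c).getD (i : ℕ) (qnat 0) = c i := by
    simp [List.getD_eq_getElem?_getD]
  rw [ptq, h1, hc]

/-- two codes give the same point -/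
def eqP (s : ℕ) (x y : List QCode) : Prop :=
  ∀ i ∈ List.range s, qleP (x.getD i (qnat 0)) (y.getD i (qnat 0)) ∧ qleP (y.getD i (qnat 0)) (x.getD i (qnat 0))

theorem eqP_iff {s : ℕ} (x y : List QCode) : eqP s x y ↔ ptq s x = ptq s y := by
  unfold eqP
  simp only [List.mem_range, qleP_iff]
  constructor
  · intro h
    funext i
    exact le_antisymm (h i i.2).1 (h i i.2).2
  · intro h i hi
    have h1 := congrFun h ⟨i, hi⟩
    exact ⟨le_of_eq h1, le_of_eq h1.symm⟩

/-- the point is in the box -/
def bdP (s R : ℕ) (y : List QCode) : Prop := ∀ i ∈ List.range s, qleP (qabs (y.getD i (qnat 0))) (qnat R)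

theorem bdP_iff {s : ℕ} (R : ℕ) (y : List QCode) : bdP s R y ↔ ∀ i, |ptq s y i| ≤ R := by
  unfold bdP
  simp only [List.mem_range, qleP_iff, qval_qabs, qval_qnat]
  exact ⟨fun h i => h i i.2, fun h i hi => h ⟨i, hi⟩⟩

/-- the step from `u` to `v` is small -/
def stP (s C d R : ℕ) (pz : PCode) (u v : List QCode) : Prop :=
  ∀ i ∈ List.range s, qltP (qmul (qnat (C * (R + 1) ^ d)) (qabs (qadd (v.getD i (qnat 0)) (qneg (u.getD i (qnat 0))))))
    (qabs (evalCode s u pz))

theorem stP_iff {s C d R : ℕ} {pz : PCode} {z : MvPolynomial (Fin s) ℚ} (hp : pcPoly s pz = z) (u v : List QCode) :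
    stP s C d R pz u v ↔ ∀ i, (C : ℚ) * (R + 1) ^ d * |ptq s v i - ptq s u i| < |aeval (ptq s u) z| := by
  unfold stP
  simp only [List.mem_range, qltP_iff, qval_qabs, qval_qmul, qval_qadd, qval_qneg, qval_qnat, qval_evalCode3 z hp,
    ← sub_eq_add_neg, Nat.cast_mul, Nat.cast_pow, Nat.cast_add, Nat.cast_one]
  exact ⟨fun h i => h i i.2, fun h i hi => h ⟨i, hi⟩⟩

/-- the certificate `c` shows that `x` is in the component of `ec` -/
def compR (s C d : ℕ) (pz : PCode) (ec x : List QCode) (c : List (List QCode) × ℕ) : Prop :=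
  0 < c.1.length ∧ eqP s (c.1.getD 0 []) ec ∧ eqP s (c.1.getD (c.1.length - 1) []) x ∧
    qltP (qnat 0) (qabs (evalCode s x pz)) ∧ (∀ y ∈ c.1, bdP s c.2 y) ∧
      ∀ m ∈ List.range (c.1.length - 1), stP s C d c.2 pz (c.1.getD m []) (c.1.getD (m + 1) [])

section Prim

variable {α : Type} [Primcodable α]

theorem pr_forall_range {n : α → ℕ} (hn : Primrec n) {p : ℕ → α → Prop} (h : PrimrecRel p) :
    PrimrecPred fun a => ∀ i ∈ List.range (n a), p i a :=
  h.forall_mem_list.comp (list_range.comp hn) Primrec.id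

theorem pr_eqP (s : ℕ) {x y : α → List QCode} (hx : Primrec x) (hy : Primrec y) :
    PrimrecPred fun a => eqP s (x a) (y a) := by
  have h1 : Primrec fun q : ℕ × α => (x q.2).getD q.1 (qnat 0) := (list_getD (qnat 0)).comp (hx.comp snd) fst
  have h2 : Primrec fun q : ℕ × α => (y q.2).getD q.1 (qnat 0) := (list_getD (qnat 0)).comp (hy.comp snd) fst
  have h3 : PrimrecRel fun (i : ℕ) (a : α) => qleP ((x a).getD i (qnat 0)) ((y a).getD i (qnat 0)) ∧
      qleP ((y a).getD i (qnat 0)) ((x a).getD i (qnat 0)) := (pr_qleP h1 h2).and (pr_qleP h2 h1)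
  exact pr_forall_range (const s) h3

theorem pr_bdP (s : ℕ) {R : α → ℕ} {y : α → List QCode} (hR : Primrec R) (hy : Primrec y) :
    PrimrecPred fun a => bdP s (R a) (y a) := by
  have h2 : Primrec fun q : ℕ × α => (y q.2).getD q.1 (qnat 0) := (list_getD (qnat 0)).comp (hy.comp snd) fst
  have h3 : PrimrecRel fun (i : ℕ) (a : α) => qleP (qabs ((y a).getD i (qnat 0))) (qnat (R a)) :=
    pr_qleP (pr_qabs h2) (primrec_qnat.comp (hR.comp snd))
  exact pr_forall_range (const s) h3

theorem pr_pow_nat (d : ℕ) {R : α → ℕ} (hR : Primrec R) : Primrec fun a => R a ^ d := by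
  induction d with
  | zero => exact (const 1).of_eq fun a => (pow_zero _).symm
  | succ d ih => exact (nat_mul.comp ih hR).of_eq fun a => (pow_succ _ _).symm

theorem pr_stP (s C d : ℕ) (pz : PCode) {R : α → ℕ} {u v : α → List QCode} (hR : Primrec R) (hu : Primrec u)
    (hv : Primrec v) : PrimrecPred fun a => stP s C d (R a) pz (u a) (v a) := by
  have h1 : Primrec fun q : ℕ × α => (u q.2).getD q.1 (qnat 0) := (list_getD (qnat 0)).comp (hu.comp snd) fst
  have h2 : Primrec fun q : ℕ × α => (v q.2).getD q.1 (qnat 0) := (list_getD (qnat 0)).comp (hv.comp snd) fst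
  have h3 : Primrec fun q : ℕ × α => C * (R q.2 + 1) ^ d :=
    nat_mul.comp (const C) (pr_pow_nat d (succ.comp (hR.comp snd)))
  have h4 : Primrec fun q : ℕ × α => evalCode s (u q.2) pz := pr_evalCode (const s) (hu.comp snd) (const pz)
  have h5 : PrimrecRel fun (i : ℕ) (a : α) => qltP (qmul (qnat (C * (R a + 1) ^ d))
      (qabs (qadd ((v a).getD i (qnat 0)) (qneg ((u a).getD i (qnat 0)))))) (qabs (evalCode s (u a) pz)) :=
    pr_qltP (primrec_qmul.comp (primrec_qnat.comp h3) (pr_qabs (primrec_qadd.comp h2 (primrec_qneg.comp h1))))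
      (pr_qabs h4)
  exact pr_forall_range (const s) h5

theorem pr_compR (s C d : ℕ) (pz : PCode) (ec : List QCode) :
    PrimrecPred fun p : List QCode × (List (List QCode) × ℕ) => compR s C d pz ec p.1 p.2 := by
  have hx : Primrec fun p : List QCode × (List (List QCode) × ℕ) => p.1 := fst
  have hl : Primrec fun p : List QCode × (List (List QCode) × ℕ) => p.2.1 := fst.comp snd
  have hR : Primrec fun p : List QCode × (List (List QCode) × ℕ) => p.2.2 := snd.comp snd
  have hlen : Primrec fun p : List QCode × (List (List QCode) × ℕ) => p.2.1.length := list_length.comp hl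
  have hlen1 : Primrec fun p : List QCode × (List (List QCode) × ℕ) => p.2.1.length - 1 :=
    nat_sub.comp hlen (const 1)
  have a1 : PrimrecPred fun p : List QCode × (List (List QCode) × ℕ) => 0 < p.2.1.length := nat_lt.comp (const 0) hlen
  have a2 : PrimrecPred fun p : List QCode × (List (List QCode) × ℕ) => eqP s (p.2.1.getD 0 []) ec :=
    pr_eqP s ((list_getD []).comp hl (const 0)) (const ec)
  have a3 : PrimrecPred fun p : List QCode × (List (List QCode) × ℕ) => eqP s (p.2.1.getD (p.2.1.length - 1) []) p.1 :=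
    pr_eqP s ((list_getD []).comp hl hlen1) hx
  have a4 : PrimrecPred fun p : List QCode × (List (List QCode) × ℕ) => qltP (qnat 0) (qabs (evalCode s p.1 pz)) :=
    pr_qltP (const (qnat 0)) (pr_qabs (pr_evalCode (const s) hx (const pz)))
  have a5 : PrimrecPred fun p : List QCode × (List (List QCode) × ℕ) => ∀ y ∈ p.2.1, bdP s p.2.2 y := by
    have h1 : PrimrecRel fun (y : List QCode) (p : List QCode × (List (List QCode) × ℕ)) => bdP s p.2.2 y :=
      pr_bdP s (snd.comp (snd.comp snd)) fst
    exact h1.forall_mem_list.comp hl Primrec.id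
  have a6 : PrimrecPred fun p : List QCode × (List (List QCode) × ℕ) =>
      ∀ m ∈ List.range (p.2.1.length - 1), stP s C d p.2.2 pz (p.2.1.getD m []) (p.2.1.getD (m + 1) []) := by
    have h1 : PrimrecRel fun (m : ℕ) (p : List QCode × (List (List QCode) × ℕ)) =>
        stP s C d p.2.2 pz (p.2.1.getD m []) (p.2.1.getD (m + 1) []) :=
      pr_stP s C d pz (snd.comp (snd.comp snd)) ((list_getD []).comp (fst.comp (snd.comp snd)) fst)
        ((list_getD []).comp (fst.comp (snd.comp snd)) (succ.comp fst))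
    exact pr_forall_range hlen1 h1
  exact a1.and (a2.and (a3.and (a4.and (a5.and a6))))

end Prim

/-- **the component of a rational point is semidecidable** -/
theorem comp_pr {s : ℕ} (z : MvPolynomial (Fin s) ℚ) (e : Fin s → ℚ) (he : aeval (cst e) z ≠ 0) :
    ∃ R : List QCode → List (List QCode) × ℕ → Prop,
      PrimrecPred (fun p : List QCode × (List (List QCode) × ℕ) => R p.1 p.2) ∧
        ∀ x, (∃ c, R x c) ↔ cst (ptq s x) ∈ connectedComponentIn {θ : Fin s → ℝ | aeval θ z ≠ 0} (cst e) := by
  obtain ⟨C₀, d₀, hch⟩ := exists_chain z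
  obtain ⟨pz, hpz⟩ := exists_pcPoly z
  obtain ⟨ec, hec⟩ := exists_ptq3 e
  refine ⟨compR s C₀ d₀ pz ec, pr_compR s C₀ d₀ pz ec, fun x => ?_⟩
  have hnz : qltP (qnat 0) (qabs (evalCode s x pz)) ↔ aeval (cst (ptq s x)) z ≠ 0 := by
    rw [qltP_iff, qval_qabs, qval_qnat, qval_evalCode3 z hpz, Nat.cast_zero, abs_pos, ← cast_aeval]
    norm_cast
  rw [hch e (ptq s x) he]
  constructor
  · rintro ⟨⟨L, R⟩, h1, h2, h3, h4, h5, h6⟩
    have hg : ∀ m, m < L.length → (L.map (ptq s)).getD m (ptq s x) = ptq s (L.getD m []) := by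
      intro m hm
      rw [List.getD_eq_getElem _ _ (by rw [List.length_map]; exact hm), List.getElem_map, List.getD_eq_getElem _ _ hm]
    change 0 < L.length at h1
    refine ⟨R, L.map (ptq s), hnz.1 h4, ?_, ?_, ?_, ?_⟩
    · rw [List.head?_eq_getElem?, List.getElem?_map, List.getElem?_eq_getElem h1, Option.map_some]
      have h7 := (eqP_iff _ _).1 h2
      rw [hec] at h7
      change ptq s (L.getD 0 []) = e at h7
      rw [List.getD_eq_getElem _ _ h1] at h7
      rw [h7]
    · have h8 : L.length - 1 < L.length := by omega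
      rw [List.getLast?_eq_getElem?, List.length_map, List.getElem?_map, List.getElem?_eq_getElem h8, Option.map_some]
      have h7 := (eqP_iff _ _).1 h3
      change ptq s (L.getD (L.length - 1) []) = ptq s x at h7
      rw [List.getD_eq_getElem _ _ h8] at h7
      rw [h7]
    · intro p hp i
      obtain ⟨y, hy, rfl⟩ := List.mem_map.1 hp
      exact (bdP_iff _ _).1 (h5 y hy) i
    · intro m hm i
      rw [List.length_map] at hm
      rw [hg m (by omega), hg (m + 1) hm]
      exact (stP_iff hpz _ _).1 (h6 m (show m ∈ List.range (L.length - 1) from List.mem_range.2 (by omega))) i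
  · rintro ⟨R, q, h0, h1, h2, h3, h4⟩
    choose cd hcd using fun p : Fin s → ℚ => exists_ptq3 p
    have hne : q ≠ [] := by
      rintro rfl
      simp at h1
    have hlen : 0 < q.length := List.length_pos_iff.2 hne
    have hg : ∀ m, m < q.length → ptq s ((q.map cd).getD m []) = q.getD m (ptq s x) := by
      intro m hm
      rw [List.getD_eq_getElem _ _ (by rw [List.length_map]; exact hm), List.getElem_map, List.getD_eq_getElem _ _ hm, hcd]
    refine ⟨(q.map cd, R), ?_, ?_, ?_, hnz.2 h0, ?_, ?_⟩
    · change 0 < (q.map cd).length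
      rw [List.length_map]
      exact hlen
    · rw [eqP_iff]
      change ptq s ((q.map cd).getD 0 []) = _
      rw [hg 0 hlen, hec, List.getD_eq_getElem?_getD, ← List.head?_eq_getElem?, h1]
      rfl
    · rw [eqP_iff]
      change ptq s ((q.map cd).getD ((q.map cd).length - 1) []) = _
      rw [List.length_map, hg _ (by omega), List.getD_eq_getElem?_getD, ← List.getLast?_eq_getElem?, h2]
      rfl
    · intro y hy
      obtain ⟨p, hp, rfl⟩ := List.mem_map.1 hy
      rw [bdP_iff]
      intro i
      rw [hcd]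
      exact h3 p hp i
    · intro m hm
      have hm' : m + 1 < q.length := by
        have h5 : m < (q.map cd).length - 1 := List.mem_range.1 hm
        rw [List.length_map] at h5
        omega
      change stP s C₀ d₀ R pz ((q.map cd).getD m []) ((q.map cd).getD (m + 1) [])
      rw [stP_iff hpz]
      intro i
      rw [hg m (by omega), hg (m + 1) hm']
      exact h4 m hm' i

end Pool.Agent.Lib.MP_bbe012_lc.PM
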