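import Pool.Agent.Lib.MP_bbe012_lc.PM.Defs

/-!
# The integrals over the region: derivatives, Stokes' formula, analyticity in the exponent
-/

set_option autoImplicit false

namespace Pool.Agent.Lib.MP_bbe012_lc.PM

open MvPolynomial MeasureTheory Set PP PG Filter Topology ProbabilityTheory Asymptotics

/-- The derivative with respect to `θ_j` of `G h ^ (t - k)` is this polynomial times `h ^ (t - k - 1)`. -/
noncomputable def td {s n : ℕ} (h : Pz s n) (k : ℕ) (G : Pz (s + 1) n) (j : Fin s) : Pz (s + 1) n :=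
  up h * pderiv (Sum.inl j.castSucc) G + (tz s n - (k : Pz (s + 1) n)) * (pderiv (Sum.inl j.castSucc) (up h) * G)

/-! ### The Mellin transform -/

section mellin

variable {n : ℕ} {U : Set (Fin n → ℝ)} {H : (Fin n → ℝ) → ℝ}

theorem an_integrable (hH : Measurable H) (hU : MeasurableSet U) (hpos : ∀ x ∈ U, 0 < H x) {C : ℝ}
    (hC : ∀ x ∈ U, H x ≤ C) {u : (Fin n → ℝ) → ℝ} (hu : IntegrableOn u U) {t : ℝ} (ht : 0 ≤ t) :
    IntegrableOn (fun x => u x * H x ^ t) U := by
  refine Integrable.mul_bdd (c := C ^ t) hu ?_ ?_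
  · exact (hH.pow_const t).aestronglyMeasurable
  · refine (ae_restrict_mem hU).mono fun x hx => ?_
    rw [Real.norm_of_nonneg (Real.rpow_nonneg (hpos x hx).le _)]
    exact Real.rpow_le_rpow (hpos x hx).le (hC x hx) ht

/-- The measure with density the positive part of `u` on `U`. -/
noncomputable def anM (U : Set (Fin n → ℝ)) (u : (Fin n → ℝ) → ℝ) : Measure (Fin n → ℝ) :=
  (volume.restrict U).withDensity fun x => ((u x).toNNReal : ENNReal)

theorem an_exp (hpos : ∀ x ∈ U, 0 < H x) {x : Fin n → ℝ} (hx : x ∈ U) (t : ℝ) :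
    Real.exp (t * Real.log (H x)) = H x ^ t := by
  rw [Real.rpow_def_of_pos (hpos x hx), mul_comm]

theorem an_mem (hH : Measurable H) (hU : MeasurableSet U) (hpos : ∀ x ∈ U, 0 < H x) {C : ℝ}
    (hC : ∀ x ∈ U, H x ≤ C) {u : (Fin n → ℝ) → ℝ} (hm : Measurable u) (hu : IntegrableOn u U) {t : ℝ}
    (ht : 0 ≤ t) : t ∈ integrableExpSet (fun x => Real.log (H x)) (anM U u) := by
  have h1 : Integrable (fun x => Real.exp (t * Real.log (H x))) (anM U u) := by
    rw [anM, integrable_withDensity_iff_integrable_coe_smul hm.real_toNNReal]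
    have h2 : IntegrableOn (fun x => max (u x) 0 * H x ^ t) U :=
      an_integrable (u := fun x => max (u x) 0) hH hU hpos hC hu.pos_part ht
    refine h2.congr ((ae_restrict_mem hU).mono fun x hx => ?_)
    simp only [smul_eq_mul]
    rw [an_exp hpos hx, Real.coe_toNNReal']
  exact h1

theorem an_mgf (hU : MeasurableSet U) (hpos : ∀ x ∈ U, 0 < H x) {u : (Fin n → ℝ) → ℝ} (hm : Measurable u)
    (t : ℝ) : mgf (fun x => Real.log (H x)) (anM U u) t = ∫ x in U, max (u x) 0 * H x ^ t := by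
  rw [mgf, anM, integral_withDensity_eq_integral_smul hm.real_toNNReal]
  refine setIntegral_congr_fun hU fun x hx => ?_
  simp only [NNReal.smul_def, smul_eq_mul]
  rw [an_exp hpos hx, Real.coe_toNNReal']

theorem an_mellin_meas (hH : Measurable H) (hU : MeasurableSet U) (hpos : ∀ x ∈ U, 0 < H x) {C : ℝ}
    (hC : ∀ x ∈ U, H x ≤ C) {u : (Fin n → ℝ) → ℝ} (hm : Measurable u) (hu : IntegrableOn u U) :
    AnalyticOnNhd ℝ (fun t : ℝ => ∫ x in U, u x * H x ^ t) (Ioi 0) := by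
  have h1 : ∀ v : (Fin n → ℝ) → ℝ, Measurable v → IntegrableOn v U →
      AnalyticOnNhd ℝ (mgf (fun x => Real.log (H x)) (anM U v)) (Ioi 0) := fun v hvm hv =>
    analyticOnNhd_mgf.mono (interior_maximal (fun _ ht => an_mem hH hU hpos hC hvm hv (le_of_lt ht)) isOpen_Ioi)
  have h2 := (h1 u hm hu).sub (h1 (fun x => - u x) hm.neg hu.neg)
  refine h2.congr isOpen_Ioi fun t ht => ?_
  have ht0 : 0 ≤ t := le_of_lt ht
  simp only [Pi.sub_apply]
  have hneg : Measurable fun x => - u x := hm.neg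
  rw [an_mgf hU hpos hm, an_mgf hU hpos hneg,
    ← integral_sub (an_integrable (u := fun x => max (u x) 0) hH hU hpos hC hu.pos_part ht0)
      (an_integrable (u := fun x => max (- u x) 0) hH hU hpos hC hu.neg_part ht0)]
  refine setIntegral_congr_fun hU fun x hx => ?_
  rw [← sub_mul]
  congr 1
  rcases le_total 0 (u x) with h1 | h1
  · rw [max_eq_left h1, max_eq_right (by linarith), sub_zero]
  · rw [max_eq_right h1, max_eq_left (by linarith)]; ring

theorem an_mellin (hH : Measurable H) (hU : MeasurableSet U) (hpos : ∀ x ∈ U, 0 < H x) {C : ℝ}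
    (hC : ∀ x ∈ U, H x ≤ C) {u : (Fin n → ℝ) → ℝ} (hu : IntegrableOn u U) :
    AnalyticOnNhd ℝ (fun t : ℝ => ∫ x in U, u x * H x ^ t) (Ioi 0) := by
  set u' := hu.1.mk u with hu'
  have hae : u =ᵐ[volume.restrict U] u' := hu.1.ae_eq_mk
  have e : ∀ t : ℝ, ∫ x in U, u x * H x ^ t = ∫ x in U, u' x * H x ^ t := fun t =>
    integral_congr_ae (hae.mono fun x hx => by simp only [hx])
  simp only [e]
  exact an_mellin_meas hH hU hpos hC hu.1.stronglyMeasurable_mk.measurable (Integrable.congr hu hae)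

theorem an_tendsto (hH : Measurable H) (hU : MeasurableSet U) (hpos : ∀ x ∈ U, 0 < H x) {C : ℝ}
    (hC : ∀ x ∈ U, H x ≤ C) {u : (Fin n → ℝ) → ℝ} (hu : IntegrableOn u U) :
    Tendsto (fun t : ℝ => ∫ x in U, u x * H x ^ t) (𝓝[>] 0) (𝓝 (∫ x in U, u x)) := by
  refine tendsto_integral_filter_of_dominated_convergence (fun x => |u x| * max 1 C) ?_ ?_ ?_ ?_
  · filter_upwards [self_mem_nhdsWithin] with t ht
    exact (an_integrable hH hU hpos hC hu (le_of_lt ht)).aestronglyMeasurable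
  · have h3 : ∀ᶠ t : ℝ in 𝓝[>] 0, t < 1 := nhdsWithin_le_nhds (gt_mem_nhds one_pos)
    filter_upwards [self_mem_nhdsWithin, h3] with t ht ht1
    refine (ae_restrict_mem hU).mono fun x hx => ?_
    rw [norm_mul, Real.norm_of_nonneg (Real.rpow_nonneg (hpos x hx).le _)]
    refine mul_le_mul_of_nonneg_left ?_ (abs_nonneg _)
    have hp := hpos x hx
    have hle := hC x hx
    rcases le_total (H x) 1 with h4 | h4
    · exact (Real.rpow_le_one hp.le h4 (le_of_lt ht)).trans (le_max_left _ _)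
    · calc H x ^ t ≤ H x ^ (1 : ℝ) := Real.rpow_le_rpow_of_exponent_le h4 ht1.le
        _ = H x := Real.rpow_one _
        _ ≤ C := hle
        _ ≤ _ := le_max_right _ _
  · exact hu.abs.mul_const _
  · refine (ae_restrict_mem hU).mono fun x hx => ?_
    have h3 : Tendsto (fun t : ℝ => u x * H x ^ t) (𝓝 0) (𝓝 (u x * H x ^ (0 : ℝ))) :=
      (Real.continuous_const_rpow (hpos x hx).ne').continuousAt.tendsto.const_mul _
    rw [Real.rpow_zero, mul_one] at h3
    exact h3.mono_left nhdsWithin_le_nhds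

end mellin

/-! ### The derivative of a function extended by zero -/

theorem hasDerivAt_ind {U : Set ℝ} {G H : ℝ → ℝ} {G' H' s : ℝ} (hs : 1 < s) (hG : HasDerivAt G G' 0)
    (hH : HasDerivAt H H' 0) (hpos : ∀ τ ∈ U, 0 < H τ) (hloc : H 0 ≠ 0 → U ∈ 𝓝 0 ∨ Uᶜ ∈ 𝓝 0) :
    HasDerivAt (U.indicator fun τ => G τ * H τ ^ s)
      (U.indicator (fun _ => (H 0 * G' + s * (H' * G 0)) * H 0 ^ (s - 1)) 0) 0 := by
  by_cases hx : (0 : ℝ) ∈ U
  · rw [indicator_of_mem hx]
    have hp := hpos 0 hx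
    have hU : U ∈ 𝓝 (0 : ℝ) := by
      rcases hloc hp.ne' with h1 | h1
      · exact h1
      · exact absurd hx (mem_of_mem_nhds h1)
    have ev : (U.indicator fun τ => G τ * H τ ^ s) =ᶠ[𝓝 0] fun τ : ℝ => G τ * H τ ^ s := by
      filter_upwards [hU] with τ hτ
      exact indicator_of_mem (s := U) hτ _
    refine HasDerivAt.congr_of_eventuallyEq ?_ ev
    have d1 := hH.rpow_const (p := s) (Or.inl hp.ne')
    refine (hG.mul d1).congr_deriv ?_
    have e1 : H 0 ^ s = H 0 * H 0 ^ (s - 1) := by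
      rw [← Real.rpow_one_add' hp.le (by linarith)]; congr 1; ring
    rw [e1]; ring
  · rw [indicator_of_notMem hx]
    by_cases hx0 : H 0 = 0
    · have hbig : H =O[𝓝 0] fun τ : ℝ => τ := by
        have h1 := hH.isBigO_sub
        simp only [hx0, sub_zero] at h1
        exact h1
      have hsmall : Tendsto (fun τ : ℝ => |H τ| ^ (s - 1)) (𝓝 0) (𝓝 0) := by
        have h1 : Tendsto (fun τ : ℝ => |H τ|) (𝓝 0) (𝓝 0) := by
          have := hH.continuousAt.abs.tendsto
          simp only [hx0, abs_zero] at this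
          exact this
        have h2 := h1.rpow_const (p := s - 1) (Or.inr (by linarith))
        rwa [Real.zero_rpow (by linarith)] at h2
      have hGb : G =O[𝓝 0] fun _ : ℝ => (1 : ℝ) := hG.continuousAt.tendsto.isBigO_one ℝ
      have hlittle : (fun τ : ℝ => G τ * (H τ * |H τ| ^ (s - 1))) =o[𝓝 0] fun τ : ℝ => τ := by
        have h1 : (fun τ : ℝ => |H τ| ^ (s - 1)) =o[𝓝 0] fun _ : ℝ => (1 : ℝ) :=
          (isLittleO_one_iff ℝ).mpr hsmall
        have h2 := hGb.mul_isLittleO (hbig.mul_isLittleO h1)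
        simpa using h2
      have hbound : (U.indicator fun τ => G τ * H τ ^ s) =O[𝓝 0] fun τ : ℝ =>
          G τ * (H τ * |H τ| ^ (s - 1)) := by
        refine IsBigO.of_bound 1 (Eventually.of_forall fun τ => ?_)
        rw [one_mul]
        by_cases hm : τ ∈ U
        · rw [indicator_of_mem hm]
          have hp := hpos _ hm
          have e1 : H τ ^ s = H τ * |H τ| ^ (s - 1) := by
            rw [abs_of_pos hp, ← Real.rpow_one_add' hp.le (by linarith)]; congr 1; ring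
          rw [e1]
        · rw [indicator_of_notMem hm, norm_zero]
          exact norm_nonneg _
      have hfin := hbound.trans_isLittleO hlittle
      rw [hasDerivAt_iff_isLittleO]
      have e0 : (U.indicator fun τ => G τ * H τ ^ s) 0 = 0 := indicator_of_notMem hx _
      simp only [e0, sub_zero, smul_zero]
      exact hfin
    · rcases hloc hx0 with h1 | h1
      · exact absurd (mem_of_mem_nhds h1) hx
      · have ev : (U.indicator fun τ => G τ * H τ ^ s) =ᶠ[𝓝 0] fun _ => 0 := by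
          filter_upwards [h1] with τ hτ
          exact indicator_of_notMem hτ _
        exact (hasDerivAt_const (0 : ℝ) (0 : ℝ)).congr_of_eventuallyEq ev

theorem ind_congr {α β : Type*} {A : Set α} {B : Set β} {f : α → ℝ} {g : β → ℝ} {a : α} {b : β}
    (h : a ∈ A ↔ b ∈ B) (hfg : f a = g b) : A.indicator f a = B.indicator g b := by
  by_cases ha : a ∈ A
  · rw [indicator_of_mem ha, indicator_of_mem (h.1 ha), hfg]
  · rw [indicator_of_notMem ha, indicator_of_notMem (fun hb => ha (h.2 hb))]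

/-! ### Polynomial functions -/

theorem an_cont {s n : ℕ} (D : Pz s n) : Continuous fun p : (Fin s → ℝ) × (Fin n → ℝ) => vl D p.1 p.2 := by
  unfold vl
  induction D using MvPolynomial.induction_on with
  | C a =>
    simp only [aeval_C]
    exact continuous_const
  | add p q hp hq =>
    simp only [map_add]
    exact hp.add hq
  | mul_X p i hp =>
    simp only [map_mul, aeval_X]
    refine hp.mul ?_
    rcases i with i | l
    · exact (continuous_apply i).comp continuous_fst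
    · exact (continuous_apply l).comp continuous_snd

theorem an_cont_x {s n : ℕ} (D : Pz s n) (θ : Fin s → ℝ) : Continuous fun x : Fin n → ℝ => vl D θ x :=
  Continuous.comp (g := fun q : (Fin s → ℝ) × (Fin n → ℝ) => vl D q.1 q.2)
    (f := fun x : Fin n → ℝ => (θ, x)) (an_cont D) (Continuous.prodMk_right θ)

theorem hasDerivAt_line {σ : Type*} [DecidableEq σ] (D : MvPolynomial σ ℚ) (i : σ) (y : σ → ℝ) :
    HasDerivAt (fun τ : ℝ => aeval (y + τ • (Pi.single i 1 : σ → ℝ)) D) (aeval y (pderiv i D)) 0 := by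
  induction D using MvPolynomial.induction_on with
  | C a =>
    simp only [aeval_C, pderiv_C, map_zero]
    exact hasDerivAt_const _ _
  | add p q hp hq =>
    simp only [map_add]
    exact hp.add hq
  | mul_X p k hp =>
    simp only [map_mul, aeval_X, pderiv_mul, map_add, pderiv_X]
    have h1 : HasDerivAt (fun τ : ℝ => (y + τ • (Pi.single i 1 : σ → ℝ)) k)
        (aeval y ((Pi.single i 1 : σ → MvPolynomial σ ℚ) k)) 0 := by
      have e1 : (aeval y ((Pi.single i 1 : σ → MvPolynomial σ ℚ) k) : ℝ) = (Pi.single i 1 : σ → ℝ) k := by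
        rw [Pi.single_apply, Pi.single_apply]; split_ifs <;> simp
      rw [e1]
      simp only [Pi.add_apply, Pi.smul_apply, smul_eq_mul]
      have := ((hasDerivAt_id (0 : ℝ)).mul_const ((Pi.single i 1 : σ → ℝ) k)).const_add (y k)
      simpa using this
    have h2 := hp.mul h1
    simp only [zero_smul, add_zero] at h2
    exact h2

theorem vl_line_inl {s n : ℕ} (D : Pz s n) (j : Fin s) (θ : Fin s → ℝ) (x : Fin n → ℝ) :
    HasDerivAt (fun τ : ℝ => vl D (θ + τ • (Pi.single j 1 : Fin s → ℝ)) x) (vl (pderiv (Sum.inl j) D) θ x) 0 := by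
  have h := hasDerivAt_line D (Sum.inl j) (Sum.elim θ x)
  have e : ∀ τ : ℝ, Sum.elim (θ + τ • (Pi.single j 1 : Fin s → ℝ)) x =
      Sum.elim θ x + τ • (Pi.single (Sum.inl j) 1 : Fin s ⊕ Fin n → ℝ) := by
    intro τ
    funext i
    rcases i with i | i
    · simp only [Sum.elim_inl, Pi.add_apply, Pi.smul_apply, Pi.single_apply, Sum.inl.injEq]
    · simp only [Sum.elim_inr, Pi.add_apply, Pi.smul_apply, Pi.single_apply, reduceCtorEq, if_false, smul_zero, add_zero]
  unfold vl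
  simp only [e]
  exact h

theorem vl_line_inr {s n : ℕ} (D : Pz s n) (l : Fin n) (θ : Fin s → ℝ) (x : Fin n → ℝ) :
    HasDerivAt (fun τ : ℝ => vl D θ (x + τ • (Pi.single l 1 : Fin n → ℝ))) (vl (pderiv (Sum.inr l) D) θ x) 0 := by
  have h := hasDerivAt_line D (Sum.inr l) (Sum.elim θ x)
  have e : ∀ τ : ℝ, Sum.elim θ (x + τ • (Pi.single l 1 : Fin n → ℝ)) =
      Sum.elim θ x + τ • (Pi.single (Sum.inr l) 1 : Fin s ⊕ Fin n → ℝ) := by
    intro τ
    funext i
    rcases i with i | i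
    · simp only [Sum.elim_inl, Pi.add_apply, Pi.smul_apply, Pi.single_apply, reduceCtorEq, if_false, smul_zero, add_zero]
    · simp only [Sum.elim_inr, Pi.add_apply, Pi.smul_apply, Pi.single_apply, Sum.inr.injEq]
  unfold vl
  simp only [e]
  exact h

theorem vl_up {s n : ℕ} (G : Pz s n) (θ : Fin s → ℝ) (t : ℝ) (x : Fin n → ℝ) :
    vl (up G) (Fin.snoc θ t : Fin (s + 1) → ℝ) x = vl G θ x := by
  unfold vl up
  rw [aeval_rename]
  congr 2
  funext i
  rcases i with i | i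
  · simp
  · simp

theorem vl_tz {s n : ℕ} (θ : Fin s → ℝ) (t : ℝ) (x : Fin n → ℝ) :
    vl (tz s n) (Fin.snoc θ t : Fin (s + 1) → ℝ) x = t := by
  unfold vl tz
  rw [aeval_X, Sum.elim_inl, Fin.snoc_last]

theorem snoc_line {s : ℕ} (θ : Fin s → ℝ) (t τ : ℝ) (j : Fin s) :
    (Fin.snoc (θ + τ • (Pi.single j 1 : Fin s → ℝ)) t : Fin (s + 1) → ℝ) =
      (Fin.snoc θ t : Fin (s + 1) → ℝ) + τ • (Pi.single j.castSucc 1 : Fin (s + 1) → ℝ) := by
  ext i
  refine Fin.lastCases ?_ (fun i => ?_) i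
  · simp [(Fin.castSucc_lt_last j).ne']
  · simp [Pi.single_apply]

theorem vl_add' {s n : ℕ} (D D' : Pz s n) (θ : Fin s → ℝ) (x : Fin n → ℝ) :
    vl (D + D') θ x = vl D θ x + vl D' θ x := map_add _ _ _

theorem vl_mul' {s n : ℕ} (D D' : Pz s n) (θ : Fin s → ℝ) (x : Fin n → ℝ) :
    vl (D * D') θ x = vl D θ x * vl D' θ x := map_mul _ _ _

theorem vl_sub' {s n : ℕ} (D D' : Pz s n) (θ : Fin s → ℝ) (x : Fin n → ℝ) :
    vl (D - D') θ x = vl D θ x - vl D' θ x := map_sub _ _ _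

theorem vl_natCast {s n : ℕ} (k : ℕ) (θ : Fin s → ℝ) (x : Fin n → ℝ) :
    vl (k : Pz s n) θ x = k := map_natCast _ _

theorem vl_hh {s n r : ℕ} (p : Fin r → Pz s n) (θ : Fin s → ℝ) (x : Fin n → ℝ) :
    vl (hh p) θ x = (∏ j, vl (p j) θ x) * ∏ i : Fin n, (1 - x i ^ 2) := by
  unfold vl hh
  rw [map_mul, map_prod, map_prod]
  congr 1
  refine Finset.prod_congr rfl fun i _ => ?_
  rw [map_sub, map_one, map_pow, aeval_X, Sum.elim_inr]

/-! ### The region -/

section region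

variable {s n r : ℕ} (p : Fin r → Pz s n)

theorem rg_pos {θ : Fin s → ℝ} {x : Fin n → ℝ} (hx : x ∈ rg p θ) : 0 < vl (hh p) θ x := by
  rw [vl_hh]
  refine mul_pos (Finset.prod_pos fun j _ => hx.2 j) (Finset.prod_pos fun i _ => ?_)
  have := hx.1 i
  linarith

theorem rg_open : IsOpen {y : (Fin s → ℝ) × (Fin n → ℝ) | y.2 ∈ rg p y.1} := by
  have : {y : (Fin s → ℝ) × (Fin n → ℝ) | y.2 ∈ rg p y.1} =
      (⋂ i, {y | y.2 i ^ 2 < 1}) ∩ ⋂ j, {y | 0 < vl (p j) y.1 y.2} := by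
    ext y
    simp only [rg, mem_ofPred_eq, mem_inter_iff, mem_iInter]
  rw [this]
  refine (isOpen_iInter_of_finite fun i => ?_).inter (isOpen_iInter_of_finite fun j => ?_)
  · exact isOpen_lt (((continuous_apply i).comp continuous_snd).pow 2) continuous_const
  · exact isOpen_lt continuous_const (an_cont (p j))

theorem rg_open' (θ : Fin s → ℝ) : IsOpen (rg p θ) :=
  (rg_open p).preimage (Continuous.prodMk_right θ)

theorem rg_loc {y : (Fin s → ℝ) × (Fin n → ℝ)} (hy : vl (hh p) y.1 y.2 ≠ 0) :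
    {y : (Fin s → ℝ) × (Fin n → ℝ) | y.2 ∈ rg p y.1} ∈ 𝓝 y ∨ {y : (Fin s → ℝ) × (Fin n → ℝ) | y.2 ∈ rg p y.1}ᶜ ∈ 𝓝 y := by
  by_cases hm : y.2 ∈ rg p y.1
  · exact Or.inl ((rg_open p).mem_nhds hm)
  · refine Or.inr ?_
    rw [vl_hh] at hy
    have h1 := left_ne_zero_of_mul hy
    have h2 := right_ne_zero_of_mul hy
    rw [Finset.prod_ne_zero_iff] at h1 h2
    simp only [rg, mem_ofPred_eq, not_and_or, not_forall, not_lt] at hm
    rcases hm with ⟨i, hi⟩ | ⟨j, hj⟩
    · have h3 : 1 < y.2 i ^ 2 := lt_of_le_of_ne hi fun h => h2 i (Finset.mem_univ i) (by rw [← h, sub_self])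
      have ho : IsOpen {z : (Fin s → ℝ) × (Fin n → ℝ) | 1 < z.2 i ^ 2} :=
        isOpen_lt continuous_const (((continuous_apply i).comp continuous_snd).pow 2)
      filter_upwards [ho.mem_nhds h3] with z hz hz2
      exact absurd (hz2.1 i) (not_lt.mpr (le_of_lt hz))
    · have h3 : vl (p j) y.1 y.2 < 0 := lt_of_le_of_ne hj (h1 j (Finset.mem_univ j))
      have ho : IsOpen {z : (Fin s → ℝ) × (Fin n → ℝ) | vl (p j) z.1 z.2 < 0} :=
        isOpen_lt (an_cont (p j)) continuous_const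
      filter_upwards [ho.mem_nhds h3] with z hz hz2
      exact absurd (hz2.2 j) (not_lt.mpr (le_of_lt hz))

/-- The closed cube. -/
theorem rg_sub (θ : Fin s → ℝ) : rg p θ ⊆ Icc (-1 : Fin n → ℝ) 1 := by
  intro x hx
  constructor
  · intro i
    have h1 := hx.1 i
    simp only [Pi.neg_apply, Pi.one_apply]
    nlinarith [sq_nonneg (x i - 1)]
  · intro i
    have h1 := hx.1 i
    simp only [Pi.one_apply]
    nlinarith [sq_nonneg (x i + 1)]

theorem vl_bound (D : Pz s n) (θ : Fin s → ℝ) :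
    ∃ C : ℝ, 0 < C ∧ ∀ θ' ∈ Metric.closedBall θ 1, ∀ x ∈ Icc (-1 : Fin n → ℝ) 1, |vl D θ' x| ≤ C := by
  have hK : IsCompact (Metric.closedBall θ 1 ×ˢ Icc (-1 : Fin n → ℝ) 1) :=
    (isCompact_closedBall θ 1).prod isCompact_Icc
  obtain ⟨C, hC⟩ := hK.exists_bound_of_continuousOn (an_cont D).continuousOn
  exact ⟨max C 1, by positivity, fun θ' hθ' x hx => (hC (θ', x) ⟨hθ', hx⟩).trans (le_max_left _ _)⟩

theorem rg_bound (θ : Fin s → ℝ) : ∃ C : ℝ, 0 < C ∧ ∀ θ' ∈ Metric.closedBall θ 1, ∀ x ∈ rg p θ',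
    vl (hh p) θ' x ≤ C := by
  obtain ⟨C, hC, h⟩ := vl_bound (hh p) θ
  exact ⟨C, hC, fun θ' hθ' x hx => (le_abs_self _).trans (h θ' hθ' x (rg_sub p θ' hx))⟩

end region

/-! ### The statements -/

/-- Analyticity in the exponent, and the limit, for integrable functions. -/
theorem mellin {s n r : ℕ} (p : Fin r → Pz s n) (θ : Fin s → ℝ) {u : (Fin n → ℝ) → ℝ} (hu : IntegrableOn u (rg p θ)) :
    AnalyticOnNhd ℝ (fun t : ℝ => ∫ x in rg p θ, u x * vl (hh p) θ x ^ t) (Ioi 0) ∧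
      Tendsto (fun t : ℝ => ∫ x in rg p θ, u x * vl (hh p) θ x ^ t) (𝓝[>] 0) (𝓝 (∫ x in rg p θ, u x)) := by
  obtain ⟨C, hC, h⟩ := rg_bound p θ
  have hH : Measurable fun x => vl (hh p) θ x := (an_cont_x (hh p) θ).measurable
  have hU : MeasurableSet (rg p θ) := (rg_open' p θ).measurableSet
  have hpos : ∀ x ∈ rg p θ, 0 < vl (hh p) θ x := fun x hx => rg_pos p hx
  have hb := h θ (Metric.mem_closedBall_self zero_le_one)
  exact ⟨an_mellin hH hU hpos hb hu, an_tendsto hH hU hpos hb hu⟩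

theorem rg_integrable {s n r : ℕ} (p : Fin r → Pz s n) (θ : Fin s → ℝ) {f : (Fin n → ℝ) → ℝ}
    (hf : Continuous f) {t : ℝ} (ht : 0 ≤ t) :
    IntegrableOn (fun x => f x * vl (hh p) θ x ^ t) (rg p θ) := by
  obtain ⟨C, hC, h⟩ := rg_bound p θ
  have hH : Measurable fun x => vl (hh p) θ x := (an_cont_x (hh p) θ).measurable
  have hU : MeasurableSet (rg p θ) := (rg_open' p θ).measurableSet
  have hpos : ∀ x ∈ rg p θ, 0 < vl (hh p) θ x := fun x hx => rg_pos p hx
  have hb := h θ (Metric.mem_closedBall_self zero_le_one)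
  refine an_integrable hH hU hpos hb ?_ ht
  exact (hf.continuousOn.integrableOn_compact isCompact_Icc).mono_set (rg_sub p θ)

/-- Analyticity in `t`. -/
theorem FI_analytic {s n r : ℕ} (p : Fin r → Pz s n) (G : Pz (s + 1) n) (k : ℕ) (θ : Fin s → ℝ) {t : ℝ}
    (ht : (k : ℝ) < t) : AnalyticAt ℝ (FI p G k θ) t := by
  -- decomposition in powers of `t`
  obtain ⟨N, g, hg⟩ : ∃ (N : Finset ((Fin (s + 1) ⊕ Fin n) →₀ ℕ)) (g : ((Fin (s + 1) ⊕ Fin n) →₀ ℕ) → (Fin n → ℝ) → ℝ),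
      (∀ m, Continuous (g m)) ∧ ∀ (t : ℝ) (x : Fin n → ℝ), vl G (Fin.snoc θ t : Fin (s + 1) → ℝ) x =
        ∑ m ∈ N, t ^ m (Sum.inl (Fin.last s)) * g m x := by
    refine ⟨G.support, fun m x => (algebraMap ℚ ℝ (coeff m G)) *
      ((∏ i : Fin s, θ i ^ m (Sum.inl i.castSucc)) * ∏ i : Fin n, x i ^ m (Sum.inr i)), fun m => ?_, fun t x => ?_⟩
    · fun_prop
    · conv_lhs => rw [vl, G.as_sum]
      rw [map_sum]
      refine Finset.sum_congr rfl fun m _ => ?_
      rw [aeval_monomial, Finsupp.prod_fintype _ _ (fun i => by simp), Fintype.prod_sum_type,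
        Fin.prod_univ_castSucc]
      simp only [Sum.elim_inl, Sum.elim_inr, Fin.snoc_castSucc, Fin.snoc_last]
      ring
  obtain ⟨hg1, hg2⟩ := hg
  have hint : ∀ m, IntegrableOn (g m) (rg p θ) := fun m =>
    ((hg1 m).continuousOn.integrableOn_compact isCompact_Icc).mono_set (rg_sub p θ)
  have key : ∀ᶠ t' : ℝ in 𝓝 t, ∑ m ∈ N, t' ^ m (Sum.inl (Fin.last s)) *
      ∫ x in rg p θ, g m x * vl (hh p) θ x ^ (t' - k) = FI p G k θ t' := by
    filter_upwards [lt_mem_nhds ht] with t' ht'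
    rw [FI]
    simp only [← integral_const_mul]
    rw [← integral_finsetSum]
    · refine setIntegral_congr_fun (rg_open' p θ).measurableSet fun x _ => ?_
      rw [hg2, Finset.sum_mul]
      exact Finset.sum_congr rfl fun m _ => by ring
    · intro m _
      exact (rg_integrable p θ (hg1 m) (by linarith)).const_mul _
  refine AnalyticAt.congr ?_ key
  refine Finset.analyticAt_fun_sum _ fun m _ => (analyticAt_id.pow _).mul ?_
  have h1 := (mellin p θ (hint m)).1 (t - k) (by rw [mem_Ioi]; linarith)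
  exact AnalyticAt.fun_comp (g := fun t : ℝ => ∫ x in rg p θ, g m x * vl (hh p) θ x ^ t)
    (f := fun t' : ℝ => t' - k) h1 (analyticAt_id.sub analyticAt_const)

theorem vl_td {s n : ℕ} (h : Pz s n) (k : ℕ) (G : Pz (s + 1) n) (j : Fin s) (θ : Fin s → ℝ) (t : ℝ) (x : Fin n → ℝ) :
    vl (td h k G j) (Fin.snoc θ t : Fin (s + 1) → ℝ) x =
      vl h θ x * vl (pderiv (Sum.inl j.castSucc) G) (Fin.snoc θ t : Fin (s + 1) → ℝ) x +
        (t - k) * (vl (pderiv (Sum.inl j.castSucc) (up h)) (Fin.snoc θ t : Fin (s + 1) → ℝ) x *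
          vl G (Fin.snoc θ t : Fin (s + 1) → ℝ) x) := by
  unfold td
  rw [vl_add', vl_mul', vl_mul', vl_mul', vl_sub', vl_up, vl_tz, vl_natCast]

theorem hasDerivAt_snoc {s n : ℕ} (G : Pz (s + 1) n) (j : Fin s) (θ : Fin s → ℝ) (t : ℝ) (x : Fin n → ℝ) :
    HasDerivAt (fun τ : ℝ => vl G (Fin.snoc (θ + τ • (Pi.single j 1 : Fin s → ℝ)) t : Fin (s + 1) → ℝ) x)
      (vl (pderiv (Sum.inl j.castSucc) G) (Fin.snoc θ t : Fin (s + 1) → ℝ) x) 0 := by
  simp only [snoc_line]
  exact vl_line_inl G j.castSucc (Fin.snoc θ t) x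

/-- The integrand extended by zero. -/
noncomputable def anF {s n r : ℕ} (p : Fin r → Pz s n) (D : Pz (s + 1) n) (t e : ℝ) (θ : Fin s → ℝ) :
    (Fin n → ℝ) → ℝ :=
  (rg p θ).indicator fun x => vl D (Fin.snoc θ t : Fin (s + 1) → ℝ) x * vl (hh p) θ x ^ e

theorem FI_anF {s n r : ℕ} (p : Fin r → Pz s n) (D : Pz (s + 1) n) (k : ℕ) (θ : Fin s → ℝ) (t : ℝ) :
    FI p D k θ t = ∫ x, anF p D t (t - k) θ x := by
  rw [FI, anF, integral_indicator (rg_open' p _).measurableSet]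

theorem anF_line0 {s n r : ℕ} (p : Fin r → Pz s n) (G : Pz (s + 1) n) (k : ℕ) {t : ℝ} (ht : (k : ℝ) + 1 < t)
    (θ : Fin s → ℝ) (j : Fin s) (x : Fin n → ℝ) :
    HasDerivAt (fun σ : ℝ => anF p G t (t - k) (θ + σ • (Pi.single j 1 : Fin s → ℝ)) x)
      (anF p (td (hh p) k G j) t (t - k - 1) θ x) 0 := by
  have key := hasDerivAt_ind (U := {σ : ℝ | x ∈ rg p (θ + σ • (Pi.single j 1 : Fin s → ℝ))}) (s := t - k)
    (G := fun σ : ℝ => vl G (Fin.snoc (θ + σ • (Pi.single j 1 : Fin s → ℝ)) t : Fin (s + 1) → ℝ) x)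
    (H := fun σ : ℝ => vl (hh p) (θ + σ • (Pi.single j 1 : Fin s → ℝ)) x) (by linarith)
    (hasDerivAt_snoc G j θ t x) (by
      have h2 := hasDerivAt_snoc (up (hh p)) j θ t x
      simp only [vl_up] at h2
      exact h2)
    (fun σ hσ => rg_pos p hσ) (fun hne => by
      have hc : Continuous fun σ : ℝ => ((θ + σ • (Pi.single j 1 : Fin s → ℝ), x) : (Fin s → ℝ) × (Fin n → ℝ)) := by
        fun_prop
      rcases rg_loc p (y := (θ + (0 : ℝ) • (Pi.single j 1 : Fin s → ℝ), x)) hne with h2 | h2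
      · exact Or.inl (hc.continuousAt.preimage_mem_nhds h2)
      · exact Or.inr (hc.continuousAt.preimage_mem_nhds h2))
  have e1 : (fun σ : ℝ => anF p G t (t - k) (θ + σ • (Pi.single j 1 : Fin s → ℝ)) x) =
      ({σ : ℝ | x ∈ rg p (θ + σ • (Pi.single j 1 : Fin s → ℝ))}).indicator fun σ : ℝ =>
        vl G (Fin.snoc (θ + σ • (Pi.single j 1 : Fin s → ℝ)) t : Fin (s + 1) → ℝ) x *
          vl (hh p) (θ + σ • (Pi.single j 1 : Fin s → ℝ)) x ^ (t - k) := by
    funext σ
    exact ind_congr Iff.rfl rfl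
  rw [e1]
  refine key.congr_deriv ?_
  simp only [zero_smul, add_zero]
  unfold anF
  refine ind_congr ?_ ?_
  · rw [mem_ofPred_eq, zero_smul, add_zero]
  · rw [vl_td]

theorem anF_line {s n r : ℕ} (p : Fin r → Pz s n) (G : Pz (s + 1) n) (k : ℕ) {t : ℝ} (ht : (k : ℝ) + 1 < t)
    (θ : Fin s → ℝ) (j : Fin s) (x : Fin n → ℝ) (τ : ℝ) :
    HasDerivAt (fun σ : ℝ => anF p G t (t - k) (θ + σ • (Pi.single j 1 : Fin s → ℝ)) x)
      (anF p (td (hh p) k G j) t (t - k - 1) (θ + τ • (Pi.single j 1 : Fin s → ℝ)) x) τ := by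
  have h0 := anF_line0 p G k ht (θ + τ • (Pi.single j 1 : Fin s → ℝ)) j x
  have h1 := HasDerivAt.scomp
    (g₁ := fun σ : ℝ => anF p G t (t - k) (θ + τ • (Pi.single j 1 : Fin s → ℝ) + σ • (Pi.single j 1 : Fin s → ℝ)) x)
    (h := fun σ : ℝ => σ - τ) (x := τ) (by simpa using h0) ((hasDerivAt_id τ).sub_const τ)
  rw [one_smul] at h1
  have e : (fun σ : ℝ => anF p G t (t - k) (θ + σ • (Pi.single j 1 : Fin s → ℝ)) x) =
      (fun σ : ℝ => anF p G t (t - k) (θ + τ • (Pi.single j 1 : Fin s → ℝ) + σ • (Pi.single j 1 : Fin s → ℝ)) x) ∘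
        fun σ : ℝ => σ - τ := by
    funext σ
    have e2 : θ + σ • (Pi.single j 1 : Fin s → ℝ) =
        θ + τ • (Pi.single j 1 : Fin s → ℝ) + (σ - τ) • (Pi.single j 1 : Fin s → ℝ) := by
      rw [sub_smul]; abel
    rw [Function.comp, e2]
  rw [e]
  exact h1

theorem anF_meas {s n r : ℕ} (p : Fin r → Pz s n) (D : Pz (s + 1) n) (t e : ℝ) (θ : Fin s → ℝ) :
    AEStronglyMeasurable (anF p D t e θ) volume := by
  have hH : Measurable fun x => vl (hh p) θ x := (an_cont_x (hh p) θ).measurable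
  have hD : Measurable fun x => vl D (Fin.snoc θ t : Fin (s + 1) → ℝ) x :=
    (an_cont_x D _).measurable
  exact ((hD.mul (hH.pow_const _)).indicator (rg_open' p θ).measurableSet).aestronglyMeasurable

theorem anF_bound {s n r : ℕ} (p : Fin r → Pz s n) (D : Pz (s + 1) n) (t : ℝ) {e : ℝ} (he : 0 ≤ e) (θ : Fin s → ℝ) :
    ∃ C : ℝ, 0 < C ∧ ∀ θ' ∈ Metric.closedBall θ 1, ∀ x,
      ‖anF p D t e θ' x‖ ≤ (Icc (-1 : Fin n → ℝ) 1).indicator (fun _ => C) x := by
  obtain ⟨C1, hC1, hb1⟩ := rg_bound p θ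
  obtain ⟨C2, hC2, hb2⟩ : ∃ C : ℝ, 0 < C ∧ ∀ θ' ∈ Metric.closedBall θ 1, ∀ x ∈ Icc (-1 : Fin n → ℝ) 1,
      |vl D (Fin.snoc θ' t : Fin (s + 1) → ℝ) x| ≤ C := by
    have hK : IsCompact (Metric.closedBall θ 1 ×ˢ Icc (-1 : Fin n → ℝ) 1) :=
      (isCompact_closedBall θ 1).prod isCompact_Icc
    have hsn : Continuous fun y : (Fin s → ℝ) × (Fin n → ℝ) => (Fin.snoc y.1 t : Fin (s + 1) → ℝ) := by
      refine continuous_pi fun i => ?_
      refine Fin.lastCases ?_ (fun i => ?_) i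
      · simp only [Fin.snoc_last]; exact continuous_const
      · simp only [Fin.snoc_castSucc]; exact (continuous_apply i).comp continuous_fst
    have hc : Continuous fun y : (Fin s → ℝ) × (Fin n → ℝ) =>
        vl D (Fin.snoc y.1 t : Fin (s + 1) → ℝ) y.2 :=
      Continuous.comp (g := fun q : (Fin (s + 1) → ℝ) × (Fin n → ℝ) => vl D q.1 q.2)
        (f := fun y : (Fin s → ℝ) × (Fin n → ℝ) => ((Fin.snoc y.1 t : Fin (s + 1) → ℝ), y.2))
        (an_cont D) (hsn.prodMk continuous_snd)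
    obtain ⟨C, hC⟩ := hK.exists_bound_of_continuousOn hc.continuousOn
    exact ⟨max C 1, by positivity, fun θ' hθ' x hx => (hC (θ', x) ⟨hθ', hx⟩).trans (le_max_left _ _)⟩
  have hCe : 0 < C1 ^ e := Real.rpow_pos_of_pos hC1 e
  refine ⟨C2 * C1 ^ e, mul_pos hC2 hCe, fun θ' hθ' x => ?_⟩
  unfold anF
  by_cases hx : x ∈ rg p θ'
  · rw [indicator_of_mem hx, indicator_of_mem (rg_sub p _ hx), norm_mul,
      Real.norm_of_nonneg (Real.rpow_nonneg (rg_pos p hx).le _)]
    exact mul_le_mul (hb2 _ hθ' x (rg_sub p _ hx))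
      (Real.rpow_le_rpow (rg_pos p hx).le (hb1 _ hθ' x hx) he)
      (Real.rpow_nonneg (rg_pos p hx).le _) hC2.le
  · rw [indicator_of_notMem hx, norm_zero]
    exact indicator_nonneg (fun _ _ => (mul_pos hC2 hCe).le) x

theorem anF_integrable {s n r : ℕ} (p : Fin r → Pz s n) (D : Pz (s + 1) n) (t : ℝ) {e : ℝ} (he : 0 ≤ e)
    (θ : Fin s → ℝ) : Integrable (anF p D t e θ) volume := by
  unfold anF
  rw [integrable_indicator_iff (rg_open' p _).measurableSet]
  exact rg_integrable p θ (an_cont_x D _) he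

theorem FI_deriv {s n r : ℕ} (p : Fin r → Pz s n) (G : Pz (s + 1) n) (k : ℕ) {t : ℝ} (ht : (k : ℝ) + 1 < t)
    (θ : Fin s → ℝ) (j : Fin s) :
    HasDerivAt (fun τ : ℝ => FI p G k (θ + τ • (Pi.single j 1 : Fin s → ℝ)) t) (FI p (td (hh p) k G j) (k + 1) θ t) 0 := by
  have e4 : t - ((k + 1 : ℕ) : ℝ) = t - k - 1 := by push_cast; ring
  have hball : ∀ τ ∈ Metric.ball (0 : ℝ) 1, θ + τ • (Pi.single j 1 : Fin s → ℝ) ∈ Metric.closedBall θ 1 := by
    intro τ hτ
    rw [mem_ball_zero_iff] at hτ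
    rw [Metric.mem_closedBall, dist_eq_norm, add_sub_cancel_left, norm_smul, Pi.norm_single, norm_one, mul_one]
    exact hτ.le
  obtain ⟨C, hC, hb⟩ := anF_bound p (td (hh p) k G j) t (e := t - k - 1) (by linarith) θ
  have key := (hasDerivAt_integral_of_dominated_loc_of_deriv_le (μ := (volume : Measure (Fin n → ℝ)))
    (F := fun (τ : ℝ) (x : Fin n → ℝ) => anF p G t (t - k) (θ + τ • (Pi.single j 1 : Fin s → ℝ)) x)
    (F' := fun (τ : ℝ) (x : Fin n → ℝ) => anF p (td (hh p) k G j) t (t - k - 1) (θ + τ • (Pi.single j 1 : Fin s → ℝ)) x)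
    (x₀ := 0) (bound := (Icc (-1 : Fin n → ℝ) 1).indicator fun _ => C)
    (Metric.ball_mem_nhds (0 : ℝ) one_pos) (Eventually.of_forall fun τ => anF_meas p G t (t - k) _)
    (anF_integrable p G t (by linarith) _) (anF_meas p _ t _ _)
    (Eventually.of_forall fun x τ hτ => hb _ (hball τ hτ) x)
    ((integrable_indicator_iff measurableSet_Icc).mpr (integrableOn_const isCompact_Icc.measure_lt_top.ne))
    (Eventually.of_forall fun x τ _ => anF_line p G k ht θ j x τ)).2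
  simp only [FI_anF]
  rw [e4]
  simp only [zero_smul, add_zero] at key
  exact key

theorem vl_dv {s n : ℕ} (h : Pz s n) (K : ℕ) (g : Fin n → Pz (s + 1) n) (θ : Fin s → ℝ) (t : ℝ) (x : Fin n → ℝ) :
    vl (dv h K g) (Fin.snoc θ t : Fin (s + 1) → ℝ) x =
      ∑ l, (vl h θ x * vl (pderiv (Sum.inr l) (g l)) (Fin.snoc θ t : Fin (s + 1) → ℝ) x +
        (t - K) * (vl (pderiv (Sum.inr l) (up h)) (Fin.snoc θ t : Fin (s + 1) → ℝ) x *
          vl (g l) (Fin.snoc θ t : Fin (s + 1) → ℝ) x)) := by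
  have e : vl (dv h K g) (Fin.snoc θ t : Fin (s + 1) → ℝ) x =
      ∑ l, vl (up h * pderiv (Sum.inr l) (g l) + (tz s n - (K : Pz (s + 1) n)) * (pderiv (Sum.inr l) (up h) * g l))
        (Fin.snoc θ t : Fin (s + 1) → ℝ) x := map_sum _ _ _
  rw [e]
  refine Finset.sum_congr rfl fun l _ => ?_
  rw [vl_add', vl_mul', vl_mul', vl_mul', vl_sub', vl_up, vl_tz, vl_natCast]

/-- Stokes' formula. -/
theorem FI_dv {s n r : ℕ} (p : Fin r → Pz s n) (K : ℕ) (g : Fin n → Pz (s + 1) n) {t : ℝ} (ht : (K : ℝ) + 1 < t)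
    (θ : Fin s → ℝ) : FI p (dv (hh p) K g) (K + 1) θ t = 0 := by
  have hcont : ∀ (D : Pz (s + 1) n), Continuous fun x => vl D (Fin.snoc θ t : Fin (s + 1) → ℝ) x :=
    fun D => an_cont_x D _
  have hcH : Continuous fun x => vl (hh p) θ x := an_cont_x (hh p) θ
  have hU : MeasurableSet (rg p θ) := (rg_open' p θ).measurableSet
  have hc : ∀ l, Continuous fun x => vl (hh p) θ x * vl (pderiv (Sum.inr l) (g l)) (Fin.snoc θ t : Fin (s + 1) → ℝ) x +
        (t - K) * (vl (pderiv (Sum.inr l) (up (hh p))) (Fin.snoc θ t : Fin (s + 1) → ℝ) x *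
          vl (g l) (Fin.snoc θ t : Fin (s + 1) → ℝ) x) := fun l =>
    (hcH.mul (hcont _)).add (continuous_const.mul ((hcont _).mul (hcont _)))
  have hexp : t - ((K + 1 : ℕ) : ℝ) = t - K - 1 := by push_cast; ring
  have e : ∀ x, vl (dv (hh p) K g) (Fin.snoc θ t : Fin (s + 1) → ℝ) x * vl (hh p) θ x ^ (t - ((K + 1 : ℕ) : ℝ)) =
      ∑ l, (vl (hh p) θ x * vl (pderiv (Sum.inr l) (g l)) (Fin.snoc θ t : Fin (s + 1) → ℝ) x +
        (t - K) * (vl (pderiv (Sum.inr l) (up (hh p))) (Fin.snoc θ t : Fin (s + 1) → ℝ) x *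
          vl (g l) (Fin.snoc θ t : Fin (s + 1) → ℝ) x)) * vl (hh p) θ x ^ (t - K - 1) := by
    intro x
    rw [vl_dv, Finset.sum_mul, hexp]
  rw [FI]
  simp only [e]
  rw [integral_finsetSum _ fun l _ => rg_integrable p θ (hc l) (by linarith)]
  refine Finset.sum_eq_zero fun l _ => ?_
  -- Stokes for one coordinate
  have hder : ∀ x, HasLineDerivAt ℝ ((rg p θ).indicator fun y =>
      vl (g l) (Fin.snoc θ t : Fin (s + 1) → ℝ) y * vl (hh p) θ y ^ (t - K))
      ((rg p θ).indicator (fun y => (vl (hh p) θ y * vl (pderiv (Sum.inr l) (g l)) (Fin.snoc θ t : Fin (s + 1) → ℝ) y +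
        (t - K) * (vl (pderiv (Sum.inr l) (up (hh p))) (Fin.snoc θ t : Fin (s + 1) → ℝ) y *
          vl (g l) (Fin.snoc θ t : Fin (s + 1) → ℝ) y)) * vl (hh p) θ y ^ (t - K - 1)) x) x (Pi.single l 1) := by
    intro x
    rw [HasLineDerivAt]
    have key := hasDerivAt_ind (U := {σ : ℝ | x + σ • (Pi.single l 1 : Fin n → ℝ) ∈ rg p θ}) (s := t - K)
      (G := fun σ : ℝ => vl (g l) (Fin.snoc θ t : Fin (s + 1) → ℝ) (x + σ • (Pi.single l 1 : Fin n → ℝ)))
      (H := fun σ : ℝ => vl (hh p) θ (x + σ • (Pi.single l 1 : Fin n → ℝ))) (by linarith)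
      (vl_line_inr (g l) l (Fin.snoc θ t) x) (by
        have h2 := vl_line_inr (up (hh p)) l (Fin.snoc θ t) x
        simp only [vl_up] at h2
        exact h2)
      (fun σ hσ => rg_pos p hσ) (fun hne => by
        have hc : Continuous fun σ : ℝ => ((θ, x + σ • (Pi.single l 1 : Fin n → ℝ)) : (Fin s → ℝ) × (Fin n → ℝ)) := by
          fun_prop
        rcases rg_loc p (y := (θ, x + (0 : ℝ) • (Pi.single l 1 : Fin n → ℝ))) hne with h2 | h2
        · exact Or.inl (hc.continuousAt.preimage_mem_nhds h2)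
        · exact Or.inr (hc.continuousAt.preimage_mem_nhds h2))
    have e1 : (fun σ : ℝ => (rg p θ).indicator (fun y =>
        vl (g l) (Fin.snoc θ t : Fin (s + 1) → ℝ) y * vl (hh p) θ y ^ (t - K)) (x + σ • (Pi.single l 1 : Fin n → ℝ))) =
        ({σ : ℝ | x + σ • (Pi.single l 1 : Fin n → ℝ) ∈ rg p θ}).indicator fun σ : ℝ =>
          vl (g l) (Fin.snoc θ t : Fin (s + 1) → ℝ) (x + σ • (Pi.single l 1 : Fin n → ℝ)) *
            vl (hh p) θ (x + σ • (Pi.single l 1 : Fin n → ℝ)) ^ (t - K) := by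
      funext σ
      exact ind_congr Iff.rfl rfl
    rw [e1]
    refine key.congr_deriv ?_
    simp only [zero_smul, add_zero]
    refine ind_congr ?_ rfl
    rw [mem_ofPred_eq, zero_smul, add_zero]
  have i1 : Integrable ((rg p θ).indicator fun y =>
      vl (g l) (Fin.snoc θ t : Fin (s + 1) → ℝ) y * vl (hh p) θ y ^ (t - K)) :=
    (integrable_indicator_iff hU).mpr (rg_integrable p θ (hcont (g l)) (by linarith))
  have i2 : Integrable ((rg p θ).indicator (fun y => (vl (hh p) θ y *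
        vl (pderiv (Sum.inr l) (g l)) (Fin.snoc θ t : Fin (s + 1) → ℝ) y +
        (t - K) * (vl (pderiv (Sum.inr l) (up (hh p))) (Fin.snoc θ t : Fin (s + 1) → ℝ) y *
          vl (g l) (Fin.snoc θ t : Fin (s + 1) → ℝ) y)) * vl (hh p) θ y ^ (t - K - 1))) :=
    (integrable_indicator_iff hU).mpr (rg_integrable p θ (hc l) (by linarith))
  have key := integral_bilinear_hasLineDerivAt_right_eq_neg_left_of_integrable
    (μ := (volume : Measure (Fin n → ℝ))) (B := ContinuousLinearMap.mul ℝ ℝ)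
    (f := (rg p θ).indicator fun y => vl (g l) (Fin.snoc θ t : Fin (s + 1) → ℝ) y * vl (hh p) θ y ^ (t - K))
    (f' := (rg p θ).indicator (fun y => (vl (hh p) θ y *
        vl (pderiv (Sum.inr l) (g l)) (Fin.snoc θ t : Fin (s + 1) → ℝ) y +
        (t - K) * (vl (pderiv (Sum.inr l) (up (hh p))) (Fin.snoc θ t : Fin (s + 1) → ℝ) y *
          vl (g l) (Fin.snoc θ t : Fin (s + 1) → ℝ) y)) * vl (hh p) θ y ^ (t - K - 1)))
    (g := fun _ => (1 : ℝ)) (g' := fun _ => (0 : ℝ)) (v := Pi.single l 1)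
    (by simpa using i2) (by simp) (by simpa using i1)
    (fun x _ => hder x) (fun x _ => by
      rw [HasLineDerivAt]; exact hasDerivAt_const _ _)
  simp only [ContinuousLinearMap.mul_apply', mul_zero, integral_zero, mul_one] at key
  rw [← integral_indicator hU]
  linarith

end Pool.Agent.Lib.MP_bbe012_lc.PM
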