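import Mathlib

/-!
# Cc1: a squarefree model over the polynomial ring, selection of points, bounds for roots
-/

set_option autoImplicit false

namespace Pool.Agent.Lib.MP_bbe012_lc.PM

open Polynomial UniqueFactorizationMonoid

section Alg

variable {A : Type*} [CommRing A] [IsDomain A]

/-- clearing denominators -/
theorem cp_clear (q : (FractionRing A)[X]) : ∃ u : A, u ≠ 0 ∧ ∃ q0 : A[X],
    q0.map (algebraMap A (FractionRing A)) = C (algebraMap A (FractionRing A) u) * q := by
  obtain ⟨b, hb, h⟩ := IsLocalization.integerNormalization_spec (M := nonZeroDivisors A) q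
  refine ⟨b, nonZeroDivisors.ne_zero hb, IsLocalization.integerNormalization (nonZeroDivisors A) q, ?_⟩
  rw [h]
  ext i
  rw [coeff_smul, coeff_C_mul, Algebra.smul_def]

/-- a polynomial `p1` with the same zeros as `p`, which is prime to its derivative, over the open set `w ≠ 0` -/
theorem cp_alg [CharZero A] (p : A[X]) (hp : p ≠ 0) : ∃ (p1 a b c e : A[X]) (w : A) (N : ℕ), w ≠ 0 ∧
    p1.leadingCoeff ∣ w ∧ a * p1 + b * derivative p1 = C w ∧ C w * p = p1 * c ∧ C w * p1 ^ N = p * e := by
  classical
  have hinj : Function.Injective (algebraMap A (FractionRing A)) := IsFractionRing.injective A (FractionRing A)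
  have hminj : Function.Injective (Polynomial.map (algebraMap A (FractionRing A))) := Polynomial.map_injective _ hinj
  have hCZ : CharZero (FractionRing A) := charZero_of_injective_algebraMap hinj
  obtain ⟨P, hPd⟩ : ∃ P : (FractionRing A)[X], P = p.map (algebraMap A (FractionRing A)) := ⟨_, rfl⟩
  have hP : P ≠ 0 := by
    rw [hPd]
    exact (Polynomial.map_ne_zero_iff hinj).2 hp
  obtain ⟨u0, hu0, p1, hp1⟩ := cp_clear (radical P)
  have hu0' : algebraMap A (FractionRing A) u0 ≠ 0 := fun h => hu0 (hinj (by rw [h, map_zero]))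
  have hunit : IsUnit (C (algebraMap A (FractionRing A) u0)) := isUnit_C.2 (isUnit_iff_ne_zero.2 hu0')
  have hd1 : p1.map (algebraMap A (FractionRing A)) ∣ radical P := by
    rw [hp1]
    exact hunit.mul_left_dvd.2 dvd_rfl
  have hd2 : radical P ∣ p1.map (algebraMap A (FractionRing A)) := by
    rw [hp1]
    exact dvd_mul_left _ _
  have hp10 : p1 ≠ 0 := by
    rintro rfl
    rw [Polynomial.map_zero] at hd1
    exact radical_ne_zero (zero_dvd_iff.1 hd1)
  have hsep : (p1.map (algebraMap A (FractionRing A))).Separable :=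
    PerfectField.separable_iff_squarefree.2 (squarefree_radical.squarefree_of_dvd hd1)
  obtain ⟨α, β, hαβ⟩ := hsep
  obtain ⟨u, hu, a0, ha0⟩ := cp_clear α
  obtain ⟨v, hv, b0, hb0⟩ := cp_clear β
  obtain ⟨γ, hγ⟩ := hd1.trans radical_dvd_self
  obtain ⟨w2, hw2, c0, hc0⟩ := cp_clear γ
  obtain ⟨N, hN⟩ := exists_dvd_radical_self_pow hP
  obtain ⟨ε, hε⟩ := hN.trans (pow_dvd_pow_of_dvd hd2 N)
  obtain ⟨w3, hw3, e0, he0⟩ := cp_clear ε
  have i1 : C v * a0 * p1 + C u * b0 * derivative p1 = C (u * v) := by
    apply hminj
    simp only [Polynomial.map_add, Polynomial.map_mul, map_C, ha0, hb0, map_mul, C_mul]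
    rw [← derivative_map]
    linear_combination C (algebraMap A (FractionRing A) u) * C (algebraMap A (FractionRing A) v) * hαβ
  have i2 : C w2 * p = p1 * c0 := by
    apply hminj
    simp only [Polynomial.map_mul, map_C, hc0, ← hPd]
    rw [hγ]
    ring
  have i3 : C w3 * p1 ^ N = p * e0 := by
    apply hminj
    simp only [Polynomial.map_mul, Polynomial.map_pow, map_C, he0, ← hPd]
    rw [hε]
    ring
  refine ⟨p1, C (w2 * w3 * p1.leadingCoeff) * (C v * a0), C (w2 * w3 * p1.leadingCoeff) * (C u * b0),
    C (u * v * w3 * p1.leadingCoeff) * c0, C (u * v * w2 * p1.leadingCoeff) * e0,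
    u * v * w2 * w3 * p1.leadingCoeff, N, ?_, ?_, ?_, ?_, ?_⟩
  · exact mul_ne_zero (mul_ne_zero (mul_ne_zero (mul_ne_zero hu hv) hw2) hw3) (leadingCoeff_ne_zero.2 hp10)
  · exact dvd_mul_left _ _
  · simp only [C_mul] at i1 ⊢
    linear_combination (C w2 * C w3 * C p1.leadingCoeff) * i1
  · simp only [C_mul]
    linear_combination (C u * C v * C w3 * C p1.leadingCoeff) * i2
  · simp only [C_mul]
    linear_combination (C u * C v * C w2 * C p1.leadingCoeff) * i3

end Alg

/-- in the interval of `{q ≠ 0}` around `y0` there is a critical point of `q` or one of the points `± B` -/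
theorem cp_select {q : ℝ[X]} {B : ℝ} (hB : ∀ y, B ≤ |y| → q.eval y ≠ 0) (hB0 : 0 < B) {y0 : ℝ}
    (h0 : q.eval y0 ≠ 0) : ∃ y1, |y1| ≤ B ∧ q.derivative.eval y1 * (y1 ^ 2 - B ^ 2) = 0 ∧
      (q.derivative ≠ 0 ∨ y1 ^ 2 - B ^ 2 = 0) ∧ ∀ y ∈ Set.uIcc y0 y1, q.eval y ≠ 0 := by
  have hq : q ≠ 0 := fun h => h0 (by rw [h, eval_zero])
  by_cases h1 : ∃ y, y0 < y ∧ q.eval y = 0
  · by_cases h2 : ∃ y, y < y0 ∧ q.eval y = 0
    · obtain ⟨r1, hr1, hr1'⟩ := h1
      obtain ⟨r2, hr2, hr2'⟩ := h2
      have n1 : (q.roots.toFinset.filter fun y => y0 < y).Nonempty :=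
        ⟨r1, by simp only [Finset.mem_filter, Multiset.mem_toFinset, mem_roots hq]; exact ⟨hr1', hr1⟩⟩
      have n2 : (q.roots.toFinset.filter fun y => y < y0).Nonempty :=
        ⟨r2, by simp only [Finset.mem_filter, Multiset.mem_toFinset, mem_roots hq]; exact ⟨hr2', hr2⟩⟩
      obtain ⟨b, hb⟩ : ∃ b, b = (q.roots.toFinset.filter fun y => y0 < y).min' n1 := ⟨_, rfl⟩
      obtain ⟨a, ha⟩ : ∃ a, a = (q.roots.toFinset.filter fun y => y < y0).max' n2 := ⟨_, rfl⟩
      have hbm := Finset.min'_mem _ n1
      have ham := Finset.max'_mem _ n2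
      rw [← hb] at hbm
      rw [← ha] at ham
      simp only [Finset.mem_filter, Multiset.mem_toFinset, mem_roots hq] at hbm ham
      have hab : a < b := ham.2.trans hbm.2
      obtain ⟨y1, hy1, hd⟩ := exists_deriv_eq_zero (f := fun y => q.eval y) hab q.continuous.continuousOn
        (by rw [show q.eval a = 0 from ham.1, show q.eval b = 0 from hbm.1])
      have hd' : q.derivative.eval y1 = 0 := by
        rw [← Polynomial.deriv]
        exact hd
      have hno : ∀ y, a < y → y < b → q.eval y ≠ 0 := by
        intro y hy hy' he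
        rcases lt_trichotomy y y0 with h | h | h
        · have h3 : y ≤ a := by
            rw [ha]
            refine Finset.le_max' _ _ ?_
            simp only [Finset.mem_filter, Multiset.mem_toFinset, mem_roots hq]
            exact ⟨he, h⟩
          linarith
        · exact h0 (by rw [← h]; exact he)
        · have h3 : b ≤ y := by
            rw [hb]
            refine Finset.min'_le _ _ ?_
            simp only [Finset.mem_filter, Multiset.mem_toFinset, mem_roots hq]
            exact ⟨he, h⟩
          linarith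
      have hbB : b < B := by
        by_contra h
        exact hB b (le_trans (not_lt.1 h) (le_abs_self b)) hbm.1
      have haB : -B < a := by
        by_contra h
        exact hB a (by rw [le_abs]; right; linarith [not_lt.1 h]) ham.1
      refine ⟨y1, ?_, ?_, ?_, ?_⟩
      · rw [abs_le]
        constructor <;> linarith [hy1.1, hy1.2]
      · rw [hd', zero_mul]
      · left
        intro h
        obtain ⟨c, hc⟩ : ∃ c, q = C c := ⟨_, eq_C_of_derivative_eq_zero h⟩
        have e1 : q.eval y0 = 0 := by
          have e2 : q.eval b = 0 := hbm.1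
          rw [hc, eval_C] at e2 ⊢
          exact e2
        exact h0 e1
      · intro y hy
        have h3 := hy1.1
        have h4 := hy1.2
        rcases Set.mem_uIcc.1 hy with h | h
        · exact hno y (by linarith [ham.2, h.1]) (by linarith [h.2])
        · exact hno y (by linarith [h.1]) (by linarith [hbm.2, h.2])
    · push Not at h2
      refine ⟨-B, ?_, ?_, Or.inr (by ring), ?_⟩
      · rw [abs_neg, abs_of_pos hB0]
      · ring
      · intro y hy
        rcases lt_trichotomy y y0 with h | h | h
        · exact h2 y h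
        · rw [h]
          exact h0
        · apply hB
          rcases Set.mem_uIcc.1 hy with h3 | h3
          · rw [le_abs]
            right
            linarith [h3.2]
          · exfalso
            linarith [h3.2]
  · push Not at h1
    refine ⟨B, ?_, ?_, Or.inr (by ring), ?_⟩
    · rw [abs_of_pos hB0]
    · ring
    · intro y hy
      rcases lt_trichotomy y y0 with h | h | h
      · apply hB
        rcases Set.mem_uIcc.1 hy with h3 | h3
        · exfalso
          linarith [h3.1]
        · rw [le_abs]
          left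
          linarith [h3.1]
      · rw [h]
        exact h0
      · exact h1 y h

end Pool.Agent.Lib.MP_bbe012_lc.PM
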