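import Pool.Agent.Lib.MP_bbe012_lc.PM.Cc1

/-!
# Cc2: the complement of the zero set of a polynomial has finitely many connected components
-/

set_option autoImplicit false

namespace Pool.Agent.Lib.MP_bbe012_lc.PM

open Polynomial Filter Topology

/-- the value of a polynomial over the polynomial ring -/
noncomputable def ev {n : ℕ} (p : (MvPolynomial (Fin n) ℝ)[X]) (θ : Fin n → ℝ) (y : ℝ) : ℝ :=
  (p.map (MvPolynomial.eval θ)).eval y

/-- the set where `z` is not zero -/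
def NZ {n : ℕ} (z : MvPolynomial (Fin n) ℝ) : Set (Fin n → ℝ) := {x | MvPolynomial.eval x z ≠ 0}

theorem isOpen_NZ {n : ℕ} (z : MvPolynomial (Fin n) ℝ) : IsOpen (NZ z) :=
  isOpen_ne_fun (MvPolynomial.continuous_eval z) continuous_const

theorem ev_eq {n : ℕ} (p : (MvPolynomial (Fin n) ℝ)[X]) (θ : Fin n → ℝ) (y : ℝ) :
    ev p θ y = ∑ i ∈ Finset.range (p.natDegree + 1), MvPolynomial.eval θ (p.coeff i) * y ^ i := by
  unfold ev
  rw [eval_map, eval₂_eq_sum_range]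

theorem ev_cont {n : ℕ} (p : (MvPolynomial (Fin n) ℝ)[X]) :
    Continuous fun q : (Fin n → ℝ) × ℝ => ev p q.1 q.2 := by
  simp only [ev_eq]
  exact continuous_finsetSum _ fun i _ =>
    ((MvPolynomial.continuous_eval _).comp continuous_fst).mul (continuous_snd.pow i)

theorem ev_cons {n : ℕ} (z : MvPolynomial (Fin (n + 1)) ℝ) (θ : Fin n → ℝ) (y : ℝ) :
    MvPolynomial.eval (Fin.cons y θ : Fin (n + 1) → ℝ) z = ev (MvPolynomial.finSuccEquiv ℝ n z) θ y :=
  MvPolynomial.eval_eq_eval_mv_eval' θ y z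

theorem ev_bound {n : ℕ} (p : (MvPolynomial (Fin n) ℝ)[X]) (θ₀ : Fin n → ℝ)
    (h : MvPolynomial.eval θ₀ p.leadingCoeff ≠ 0) :
    ∃ B : ℝ, 0 < B ∧ ∀ᶠ θ in 𝓝 θ₀, ∀ y, B ≤ |y| → ev p θ y ≠ 0 := by
  obtain ⟨S, hS⟩ : ∃ S : (Fin n → ℝ) → ℝ,
      S = fun θ => ∑ i ∈ Finset.range p.natDegree, |MvPolynomial.eval θ (p.coeff i)| := ⟨_, rfl⟩
  have hSc : Continuous S := by
    rw [hS]
    exact continuous_finsetSum _ fun i _ => (MvPolynomial.continuous_eval _).abs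
  have hS0 : ∀ θ, 0 ≤ S θ := by
    intro θ
    rw [hS]
    exact Finset.sum_nonneg fun i _ => abs_nonneg _
  have hl : 0 < |MvPolynomial.eval θ₀ p.leadingCoeff| := abs_pos.2 h
  obtain ⟨B, hB⟩ : ∃ B : ℝ, B = max 1 ((S θ₀ + 1) / |MvPolynomial.eval θ₀ p.leadingCoeff|) := ⟨_, rfl⟩
  have hB1 : 1 ≤ B := by rw [hB]; exact le_max_left _ _
  have hB2 : S θ₀ + 1 ≤ B * |MvPolynomial.eval θ₀ p.leadingCoeff| := by
    rw [← div_le_iff₀ hl, hB]
    exact le_max_right _ _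
  have hev : ∀ᶠ θ in 𝓝 θ₀, S θ < B * |MvPolynomial.eval θ p.leadingCoeff| := by
    have hc : Continuous fun θ => B * |MvPolynomial.eval θ p.leadingCoeff| :=
      continuous_const.mul (MvPolynomial.continuous_eval _).abs
    exact hSc.continuousAt.eventually_lt hc.continuousAt (by linarith)
  refine ⟨B, by linarith, hev.mono fun θ hθ y hy h0 => ?_⟩
  have hy1 : 1 ≤ |y| := hB1.trans hy
  have hl' : 0 ≤ |MvPolynomial.eval θ p.leadingCoeff| := abs_nonneg _
  rw [ev_eq, Finset.sum_range_succ] at h0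
  have h1 : |MvPolynomial.eval θ p.leadingCoeff| * |y| ^ p.natDegree * |y| ≤ S θ * |y| ^ p.natDegree := by
    have h2 : MvPolynomial.eval θ p.leadingCoeff * y ^ p.natDegree =
        -∑ i ∈ Finset.range p.natDegree, MvPolynomial.eval θ (p.coeff i) * y ^ i := by
      have : MvPolynomial.eval θ p.leadingCoeff = MvPolynomial.eval θ (p.coeff p.natDegree) := rfl
      rw [this]
      linarith
    rw [← abs_pow, ← abs_mul, h2, abs_neg, hS, Finset.sum_mul]
    have h3 : |∑ i ∈ Finset.range p.natDegree, MvPolynomial.eval θ (p.coeff i) * y ^ i| * |y| ≤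
        (∑ i ∈ Finset.range p.natDegree, |MvPolynomial.eval θ (p.coeff i) * y ^ i|) * |y| :=
      mul_le_mul_of_nonneg_right (Finset.abs_sum_le_sum_abs _ _) (abs_nonneg _)
    refine h3.trans ?_
    rw [Finset.sum_mul]
    refine Finset.sum_le_sum fun i hi => ?_
    rw [abs_mul, abs_pow, mul_assoc, ← pow_succ, abs_pow]
    exact mul_le_mul_of_nonneg_left (pow_le_pow_right₀ hy1 (Finset.mem_range.1 hi)) (abs_nonneg _)
  have h4 : 0 < |y| ^ p.natDegree := by positivity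
  have h5 : |MvPolynomial.eval θ p.leadingCoeff| * |y| ≤ S θ := by
    refine le_of_mul_le_mul_right ?_ h4
    linarith
  have h6 : B * |MvPolynomial.eval θ p.leadingCoeff| ≤ |MvPolynomial.eval θ p.leadingCoeff| * |y| := by
    rw [mul_comm]
    exact mul_le_mul_of_nonneg_left hy hl'
  linarith

theorem dense_NZ {n : ℕ} {z : MvPolynomial (Fin n) ℝ} (hz : z ≠ 0) {O : Set (Fin n → ℝ)} (hO : IsOpen O)
    (hne : O.Nonempty) : ∃ x ∈ O, x ∈ NZ z := by
  obtain ⟨x0, hx0⟩ := hne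
  obtain ⟨ε, hε, hb⟩ := Metric.isOpen_iff.1 hO x0 hx0
  by_contra hcon
  push Not at hcon
  apply hz
  refine MvPolynomial.funext_set (fun i => Metric.ball (x0 i) ε) (fun i => ?_) fun x hx => ?_
  · have h1 : (Metric.ball (x0 i) ε).Nonempty := ⟨x0 i, Metric.mem_ball_self hε⟩
    exact infinite_of_mem_nhds (x0 i) (Metric.ball_mem_nhds _ hε)
  · rw [map_zero]
    have h1 : x ∈ Metric.ball x0 ε := by
      rw [Metric.mem_ball, dist_pi_lt_iff hε]
      intro i
      exact hx i (Set.mem_univ i)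
    have h2 := hcon x (hb h1)
    by_contra h3
    exact h2 h3

theorem vert {n : ℕ} {z : MvPolynomial (Fin (n + 1)) ℝ} {θ : Fin n → ℝ} {y0 y1 : ℝ}
    (h : ∀ y ∈ Set.uIcc y0 y1, (Fin.cons y θ : Fin (n + 1) → ℝ) ∈ NZ z) :
    (Fin.cons y1 θ : Fin (n + 1) → ℝ) ∈ connectedComponentIn (NZ z) (Fin.cons y0 θ) := by
  have hc : Continuous fun y : ℝ => (Fin.cons y θ : Fin (n + 1) → ℝ) :=
    Continuous.finCons continuous_id continuous_const
  have hp : IsPreconnected ((fun y : ℝ => (Fin.cons y θ : Fin (n + 1) → ℝ)) '' Set.uIcc y0 y1) :=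
    isPreconnected_uIcc.image _ hc.continuousOn
  refine hp.subset_connectedComponentIn ⟨y0, Set.left_mem_uIcc, rfl⟩ ?_ ⟨y1, Set.right_mem_uIcc, rfl⟩
  rintro _ ⟨y, hy, rfl⟩
  exact h y hy

/-- `p1` is a squarefree model of `z` over `w ≠ 0` -/
structure Sqm {n : ℕ} (z : MvPolynomial (Fin (n + 1)) ℝ) (w : MvPolynomial (Fin n) ℝ)
    (p1 a b : (MvPolynomial (Fin n) ℝ)[X]) : Prop where
  lc : ∀ θ, MvPolynomial.eval θ w ≠ 0 → MvPolynomial.eval θ p1.leadingCoeff ≠ 0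
  bez : ∀ θ y, ev a θ y * ev p1 θ y + ev b θ y * ev (derivative p1) θ y = MvPolynomial.eval θ w
  zer : ∀ θ y, MvPolynomial.eval θ w ≠ 0 → (ev (MvPolynomial.finSuccEquiv ℝ n z) θ y = 0 ↔ ev p1 θ y = 0)

theorem ev_mul {n : ℕ} (p q : (MvPolynomial (Fin n) ℝ)[X]) (θ : Fin n → ℝ) (y : ℝ) :
    ev (p * q) θ y = ev p θ y * ev q θ y := by
  unfold ev
  rw [Polynomial.map_mul, eval_mul]

theorem ev_add {n : ℕ} (p q : (MvPolynomial (Fin n) ℝ)[X]) (θ : Fin n → ℝ) (y : ℝ) :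
    ev (p + q) θ y = ev p θ y + ev q θ y := by
  unfold ev
  rw [Polynomial.map_add, eval_add]

theorem ev_pow {n : ℕ} (p : (MvPolynomial (Fin n) ℝ)[X]) (N : ℕ) (θ : Fin n → ℝ) (y : ℝ) :
    ev (p ^ N) θ y = ev p θ y ^ N := by
  unfold ev
  rw [Polynomial.map_pow, eval_pow]

theorem ev_C {n : ℕ} (w : MvPolynomial (Fin n) ℝ) (θ : Fin n → ℝ) (y : ℝ) :
    ev (C w) θ y = MvPolynomial.eval θ w := by
  unfold ev
  rw [map_C, eval_C]

theorem exists_sqm {n : ℕ} {z : MvPolynomial (Fin (n + 1)) ℝ} (hz : z ≠ 0) :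
    ∃ (w : MvPolynomial (Fin n) ℝ) (p1 a b : (MvPolynomial (Fin n) ℝ)[X]), w ≠ 0 ∧ Sqm z w p1 a b := by
  have h1 : MvPolynomial.finSuccEquiv ℝ n z ≠ 0 := by
    intro h
    apply hz
    exact (MvPolynomial.finSuccEquiv ℝ n).injective (by rw [h, map_zero])
  obtain ⟨p1, a, b, c, e, w, N, hw, hlc, h2, h3, h4⟩ := cp_alg _ h1
  refine ⟨w, p1, a, b, hw, ?_, ?_, ?_⟩
  · intro θ hθ h0
    obtain ⟨v, hv⟩ := hlc
    apply hθ
    rw [hv, map_mul, h0, zero_mul]
  · intro θ y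
    rw [← ev_mul, ← ev_mul, ← ev_add, h2, ev_C]
  · intro θ y hθ
    constructor
    · intro h0
      have h5 : ev (C w * p1 ^ N) θ y = 0 := by
        rw [h4, ev_mul, h0, zero_mul]
      rw [ev_mul, ev_C, ev_pow] at h5
      rcases mul_eq_zero.1 h5 with h | h
      · exact absurd h hθ
      · by_contra hne
        exact pow_ne_zero N hne h
    · intro h0
      have h5 : ev (C w * MvPolynomial.finSuccEquiv ℝ n z) θ y = 0 := by
        rw [h3, ev_mul, h0, zero_mul]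
      rw [ev_mul, ev_C] at h5
      rcases mul_eq_zero.1 h5 with h | h
      · exact absurd h hθ
      · exact h

theorem sqm_select {n : ℕ} {z : MvPolynomial (Fin (n + 1)) ℝ} {w : MvPolynomial (Fin n) ℝ}
    {p1 a b : (MvPolynomial (Fin n) ℝ)[X]} (h : Sqm z w p1 a b) {θ : Fin n → ℝ} (hθ : MvPolynomial.eval θ w ≠ 0)
    {B : ℝ} (hB0 : 0 < B) (hB : ∀ y, B ≤ |y| → ev p1 θ y ≠ 0) {y0 : ℝ}
    (h0 : (Fin.cons y0 θ : Fin (n + 1) → ℝ) ∈ NZ z) :
    ∃ y1, |y1| ≤ B ∧ ev (derivative p1) θ y1 * (y1 ^ 2 - B ^ 2) = 0 ∧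
      ((derivative (p1.map (MvPolynomial.eval θ))) ≠ 0 ∨ y1 ^ 2 - B ^ 2 = 0) ∧
      (Fin.cons y1 θ : Fin (n + 1) → ℝ) ∈ connectedComponentIn (NZ z) (Fin.cons y0 θ) := by
  have h1 : ev p1 θ y0 ≠ 0 := by
    intro h2
    apply h0
    rw [ev_cons]
    exact (h.zer θ y0 hθ).2 h2
  obtain ⟨y1, hy1, hd, hd', hno⟩ := cp_select (q := p1.map (MvPolynomial.eval θ)) hB hB0 h1
  refine ⟨y1, hy1, ?_, hd', vert fun y hy h2 => ?_⟩
  · rw [derivative_map] at hd
    exact hd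
  · rw [ev_cons] at h2
    exact hno y hy ((h.zer θ y hθ).1 h2)

theorem proj_closed {n : ℕ} {z : MvPolynomial (Fin (n + 1)) ℝ} {w : MvPolynomial (Fin n) ℝ}
    {p1 a b : (MvPolynomial (Fin n) ℝ)[X]} (h : Sqm z w p1 a b) {x0 : Fin (n + 1) → ℝ} {θ₀ : Fin n → ℝ}
    (hθ₀ : MvPolynomial.eval θ₀ w ≠ 0)
    (hc : θ₀ ∈ closure {θ : Fin n → ℝ | ∃ y : ℝ, (Fin.cons y θ : Fin (n + 1) → ℝ) ∈ connectedComponentIn (NZ z) x0}) :
    ∃ y : ℝ, (Fin.cons y θ₀ : Fin (n + 1) → ℝ) ∈ connectedComponentIn (NZ z) x0 := by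
  obtain ⟨B, hB0, hB⟩ := ev_bound p1 θ₀ (h.lc θ₀ hθ₀)
  have hw : ∀ᶠ θ in 𝓝 θ₀, MvPolynomial.eval θ w ≠ 0 := (isOpen_NZ w).mem_nhds hθ₀
  obtain ⟨t, ht, hlim⟩ := mem_closure_iff_seq_limit.1 hc
  obtain ⟨N, hN⟩ := eventually_atTop.1 (hlim.eventually (hB.and hw))
  have hlim' : Tendsto (fun k => t (k + N)) atTop (𝓝 θ₀) := hlim.comp (tendsto_add_atTop_nat N)
  have hsel : ∀ k : ℕ, ∃ y : ℝ, |y| ≤ B ∧ ev (derivative p1) (t (k + N)) y * (y ^ 2 - B ^ 2) = 0 ∧
      (Fin.cons y (t (k + N)) : Fin (n + 1) → ℝ) ∈ connectedComponentIn (NZ z) x0 := by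
    intro k
    obtain ⟨y, hy⟩ := ht (k + N)
    obtain ⟨h1, h2⟩ := hN (k + N) (Nat.le_add_left N k)
    obtain ⟨y1, hy1, hd, -, hcc⟩ := sqm_select h h2 hB0 h1 (connectedComponentIn_subset _ _ hy)
    refine ⟨y1, hy1, hd, ?_⟩
    rw [connectedComponentIn_eq hy]
    exact hcc
  choose y hyB hyd hyc using hsel
  obtain ⟨y0, -, φ, hφ, hyl⟩ := (isCompact_Icc (a := -B) (b := B)).tendsto_subseq (x := y)
    fun k => abs_le.1 (hyB k)
  have htl : Tendsto (fun k => t (φ k + N)) atTop (𝓝 θ₀) := hlim'.comp hφ.tendsto_atTop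
  have hpl : Tendsto (fun k => (t (φ k + N), y (φ k))) atTop (𝓝 (θ₀, y0)) := htl.prodMk_nhds hyl
  have hz0 : ev (derivative p1) θ₀ y0 * (y0 ^ 2 - B ^ 2) = 0 := by
    have h1 : Tendsto (fun k => ev (derivative p1) (t (φ k + N)) (y (φ k)) * ((y (φ k)) ^ 2 - B ^ 2)) atTop
        (𝓝 (ev (derivative p1) θ₀ y0 * (y0 ^ 2 - B ^ 2))) :=
      (((ev_cont (derivative p1)).tendsto (θ₀, y0)).comp hpl).mul ((hyl.pow 2).sub_const (B ^ 2))
    have h2 : (fun k => ev (derivative p1) (t (φ k + N)) (y (φ k)) * ((y (φ k)) ^ 2 - B ^ 2)) = fun _ => 0 := by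
      funext k
      exact hyd (φ k)
    rw [h2] at h1
    exact tendsto_nhds_unique h1 tendsto_const_nhds
  have hne : ev p1 θ₀ y0 ≠ 0 := by
    intro h0
    rcases mul_eq_zero.1 hz0 with h1 | h1
    · have h2 := h.bez θ₀ y0
      rw [h0, h1, mul_zero, mul_zero, add_zero] at h2
      exact hθ₀ h2.symm
    · have h2 : |y0| = B := by
        have h3 : |y0| ^ 2 = B ^ 2 := by
          rw [sq_abs]
          linarith
        exact (pow_left_inj₀ (abs_nonneg _) hB0.le two_ne_zero).1 h3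
      exact hB.self_of_nhds y0 h2.ge h0
  have hmem : (Fin.cons y0 θ₀ : Fin (n + 1) → ℝ) ∈ NZ z := by
    intro h0
    rw [ev_cons] at h0
    exact hne ((h.zer θ₀ y0 hθ₀).1 h0)
  have hcl : Tendsto (fun k => (Fin.cons (y (φ k)) (t (φ k + N)) : Fin (n + 1) → ℝ)) atTop
      (𝓝 (Fin.cons y0 θ₀)) := Filter.Tendsto.finCons hyl htl
  have hop : connectedComponentIn (NZ z) (Fin.cons y0 θ₀) ∈ 𝓝 (Fin.cons y0 θ₀ : Fin (n + 1) → ℝ) :=
    ((isOpen_NZ z).connectedComponentIn).mem_nhds (mem_connectedComponentIn hmem)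
  obtain ⟨k, hk⟩ := (hcl.eventually hop).exists
  refine ⟨y0, ?_⟩
  rw [connectedComponentIn_eq (hyc (φ k)), ← connectedComponentIn_eq hk]
  exact mem_connectedComponentIn hmem

/-- **finitely many components** -/
theorem comp_finite : ∀ (s : ℕ) (z : MvPolynomial (Fin s) ℝ), z ≠ 0 →
    ∃ F : Finset (Fin s → ℝ), (∀ p ∈ F, p ∈ NZ z) ∧ ∀ θ ∈ NZ z, ∃ p ∈ F, θ ∈ connectedComponentIn (NZ z) p := by
  classical
  intro s
  induction s with
  | zero =>
    intro z hz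
    obtain ⟨x, -, hx⟩ := dense_NZ hz isOpen_univ ⟨fun i => i.elim0, Set.mem_univ _⟩
    refine ⟨{x}, fun p hp => by rw [Finset.mem_singleton.1 hp]; exact hx, fun θ hθ => ⟨x, Finset.mem_singleton_self x, ?_⟩⟩
    have h1 : θ = x := Subsingleton.elim _ _
    rw [h1]
    exact mem_connectedComponentIn hx
  | succ n ih =>
    intro z hz
    obtain ⟨w, p1, a, b, hw, h⟩ := exists_sqm hz
    obtain ⟨F', hF1, hF2⟩ := ih w hw
    have hBd : ∀ q : Fin n → ℝ, ∃ B : ℝ, MvPolynomial.eval q w ≠ 0 → 0 < B ∧ ∀ y, B ≤ |y| → ev p1 q y ≠ 0 := by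
      intro q
      by_cases hq : MvPolynomial.eval q w = 0
      · exact ⟨0, fun h0 => absurd hq h0⟩
      · obtain ⟨B, hB0, hB⟩ := ev_bound p1 q (h.lc q hq)
        exact ⟨B, fun _ => ⟨hB0, hB.self_of_nhds⟩⟩
    choose B hB using hBd
    refine ⟨F'.biUnion fun q => ((((derivative (p1.map (MvPolynomial.eval q))).roots.toFinset ∪ {B q, -B q}).image
      fun y => (Fin.cons y q : Fin (n + 1) → ℝ)).filter fun p => p ∈ NZ z), ?_, ?_⟩
    · intro p hp
      obtain ⟨q, -, hq⟩ := Finset.mem_biUnion.1 hp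
      exact (Finset.mem_filter.1 hq).2
    · intro θ hθ
      have hCo : IsOpen (connectedComponentIn (NZ z) θ) := (isOpen_NZ z).connectedComponentIn
      obtain ⟨π, hπ⟩ : ∃ π : Set (Fin n → ℝ), π = {θ' : Fin n → ℝ | ∃ y : ℝ,
          (Fin.cons y θ' : Fin (n + 1) → ℝ) ∈ connectedComponentIn (NZ z) θ} := ⟨_, rfl⟩
      have hπo : IsOpen π := by
        have h1 : π = ⋃ y : ℝ, (fun θ' : Fin n → ℝ => (Fin.cons y θ' : Fin (n + 1) → ℝ)) ⁻¹'
            connectedComponentIn (NZ z) θ := by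
          rw [hπ]
          ext θ'
          simp only [Set.mem_ofPred_eq, Set.mem_iUnion, Set.mem_preimage]
        rw [h1]
        exact isOpen_iUnion fun y => hCo.preimage (Continuous.finCons continuous_const continuous_id)
      have hπn : π.Nonempty := by
        rw [hπ]
        refine ⟨Fin.tail θ, θ 0, ?_⟩
        rw [Fin.cons_self_tail]
        exact mem_connectedComponentIn hθ
      obtain ⟨θ1, hθ1, hw1⟩ := dense_NZ hw hπo hπn
      obtain ⟨q, hqF, hq⟩ := hF2 θ1 hw1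
      have hsub : connectedComponentIn (NZ w) q ⊆ π := by
        refine isPreconnected_connectedComponentIn.subset_of_closure_inter_subset hπo ⟨θ1, hq, hθ1⟩ ?_
        rintro θ2 ⟨h2, h3⟩
        have h4 : MvPolynomial.eval θ2 w ≠ 0 := connectedComponentIn_subset _ _ h3
        rw [hπ] at h2 ⊢
        exact proj_closed h h4 h2
      have hqw : MvPolynomial.eval q w ≠ 0 := hF1 q hqF
      have hqπ : q ∈ π := hsub (mem_connectedComponentIn (hF1 q hqF))
      rw [hπ] at hqπ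
      obtain ⟨y, hy⟩ := hqπ
      obtain ⟨hB0, hB1⟩ := hB q hqw
      obtain ⟨y1, -, hd, hd', hcc⟩ := sqm_select h hqw hB0 hB1 (connectedComponentIn_subset _ _ hy)
      rw [← connectedComponentIn_eq hy] at hcc
      refine ⟨Fin.cons y1 q, ?_, ?_⟩
      · refine Finset.mem_biUnion.2 ⟨q, hqF, Finset.mem_filter.2 ⟨Finset.mem_image.2 ⟨y1, ?_, rfl⟩,
          connectedComponentIn_subset _ _ hcc⟩⟩
        have key : y1 ^ 2 - B q ^ 2 = 0 → y1 ∈ (derivative (p1.map (MvPolynomial.eval q))).roots.toFinset ∪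
            ({B q, -B q} : Finset ℝ) := by
          intro h1
          have h2 : (y1 - B q) * (y1 + B q) = 0 := by linarith
          refine Finset.mem_union_right _ ?_
          rw [Finset.mem_insert, Finset.mem_singleton]
          rcases mul_eq_zero.1 h2 with h3 | h3
          · left; linarith
          · right; linarith
        rcases hd' with h1 | h1
        · rcases mul_eq_zero.1 hd with h2 | h2
          · refine Finset.mem_union_left _ ?_
            rw [Multiset.mem_toFinset, mem_roots h1, IsRoot.def, derivative_map]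
            exact h2
          · exact key h2
        · exact key h1
      · rw [← connectedComponentIn_eq hcc]
        exact mem_connectedComponentIn hθ

end Pool.Agent.Lib.MP_bbe012_lc.PM
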