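import Pool.Agent.Lib.MP_bbe012_lc.PM.Cc2
import Pool.Agent.Lib.MP_bbe012_lc.PG.BDefs

/-!
# Cc3: finitely many components, rational coefficients and rational points
-/

set_option autoImplicit false

namespace Pool.Agent.Lib.MP_bbe012_lc.PM

open MvPolynomial Filter Topology PG

/-- the set where a rational polynomial is not zero -/
def NZq {n : ℕ} (z : MvPolynomial (Fin n) ℚ) : Set (Fin n → ℝ) := {x | aeval x z ≠ 0}

theorem NZq_eq {n : ℕ} (z : MvPolynomial (Fin n) ℚ) : NZq z = NZ (map (algebraMap ℚ ℝ) z) := by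
  unfold NZq NZ
  ext x
  rw [Set.mem_ofPred_eq, Set.mem_ofPred_eq, eval_map, aeval_def]

theorem isOpen_NZq {n : ℕ} (z : MvPolynomial (Fin n) ℚ) : IsOpen (NZq z) := by
  rw [NZq_eq]
  exact isOpen_NZ _

theorem map_ne {n : ℕ} {z : MvPolynomial (Fin n) ℚ} (hz : z ≠ 0) : map (algebraMap ℚ ℝ) z ≠ 0 := by
  intro h
  apply hz
  exact map_injective (algebraMap ℚ ℝ) (algebraMap ℚ ℝ).injective (by rw [h, map_zero])

theorem exists_cst {n : ℕ} {O : Set (Fin n → ℝ)} (hO : IsOpen O) {x : Fin n → ℝ} (hx : x ∈ O) :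
    ∃ p : Fin n → ℚ, cst p ∈ O := by
  obtain ⟨ε, hε, hb⟩ := Metric.isOpen_iff.1 hO x hx
  have h1 : ∀ i, ∃ q : ℚ, |(q : ℝ) - x i| < ε := by
    intro i
    obtain ⟨q, h1, h2⟩ := exists_rat_btwn (show x i - ε < x i + ε by linarith)
    exact ⟨q, by rw [abs_lt]; constructor <;> linarith⟩
  choose p hp using h1
  refine ⟨p, hb ?_⟩
  rw [Metric.mem_ball, dist_pi_lt_iff hε]
  intro i
  rw [Real.dist_eq]
  exact hp i

theorem dense_NZq {n : ℕ} {z : MvPolynomial (Fin n) ℚ} (hz : z ≠ 0) {O : Set (Fin n → ℝ)} (hO : IsOpen O)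
    (hne : O.Nonempty) : ∃ x ∈ O, x ∈ NZq z := by
  rw [NZq_eq]
  exact dense_NZ (map_ne hz) hO hne

/-- **the set where a nonzero rational polynomial does not vanish has finitely many components, each of which contains a rational point** -/
theorem comp_finite_rat {s : ℕ} (z : MvPolynomial (Fin s) ℚ) (hz : z ≠ 0) :
    ∃ F : Finset (Fin s → ℚ), (∀ p ∈ F, cst p ∈ NZq z) ∧
      ∀ θ ∈ NZq z, ∃ p ∈ F, θ ∈ connectedComponentIn (NZq z) (cst p) := by
  classical
  obtain ⟨F, hF1, hF2⟩ := comp_finite s (map (algebraMap ℚ ℝ) z) (map_ne hz)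
  rw [← NZq_eq] at hF1 hF2
  have h1 : ∀ p : Fin s → ℝ, ∃ q : Fin s → ℚ, p ∈ NZq z → cst q ∈ connectedComponentIn (NZq z) p := by
    intro p
    by_cases hp : p ∈ NZq z
    · obtain ⟨q, hq⟩ := exists_cst (isOpen_NZq z).connectedComponentIn (mem_connectedComponentIn hp)
      exact ⟨q, fun _ => hq⟩
    · exact ⟨fun _ => 0, fun h => absurd h hp⟩
  choose q hq using h1
  refine ⟨F.image q, ?_, ?_⟩
  · intro p hp
    obtain ⟨p0, hp0, rfl⟩ := Finset.mem_image.1 hp
    exact connectedComponentIn_subset _ _ (hq p0 (hF1 p0 hp0))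
  · intro θ hθ
    obtain ⟨p, hp, h⟩ := hF2 θ hθ
    refine ⟨q p, Finset.mem_image_of_mem q hp, ?_⟩
    rw [← connectedComponentIn_eq (hq p (hF1 p hp))]
    exact h

end Pool.Agent.Lib.MP_bbe012_lc.PM
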