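import Pool.Agent.Lib.MP_bbe012_lc.PM.Defs

/-!
# Counting with linear independence over `ℚ[θ]` on a connected open set: the hypotheses
-/

namespace Pool.Agent.Lib.MP_bbe012_lc.PM

open MvPolynomial Set

/-- Hypotheses of the counting theorem: linear independence over `ℚ[θ]` on a connected open set is enough. -/
structure WHyp {s r : ℕ} (Ω S : Set (Fin s → ℝ)) (V : Fin r → (Fin s → ℝ) → ℝ) : Prop where
  op : IsOpen Ω
  conn : IsPreconnected Ω
  compact : IsCompact S
  sub : S ⊆ Ω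
  ana : ∀ i, AnalyticOnNhd ℝ (V i) Ω
  indep : ∀ P : Fin r → MvPolynomial (Fin s) ℚ, (∀ θ ∈ Ω, ∑ i, aeval θ (P i) * V i θ = 0) → ∀ i, P i = 0

end Pool.Agent.Lib.MP_bbe012_lc.PM
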