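import Pool.Agent.Lib.MP_bbe012_lc.PM.Ct0
import Pool.Agent.Lib.MP_bbe012_lc.PG.A11
import Pool.Agent.Lib.MP_bbe012_lc.PH.HA1

/-!
# Counting, rational version: uniform expansions
-/

namespace Pool.Agent.Lib.MP_bbe012_lc.PM

open MvPolynomial Set PG PH

/-- From a finite family of functions on `Ω` one can choose some of them which are linearly independent over `ℝ` as functions on `Ω`, so that all the others are real combinations of these on `Ω`.

Proof. The functions restricted to `Ω` are vectors `g n : Ω → ℝ` (`n : η`) of the real vector space `↥Ω → ℝ`; `exists_linearIndependent`-type results (`exists_linearIndepOn_extension`, or: a subset `E : Finset η` of maximal cardinality with `LinearIndepOn ℝ g E`); for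
every `n` the vector `g n` is in the span of the `g e`, `e ∈ E`. -/
theorem exists_basis_on {ι η : Type} [Fintype η] [DecidableEq η] (Ω : Set (ι → ℝ)) (f : η → (ι → ℝ) → ℝ) :
    ∃ (E : Finset η) (x : η → η → ℝ), (∀ y : η → ℝ, (∀ θ ∈ Ω, ∑ e ∈ E, y e * f e θ = 0) → ∀ e ∈ E, y e = 0) ∧
      ∀ n, ∀ θ ∈ Ω, f n θ = ∑ e ∈ E, x n e * f e θ := by
  classical
  obtain ⟨g, hg⟩ : ∃ g : η → (↥Ω → ℝ), g = fun n (w : ↥Ω) => f n w.1 := ⟨_, rfl⟩
  obtain ⟨b, -, -, hspan, hli⟩ := exists_linearIndepOn_extension (K := ℝ) (v := g)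
    (linearIndepOn_empty ℝ g) (Set.empty_subset Set.univ)
  obtain ⟨E, hE⟩ : ∃ E : Finset η, (E : Set η) = b := ⟨b.toFinset, Set.coe_toFinset b⟩
  rw [← hE] at hspan hli
  have hx : ∀ n, ∃ c : η → ℝ, ∑ e ∈ E, c e • g e = g n := by
    intro n
    have h1 : g n ∈ Submodule.span ℝ (g '' (E : Set η)) := hspan ⟨n, Set.mem_univ n, rfl⟩
    exact (Submodule.mem_span_image_finset_iff_exists_fun' ℝ).1 h1
  choose x hx using hx
  refine ⟨E, x, fun y hy e he => ?_, fun n θ hθ => ?_⟩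
  · refine linearIndepOn_finset_iff.1 hli y ?_ e he
    funext w
    have h1 := hy w w.2
    rw [Finset.sum_apply]
    simp only [Pi.smul_apply, smul_eq_mul, hg, Pi.zero_apply]
    exact h1
  · have h1 := congrFun (hx n) ⟨θ, hθ⟩
    rw [Finset.sum_apply] at h1
    simp only [Pi.smul_apply, smul_eq_mul, hg] at h1
    exact h1.symm

/-- exponents as finitely supported functions -/
private noncomputable def ct2F {s D : ℕ} (a : Fin s → Fin (D + 1)) : Fin s →₀ ℕ :=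
  Finsupp.equivFunOnFinite.symm fun i => (a i : ℕ)

private theorem ct2F_apply {s D : ℕ} (a : Fin s → Fin (D + 1)) (i : Fin s) :
    ct2F a i = (a i : ℕ) := rfl

private theorem ct2F_inj {s D : ℕ} : Function.Injective (ct2F : (Fin s → Fin (D + 1)) → Fin s →₀ ℕ) := by
  intro a a' h
  funext i
  apply Fin.ext
  have h1 := DFunLike.congr_fun h i
  rwa [ct2F_apply, ct2F_apply] at h1

private theorem ct2_eval {s D : ℕ} {P : MvPolynomial (Fin s) ℚ} (hP : ∀ l, P.degreeOf l ≤ D)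
    (θ : Fin s → ℝ) : aeval θ P = ∑ a : Fin s → Fin (D + 1),
      ((coeff (ct2F a) P : ℚ) : ℝ) * mon θ fun i => (a i : ℕ) := by
  classical
  rw [aeval_def, eval₂_eq']
  have h1 : ∑ a : Fin s → Fin (D + 1), ((coeff (ct2F a) P : ℚ) : ℝ) * mon θ (fun i => (a i : ℕ)) =
      ∑ d ∈ Finset.univ.image (ct2F : (Fin s → Fin (D + 1)) → Fin s →₀ ℕ),
        algebraMap ℚ ℝ (coeff d P) * ∏ i, θ i ^ d i := by
    rw [Finset.sum_image fun a _ a' _ h => ct2F_inj h]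
    refine Finset.sum_congr rfl fun a _ => ?_
    rfl
  rw [h1]
  refine Finset.sum_subset (fun d hd => ?_) fun d _ hd => ?_
  · rw [Finset.mem_image]
    refine ⟨fun i => ⟨d i, ?_⟩, Finset.mem_univ _, ?_⟩
    · have h2 := monomial_le_degreeOf i hd
      have h3 := hP i
      omega
    · ext i
      rfl
  · rw [notMem_support_iff.1 hd, map_zero, zero_mul]

private theorem ct2_ana {s : ℕ} (a : Fin s → ℕ) (Ω : Set (Fin s → ℝ)) :
    AnalyticOnNhd ℝ (fun θ : Fin s → ℝ => mon θ a) Ω := by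
  unfold mon
  refine Finset.analyticOnNhd_fun_prod _ fun i _ => ?_
  intro θ _
  exact ((ContinuousLinearMap.proj (R := ℝ) (φ := fun _ : Fin s => ℝ) i).analyticAt θ).fun_pow _

/-- Uniform expansions and non-degeneracy for combinations of the `V i` with polynomial coefficients of bounded degree, up to a common scalar factor.

Proof. Compare `fam_exp` (PG/A11.lean), whose proof can be reused almost verbatim. Let `η = Fin r × (Fin s → Fin (D + 1))` and `f (i, a) θ = mon θ a * V i θ`; `E, x` from `exists_basis_on Ω f`. Each `V i` has a uniform expansion `LA S r₀ B (V i) m` on `S` (`exists_LA`, PH/HA1.lean, `hV.ana`), so `f n` has one by `LA.mul_mon`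
(`S` is bounded); take a common radius `r₁` and a common constant `B₁` as in `fam_exp`. `nondeg` (PG/A4.lean) for the index type `↥E`: if `∑ e, y e * m e θ b = 0` for all `b`, then `∑ e ∈ E, y e * f e` vanishes near `θ` (`Exp.linear`, `Exp.eq_zero`), so on `Ω` by the identity theorem
(`AnalyticOnNhd.eqOn_zero_of_preconnected_of_eventuallyEq_zero`; `mon θ a` is analytic: a product of powers of coordinates), so `y = 0` by the independence. This gives `κ, c`. Now for `y` with degrees `≤ D`: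
`∑ i, aeval θ (y j i) * V i θ = ∑ n : η, (coeff of y j n.1 at n.2) * f n θ = ∑ e ∈ E, z j e * f e θ` on `Ω` with real `z j e = ∑ n, coeff * x n e`. As some of these functions is not zero somewhere on `Ω`, some `z j e ≠ 0`; let `λ⁻¹` be the maximum of the `|z j e|`, and
`G j θ = ∑ e ∈ E, λ * z j e * f e θ`, `ν j b = ∑ e ∈ E, λ * z j e * m e θ₀ b`, all `|λ * z j e| ≤ 1`, one of them equal to `1`: `Exp.linear` (constant `card η * B₁`), `nondeg` with `ρ = 1`. -/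
theorem fam_expQ {s r : ℕ} {Ω S : Set (Fin s → ℝ)} {V : Fin r → (Fin s → ℝ) → ℝ} (hV : WHyp Ω S V) (D : ℕ) :
    ∃ (r₀ B : ℝ) (κ : ℕ) (c : ℝ), 0 < r₀ ∧ 0 ≤ B ∧ 0 < c ∧
      ∀ θ₀ ∈ S, ∀ (q : ℕ) (y : Fin q → Fin r → MvPolynomial (Fin s) ℚ), (∀ j i l, (y j i).degreeOf l ≤ D) →
        (∃ j, ∃ θ ∈ Ω, ∑ i, aeval θ (y j i) * V i θ ≠ 0) →
        ∃ (lam : ℝ) (G : Fin q → (Fin s → ℝ) → ℝ) (ν : Fin q → (Fin s → ℕ) → ℝ), 0 < lam ∧
          (∀ j, Exp r₀ B θ₀ (G j) (ν j)) ∧ (∀ j, ∀ θ ∈ Ω, G j θ = lam * ∑ i, aeval θ (y j i) * V i θ) ∧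
            ∃ j b, dg b ≤ κ ∧ c ≤ |ν j b| := by
  classical
  obtain ⟨M, hM0⟩ := isBounded_iff_forall_norm_le.1 hV.compact.isBounded
  have hM : ∀ θ ∈ S, ∀ i, |θ i| ≤ M := fun θ hθ i => (norm_le_pi_norm θ i).trans (hM0 θ hθ)
  obtain ⟨f, hf⟩ : ∃ f : (Fin r × (Fin s → Fin (D + 1))) → (Fin s → ℝ) → ℝ,
      f = fun n θ => mon θ (fun i => (n.2 i : ℕ)) * V n.1 θ := ⟨_, rfl⟩
  have hLA : ∀ n : Fin r × (Fin s → Fin (D + 1)), ∃ (r₀ B : ℝ) (m : (Fin s → ℝ) → (Fin s → ℕ) → ℝ),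
      0 < r₀ ∧ 0 ≤ B ∧ LA S r₀ B (f n) m := by
    intro n
    obtain ⟨r₀, B, m, h0, hB, h⟩ := exists_LA hV.compact ((hV.ana n.1).mono hV.sub)
    obtain ⟨B', m', hB', h'⟩ := h.mul_mon h0 hB hM (fun i => (n.2 i : ℕ))
    rw [hf]
    exact ⟨r₀, B', m', h0, hB', h'⟩
  choose R B m hR hB hL using hLA
  have hsR : 0 ≤ ∑ n, (R n)⁻¹ := Finset.sum_nonneg fun n _ => (inv_pos.2 (hR n)).le
  obtain ⟨r₁, hr₁⟩ : ∃ r₁ : ℝ, r₁ = (1 + ∑ n, (R n)⁻¹)⁻¹ := ⟨_, rfl⟩
  have hr₁0 : 0 < r₁ := by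
    rw [hr₁]
    positivity
  have hr₁R : ∀ n, r₁ ≤ R n := by
    intro n
    rw [hr₁]
    apply inv_le_of_inv_le₀ (hR n)
    have := Finset.single_le_sum (f := fun n => (R n)⁻¹) (fun n _ => (inv_pos.2 (hR n)).le)
      (Finset.mem_univ n)
    linarith
  obtain ⟨B₁, hB₁⟩ : ∃ B₁ : ℝ, B₁ = ∑ n, B n := ⟨_, rfl⟩
  have hB₁0 : 0 ≤ B₁ := by
    rw [hB₁]
    exact Finset.sum_nonneg fun n _ => hB n
  have hB₁n : ∀ n, B n ≤ B₁ := by
    intro n
    rw [hB₁]
    exact Finset.single_le_sum (fun n _ => hB n) (Finset.mem_univ n)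
  have hE : ∀ θ ∈ S, ∀ n, Exp r₁ B₁ θ (f n) (m n θ) := fun θ hθ n =>
    (((hL n).exp θ hθ).mono_radius hr₁0 (hr₁R n) (hB n)).mono hr₁0 (hB₁n n)
  have hfa : ∀ n, AnalyticOnNhd ℝ (f n) Ω := by
    intro n
    rw [hf]
    exact fun θ hθ => (ct2_ana _ Ω θ hθ).fun_mul (hV.ana n.1 θ hθ)
  obtain ⟨E, x, hind, hexp⟩ := exists_basis_on Ω f
  obtain ⟨κ, c, hc, hnd⟩ := nondeg (η := ↥E) S hV.compact (fun e => m e.1)
    (fun n b => (hL n.1).cont b) (by
    intro θ hθ y hy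
    by_contra hcon
    have h0 : ∀ b, ∑ n : ↥E, y n * m n.1 θ b = 0 := by
      intro b
      by_contra h
      exact hcon ⟨b, h⟩
    have h1 := (Exp.linear (J := ↥E) (fun e => hE θ hθ e.1) y).eq_zero hr₁0 h0
    have h2 : AnalyticOnNhd ℝ (fun θ' : Fin s → ℝ => ∑ e : ↥E, y e * f e.1 θ') Ω := by
      refine Finset.analyticOnNhd_fun_sum _ fun e _ => ?_
      exact fun θ' hθ' => analyticAt_const.fun_mul (hfa e.1 θ' hθ')
    have h3 := h2.eqOn_zero_of_preconnected_of_eventuallyEq_zero hV.conn (hV.sub hθ) h1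
    apply hy
    have h4 := hind (fun n => if h : n ∈ E then y ⟨n, h⟩ else 0) (fun θ' hθ' => by
      rw [← Finset.sum_coe_sort]
      have h5 : ∑ e : ↥E, y e * f e.1 θ' = 0 := h3 hθ'
      rw [← h5]
      refine Finset.sum_congr rfl fun e _ => ?_
      rw [dif_pos e.2])
    funext e
    have h5 := h4 e.1 e.2
    rw [dif_pos e.2] at h5
    exact h5)
  refine ⟨r₁, (Fintype.card ↥E : ℝ) * B₁, κ, c, hr₁0, by positivity, hc, ?_⟩
  intro θ₀ hθ₀ q y hyd hex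
  obtain ⟨z, hz⟩ : ∃ z : Fin q → ↥E → ℝ, z = fun j e =>
    ∑ n : Fin r × (Fin s → Fin (D + 1)), ((coeff (ct2F n.2) (y j n.1) : ℚ) : ℝ) * x n e.1 := ⟨_, rfl⟩
  have hsum : ∀ j, ∀ θ ∈ Ω, ∑ i, aeval θ (y j i) * V i θ = ∑ e : ↥E, z j e * f e.1 θ := by
    intro j θ hθ
    have h1 : ∑ i, aeval θ (y j i) * V i θ = ∑ n : Fin r × (Fin s → Fin (D + 1)),
        ((coeff (ct2F n.2) (y j n.1) : ℚ) : ℝ) * f n θ := by
      rw [Fintype.sum_prod_type]
      refine Finset.sum_congr rfl fun i _ => ?_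
      rw [ct2_eval (hyd j i) θ, Finset.sum_mul]
      refine Finset.sum_congr rfl fun a _ => ?_
      rw [hf, mul_assoc]
    have h2 : ∀ n, f n θ = ∑ e : ↥E, x n e.1 * f e.1 θ := by
      intro n
      rw [hexp n θ hθ, ← Finset.sum_coe_sort]
    rw [h1]
    have h3 : ∑ n : Fin r × (Fin s → Fin (D + 1)), ((coeff (ct2F n.2) (y j n.1) : ℚ) : ℝ) * f n θ =
        ∑ n : Fin r × (Fin s → Fin (D + 1)), ∑ e : ↥E,
          ((coeff (ct2F n.2) (y j n.1) : ℚ) : ℝ) * x n e.1 * f e.1 θ := by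
      refine Finset.sum_congr rfl fun n _ => ?_
      rw [h2 n, Finset.mul_sum]
      refine Finset.sum_congr rfl fun e _ => ?_
      rw [mul_assoc]
    rw [h3, Finset.sum_comm]
    refine Finset.sum_congr rfl fun e _ => ?_
    rw [hz, Finset.sum_mul]
  obtain ⟨j₁, θ₁, hθ₁, hne⟩ := hex
  rw [hsum j₁ θ₁ hθ₁] at hne
  obtain ⟨e₁, -, he₁⟩ := Finset.exists_ne_zero_of_sum_ne_zero hne
  have hz1 : z j₁ e₁ ≠ 0 := fun h => he₁ (by rw [h, zero_mul])
  obtain ⟨⟨j₀, e₀⟩, -, hmax⟩ := Finset.exists_max_image (Finset.univ : Finset (Fin q × ↥E))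
    (fun p => |z p.1 p.2|) ⟨(j₁, e₁), Finset.mem_univ _⟩
  have hmx : ∀ j e, |z j e| ≤ |z j₀ e₀| := fun j e => hmax (j, e) (Finset.mem_univ _)
  have hpos : 0 < |z j₀ e₀| := (abs_pos.2 hz1).trans_le (hmx j₁ e₁)
  obtain ⟨lam, hlam⟩ : ∃ lam : ℝ, lam = |z j₀ e₀|⁻¹ := ⟨_, rfl⟩
  have hlam0 : 0 < lam := by
    rw [hlam]
    exact inv_pos.2 hpos
  have hle1 : ∀ j e, |lam * z j e| ≤ 1 := by
    intro j e
    rw [abs_mul, abs_of_pos hlam0]
    calc lam * |z j e| ≤ lam * |z j₀ e₀| := mul_le_mul_of_nonneg_left (hmx j e) hlam0.le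
      _ = 1 := by rw [hlam]; exact inv_mul_cancel₀ hpos.ne'
  have heq1 : |lam * z j₀ e₀| = 1 := by
    rw [abs_mul, abs_of_pos hlam0, hlam]
    exact inv_mul_cancel₀ hpos.ne'
  refine ⟨lam, fun j θ => ∑ e : ↥E, (lam * z j e) * f e.1 θ,
    fun j b => ∑ e : ↥E, (lam * z j e) * m e.1 θ₀ b, hlam0, fun j => ?_, fun j θ hθ => ?_, ?_⟩
  · have h1 := Exp.linear (J := ↥E) (fun e => hE θ₀ hθ₀ e.1) (fun e => lam * z j e)
    refine h1.mono hr₁0 (mul_le_mul_of_nonneg_right ?_ hB₁0)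
    calc ∑ e : ↥E, |lam * z j e| ≤ ∑ _e : ↥E, (1 : ℝ) := Finset.sum_le_sum fun e _ => hle1 j e
      _ = (Fintype.card ↥E : ℝ) := by
          rw [Finset.sum_const, Finset.card_univ, nsmul_eq_mul, mul_one]
  · rw [hsum j θ hθ, Finset.mul_sum]
    refine Finset.sum_congr rfl fun e _ => ?_
    rw [mul_assoc]
  · obtain ⟨b, hb, hcb⟩ := hnd θ₀ hθ₀ (fun e => lam * z j₀ e) 1 one_pos ⟨e₀, heq1.ge⟩
    refine ⟨j₀, b, hb, ?_⟩
    rw [mul_one] at hcb
    exact hcb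

end Pool.Agent.Lib.MP_bbe012_lc.PM
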