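import Pool.Agent.Lib.MP_bbe012_lc.PM.Ct1
import Pool.Agent.Lib.MP_bbe012_lc.PM.Ct2
import Pool.Agent.Lib.MP_bbe012_lc.PG.A12

/-!
# Counting, rational version: the induction
-/

namespace Pool.Agent.Lib.MP_bbe012_lc.PM

open MvPolynomial Set PG

/-- The polynomial with given rational coefficients. -/
noncomputable def mkQ {s n : ℕ} (p : (Fin s → Fin (n + 1)) → ℚ) : MvPolynomial (Fin s) ℚ :=
  ∑ a, monomial (Finsupp.equivFunOnFinite.symm (fun i => (a i : ℕ))) (p a)

/-- Proof: as for `coeff_mkPoly`, `degreeOf_mkPoly`, `eval_mkPoly`, `abs_coeff_mkPoly_le` (PG/A12.lean); `map (algebraMap ℚ ℝ) (mkQ p) = mkPoly (fun a => (p a : ℝ))`. -/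
theorem mkQ_spec {s n : ℕ} (p : (Fin s → Fin (n + 1)) → ℚ) :
    (∀ a, coeff (Finsupp.equivFunOnFinite.symm (fun i => (a i : ℕ))) (mkQ p) = p a) ∧ (∀ l, (mkQ p).degreeOf l ≤ n) ∧
      (∀ θ : Fin s → ℝ, aeval θ (mkQ p) = ∑ a, (p a : ℝ) * ∏ l, θ l ^ (a l : ℕ)) ∧
      map (algebraMap ℚ ℝ) (mkQ p) = mkPoly fun a => (p a : ℝ) := by
  classical
  refine ⟨?_, ?_, ?_, ?_⟩
  · intro a
    rw [mkQ, coeff_sum, Finset.sum_eq_single a]
    · rw [coeff_monomial, if_pos rfl]
    · intro a' _ ha'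
      rw [coeff_monomial, if_neg]
      intro h
      exact ha' (toF_inj h)
    · intro h
      exact absurd (Finset.mem_univ a) h
  · intro l
    rw [mkQ]
    refine (degreeOf_sum_le l _ _).trans ?_
    refine Finset.sup_le fun a _ => ?_
    refine degreeOf_le_iff.2 fun m hm => ?_
    have h1 := support_monomial_subset hm
    rw [Finset.mem_singleton] at h1
    subst h1
    have h2 : (Finsupp.equivFunOnFinite.symm (fun i => (a i : ℕ)) : Fin s →₀ ℕ) l = (a l : ℕ) := rfl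
    rw [h2]
    exact Nat.lt_succ_iff.1 (a l).2
  · intro θ
    rw [mkQ, map_sum]
    refine Finset.sum_congr rfl fun a _ => ?_
    rw [aeval_monomial, Finsupp.prod_fintype _ _ (fun i => pow_zero _)]
    rfl
  · rw [mkQ, mkPoly, map_sum]
    refine Finset.sum_congr rfl fun a _ => ?_
    rw [map_monomial]
    rfl

/-- No function of an independent family vanishes identically. -/
private theorem exists_ne_of_indep {s r q : ℕ} (hq : 0 < q) {Ω : Set (Fin s → ℝ)} {V : Fin r → (Fin s → ℝ) → ℝ}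
    {y : Fin q → Fin r → MvPolynomial (Fin s) ℚ}
    (hI : ∀ P : Fin q → MvPolynomial (Fin s) ℚ,
      (∀ θ ∈ Ω, ∑ j, aeval θ (P j) * ∑ i, aeval θ (y j i) * V i θ = 0) → ∀ j, P j = 0) :
    ∃ j, ∃ θ ∈ Ω, ∑ i, aeval θ (y j i) * V i θ ≠ 0 := by
  classical
  by_contra hcon
  push Not at hcon
  have h1 := hI (fun _ => 1) (by
    intro θ hθ
    refine Finset.sum_eq_zero fun j _ => ?_
    rw [hcon j θ hθ, mul_zero]) ⟨0, hq⟩
  exact one_ne_zero h1

/-- The induction on the number of functions.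

Proof (compare `claim`, PG/A12.lean, from which the estimates can be copied). Induction on `q ≥ 1`; write `N_j θ = ∑ i, aeval θ (y j i) * V i θ`. By `hI` no `N_j` vanishes identically on `Ω` (take `P = Pi.single j 1`), so `fam_expQ hV D` applies.

`q = 1`: `cf σ 0 ≠ 0`, so `N_0 (σ) = 0`, so `G 0 σ = 0`: `zeros_ell` (PG/A12.lean) with `r₀, B, c, κ` from `fam_expQ`.

`q + 1`, `q ≥ 1`: let `h, T₀` be from `stageQ (Fin s) (Fin (q + 1)) r₀ B c κ A M`, `C₂, η₂` from the induction hypothesis for `q` and `D + 2 * h`, `C₁, η₁` from `zeros_fam (vhyp_one hV.compact) (2 * h) M hM1 1 one_pos`. For `T < T₀` use `card_box_le`. For `T ≥ T₀`, `stageQ` for the functions `G j` (on `Z` they are `lam * N_j`, so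
`∑ j, cf σ j * G j σ = 0`) gives `P : Fin (q + 1) → _ → ℚ`; let `p j = mkQ (P j)` and `|P j₁ a₁| = 1`; `p j₁ ≠ 0`. Let `Z₁` be the set of the `σ ∈ Z` with `cf σ j = 0` for all `j ≠ j₁`: there `cf σ j₁ ≠ 0` and so `aeval σ (p j₁) = 0`; its cardinality is bounded by
`C₁, η₁` (for the real polynomial `map (algebraMap ℚ ℝ) (p j₁) = mkPoly _`, coefficients at most `1`, one of absolute value `1`). For `Z₂ = Z \ Z₁` use the induction hypothesis for `y' j i = p j₁ * y (j₁.succAbove j) i - p (j₁.succAbove j) * y j₁ i`, `j : Fin q`, degrees `≤ D + 2 * h`, and `cf' σ j = cf σ (j₁.succAbove j)`.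
Here `N'_j = p_{j₁} N_{j₁.succAbove j} - p_{j₁.succAbove j} N_{j₁}`. Independence: if `∑ j, R_j N'_j = 0` on `Ω`, then `∑ j, (R_j p_{j₁}) N_{j₁.succAbove j} - (∑ j, R_j p_{j₁.succAbove j}) N_{j₁} = 0` on `Ω`, so `R_j * p_{j₁} = 0` by `hI` (`Fin.sum_univ_succAbove`, `Fin.insertNth`), so `R_j = 0`. The relation:
`∑ j, cf' σ j N'_j(σ) = p_{j₁}(σ) ∑_{j ≠ j₁} c_j N_j(σ) - (∑_{j ≠ j₁} c_j p_j(σ)) N_{j₁}(σ) = - p_{j₁}(σ) c_{j₁} N_{j₁}(σ) + c_{j₁} p_{j₁}(σ) N_{j₁}(σ) = 0`. Add up (take the smaller `η`). -/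
theorem claimQ {s r : ℕ} (hs : 0 < s) {Ω S : Set (Fin s → ℝ)} {V : Fin r → (Fin s → ℝ) → ℝ} (hV : WHyp Ω S V) (M : ℕ)
    (hM : 2 ^ (s + 2) * s * r ≤ M) (hM1 : 1 ≤ M) (A : ℕ) :
    ∀ q : ℕ, 1 ≤ q → q ≤ r → ∀ D : ℕ, ∃ C η : ℝ, 0 < C ∧ 0 < η ∧ ∀ T : ℕ, 1 ≤ T → ∀ θ₀ ∈ S,
      ∀ y : Fin q → Fin r → MvPolynomial (Fin s) ℚ, (∀ j i l, (y j i).degreeOf l ≤ D) →
      (∀ P : Fin q → MvPolynomial (Fin s) ℚ,
        (∀ θ ∈ Ω, ∑ j, aeval θ (P j) * ∑ i, aeval θ (y j i) * V i θ = 0) → ∀ j, P j = 0) →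
      ∀ (Z : Finset (Fin s → ℚ)) (cf : (Fin s → ℚ) → Fin q → ℤ),
        (∀ σ ∈ Z, (∀ i, HLE T (σ i)) ∧ (∀ i, |(σ i : ℝ) - θ₀ i| ≤ ell M T) ∧ (fun i => (σ i : ℝ)) ∈ Ω ∧ (∃ j, cf σ j ≠ 0) ∧
          (∀ j, |cf σ j| ≤ (T : ℤ) ^ A) ∧
          ∑ j, (cf σ j : ℝ) * ∑ i, aeval (fun i => (σ i : ℝ)) (y j i) * V i (fun i => (σ i : ℝ)) = 0) →
        (Z.card : ℝ) ≤ C * (T : ℝ) ^ ((s : ℝ) / M - η) := by
  classical
  have hne : Nonempty (Fin s) := ⟨⟨0, hs⟩⟩
  intro q hq
  induction q, hq using Nat.le_induction with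
  | base =>
    intro _ D
    obtain ⟨r₀, B, κ, c, hr₀, hB, hc, HF⟩ := fam_expQ hV D
    obtain ⟨C, η, hC, hη, H⟩ := zeros_ell (Fin s) r₀ B c κ M hr₀ hB hc hM1
    rw [Fintype.card_fin] at H
    refine ⟨C, η, hC, hη, ?_⟩
    intro T hT θ₀ hθ₀ y hdeg hI Z cf hZ
    obtain ⟨lam, G, ν, hlam, hE, hG, j, b, hb1, hb2⟩ := HF θ₀ hθ₀ 1 y hdeg (exists_ne_of_indep one_pos hI)
    refine H θ₀ (G j) (ν j) (hE j) ⟨b, hb1, hb2⟩ T hT Z ?_
    intro σ hσ
    obtain ⟨h1, h2, h3, ⟨j', hj'⟩, h5, h6⟩ := hZ σ hσ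
    refine ⟨h1, h2, ?_⟩
    have hjj : j' = j := Subsingleton.elim _ _
    have hj0 : j = 0 := Subsingleton.elim _ _
    subst hjj
    rw [Fin.sum_univ_one] at h6
    rw [hG j' _ h3]
    subst hj0
    have h7 : (cf σ 0 : ℝ) ≠ 0 := by exact_mod_cast hj'
    rw [(mul_eq_zero.1 h6).resolve_left h7, mul_zero]
  | succ q hq IH =>
    intro hqr D
    obtain ⟨r₀, B, κ, c, hr₀, hB, hc, HF⟩ := fam_expQ hV D
    have hM2 : 2 ^ (Fintype.card (Fin s) + 2) * Fintype.card (Fin s) * Fintype.card (Fin (q + 1)) ≤ M := by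
      rw [Fintype.card_fin, Fintype.card_fin]
      exact (Nat.mul_le_mul_left _ hqr).trans hM
    obtain ⟨h, T₀, HS⟩ := stageQ (Fin s) (Fin (q + 1)) r₀ B c κ A M hr₀ hB hc hM2
    obtain ⟨C₂, η₂, hC₂, hη₂, H2⟩ := IH (by omega) (D + 2 * h)
    obtain ⟨C₁, η₁, hC₁, hη₁, H1⟩ := zeros_fam (vhyp_one hV.compact) (2 * h) M hM1 1 one_pos
    rw [Fintype.card_fin] at H1
    have hη0 : 0 < min η₁ η₂ := lt_min hη₁ hη₂
    refine ⟨3 ^ s * ((T₀ : ℝ) + 1) ^ (min η₁ η₂) + (C₁ + C₂), min η₁ η₂, by positivity, hη0, ?_⟩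
    intro T hT θ₀ hθ₀ y hdeg hI Z cf hZ
    have hT0 : (0 : ℝ) < (T : ℝ) := by exact_mod_cast hT
    have hT1 : (1 : ℝ) ≤ (T : ℝ) := by exact_mod_cast hT
    have hTK : 0 < (T : ℝ) ^ ((s : ℝ) / M - min η₁ η₂) := Real.rpow_pos_of_pos hT0 _
    obtain ⟨hl0, hl1, hl2, hl3⟩ := ell_spec hM1 hT
    by_cases hTT : T₀ ≤ T
    · obtain ⟨lam, G, ν, hlam, hE, hG, j₀, b₀, hb1, hb2⟩ :=
        HF θ₀ hθ₀ (q + 1) y hdeg (exists_ne_of_indep (Nat.succ_pos q) hI)
      obtain ⟨P, hP1, ⟨j₁, a₁, hP2⟩, hP3⟩ := HS T hTT θ₀ G ν hE ⟨j₀, b₀, hb1, hb2⟩ (ell M T) hl0 hl2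
        (Z : Set (Fin s → ℚ)) cf (by
          intro σ hσ
          obtain ⟨h1, h2, h3, h4, h5, h6⟩ := hZ σ (by simpa using hσ)
          refine ⟨h1, h2, h5, ?_⟩
          have h7 : ∀ j, (cf σ j : ℝ) * G j (fun i => (σ i : ℝ)) =
              lam * ((cf σ j : ℝ) * ∑ i, aeval (fun i => (σ i : ℝ)) (y j i) * V i (fun i => (σ i : ℝ))) := by
            intro j
            rw [hG j _ h3]
            ring
          rw [Finset.sum_congr rfl fun j _ => h7 j, ← Finset.mul_sum, h6, mul_zero])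
      obtain ⟨p, hp⟩ : ∃ p : Fin (q + 1) → MvPolynomial (Fin s) ℚ, ∀ j, p j = mkQ (P j) := ⟨_, fun _ => rfl⟩
      have hpdeg : ∀ j l, (p j).degreeOf l ≤ 2 * h := by
        intro j l
        rw [hp j]
        exact (mkQ_spec (P j)).2.1 l
      have hp1 : p j₁ ≠ 0 := by
        intro h0
        have h1 := (mkQ_spec (P j₁)).1 a₁
        rw [← hp j₁, h0, coeff_zero] at h1
        rw [← h1] at hP2
        simp at hP2
      have hrel : ∀ σ ∈ Z, ∑ j, (cf σ j : ℝ) * aeval (fun i => (σ i : ℝ)) (p j) = 0 := by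
        intro σ hσ
        have h1 := hP3 σ (by simpa using hσ)
        have h2 : ((∑ j, (∑ a, P j a * ∏ l, σ l ^ (a l : ℕ)) * (cf σ j : ℚ) : ℚ) : ℝ) = 0 := by
          rw [h1]
          simp
        rw [← h2]
        push_cast
        refine Finset.sum_congr rfl fun j _ => ?_
        rw [hp j, (mkQ_spec (P j)).2.2.1, mul_comm]
      have hZ1 : ((Z.filter fun σ => ∀ j : Fin q, cf σ (j₁.succAbove j) = 0).card : ℝ) ≤
          C₁ * (T : ℝ) ^ ((s : ℝ) / M - η₁) := by
        have hmap : map (algebraMap ℚ ℝ) (p j₁) = mkPoly fun a => (P j₁ a : ℝ) := by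
          rw [hp j₁]
          exact (mkQ_spec (P j₁)).2.2.2
        refine H1 T hT θ₀ hθ₀ (fun _ => map (algebraMap ℚ ℝ) (p j₁)) (fun _ l => ?_) (fun _ b => ?_) ?_ _ ?_
        · simp only [hmap]
          exact degreeOf_mkPoly _ _
        · simp only [hmap]
          refine abs_coeff_mkPoly_le (fun a => ?_) b
          exact_mod_cast hP1 j₁ a
        · refine ⟨0, Finsupp.equivFunOnFinite.symm (fun i => (a₁ i : ℕ)), ?_⟩
          simp only [hmap]
          rw [coeff_mkPoly]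
          have h3 : |(P j₁ a₁ : ℝ)| = 1 := by exact_mod_cast hP2
          exact h3.ge
        · intro σ hσ
          rw [Finset.mem_filter] at hσ
          obtain ⟨h1, h2, h3, ⟨j, hj0⟩, h5, h6⟩ := hZ σ hσ.1
          refine ⟨h1, h2, ?_⟩
          have hjj : j = j₁ := by
            by_contra hne'
            obtain ⟨j', hj'⟩ := Fin.exists_succAbove_eq hne'
            exact hj0 (hj' ▸ hσ.2 j')
          have h7 := hrel σ hσ.1
          rw [Fin.sum_univ_succAbove _ j₁, Finset.sum_eq_zero (fun j' _ => by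
            rw [hσ.2 j']
            simp), add_zero] at h7
          have h8 : (cf σ j₁ : ℝ) ≠ 0 := by
            rw [← hjj]
            exact_mod_cast hj0
          have h9 := (mul_eq_zero.1 h7).resolve_left h8
          simp only [Finset.univ_unique, Finset.sum_singleton, mul_one]
          rw [eval_map, ← aeval_def]
          exact h9
      have hZ2 : ((Z.filter fun σ => ¬ ∀ j : Fin q, cf σ (j₁.succAbove j) = 0).card : ℝ) ≤
          C₂ * (T : ℝ) ^ ((s : ℝ) / M - η₂) := by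
        have hN : ∀ (θ : Fin s → ℝ) (j : Fin q),
            ∑ i, aeval θ (p j₁ * y (j₁.succAbove j) i - p (j₁.succAbove j) * y j₁ i) * V i θ =
              aeval θ (p j₁) * (∑ i, aeval θ (y (j₁.succAbove j) i) * V i θ) -
                aeval θ (p (j₁.succAbove j)) * ∑ i, aeval θ (y j₁ i) * V i θ := by
          intro θ j
          rw [Finset.mul_sum, Finset.mul_sum, ← Finset.sum_sub_distrib]
          refine Finset.sum_congr rfl fun i _ => ?_
          rw [map_sub, map_mul, map_mul]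
          ring
        refine H2 T hT θ₀ hθ₀ (fun j i => p j₁ * y (j₁.succAbove j) i - p (j₁.succAbove j) * y j₁ i) ?_ ?_ _
          (fun σ j => cf σ (j₁.succAbove j)) ?_
        · intro j i l
          refine (degreeOf_sub_le l _ _).trans (max_le ?_ ?_)
          · refine (degreeOf_mul_le l _ _).trans ?_
            have := hpdeg j₁ l
            have := hdeg (j₁.succAbove j) i l
            omega
          · refine (degreeOf_mul_le l _ _).trans ?_
            have := hpdeg (j₁.succAbove j) l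
            have := hdeg j₁ i l
            omega
        · intro R hR j
          have h1 := hI (Fin.insertNth (α := fun _ => MvPolynomial (Fin s) ℚ) j₁ (-∑ j, R j * p (j₁.succAbove j)) fun j => R j * p j₁) (by
            intro θ hθ
            rw [Fin.sum_univ_succAbove _ j₁]
            simp only [Fin.insertNth_apply_same, Fin.insertNth_apply_succAbove]
            have h2 := hR θ hθ
            simp only [hN] at h2
            rw [← h2, map_neg, map_sum, ← sub_eq_zero]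
            simp only [map_mul]
            have h3 : ∀ j : Fin q, aeval θ (R j) * (aeval θ (p j₁) * (∑ i, aeval θ (y (j₁.succAbove j) i) * V i θ) -
                aeval θ (p (j₁.succAbove j)) * ∑ i, aeval θ (y j₁ i) * V i θ) =
                aeval θ (R j) * aeval θ (p j₁) * (∑ i, aeval θ (y (j₁.succAbove j) i) * V i θ) -
                aeval θ (R j) * aeval θ (p (j₁.succAbove j)) * ∑ i, aeval θ (y j₁ i) * V i θ := by
              intro j
              ring
            rw [Finset.sum_congr rfl fun j _ => h3 j, Finset.sum_sub_distrib, ← Finset.sum_mul]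
            ring) (j₁.succAbove j)
          rw [Fin.insertNth_apply_succAbove] at h1
          exact (mul_eq_zero.1 h1).resolve_right hp1
        · intro σ hσ
          rw [Finset.mem_filter] at hσ
          obtain ⟨h1, h2, h3, h4, h5, h6⟩ := hZ σ hσ.1
          refine ⟨h1, h2, h3, ?_, fun j => h5 _, ?_⟩
          · have h7 := hσ.2
            push Not at h7
            exact h7
          · have h8 := hrel σ hσ.1
            rw [Fin.sum_univ_succAbove _ j₁] at h6 h8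
            simp only [hN]
            have h9 : ∀ j : Fin q, (cf σ (j₁.succAbove j) : ℝ) * (aeval (fun i => (σ i : ℝ)) (p j₁) *
                (∑ i, aeval (fun i => (σ i : ℝ)) (y (j₁.succAbove j) i) * V i (fun i => (σ i : ℝ))) -
                aeval (fun i => (σ i : ℝ)) (p (j₁.succAbove j)) *
                  ∑ i, aeval (fun i => (σ i : ℝ)) (y j₁ i) * V i (fun i => (σ i : ℝ))) =
                aeval (fun i => (σ i : ℝ)) (p j₁) * ((cf σ (j₁.succAbove j) : ℝ) *
                  ∑ i, aeval (fun i => (σ i : ℝ)) (y (j₁.succAbove j) i) * V i (fun i => (σ i : ℝ))) -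
                ((cf σ (j₁.succAbove j) : ℝ) * aeval (fun i => (σ i : ℝ)) (p (j₁.succAbove j))) *
                  ∑ i, aeval (fun i => (σ i : ℝ)) (y j₁ i) * V i (fun i => (σ i : ℝ)) := by
              intro j
              ring
            rw [Finset.sum_congr rfl fun j _ => h9 j, Finset.sum_sub_distrib, ← Finset.mul_sum, ← Finset.sum_mul,
              eq_neg_of_add_eq_zero_right h6, eq_neg_of_add_eq_zero_right h8]
            ring
      have hmono1 : (T : ℝ) ^ ((s : ℝ) / M - η₁) ≤ (T : ℝ) ^ ((s : ℝ) / M - min η₁ η₂) :=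
        Real.rpow_le_rpow_of_exponent_le hT1 (sub_le_sub_left (min_le_left _ _) _)
      have hmono2 : (T : ℝ) ^ ((s : ℝ) / M - η₂) ≤ (T : ℝ) ^ ((s : ℝ) / M - min η₁ η₂) :=
        Real.rpow_le_rpow_of_exponent_le hT1 (sub_le_sub_left (min_le_right _ _) _)
      have hsum : (Z.card : ℝ) = ((Z.filter fun σ => ∀ j : Fin q, cf σ (j₁.succAbove j) = 0).card : ℝ) +
          ((Z.filter fun σ => ¬ ∀ j : Fin q, cf σ (j₁.succAbove j) = 0).card : ℝ) := by
        rw [← Nat.cast_add, Finset.card_filter_add_card_filter_not]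
      calc (Z.card : ℝ) = _ := hsum
        _ ≤ C₁ * (T : ℝ) ^ ((s : ℝ) / M - η₁) + C₂ * (T : ℝ) ^ ((s : ℝ) / M - η₂) :=
            add_le_add hZ1 hZ2
        _ ≤ C₁ * (T : ℝ) ^ ((s : ℝ) / M - min η₁ η₂) +
            C₂ * (T : ℝ) ^ ((s : ℝ) / M - min η₁ η₂) :=
            add_le_add (mul_le_mul_of_nonneg_left hmono1 hC₁.le) (mul_le_mul_of_nonneg_left hmono2 hC₂.le)
        _ = (C₁ + C₂) * (T : ℝ) ^ ((s : ℝ) / M - min η₁ η₂) := by ring
        _ ≤ _ := by
            apply mul_le_mul_of_nonneg_right _ hTK.le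
            have : 0 ≤ 3 ^ s * ((T₀ : ℝ) + 1) ^ (min η₁ η₂) := by positivity
            linarith
    · have hTT' : (T : ℝ) ≤ (T₀ : ℝ) + 1 := by
        have h0 : (T : ℝ) ≤ (T₀ : ℝ) := by exact_mod_cast (not_le.1 hTT).le
        linarith
      have h1 := card_box_le hM1 hT θ₀ Z (fun σ hσ => ⟨(hZ σ hσ).1, (hZ σ hσ).2.1⟩)
      rw [Fintype.card_fin] at h1
      calc (Z.card : ℝ) ≤ 3 ^ s * (T : ℝ) ^ ((s : ℝ) / M) := h1
        _ = 3 ^ s * (T : ℝ) ^ (min η₁ η₂) * (T : ℝ) ^ ((s : ℝ) / M - min η₁ η₂) := by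
            rw [mul_assoc, ← Real.rpow_add hT0]
            congr 2
            ring
        _ ≤ 3 ^ s * ((T₀ : ℝ) + 1) ^ (min η₁ η₂) *
            (T : ℝ) ^ ((s : ℝ) / M - min η₁ η₂) := by
            apply mul_le_mul_of_nonneg_right _ hTK.le
            apply mul_le_mul_of_nonneg_left _ (by positivity)
            exact Real.rpow_le_rpow hT0.le hTT' hη0.le
        _ ≤ _ := by
            apply mul_le_mul_of_nonneg_right _ hTK.le
            linarith

end Pool.Agent.Lib.MP_bbe012_lc.PM
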