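import Pool.Agent.Lib.MP_bbe012_lc.Defs
import Pool.Agent.Lib.MP_bbe012_lc.PG.BDefs

/-!
# Moving supports: definitions

A family of supports is given by a number `n` of variables, a denominator `Q` and finitely many polynomials `l ∈ L` in `θ_1, ..., θ_s` and
`x_1, ..., x_n`. At a parameter `θ` it stands for the explicit integrals of `P / Q(θ, x)` over the sets given by the inequalities `l(θ, x) > 0` or
`l(θ, x) ≥ 0`.
-/

namespace Pool.Agent.Lib.MP_bbe012_lc.PM

open MvPolynomial MeasureTheory Set PP PG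

/-- A family of supports. -/
structure Fam (s : ℕ) where
  n : ℕ
  Q : Pz s n
  L : List (Pz s n)
  Q0 : Q ≠ 0
  L0 : ∀ l ∈ L, l ≠ 0

/-- The explicit integral coded by `I` is one of those of the family `F` at `θ`: its denominator is `Q(θ, x)`, the polynomials in its
inequalities are the `l(θ, x)`, `l ∈ L`, and the numerator has degree at most `D` and coefficients in `(1 / q) ℤ`, of absolute value at most
`T ^ A`. -/
def ItemM {s : ℕ} (F : Fam s) (D A T q : ℕ) (θ : Fin s → ℚ) (I : IntCode) : Prop :=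
  I.1 = F.n ∧ pcPoly F.n I.2.1.2 = spz F.Q θ ∧
    (∀ c ∈ I.2.2, ∃ l ∈ F.L, pcPoly F.n c.2 = spz l θ) ∧ (∀ l ∈ F.L, ∃ c ∈ I.2.2, pcPoly F.n c.2 = spz l θ) ∧
    (pcPoly F.n I.2.1.1).totalDegree ≤ D ∧
    ∀ u, |coeff u (pcPoly F.n I.2.1.1)| ≤ (T : ℚ) ^ A ∧ ∃ z : ℤ, (q : ℚ) * coeff u (pcPoly F.n I.2.1.1) = z

/-- `Z` is a pair of presentations of periods by (absolutely convergent) explicit integrals as in `ItemM`, with a common `q ≤ T ^ A`. -/
def InClassM {s μ : ℕ} (F : Fin μ → Fam s) (D A T : ℕ) (θ : Fin s → ℚ) (Z : PeriodCode × PeriodCode) : Prop :=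
  (PeriodAdmissible Z.1 ∧ PeriodAdmissible Z.2) ∧
    ∃ q : ℕ, 1 ≤ q ∧ q ≤ T ^ A ∧ ∀ I ∈ [Z.1.1, Z.1.2, Z.2.1, Z.2.2], ∃ k, ItemM (F k) D A T q θ I

/-- The polynomials in `θ` as polynomials in `θ` and `x`. -/
noncomputable def par {s : ℕ} (n : ℕ) (c : MvPolynomial (Fin s) ℚ) : Pz s n := rename Sum.inl c

/-- The polynomials in `θ` and `x` as polynomials in `θ, t` and `x` (`t` is the last parameter). -/
noncomputable def up {s n : ℕ} (G : Pz s n) : Pz (s + 1) n := rename (Sum.map Fin.castSucc id) G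

/-- The parameter `t`. -/
noncomputable def tz (s n : ℕ) : Pz (s + 1) n := X (Sum.inl (Fin.last s))

/-- The divergence: `∑ ∂_l (g_l h ^ (t - K))` is this polynomial times `h ^ (t - K - 1)`. -/
noncomputable def dv {s n : ℕ} (h : Pz s n) (K : ℕ) (g : Fin n → Pz (s + 1) n) : Pz (s + 1) n :=
  ∑ l, (up h * pderiv (Sum.inr l) (g l) + (tz s n - (K : Pz (s + 1) n)) * (pderiv (Sum.inr l) (up h) * g l))

/-- The region: the points of the open cube `(-1, 1)^n` at which all `p_j` are positive. -/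
def rg {s n r : ℕ} (p : Fin r → Pz s n) (θ : Fin s → ℝ) : Set (Fin n → ℝ) :=
  {x | (∀ i, x i ^ 2 < 1) ∧ ∀ j, 0 < vl (p j) θ x}

/-- The product of all polynomials which define the region. -/
noncomputable def hh {s n r : ℕ} (p : Fin r → Pz s n) : Pz s n :=
  (∏ j, p j) * ∏ i : Fin n, (1 - X (Sum.inr i) ^ 2)

/-- The integral of `G(θ, t, x) h ^ (t - k)` over the region. -/
noncomputable def FI {s n r : ℕ} (p : Fin r → Pz s n) (G : Pz (s + 1) n) (k : ℕ) (θ : Fin s → ℝ) (t : ℝ) : ℝ :=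
  ∫ x in rg p θ, vl G (Fin.snoc θ t : Fin (s + 1) → ℝ) x * vl (hh p) θ x ^ (t - k)

end Pool.Agent.Lib.MP_bbe012_lc.PM
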