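import Mathlib

/-!
# Polynomials in `θ_1, ..., θ_s, t`: specialisation at an integer `t = M`
-/

namespace Pool.Agent.Lib.MP_bbe012_lc.PM

open MvPolynomial

/-- The value at `t = M` of a polynomial in `θ, t`. -/
noncomputable def spt {s : ℕ} (M : ℕ) : MvPolynomial (Fin (s + 1)) ℚ →ₐ[ℚ] MvPolynomial (Fin s) ℚ :=
  aeval (Fin.snoc X (C (M : ℚ)) : Fin (s + 1) → MvPolynomial (Fin s) ℚ)

theorem aeval_spt {s : ℕ} (M : ℕ) (f : MvPolynomial (Fin (s + 1)) ℚ) (θ : Fin s → ℝ) :
    aeval θ (spt M f) = aeval (Fin.snoc θ (M : ℝ) : Fin (s + 1) → ℝ) f := by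
  induction f using MvPolynomial.induction_on with
  | C a => rw [spt, aeval_C, aeval_C]; simp
  | add p q hp hq => rw [map_add, map_add, map_add, hp, hq]
  | mul_X p i hp =>
    rw [map_mul, map_mul, map_mul, hp, aeval_X]
    congr 1
    rw [spt, aeval_X]
    refine Fin.lastCases ?_ (fun i => ?_) i
    · simp
    · simp

/-- The polynomial `t - M`. -/
noncomputable def tM (s M : ℕ) : MvPolynomial (Fin (s + 1)) ℚ := X (Fin.last s) - C (M : ℚ)

theorem aeval_tM {s : ℕ} (M : ℕ) (θ : Fin s → ℝ) (t : ℝ) :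
    aeval (Fin.snoc θ t : Fin (s + 1) → ℝ) (tM s M) = t - M := by
  rw [tM, map_sub, aeval_X, Fin.snoc_last, aeval_C]
  simp

theorem dvd_sub_spt {s : ℕ} (M : ℕ) (f : MvPolynomial (Fin (s + 1)) ℚ) :
    tM s M ∣ f - rename Fin.castSucc (spt M f) := by
  induction f using MvPolynomial.induction_on with
  | C a =>
    rw [spt, aeval_C]
    simp
  | add p q hp hq =>
    rw [map_add, map_add, add_sub_add_comm]
    exact dvd_add hp hq
  | mul_X p i hp =>
    rw [map_mul, map_mul]
    have e : p * X i - rename Fin.castSucc (spt M p) * rename Fin.castSucc (spt M (X i)) =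
        (p - rename Fin.castSucc (spt M p)) * X i +
          rename Fin.castSucc (spt M p) * (X i - rename Fin.castSucc (spt M (X i))) := by ring
    rw [e]
    refine dvd_add (Dvd.dvd.mul_right hp _) (Dvd.dvd.mul_left ?_ _)
    rw [spt, aeval_X]
    refine Fin.lastCases ?_ (fun i => ?_) i
    · rw [Fin.snoc_last, rename_C]
      exact dvd_rfl
    · rw [Fin.snoc_castSucc, rename_X, sub_self]
      exact dvd_zero _

theorem dvd_of_spt {s : ℕ} {M : ℕ} {f : MvPolynomial (Fin (s + 1)) ℚ} (hf : spt M f = 0) :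
    tM s M ∣ f := by
  have h := dvd_sub_spt M f
  rwa [hf, map_zero, sub_zero] at h

theorem tM_not_isUnit (s M : ℕ) : ¬ IsUnit (tM s M) := by
  intro h
  have h1 : IsUnit (spt M (tM s M)) := h.map (spt M)
  have h2 : spt M (tM s M) = 0 := by
    rw [tM, map_sub, spt, aeval_X, aeval_C, Fin.snoc_last, sub_eq_zero]
    rfl
  rw [h2] at h1
  exact not_isUnit_zero h1

/-- Division by the highest power of `t - M`. -/
theorem exists_factor {s : ℕ} (M : ℕ) {f : MvPolynomial (Fin (s + 1)) ℚ} (hf : f ≠ 0) :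
    ∃ (ν : ℕ) (g : MvPolynomial (Fin (s + 1)) ℚ), f = tM s M ^ ν * g ∧ spt M g ≠ 0 := by
  have hfin : FiniteMultiplicity (tM s M) f := FiniteMultiplicity.of_not_isUnit (tM_not_isUnit s M) hf
  obtain ⟨g, hg, hnd⟩ := hfin.exists_eq_pow_mul_and_not_dvd
  exact ⟨_, g, hg, fun h0 => hnd (dvd_of_spt h0)⟩

/-- The specialisation at almost all integers is nonzero. -/
theorem exists_M {s : ℕ} {f : MvPolynomial (Fin (s + 1)) ℚ} (hf : f ≠ 0) (M₀ : ℕ) :
    ∃ M, M₀ ≤ M ∧ spt M f ≠ 0 := by
  by_contra hcon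
  push Not at hcon
  -- a point at which `f` does not vanish
  obtain ⟨x, hx⟩ : ∃ x : Fin (s + 1) → ℚ, eval x f ≠ 0 := by
    by_contra h
    push Not at h
    exact hf (MvPolynomial.funext (fun x => by rw [h x, map_zero]))
  -- the polynomial in `t`
  set θ : Fin s → ℚ := fun i => x i.castSucc with hθ
  set q : Polynomial ℚ := aeval (Fin.snoc (fun i => Polynomial.C (θ i)) Polynomial.X :
    Fin (s + 1) → Polynomial ℚ) f with hq
  have hev : ∀ t : ℚ, q.eval t = eval (Fin.snoc θ t : Fin (s + 1) → ℚ) f := by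
    intro t
    rw [hq]
    clear hq hx hf hcon
    induction f using MvPolynomial.induction_on with
    | C a => simp
    | add p q hp hq => rw [map_add, map_add, Polynomial.eval_add, hp, hq]
    | mul_X p i hp =>
      rw [map_mul, map_mul, Polynomial.eval_mul, hp, aeval_X, eval_X]
      congr 1
      refine Fin.lastCases ?_ (fun i => ?_) i
      · simp
      · simp
  have hq0 : q ≠ 0 := by
    intro h0
    apply hx
    have h1 := hev (x (Fin.last s))
    rw [h0, Polynomial.eval_zero] at h1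
    rw [h1]
    congr 1
    congr 1
    ext i
    refine Fin.lastCases ?_ (fun i => ?_) i
    · simp
    · simp [hθ]
  have hroot : ∀ M : ℕ, M₀ ≤ M → q.IsRoot (M : ℚ) := by
    intro M hM
    rw [Polynomial.IsRoot, hev]
    have h1 := hcon M hM
    have h2 := congrArg (eval θ) h1
    rw [map_zero] at h2
    rw [← h2]
    clear h1 h2 hev hq0 hq hx hf hcon
    induction f using MvPolynomial.induction_on with
    | C a => rw [spt, aeval_C]; simp
    | add p q hp hq => rw [map_add, map_add, map_add, hp, hq]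
    | mul_X p i hp =>
      rw [map_mul, map_mul, map_mul, hp, eval_X]
      congr 1
      rw [spt, aeval_X]
      refine Fin.lastCases ?_ (fun i => ?_) i
      · simp
      · simp
  have hinf : Set.Infinite {y : ℚ | q.IsRoot y} := by
    have h1 : Set.Infinite ((fun M : ℕ => (M : ℚ)) '' Set.Ici M₀) :=
      (Set.Ici_infinite M₀).image (Nat.cast_injective.injOn)
    refine h1.mono ?_
    rintro _ ⟨M, hM, rfl⟩
    exact hroot M hM
  exact hq0 (Polynomial.eq_zero_of_infinite_isRoot q hinf)

end Pool.Agent.Lib.MP_bbe012_lc.PM
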