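import Pool.Agent.Lib.MP_bbe012_lc.PM.Span
import Pool.Agent.Lib.MP_bbe012_lc.PM.Vx1
import Pool.Agent.Lib.MP_bbe012_lc.PM.GFb

/-!
# From polynomials over `Frac ℚ[θ]` to polynomials in `θ, t, x`
-/

namespace Pool.Agent.Lib.MP_bbe012_lc.PM.GB

open MvPolynomial PP PG Module

/-- The field of rational functions of `θ`. -/
abbrev Ks (s : ℕ) := FractionRing (MvPolynomial (Fin s) ℚ)

instance charZeroKs (s : ℕ) : CharZero (Ks s) :=
  charZero_of_injective_algebraMap (IsFractionRing.injective (MvPolynomial (Fin s) ℚ) (Ks s))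

/-- The inclusion of the polynomials in the rational functions. -/
noncomputable def ik (s : ℕ) : MvPolynomial (Fin s) ℚ →+* Ks s := algebraMap _ _

theorem ik_injective (s : ℕ) : Function.Injective (ik s) := IsFractionRing.injective (MvPolynomial (Fin s) ℚ) (Ks s)

theorem ik_ne {s : ℕ} {e : MvPolynomial (Fin s) ℚ} (he : e ≠ 0) : ik s e ≠ 0 := fun h =>
  he (ik_injective s (by rw [h, map_zero]))

/-- Polynomials in `θ, t, x` as polynomials in `x, t` over `ℚ[θ]`. -/
noncomputable def tau' (s n : ℕ) : Pz (s + 1) n →ₐ[ℚ] MvPolynomial (Fin (n + 1)) (MvPolynomial (Fin s) ℚ) :=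
  aeval (Sum.elim (Fin.snoc (fun j => C (X j)) (X (Fin.last n)) :
    Fin (s + 1) → MvPolynomial (Fin (n + 1)) (MvPolynomial (Fin s) ℚ)) fun i => X i.castSucc)

/-- The inverse map. -/
noncomputable def untau (s n : ℕ) : MvPolynomial (Fin (n + 1)) (MvPolynomial (Fin s) ℚ) →+* Pz (s + 1) n :=
  eval₂Hom (rename (fun j : Fin s => (Sum.inl j.castSucc : Fin (s + 1) ⊕ Fin n)) :
    MvPolynomial (Fin s) ℚ →ₐ[ℚ] Pz (s + 1) n).toRingHom
    (Fin.snoc (fun i => X (Sum.inr i)) (tz s n) : Fin (n + 1) → Pz (s + 1) n)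

theorem tau'_inl (s n : ℕ) (j : Fin s) : tau' s n (X (Sum.inl j.castSucc)) = C (X j) := by
  rw [tau', aeval_X, Sum.elim_inl, Fin.snoc_castSucc]

theorem tau'_t (s n : ℕ) : tau' s n (X (Sum.inl (Fin.last s))) = X (Fin.last n) := by
  rw [tau', aeval_X, Sum.elim_inl, Fin.snoc_last]

theorem tau'_inr (s n : ℕ) (i : Fin n) : tau' s n (X (Sum.inr i)) = X i.castSucc := by
  rw [tau', aeval_X, Sum.elim_inr]

theorem tau'_C (s n : ℕ) (a : ℚ) : tau' s n (C a) = C (C a) := by
  rw [tau', aeval_C, IsScalarTower.algebraMap_apply ℚ (MvPolynomial (Fin s) ℚ)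
    (MvPolynomial (Fin (n + 1)) (MvPolynomial (Fin s) ℚ)), algebraMap_eq, algebraMap_eq]

theorem untau_C (s n : ℕ) (c : MvPolynomial (Fin s) ℚ) :
    untau s n (C c) = rename (fun j : Fin s => (Sum.inl j.castSucc : Fin (s + 1) ⊕ Fin n)) c := by
  rw [untau, coe_eval₂Hom, eval₂_C]
  rfl

theorem untau_X (s n : ℕ) (i : Fin n) : untau s n (X i.castSucc) = X (Sum.inr i) := by
  rw [untau, coe_eval₂Hom, eval₂_X, Fin.snoc_castSucc]

theorem untau_t (s n : ℕ) : untau s n (X (Fin.last n)) = tz s n := by
  rw [untau, coe_eval₂Hom, eval₂_X, Fin.snoc_last]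

theorem untau_tau' {s n : ℕ} (w : Pz (s + 1) n) : untau s n (tau' s n w) = w := by
  induction w using MvPolynomial.induction_on with
  | C a => rw [tau'_C, untau_C, rename_C]
  | add p q hp hq => rw [map_add, map_add, hp, hq]
  | mul_X p i hp =>
    rw [map_mul, map_mul, hp]
    congr 1
    cases i with
    | inl j =>
      refine Fin.lastCases ?_ (fun j => ?_) j
      · rw [tau'_t, untau_t, tz]
      · rw [tau'_inl, untau_C, rename_X]
    | inr j => rw [tau'_inr, untau_X]

theorem tau'_untau {s n : ℕ} (w : MvPolynomial (Fin (n + 1)) (MvPolynomial (Fin s) ℚ)) :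
    tau' s n (untau s n w) = w := by
  induction w using MvPolynomial.induction_on with
  | C a =>
    rw [untau_C]
    induction a using MvPolynomial.induction_on with
    | C a => rw [rename_C, tau'_C]
    | add p q hp hq => rw [map_add, map_add, hp, hq, C_add]
    | mul_X p i hp => rw [map_mul, map_mul, hp, rename_X, tau'_inl, C_mul]
  | add p q hp hq => rw [map_add, map_add, hp, hq]
  | mul_X p i hp =>
    rw [map_mul, map_mul, hp]
    congr 1
    refine Fin.lastCases ?_ (fun i => ?_) i
    · rw [untau_t, tz, tau'_t]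
    · rw [untau_X, tau'_inr]

/-- Polynomials in `θ, t, x` as polynomials in `x, t` over the field of rational functions of `θ`. -/
noncomputable def tau (s n : ℕ) : Pz (s + 1) n →+* GF.Pt (Ks s) n :=
  (map (ik s)).comp (tau' s n).toRingHom

theorem tau_apply {s n : ℕ} (w : Pz (s + 1) n) : tau s n w = map (ik s) (tau' s n w) := rfl

theorem tau_injective (s n : ℕ) : Function.Injective (tau s n) := by
  intro a b hab
  have h1 : tau' s n a = tau' s n b := map_injective _ (ik_injective s) hab
  rw [← untau_tau' a, h1, untau_tau']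

/-- Polynomials in `θ` and `x` as polynomials in `x` over the rational functions. -/
noncomputable def sg (s n : ℕ) : Pz s n →+* MvPolynomial (Fin n) (Ks s) :=
  (map (ik s)).comp (split s n).toRingHom

theorem sg_apply {s n : ℕ} (w : Pz s n) : sg s n w = map (ik s) (split s n w) := rfl

theorem sg_injective (s n : ℕ) : Function.Injective (sg s n) := by
  intro a b hab
  exact split_injective s n (map_injective _ (ik_injective s) hab)

theorem split_par {s n : ℕ} (c : MvPolynomial (Fin s) ℚ) : split s n (par n c) = C c := by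
  induction c using MvPolynomial.induction_on with
  | C a =>
    rw [par, rename_C, split, aeval_C, IsScalarTower.algebraMap_apply ℚ (MvPolynomial (Fin s) ℚ)
      (MvPolynomial (Fin n) (MvPolynomial (Fin s) ℚ)), algebraMap_eq, algebraMap_eq]
  | add p q hp hq =>
    rw [par] at hp hq ⊢
    rw [map_add, map_add, hp, hq, C_add]
  | mul_X p i hp =>
    rw [par] at hp ⊢
    rw [map_mul, map_mul, hp, rename_X, C_mul, split, aeval_X, Sum.elim_inl]

theorem split_unsplit {s n : ℕ} (w : MvPolynomial (Fin n) (MvPolynomial (Fin s) ℚ)) :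
    split s n (unsplit s n w) = w := by
  induction w using MvPolynomial.induction_on with
  | C a => rw [unsplit_C, split_par]
  | add p q hp hq => rw [map_add, map_add, hp, hq]
  | mul_X p i hp =>
    rw [map_mul, map_mul, hp, unsplit_X]
    congr 1
    rw [split, aeval_X, Sum.elim_inr]

theorem sg_par {s n : ℕ} (c : MvPolynomial (Fin s) ℚ) : sg s n (par n c) = C (ik s c) := by
  rw [sg_apply, split_par, map_C]

theorem tau_up {s n : ℕ} (G : Pz s n) : tau s n (up G) = GF.hP (sg s n G) := by
  rw [tau_apply, sg_apply, GF.hP]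
  have h1 : tau' s n (up G) = rename Fin.castSucc (split s n G) := by
    induction G using MvPolynomial.induction_on with
    | C a =>
      rw [up, rename_C, tau'_C, split, aeval_C, IsScalarTower.algebraMap_apply ℚ (MvPolynomial (Fin s) ℚ)
        (MvPolynomial (Fin n) (MvPolynomial (Fin s) ℚ)), algebraMap_eq, algebraMap_eq, rename_C]
    | add p q hp hq =>
      rw [up] at hp hq ⊢
      rw [map_add, map_add, hp, hq, map_add, map_add]
    | mul_X p i hp =>
      rw [up] at hp ⊢
      rw [map_mul, map_mul, hp, map_mul, map_mul, rename_X]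
      congr 1
      cases i with
      | inl j => rw [Sum.map_inl, tau'_inl, split, aeval_X, Sum.elim_inl, rename_C]
      | inr j => rw [Sum.map_inr, id, tau'_inr, split, aeval_X, Sum.elim_inr, rename_X]
  rw [h1, map_rename]

theorem tau_tz (s n : ℕ) : tau s n (tz s n) = X (Fin.last n) := by
  rw [tau_apply, tz, tau'_t, map_X]

theorem tau_pderiv {s n : ℕ} (l : Fin n) (G : Pz (s + 1) n) :
    tau s n (pderiv (Sum.inr l) G) = pderiv l.castSucc (tau s n G) := by
  induction G using MvPolynomial.induction_on with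
  | C a => rw [pderiv_C, map_zero, tau_apply, tau'_C, map_C, pderiv_C]
  | add p q hp hq => rw [map_add, map_add, hp, hq, map_add, map_add]
  | mul_X p i hp =>
    rw [pderiv_mul, map_add, map_mul, map_mul, hp, map_mul, pderiv_mul]
    congr 2
    cases i with
    | inl j =>
      rw [pderiv_X_of_ne (by simp), map_zero]
      refine Fin.lastCases ?_ (fun j => ?_) j
      · rw [tau_apply, tau'_t, map_X, pderiv_X_of_ne (Fin.castSucc_lt_last l).ne']
      · rw [tau_apply, tau'_inl, map_C, pderiv_C]
    | inr j =>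
      rw [tau_apply (X (Sum.inr j)), tau'_inr, map_X]
      by_cases h : j = l
      · subst h
        rw [pderiv_X_self, pderiv_X_self, map_one]
      · rw [pderiv_X_of_ne (by simpa using h), map_zero,
          pderiv_X_of_ne (fun h' => h (Fin.castSucc_injective _ h'))]

theorem tau_dv {s n : ℕ} (h : Pz s n) (K : ℕ) (g : Fin n → Pz (s + 1) n) :
    tau s n (dv h K g) = GF.divg (sg s n h) K fun l => tau s n (g l) := by
  rw [dv, GF.divg, map_sum]
  refine Finset.sum_congr rfl fun l _ => ?_
  rw [map_add, map_mul, map_mul, map_mul, map_sub, map_natCast, tau_pderiv, tau_pderiv, tau_up, tau_tz]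

/-- Polynomials in `θ, t` as polynomials in `t` over the rational functions of `θ`. -/
noncomputable def ct (s : ℕ) : MvPolynomial (Fin (s + 1)) ℚ →ₐ[ℚ] Polynomial (MvPolynomial (Fin s) ℚ) :=
  aeval (Fin.snoc (fun j => Polynomial.C (X j)) Polynomial.X : Fin (s + 1) → Polynomial (MvPolynomial (Fin s) ℚ))

/-- The inverse map. -/
noncomputable def unct (s : ℕ) : Polynomial (MvPolynomial (Fin s) ℚ) →+* MvPolynomial (Fin (s + 1)) ℚ :=
  Polynomial.eval₂RingHom (rename Fin.castSucc : MvPolynomial (Fin s) ℚ →ₐ[ℚ] MvPolynomial (Fin (s + 1)) ℚ).toRingHom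
    (X (Fin.last s))

theorem ct_rename {s : ℕ} (c : MvPolynomial (Fin s) ℚ) : ct s (rename Fin.castSucc c) = Polynomial.C c := by
  induction c using MvPolynomial.induction_on with
  | C a =>
    rw [rename_C, ct, aeval_C, IsScalarTower.algebraMap_apply ℚ (MvPolynomial (Fin s) ℚ)
      (Polynomial (MvPolynomial (Fin s) ℚ)), algebraMap_eq, Polynomial.algebraMap_eq]
  | add p q hp hq => rw [map_add, map_add, hp, hq, Polynomial.C_add]
  | mul_X p i hp => rw [map_mul, map_mul, hp, rename_X, Polynomial.C_mul, ct, aeval_X, Fin.snoc_castSucc]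

theorem ct_unct {s : ℕ} (c : Polynomial (MvPolynomial (Fin s) ℚ)) : ct s (unct s c) = c := by
  induction c using Polynomial.induction_on' with
  | add p q hp hq => rw [map_add, map_add, hp, hq]
  | monomial k a =>
    rw [← Polynomial.C_mul_X_pow_eq_monomial, map_mul, map_pow, map_mul, map_pow]
    congr 1
    · rw [unct, Polynomial.coe_eval₂RingHom, Polynomial.eval₂_C]
      exact ct_rename a
    · rw [unct, Polynomial.coe_eval₂RingHom, Polynomial.eval₂_X, ct, aeval_X, Fin.snoc_last]

/-- The constant term in `t` is the value at `t = 0`. -/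
theorem coeff_ct {s : ℕ} (c : MvPolynomial (Fin (s + 1)) ℚ) : (ct s c).coeff 0 = spt 0 c := by
  rw [Polynomial.coeff_zero_eq_eval_zero]
  induction c using MvPolynomial.induction_on with
  | C a =>
    rw [ct, aeval_C, spt, aeval_C, IsScalarTower.algebraMap_apply ℚ (MvPolynomial (Fin s) ℚ)
      (Polynomial (MvPolynomial (Fin s) ℚ)), Polynomial.algebraMap_eq, Polynomial.eval_C]
  | add p q hp hq =>
    rw [spt] at hp hq ⊢
    rw [map_add, map_add, Polynomial.eval_add, hp, hq]
  | mul_X p i hp =>
    rw [spt] at hp ⊢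
    rw [map_mul, map_mul, Polynomial.eval_mul, hp]
    congr 1
    rw [ct, aeval_X, aeval_X]
    refine Fin.lastCases ?_ (fun i => ?_) i
    · rw [Fin.snoc_last, Fin.snoc_last, Polynomial.eval_X, Nat.cast_zero, C_0]
    · rw [Fin.snoc_castSucc, Fin.snoc_castSucc, Polynomial.eval_C]

theorem tau_par {s n : ℕ} (c : MvPolynomial (Fin (s + 1)) ℚ) :
    tau s n (par n c) = GF.beta n ((ct s c).map (ik s)) := by
  induction c using MvPolynomial.induction_on with
  | C a =>
    rw [par, rename_C, tau_apply, tau'_C, map_C, ct, aeval_C, IsScalarTower.algebraMap_apply ℚ (MvPolynomial (Fin s) ℚ)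
      (Polynomial (MvPolynomial (Fin s) ℚ)), Polynomial.algebraMap_eq, Polynomial.map_C, algebraMap_eq, GF.beta]
    simp
  | add p q hp hq =>
    rw [par] at hp hq ⊢
    rw [map_add, map_add, hp, hq, map_add, Polynomial.map_add, map_add]
  | mul_X p i hp =>
    rw [par] at hp ⊢
    rw [map_mul, map_mul, hp, map_mul, Polynomial.map_mul, map_mul, rename_X]
    congr 1
    refine Fin.lastCases ?_ (fun i => ?_) i
    · rw [tau_apply, tau'_t, map_X, ct, aeval_X, Fin.snoc_last, Polynomial.map_X, GF.beta]
      simp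
    · rw [tau_apply, tau'_inl, map_C, ct, aeval_X, Fin.snoc_castSucc, Polynomial.map_C, GF.beta]
      simp

/-- Clearing denominators of a polynomial in `t`. -/
theorem clear_poly {s : ℕ} (c : Polynomial (Ks s)) :
    ∃ e : MvPolynomial (Fin s) ℚ, e ≠ 0 ∧ ∃ c' : MvPolynomial (Fin (s + 1)) ℚ,
      (ct s c').map (ik s) = Polynomial.C (ik s e) * c := by
  have h1 : ∃ e : MvPolynomial (Fin s) ℚ, e ≠ 0 ∧ ∃ c' : Polynomial (MvPolynomial (Fin s) ℚ),
      c'.map (ik s) = Polynomial.C (ik s e) * c := by
    induction c using Polynomial.induction_on' with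
    | add p q hp hq =>
      obtain ⟨e1, he1, c1, h1⟩ := hp
      obtain ⟨e2, he2, c2, h2⟩ := hq
      refine ⟨e1 * e2, mul_ne_zero he1 he2, Polynomial.C e2 * c1 + Polynomial.C e1 * c2, ?_⟩
      rw [Polynomial.map_add, Polynomial.map_mul, Polynomial.map_mul, h1, h2, Polynomial.map_C, Polynomial.map_C,
        map_mul, Polynomial.C_mul]
      ring
    | monomial k a =>
      obtain ⟨p, q, rfl⟩ := IsLocalization.exists_mk'_eq (nonZeroDivisors (MvPolynomial (Fin s) ℚ)) a
      refine ⟨q, nonZeroDivisors.ne_zero q.2, Polynomial.monomial k p, ?_⟩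
      rw [Polynomial.map_monomial, Polynomial.C_mul_monomial]
      congr 1
      rw [mul_comm]
      exact (IsLocalization.mk'_spec _ p q).symm
  obtain ⟨e, he, c', hc'⟩ := h1
  exact ⟨e, he, unct s c', by rw [ct_unct, hc']⟩

end Pool.Agent.Lib.MP_bbe012_lc.PM.GB
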