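import Mathlib
import Pool.Agent.Lib.MP_bbe012_lc.Ident2
import Pool.Agent.Lib.MP_bbe012_lc.PM.Gen

/-!
# The functional equation over an arbitrary base ring
-/

namespace Pool.Agent.Lib.MP_bbe012_lc.PM

open Module MvPolynomial

variable {B : Type} [CommRing B] {n : ℕ}

theorem dvg_add (h : MvPolynomial (Fin n) B) (τ : B) (K : ℕ) (g g' : Fin n → MvPolynomial (Fin n) B) :
    dvg h τ K g + dvg h τ K g' = dvg h τ K (g + g') := by
  rw [dvg, dvg, dvg, ← Finset.sum_add_distrib]
  refine Finset.sum_congr rfl fun l _ => ?_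
  rw [Pi.add_apply, map_add]; ring

theorem dvg_zero (h : MvPolynomial (Fin n) B) (τ : B) (K : ℕ) :
    dvg h τ K (0 : Fin n → MvPolynomial (Fin n) B) = 0 := by
  simp [dvg]

theorem dvg_C_mul (h : MvPolynomial (Fin n) B) (τ : B) (K : ℕ) (b : B)
    (g : Fin n → MvPolynomial (Fin n) B) :
    C b * dvg h τ K g = dvg h τ K (fun l => C b * g l) := by
  rw [dvg, dvg, Finset.mul_sum]
  refine Finset.sum_congr rfl fun l _ => ?_
  rw [pderiv_mul, pderiv_C]; ring

/-- Multiplication of numerator and denominator by `h ^ j`. -/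
theorem dvg_shift (h : MvPolynomial (Fin n) B) (τ : B) (K j : ℕ) (g : Fin n → MvPolynomial (Fin n) B) :
    dvg h τ (K + j) (fun l => g l * h ^ j) = dvg h τ K g * h ^ j := by
  rw [dvg, dvg, Finset.sum_mul]
  refine Finset.sum_congr rfl fun l _ => ?_
  rw [pderiv_mul]
  have e : h * pderiv l (h ^ j) = (j : MvPolynomial (Fin n) B) * (pderiv l h * h ^ j) := by
    cases j with
    | zero => simp
    | succ j =>
      rw [Derivation.leibniz_pow, Nat.add_sub_cancel, nsmul_eq_mul, smul_eq_mul]
      push_cast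
      ring
  have e2 : h * (g l * pderiv l (h ^ j)) = g l * ((j : MvPolynomial (Fin n) B) * (pderiv l h * h ^ j)) := by
    rw [← e]; ring
  rw [Nat.cast_add]
  linear_combination e2

variable [IsDomain B]

/-- The property defining the submodule used in the proof of the functional equation: `b G v` is, modulo
derivatives, a multiple of `h ^ (k + 1)`. -/
def GoodB (h : MvPolynomial (Fin n) B) (τ : B) (k : ℕ) (b : B)
    (v : Loc (map (algebraMap B (FractionRing B)) h)) : Prop :=
  ∀ G : MvPolynomial (Fin n) B, ∃ (H : MvPolynomial (Fin n) B) (K : ℕ) (g : Fin n → MvPolynomial (Fin n) B),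
    algebraMap B (FractionRing B) b •
      (iota (map (algebraMap B (FractionRing B)) h) (map (algebraMap B (FractionRing B)) G) * v) =
      fracMap (map (algebraMap B (FractionRing B)) h) 0
        (map (algebraMap B (FractionRing B)) (H * h ^ (k + 1))) +
      fracMap (map (algebraMap B (FractionRing B)) h) (K + 1)
        (map (algebraMap B (FractionRing B)) (dvg h τ K g))

section

variable (h : MvPolynomial (Fin n) B) (τ : B)

theorem fr_shift (K j : ℕ) (g : MvPolynomial (Fin n) B) :
    fracMap (map (algebraMap B (FractionRing B)) h) K (map (algebraMap B (FractionRing B)) g) =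
      fracMap (map (algebraMap B (FractionRing B)) h) (K + j)
        (map (algebraMap B (FractionRing B)) (g * h ^ j)) := by
  rw [map_mul, map_pow]
  exact fracMap_shift _ K j _

theorem fr_dvg_shift (K j : ℕ) (g : Fin n → MvPolynomial (Fin n) B) :
    fracMap (map (algebraMap B (FractionRing B)) h) (K + 1)
        (map (algebraMap B (FractionRing B)) (dvg h τ K g)) =
      fracMap (map (algebraMap B (FractionRing B)) h) (K + j + 1)
        (map (algebraMap B (FractionRing B)) (dvg h τ (K + j) (fun l => g l * h ^ j))) := by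
  have e : K + 1 + j = K + j + 1 := by ring
  rw [dvg_shift, fr_shift h (K + 1) j, e]

theorem fr_dvg_add (K K' : ℕ) (g g' : Fin n → MvPolynomial (Fin n) B) :
    ∃ (K'' : ℕ) (g'' : Fin n → MvPolynomial (Fin n) B),
      fracMap (map (algebraMap B (FractionRing B)) h) (K + 1)
          (map (algebraMap B (FractionRing B)) (dvg h τ K g)) +
        fracMap (map (algebraMap B (FractionRing B)) h) (K' + 1)
          (map (algebraMap B (FractionRing B)) (dvg h τ K' g')) =
        fracMap (map (algebraMap B (FractionRing B)) h) (K'' + 1)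
          (map (algebraMap B (FractionRing B)) (dvg h τ K'' g'')) := by
  refine ⟨K + K', (fun l => g l * h ^ K') + (fun l => g' l * h ^ K), ?_⟩
  rw [fr_dvg_shift h τ K K' g, fr_dvg_shift h τ K' K g', add_comm K' K, ← map_add, ← map_add, dvg_add]

theorem fr_smul (b : B) (K : ℕ) (g : MvPolynomial (Fin n) B) :
    algebraMap B (FractionRing B) b •
      fracMap (map (algebraMap B (FractionRing B)) h) K (map (algebraMap B (FractionRing B)) g) =
      fracMap (map (algebraMap B (FractionRing B)) h) K
        (map (algebraMap B (FractionRing B)) (C b * g)) := by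
  rw [← map_smul, smul_eq_C_mul]
  congr 1
  rw [map_mul, map_C]

theorem fr_iota (G : MvPolynomial (Fin n) B) (K : ℕ) (g : MvPolynomial (Fin n) B) :
    iota (map (algebraMap B (FractionRing B)) h) (map (algebraMap B (FractionRing B)) G) *
      fracMap (map (algebraMap B (FractionRing B)) h) K (map (algebraMap B (FractionRing B)) g) =
      fracMap (map (algebraMap B (FractionRing B)) h) K
        (map (algebraMap B (FractionRing B)) (G * g)) := by
  rw [fracMap_apply, fracMap_apply, map_mul, map_mul, mul_assoc]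

/-- Every element is, up to a factor, a fraction with numerator in `B[x]`. -/
theorem exists_fr (v : Loc (map (algebraMap B (FractionRing B)) h)) :
    ∃ b : B, b ≠ 0 ∧ ∃ (K : ℕ) (g : MvPolynomial (Fin n) B),
      algebraMap B (FractionRing B) b • v =
        fracMap (map (algebraMap B (FractionRing B)) h) K (map (algebraMap B (FractionRing B)) g) := by
  obtain ⟨G, K, rfl⟩ := exists_frac _ v
  obtain ⟨b, hb, g, hg⟩ := clear_one G
  refine ⟨b, hb, K, g, ?_⟩
  rw [hg, ← fracMap_apply, ← map_smul, smul_eq_C_mul]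

theorem sum_DD_fr (K : ℕ) (g : Fin n → MvPolynomial (Fin n) B) :
    ∑ l, DD (map (algebraMap B (FractionRing B)) h) (algebraMap B (FractionRing B) τ) l
      (fracMap (map (algebraMap B (FractionRing B)) h) K (map (algebraMap B (FractionRing B)) (g l))) =
      fracMap (map (algebraMap B (FractionRing B)) h) (K + 1)
        (map (algebraMap B (FractionRing B)) (dvg h τ K g)) := by
  rw [sum_DD_frac, map_dvg]

variable {h τ}

theorem GoodB.mul {k : ℕ} {b : B} {v : Loc (map (algebraMap B (FractionRing B)) h)}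
    (hv : GoodB h τ k b v) (b' : B) : GoodB h τ k (b' * b) v := by
  intro G
  obtain ⟨H, K, g, hHKg⟩ := hv G
  refine ⟨C b' * H, K, fun l => C b' * g l, ?_⟩
  rw [map_mul, mul_smul, hHKg, smul_add, fr_smul, fr_smul, dvg_C_mul, mul_assoc]

theorem GoodB.add {k : ℕ} {b : B} {v v' : Loc (map (algebraMap B (FractionRing B)) h)}
    (hv : GoodB h τ k b v) (hv' : GoodB h τ k b v') : GoodB h τ k b (v + v') := by
  intro G
  obtain ⟨H, K, g, hHKg⟩ := hv G
  obtain ⟨H', K', g', hHKg'⟩ := hv' G
  obtain ⟨K'', g'', h''⟩ := fr_dvg_add h τ K K' g g'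
  refine ⟨H + H', K'', g'', ?_⟩
  rw [mul_add, smul_add, hHKg, hHKg', ← h'', add_mul, map_add, map_add]
  abel

end

theorem gen_functional [CharZero B] (h : MvPolynomial (Fin n) B) (h0 : h ≠ 0) (τ : B) :
    ∃ (k : ℕ) (b : B), b ≠ 0 ∧ ∀ G : MvPolynomial (Fin n) B,
      ∃ (H : MvPolynomial (Fin n) B) (K : ℕ) (g : Fin n → MvPolynomial (Fin n) B),
        C b * G * h ^ k * h ^ (K + 1) = H * h ^ (k + 1) * h ^ (K + 1) + dvg h τ K g := by
  have : CharZero (FractionRing B) :=
    charZero_of_injective_algebraMap (IsFractionRing.injective B (FractionRing B))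
  set ι : B →+* FractionRing B := algebraMap B (FractionRing B) with hι
  obtain ⟨k, hk⟩ := loc_chain (map ι h) (ι τ)
  have hfrac0 : ∀ G : MvPolynomial (Fin n) B, fracMap (map ι h) 0 (map ι G) = iota (map ι h) (map ι G) := by
    intro G
    rw [fracMap_apply, pow_zero, mul_one]
  have hpow : ∀ j, fracMap (map ι h) 0 (map ι (h ^ j)) = iota (map ι h) (map ι h) ^ j := by
    intro j
    rw [hfrac0, map_pow, map_pow]
  have hzero : ∀ K, fracMap (map ι h) K (map ι (0 : MvPolynomial (Fin n) B)) = 0 := by
    intro K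
    rw [map_zero, map_zero]
  -- the submodule
  let N : Submodule (FractionRing B) (Loc (map ι h)) :=
    { carrier := {v | ∃ b : B, b ≠ 0 ∧ GoodB h τ k b v}
      add_mem' := by
        rintro v v' ⟨b, hb, hv⟩ ⟨b', hb', hv'⟩
        refine ⟨b' * b, mul_ne_zero hb' hb, GoodB.add (hv.mul b') ?_⟩
        rw [mul_comm]
        exact hv'.mul b
      zero_mem' := by
        refine ⟨1, one_ne_zero, fun G => ⟨0, 0, 0, ?_⟩⟩
        rw [dvg_zero, zero_mul, mul_zero, smul_zero, hzero, hzero, add_zero]
      smul_mem' := by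
        rintro c v ⟨b, hb, hv⟩
        obtain ⟨p, q, rfl⟩ := IsLocalization.exists_mk'_eq (nonZeroDivisors B) c
        refine ⟨b * q, mul_ne_zero hb (nonZeroDivisors.ne_zero q.2), fun G => ?_⟩
        obtain ⟨H, K, g, hHKg⟩ := hv (C p * G)
        refine ⟨H, K, g, ?_⟩
        rw [← hHKg]
        have e1 : ι q * IsLocalization.mk' (FractionRing B) p q = ι p := by
          rw [mul_comm]; exact IsLocalization.mk'_spec (FractionRing B) p q
        rw [map_mul, mul_smul_comm, smul_smul, mul_assoc, e1, mul_smul]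
        congr 1
        rw [map_mul, map_C, ← smul_eq_C_mul, map_smul, smul_mul_assoc] }
  have hN : ∀ v, v ∈ N ↔ ∃ b : B, b ≠ 0 ∧ GoodB h τ k b v := fun v => Iff.rfl
  have h1 : iota (map ι h) (map ι h) ^ k ∈ N := by
    refine hk N ?_ ?_ ?_
    · rintro l v ⟨b, hb, hv⟩
      refine ⟨b, hb, fun G => ?_⟩
      obtain ⟨H, K, g, hHKg⟩ := hv (G * X l)
      refine ⟨H, K, g, ?_⟩
      rw [← hHKg, Xop_apply, map_mul, map_mul, map_X, mul_assoc]
    · rintro l v ⟨b, hb, hv⟩
      obtain ⟨b', hb', K', V, hV⟩ := exists_fr h v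
      refine ⟨b * b', mul_ne_zero hb hb', fun G => ?_⟩
      obtain ⟨H, K, g, hHKg⟩ := hv (C b' * pderiv l G)
      have e1 : ι (b * b') • (iota (map ι h) (map ι G) * DD (map ι h) (ι τ) l v) =
          ι b • DD (map ι h) (ι τ) l (fracMap (map ι h) K' (map ι (G * V))) -
          ι b • (iota (map ι h) (map ι (C b' * pderiv l G)) * v) := by
        have e2 : fracMap (map ι h) K' (map ι (G * V)) =
            ι b' • (iota (map ι h) (map ι G) * v) := by
          rw [← fr_iota, ← hV, mul_smul_comm]
        rw [e2, map_smul, DD_iota_mul, pderiv_map, map_mul ι, mul_smul, ← smul_sub]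
        congr 1
        rw [smul_add, map_mul, map_C, ← smul_eq_C_mul, map_smul, smul_mul_assoc]
        abel
      rw [e1, hHKg]
      have e3 : DD (map ι h) (ι τ) l (fracMap (map ι h) K' (map ι (G * V))) =
          fracMap (map ι h) (K' + 1) (map ι (dvg h τ K' (Pi.single l (G * V)))) := by
        rw [← sum_DD_fr, Finset.sum_eq_single_of_mem l (Finset.mem_univ l)]
        · rw [Pi.single_eq_same]
        · intro j _ hj
          rw [Pi.single_eq_of_ne hj, hzero, map_zero]
      rw [e3, fr_smul, dvg_C_mul]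
      obtain ⟨K'', g'', hg''⟩ := fr_dvg_add h τ K' K
        (fun j => C b * (Pi.single l (G * V) : Fin n → MvPolynomial (Fin n) B) j) (fun j => C (-1) * g j)
      refine ⟨-H, K'', g'', ?_⟩
      rw [← hg'', ← dvg_C_mul h τ K (-1), ← fr_smul h (-1), map_neg, map_one, neg_smul, one_smul, neg_mul,
        map_neg, map_neg]
      abel
    · refine ⟨1, one_ne_zero, fun G => ⟨G, 0, 0, ?_⟩⟩
      rw [dvg_zero, hzero, map_one, one_smul, ← hpow, fr_iota, add_zero]
  obtain ⟨b, hb, hgood⟩ := (hN _).mp h1
  refine ⟨k, b, hb, fun G => ?_⟩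
  obtain ⟨H, K, g, hHKg⟩ := hgood G
  refine ⟨H, K, g, mapF_injective (fracMap_injective (mapF_ne_zero h0) (K + 1) ?_)⟩
  rw [← hpow, fr_iota, fr_smul, fr_shift h 0 (K + 1) (C b * (G * h ^ k)),
    fr_shift h 0 (K + 1) (H * h ^ (k + 1)), zero_add, ← map_add, ← map_add] at hHKg
  rw [← hHKg]
  congr 2
  ring

end Pool.Agent.Lib.MP_bbe012_lc.PM
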