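import Pool.Agent.Lib.MP_bbe012_lc.Sound
import Pool.Agent.Lib.MP_bbe012_lc.PM.GenF
import Pool.Agent.Lib.MP_bbe012_lc.PM.Span

/-!
# The generic functional equation, specialised at rational parameters
-/

namespace Pool.Agent.Lib.MP_bbe012_lc.PM

open MvPolynomial PP PG

/-- The polynomial in `t` obtained by specialising the parameters. -/
noncomputable def spp {s : ℕ} (b : MvPolynomial (Fin (s + 1)) ℚ) (θ : Fin s → ℚ) : Polynomial ℚ :=
  aeval (Fin.snoc (fun i => Polynomial.C (θ i)) Polynomial.X : Fin (s + 1) → Polynomial ℚ) b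

/-- Specialisation of the parameters in a polynomial in `x` over `ℚ[θ, t]`. -/
noncomputable def spB {s : ℕ} (n : ℕ) (θ : Fin s → ℚ) :
    MvPolynomial (Fin n) (MvPolynomial (Fin (s + 1)) ℚ) →+* Pt n :=
  eval₂Hom (aeval (Fin.snoc (fun i => C (θ i)) (X (Fin.last n)) : Fin (s + 1) → Pt n) :
    MvPolynomial (Fin (s + 1)) ℚ →ₐ[ℚ] Pt n).toRingHom (fun i => X i.castSucc)

theorem pderiv_beta (n : ℕ) (l : Fin n) (b : Polynomial ℚ) : pderiv l.castSucc (beta n b) = 0 := by
  induction b using Polynomial.induction_on' with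
  | add p q hp hq => rw [map_add, map_add, hp, hq, add_zero]
  | monomial k a =>
    have e : beta n (Polynomial.monomial k a) = C a * X (Fin.last n) ^ k := by
      simp [beta, Polynomial.aeval_monomial]
    rw [e, pderiv_C_mul, pderiv_pow, pderiv_X, Pi.single_apply, if_neg (Fin.castSucc_lt_last l).ne']
    simp

theorem spB_C {s n : ℕ} (θ : Fin s → ℚ) (c : MvPolynomial (Fin (s + 1)) ℚ) :
    spB n θ (C c) = beta n (spp c θ) := by
  rw [spB, eval₂Hom_C]
  induction c using MvPolynomial.induction_on with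
  | C a =>
    rw [spp, aeval_C]
    change aeval _ (C a) = _
    rw [aeval_C]
    simp [beta]
  | add p q hp hq => rw [map_add, hp, hq, spp, spp, spp, map_add, map_add]
  | mul_X p i hp =>
    have e : spp (p * X i) θ = spp p θ * spp (X i) θ := map_mul _ _ _
    rw [map_mul, hp, e, map_mul]
    refine congrArg (fun y => beta n (spp p θ) * y) ?_
    change aeval _ (X i) = _
    rw [aeval_X, spp, aeval_X]
    refine Fin.lastCases ?_ (fun i => ?_) i
    · simp [beta]
    · simp [beta]

theorem spB_X {s n : ℕ} (θ : Fin s → ℚ) (i : Fin n) : spB n θ (X i) = X i.castSucc := by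
  rw [spB, eval₂Hom_X']

theorem spB_pderiv {s n : ℕ} (θ : Fin s → ℚ) (l : Fin n)
    (g : MvPolynomial (Fin n) (MvPolynomial (Fin (s + 1)) ℚ)) :
    spB n θ (pderiv l g) = pderiv l.castSucc (spB n θ g) := by
  induction g using MvPolynomial.induction_on with
  | C a => rw [pderiv_C, map_zero, spB_C, pderiv_beta]
  | add p q hp hq => rw [map_add, map_add, hp, hq, map_add, map_add]
  | mul_X p i hp =>
    have e : spB n θ (pderiv l (X i)) = pderiv l.castSucc (X i.castSucc) := by
      rw [pderiv_X, pderiv_X, Pi.single_apply, Pi.single_apply]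
      by_cases hil : i = l
      · rw [if_pos hil, if_pos (by rw [hil]), map_one]
      · rw [if_neg hil, if_neg (fun h => hil (Fin.castSucc_injective _ h)), map_zero]
    rw [pderiv_mul, map_add, map_mul, map_mul, hp, map_mul, pderiv_mul, spB_X, e]

theorem spB_split {s n : ℕ} (θ : Fin s → ℚ) (h : Pz s n) :
    spB n θ (split (s + 1) n (up h)) = hP (spz h θ) := by
  rw [up, hP, spz]
  induction h using MvPolynomial.induction_on with
  | C a =>
    rw [rename_C, split, aeval_C, aeval_C, IsScalarTower.algebraMap_apply ℚ (MvPolynomial (Fin (s + 1)) ℚ)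
      (MvPolynomial (Fin n) (MvPolynomial (Fin (s + 1)) ℚ)), algebraMap_eq, algebraMap_eq, spB_C, spp,
      aeval_C, algebraMap_eq, rename_C]
    simp [beta]
  | add p q hp hq => rw [map_add, map_add, map_add, hp, hq, map_add, map_add]
  | mul_X p i hp =>
    rw [map_mul, map_mul, map_mul, hp, map_mul, map_mul]
    refine congrArg₂ (fun x y => x * y) rfl ?_
    rw [rename_X, split, aeval_X, aeval_X]
    cases i with
    | inl j =>
      rw [Sum.map_inl, Sum.elim_inl, Sum.elim_inl, spB_C, spp, aeval_X, Fin.snoc_castSucc, rename_C]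
      simp [beta]
    | inr j =>
      rw [Sum.map_inr, Sum.elim_inr, Sum.elim_inr, id, spB_X, rename_X]

theorem spB_dvg {s n : ℕ} (θ : Fin s → ℚ) (h : Pz s n) (K : ℕ)
    (g : Fin n → MvPolynomial (Fin n) (MvPolynomial (Fin (s + 1)) ℚ)) :
    spB n θ (dvg (split (s + 1) n (up h)) (X (Fin.last s)) K g) =
      divg (spz h θ) K fun l => spB n θ (g l) := by
  rw [dvg, divg, map_sum]
  refine Finset.sum_congr rfl fun l _ => ?_
  rw [map_add, map_mul, map_mul, map_mul, map_sub, map_natCast, spB_pderiv, spB_pderiv, spB_split,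
    spB_C, spp, aeval_X, Fin.snoc_last]
  simp [beta]

theorem exists_lift {s n : ℕ} (θ : Fin s → ℚ) (G : Pt n) :
    ∃ G' : MvPolynomial (Fin n) (MvPolynomial (Fin (s + 1)) ℚ), spB n θ G' = G := by
  refine ⟨aeval (Fin.snoc (fun i => X i) (C (X (Fin.last s))) :
    Fin (n + 1) → MvPolynomial (Fin n) (MvPolynomial (Fin (s + 1)) ℚ)) G, ?_⟩
  induction G using MvPolynomial.induction_on with
  | C a =>
    rw [aeval_C, IsScalarTower.algebraMap_apply ℚ (MvPolynomial (Fin (s + 1)) ℚ)
      (MvPolynomial (Fin n) (MvPolynomial (Fin (s + 1)) ℚ)), algebraMap_eq, algebraMap_eq, spB_C, spp,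
      aeval_C]
    simp [beta]
  | add p q hp hq => rw [map_add, map_add, hp, hq]
  | mul_X p i hp =>
    rw [map_mul, map_mul, hp]
    refine congrArg (fun y => p * y) ?_
    rw [aeval_X]
    refine Fin.lastCases ?_ (fun i => ?_) i
    · rw [Fin.snoc_last, spB_C, spp, aeval_X, Fin.snoc_last]
      simp [beta]
    · rw [Fin.snoc_castSucc, spB_X]

/-- **The generic functional equation.** -/
theorem gen_FE {s n : ℕ} {h : Pz s n} (h0 : h ≠ 0) :
    ∃ (kk : ℕ) (b : MvPolynomial (Fin (s + 1)) ℚ), b ≠ 0 ∧ ∀ θ : Fin s → ℚ,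
      FEq (spz h θ) kk (spp b θ) := by
  have h1 : split (s + 1) n (up h) ≠ 0 := by
    intro h2
    apply h0
    apply up_injective s n
    apply split_injective (s + 1) n
    rw [h2]
    have : up (0 : Pz s n) = 0 := map_zero _
    rw [this, map_zero]
  obtain ⟨k, b, hb, hfe⟩ := gen_functional (split (s + 1) n (up h)) h1 (X (Fin.last s))
  refine ⟨k, b, hb, fun θ G => ?_⟩
  obtain ⟨G', rfl⟩ := exists_lift θ G
  obtain ⟨H, K, g, hid⟩ := hfe G'
  refine ⟨spB n θ H, K, fun l => spB n θ (g l), ?_⟩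
  have h2 := congrArg (spB n θ) hid
  rw [map_mul, map_mul, map_mul, map_pow, map_pow, map_add, map_mul, map_mul, map_pow, map_pow, spB_dvg,
    spB_split, spB_C] at h2
  exact h2

end Pool.Agent.Lib.MP_bbe012_lc.PM
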