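import Pool.Agent.Lib.MP_bbe012_lc.PM.NeC
import Pool.Agent.Lib.MP_bbe012_lc.HC.PrimB
import Pool.Agent.Lib.MP_bbe012_lc.PG.CPrim

/-!
# Certificates for inequalities between explicit integrals
-/

namespace Pool.Agent.Lib.MP_bbe012_lc.PM

open MvPolynomial MeasureTheory Set PP PG HC Filter Topology

/-- Certificates for positive integrals over the whole space. -/
abbrev PosCert := HC × ((ℕ × ℕ) × NG)

instance instPrimcodablePosCertA : Primcodable ((ℕ × ℕ) × NG) := @Primcodable.prod _ _ inferInstance instPrimcodableNG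

instance instPrimcodablePosCert : Primcodable PosCert :=
  @Primcodable.prod _ _ instPrimcodableHC instPrimcodablePosCertA

/-- Verification of a certificate. -/
def posChk (R : ℕ × PCode × PCode) (c : PosCert) : Prop :=
  hcCheck (prepR R).1 (prepR R).2.1 (prepR R).2.2 c.1 ∧
    (okKQ (mOf (prepR R) c.1) (cOf (prepR R) c.1) c.2.1.1 c.2.1.2 ∧ (c.2.2.1.1 = true ∧
      checkNG (mOf (prepR R) c.1) (scaleC (mOf (prepR R) c.1) c.2.1.1 (ratCert (prepR R) c.1).2)
        (numC (mOf (prepR R) c.1) c.2.1.1 c.2.1.2 (ratCert (prepR R) c.1).1 (ratCert (prepR R) c.1).2) 1 (qnat 0)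
        c.2.2))

instance (R : ℕ × PCode × PCode) (c : PosCert) : Decidable (posChk R c) := by unfold posChk; infer_instance

/-- Positive integrals have certificates. -/
theorem posChk_iff {R : ℕ × PCode × PCode} (h : ∀ x : Fin R.1 → ℝ, 1 ≤ pcEval R.1 R.2.2 x)
    (hi : Integrable fun x : Fin R.1 → ℝ => pcEval R.1 R.2.1 x / pcEval R.1 R.2.2 x) :
    (∃ c, posChk R c) ↔ 0 < ∫ x : Fin R.1 → ℝ, pcEval R.1 R.2.1 x / pcEval R.1 R.2.2 x := by
  have key : ∀ c : HC, hcCheck (prepR R).1 (prepR R).2.1 (prepR R).2.2 c →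
      ((∃ k q : ℕ, ∃ x : NG, okKQ (mOf (prepR R) c) (cOf (prepR R) c) k q ∧ x.1.1 = true ∧
        checkNG (mOf (prepR R) c) (scaleC (mOf (prepR R) c) k (ratCert (prepR R) c).2)
          (numC (mOf (prepR R) c) k q (ratCert (prepR R) c).1 (ratCert (prepR R) c).2) 1 (qnat 0) x) ↔
        0 < ∫ x : Fin R.1 → ℝ, pcEval R.1 R.2.1 x / pcEval R.1 R.2.2 x) := by
    intro c hc
    have hg := ratCert_good h hi hc
    have hb : ∀ z ∈ cube (mOf (prepR R) c), |pcEval (mOf (prepR R) c) (ratCert (prepR R) c).1 z /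
        pcEval (mOf (prepR R) c) (ratCert (prepR R) c).2 z| ≤ ((cOf (prepR R) c : ℕ) : ℝ) := by
      intro z hz
      obtain ⟨f1, f2, hf⟩ := hg.bd
      exact (hf z hz 0).1
    have hv := hg.val
    rw [cube_pos_iff hg.pos hb hg.integrable]
    change 0 < (∫ z in cube (mOf (prepR R) c), ratEval (mOf (prepR R) c) (ratCert (prepR R) c) z) ↔ _
    rw [hv]
  constructor
  · rintro ⟨⟨c, ⟨k, q⟩, x⟩, h1, h2, h3, h4⟩
    exact (key c h1).mp ⟨k, q, x, h2, h3, h4⟩
  · intro h0
    have hQ : pcPoly (prepR R).1 (prepR R).2.2 ≠ 0 :=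
      pcPoly_ne_zero_of_eval (x := 0) (prepR_pos R h 0 (zero_mem_cube _)).ne'
    obtain ⟨c, hc⟩ := exists_hcCheck (prepR R).2.1 hQ
    obtain ⟨k, q, x, h2, h3, h4⟩ := (key c hc).mpr h0
    exact ⟨(c, ((k, q), x)), hc, h2, h3, h4⟩

/-! ### The verification is primitive recursive -/

section generic

open Primrec

variable {α : Type} [Primcodable α]

theorem pr_scaleC {m k : α → ℕ} {p : α → PCode} (hm : Primrec m) (hk : Primrec k) (hp : Primrec p) :
    Primrec fun a => scaleC (m a) (k a) (p a) := by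
  have h1 : Primrec fun q : α × ℕ => (k q.1 : ℕ) := hk.comp fst
  have h2 : Primrec fun q : α × ℕ => rhoC (k q.1) := pair (pair h1 (const 0)) h1
  have h3 : Primrec fun q : α × ℕ => scC (k q.1) q.2 :=
    pr_mul (pr_constC h2) (pr_append (pr_mul (pr_nat 2) (pr_var (succ.comp snd))) (pr_neg (pr_nat 1)))
  exact pr_subst (L := fun a i => scC (k a) i) hm h3.to₂ hp

theorem pr_numC {m k q : α → ℕ} {A D : α → PCode} (hm : Primrec m) (hk : Primrec k) (hq : Primrec q)
    (hA : Primrec A) (hD : Primrec D) : Primrec fun a => numC (m a) (k a) (q a) (A a) (D a) := by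
  have h1 : Primrec fun a => (((1, 0), q a) : QCode) := pair (const (1, 0)) hq
  exact pr_append (pr_scaleC hm hk hA) (pr_neg (pr_mul (pr_constC h1) (pr_scaleC hm hk hD)))

theorem pr_okKQ {m C k q : α → ℕ} (hm : Primrec m) (hC : Primrec C) (hk : Primrec k) (hq : Primrec q) :
    PrimrecPred fun a => okKQ (m a) (C a) (k a) (q a) := by
  have h1 : PrimrecPred fun a => 0 < k a := nat_lt.comp (const 0) hk
  have h2 : Primrec fun a => C a * (q a + 1) := nat_mul.comp hC (succ.comp hq)
  have h3 : PrimrecPred fun a => C a * (q a + 1) * (k a + 1) ^ m a ≤ k a ^ m a * (C a * (q a + 1) + 1) :=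
    nat_le.comp (nat_mul.comp h2 (pr_natPow (succ.comp hk) hm)) (nat_mul.comp (pr_natPow hk hm) (succ.comp h2))
  exact h1.and h3

theorem pr_posChk {R : α → ℕ × PCode × PCode} {c : α → PosCert} (hR : Primrec R) (hc : Primrec c) :
    PrimrecPred fun a => posChk (R a) (c a) := by
  have hP : Primrec fun a => prepR (R a) := primrec_prepR.comp hR
  have c1 : Primrec fun a => (c a).1 := fst.comp hc
  have c2 : Primrec fun a => (c a).2 := snd.comp hc
  have c21 : Primrec fun a => (c a).2.1 := fst.comp c2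
  have ck : Primrec fun a => (c a).2.1.1 := fst.comp c21
  have cq : Primrec fun a => (c a).2.1.2 := snd.comp c21
  have cx : Primrec fun a => (c a).2.2 := snd.comp c2
  have cx1 : Primrec fun a => (c a).2.2.1 := fst.comp cx
  have cb : Primrec fun a => (c a).2.2.1.1 := fst.comp cx1
  have hm : Primrec fun a => mOf (prepR (R a)) (c a).1 := primrec_mOf.comp hP c1
  have hC : Primrec fun a => cOf (prepR (R a)) (c a).1 := primrec_cOf.comp hP c1
  have hr : Primrec fun a => ratCert (prepR (R a)) (c a).1 := primrec_ratCert.comp hP c1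
  have h1 : PrimrecPred fun a => hcCheck (prepR (R a)).1 (prepR (R a)).2.1 (prepR (R a)).2.2 (c a).1 :=
    primrecPred_hcCheck.comp (pair hP c1)
  have h2 : PrimrecPred fun a => okKQ (mOf (prepR (R a)) (c a).1) (cOf (prepR (R a)) (c a).1) (c a).2.1.1
      (c a).2.1.2 := pr_okKQ hm hC ck cq
  have h3 : PrimrecPred fun a => (c a).2.2.1.1 = true := Primrec.eq.comp cb (const true)
  have h4 : PrimrecPred fun a => checkNG (mOf (prepR (R a)) (c a).1)
      (scaleC (mOf (prepR (R a)) (c a).1) (c a).2.1.1 (ratCert (prepR (R a)) (c a).1).2)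
      (numC (mOf (prepR (R a)) (c a).1) (c a).2.1.1 (c a).2.1.2 (ratCert (prepR (R a)) (c a).1).1
        (ratCert (prepR (R a)) (c a).1).2) 1 (qnat 0) (c a).2.2 :=
    pr_checkNG hm (pr_scaleC hm ck (snd.comp hr)) (pr_numC hm ck cq (fst.comp hr) (snd.comp hr)) (const 1)
      (const (qnat 0)) cx
  exact h1.and (h2.and (h3.and h4))

end generic

/-! ### Differences of explicit integrals -/

/-- The common number of variables. -/
def dV (I J : IntCode) : ℕ := I.1 + J.1

/-- The common number of inequalities. -/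
def dI (I J : IntCode) : ℕ := I.2.2.length + J.2.2.length + dV I J

/-- The rational function attached to the difference of two explicit integrals. -/
def diffR (I J : IntCode) : ℕ × PCode × PCode :=
  (dV I J + 1 + ((dI I J + 2) + (dI I J + 2)),
    ratSub (ratOf (pad (dV I J) (dI I J) I)) (ratOf (pad (dV I J) (dI I J) J)))

theorem diffR_spec {I J : IntCode} (hI : Admissible I) (hJ : Admissible J) :
    RatSpec (diffR I J).1 (diffR I J).2 (Real.pi ^ (2 * (dI I J + 2)) * (value I - value J)) := by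
  have e1 := ratOf_pad (N := dV I J) (l := dI I J) (I := I) (by unfold dV; omega) (by unfold dI; omega) hI
  have e2 := ratOf_pad (N := dV I J) (l := dI I J) (I := J) (by unfold dV; omega) (by unfold dI; omega) hJ
  have key := e1.sub e2
  rw [mul_sub]
  exact key

/-- Verification of a certificate for `value J < value I`. -/
def ltChk (J I : IntCode) (c : PosCert) : Prop := posChk (diffR I J) c

instance (J I : IntCode) (c : PosCert) : Decidable (ltChk J I c) := by unfold ltChk; infer_instance

theorem ltChk_iff {I J : IntCode} (hI : Admissible I) (hJ : Admissible J) :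
    (∃ c, ltChk J I c) ↔ value J < value I := by
  have h := diffR_spec hI hJ
  have h1 := posChk_iff (R := diffR I J) h.one_le h.int
  have h2 : ∫ x : Fin (diffR I J).1 → ℝ, pcEval (diffR I J).1 (diffR I J).2.1 x /
      pcEval (diffR I J).1 (diffR I J).2.2 x = Real.pi ^ (2 * (dI I J + 2)) * (value I - value J) := h.val
  rw [h2] at h1
  unfold ltChk
  rw [h1, mul_pos_iff_of_pos_left (by positivity), sub_pos]

section generic2

open Primrec

variable {α : Type} [Primcodable α]

theorem pr_diffR {I J : α → IntCode} (hI : Primrec I) (hJ : Primrec J) :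
    Primrec fun a => diffR (I a) (J a) := by
  have hV : Primrec fun a => dV (I a) (J a) := nat_add.comp (pr_iv.comp hI) (pr_iv.comp hJ)
  have hL : Primrec fun a => dI (I a) (J a) :=
    nat_add.comp (nat_add.comp (list_length.comp (pr_iS.comp hI)) (list_length.comp (pr_iS.comp hJ))) hV
  have hL2 : Primrec fun a => dI (I a) (J a) + 2 := nat_add.comp hL (const 2)
  exact pair (nat_add.comp (succ.comp hV) (nat_add.comp hL2 hL2))
    (pr_ratSub (primrec_ratOf.comp (pr_pad hV hL hI)) (primrec_ratOf.comp (pr_pad hV hL hJ)))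

theorem pr_ltChk {I J : α → IntCode} {c : α → PosCert} (hJ : Primrec J) (hI : Primrec I) (hc : Primrec c) :
    PrimrecPred fun a => ltChk (J a) (I a) (c a) := pr_posChk (pr_diffR hI hJ) hc

end generic2

end Pool.Agent.Lib.MP_bbe012_lc.PM
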