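import Pool.Agent.Lib.MP_bbe012_lc.PM.Defs
import Pool.Agent.Lib.MP_bbe012_lc.PM.NeD

/-!
# Unequal periods are recognised
-/

namespace Pool.Agent.Lib.MP_bbe012_lc.PM

open MvPolynomial MeasureTheory Set PP PG HC Filter Topology

/-- The search for a certificate with a primitive recursive verification. -/
theorem exists_search {α β : Type} [Primcodable α] [Primcodable β] (chk : α → β → Prop)
    [∀ a b, Decidable (chk a b)] (h : PrimrecPred fun y : α × β => chk y.1 y.2) :
    ∃ g : α →. Unit, Partrec g ∧ ∀ a, (g a).Dom ↔ ∃ b, chk a b := by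
  refine ⟨fun a => Nat.rfindOpt fun m => (Encodable.decode (α := β) m).bind fun c =>
    if chk a c then some () else none, ?_, fun a => ?_⟩
  · have h1 : Primrec fun y : α × ℕ => Encodable.decode (α := β) y.2 := Primrec.decode.comp Primrec.snd
    have h2 : PrimrecPred fun y : (α × ℕ) × β => chk y.1.1 y.2 :=
      h.comp (Primrec.pair (Primrec.fst.comp Primrec.fst) Primrec.snd)
    have h3 : Primrec₂ fun (a : α) (m : ℕ) => (Encodable.decode (α := β) m).bind fun c =>
        if chk a c then some () else none :=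
      Primrec.option_bind h1 ((Primrec.ite h2 (Primrec.const (some ())) (Primrec.const none)).to₂)
    exact Partrec.rfindOpt h3.to_comp
  · rw [Nat.rfindOpt_dom]
    constructor
    · rintro ⟨m, u, hm⟩
      obtain ⟨c, _, h2⟩ := Option.bind_eq_some_iff.mp hm
      split_ifs at h2 with hc
      exact ⟨c, hc⟩
    · rintro ⟨c, hc⟩
      refine ⟨Encodable.encode c, (), ?_⟩
      rw [Encodable.encodek]
      change (if chk a c then some () else none) = some ()
      rw [if_pos hc]

/-- Verification of a certificate for unequal periods. -/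
def neChk (Z : PeriodCode × PeriodCode) (c : PosCert) : Prop :=
  (ltChk Z.1.1 Z.2.1 c ∨ ltChk Z.2.1 Z.1.1 c) ∨ (ltChk Z.1.2 Z.2.2 c ∨ ltChk Z.2.2 Z.1.2 c)

instance (Z : PeriodCode × PeriodCode) (c : PosCert) : Decidable (neChk Z c) := by unfold neChk; infer_instance

theorem exists_ne : ∃ g : PeriodCode × PeriodCode →. Unit, Partrec g ∧
    ∀ Z, PeriodAdmissible Z.1 → PeriodAdmissible Z.2 → ((g Z).Dom ↔ period Z.1 ≠ period Z.2) := by
  have hp : PrimrecPred fun y : (PeriodCode × PeriodCode) × PosCert => neChk y.1 y.2 := by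
    have z1 : Primrec fun y : (PeriodCode × PeriodCode) × PosCert => y.1.1 := Primrec.fst.comp Primrec.fst
    have z2 : Primrec fun y : (PeriodCode × PeriodCode) × PosCert => y.1.2 := Primrec.snd.comp Primrec.fst
    have z11 : Primrec fun y : (PeriodCode × PeriodCode) × PosCert => y.1.1.1 := Primrec.fst.comp z1
    have z12 : Primrec fun y : (PeriodCode × PeriodCode) × PosCert => y.1.1.2 := Primrec.snd.comp z1
    have z21 : Primrec fun y : (PeriodCode × PeriodCode) × PosCert => y.1.2.1 := Primrec.fst.comp z2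
    have z22 : Primrec fun y : (PeriodCode × PeriodCode) × PosCert => y.1.2.2 := Primrec.snd.comp z2
    have hc : Primrec fun y : (PeriodCode × PeriodCode) × PosCert => y.2 := Primrec.snd
    exact ((pr_ltChk z11 z21 hc).or (pr_ltChk z21 z11 hc)).or ((pr_ltChk z12 z22 hc).or (pr_ltChk z22 z12 hc))
  obtain ⟨g, hg, hd⟩ := exists_search neChk hp
  refine ⟨g, hg, fun Z h1 h2 => ?_⟩
  rw [hd]
  have e1 := ltChk_iff h1.1 h2.1
  have e2 := ltChk_iff h2.1 h1.1
  have e3 := ltChk_iff h1.2 h2.2
  have e4 := ltChk_iff h2.2 h1.2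
  unfold neChk
  rw [exists_or, exists_or, exists_or, e1, e2, e3, e4]
  constructor
  · intro h h3
    have h4 : value Z.1.1 = value Z.2.1 := congrArg Complex.re h3
    have h5 : value Z.1.2 = value Z.2.2 := congrArg Complex.im h3
    rcases h with (h | h) | (h | h)
    · exact absurd h4 h.ne
    · exact absurd h4 h.ne'
    · exact absurd h5 h.ne
    · exact absurd h5 h.ne'
  · intro h
    by_cases h3 : value Z.1.1 = value Z.2.1
    · right
      refine lt_or_gt_of_ne fun h4 => h ?_
      rw [period, period, h3, h4]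
    · left
      exact lt_or_gt_of_ne h3

end Pool.Agent.Lib.MP_bbe012_lc.PM
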