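import Pool.Agent.Lib.MP_bbe012_lc.PG.CNz

/-!
# The sign of an integral from its certificate
-/

namespace Pool.Agent.Lib.MP_bbe012_lc.PM

open MvPolynomial MeasureTheory Set PP PG

private theorem ng_cont {m : ℕ} (p : MvPolynomial (Fin m) ℚ) :
    Continuous fun x : Fin m → ℝ => aeval x p := by
  have h : (fun x : Fin m → ℝ => aeval x p) =
      fun x => ∑ d ∈ p.support, algebraMap ℚ ℝ (coeff d p) * ∏ i, x i ^ d i := by
    funext x
    rw [aeval_def, eval₂_eq']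
  rw [h]
  fun_prop

theorem ng_cont_pt (n : ℕ) (τ : ℚ) (G : P1 n) :
    Continuous fun x : Fin n → ℝ => aeval (pt n τ x) G := by
  have h : Continuous fun x : Fin n → ℝ => pt n τ x := by
    refine continuous_pi fun i => ?_
    refine Fin.cases ?_ (fun l => ?_) i
    · exact continuous_const
    · exact continuous_apply l
  exact (ng_cont G).comp h

theorem ng_contOn {n : ℕ} {τ : ℚ} {Q : P1 n}
    (hQ : ∀ x ∈ Icc (0 : Fin n → ℝ) 1, 0 < aeval (pt n τ x) Q) (G : P1 n) (K : ℕ) :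
    ContinuousOn (fun x => aeval (pt n τ x) G / aeval (pt n τ x) Q ^ K)
      (Icc (0 : Fin n → ℝ) 1) :=
  (ng_cont_pt n τ G).continuousOn.div ((ng_cont_pt n τ Q).pow K).continuousOn
    fun x hx => (pow_pos (hQ x hx) K).ne'

theorem ng_vol {n : ℕ} : volume.real (Icc (0 : Fin n → ℝ) 1) = 1 := by
  rw [Measure.real, SoundN_volume, ENNReal.toReal_one]

private theorem ng_mem {n : ℕ} {τ : ℚ} (h0 : 0 ≤ τ) (h1 : τ ≤ 1) {x : Fin n → ℝ}
    (hx : x ∈ Icc (0 : Fin n → ℝ) 1) : pt n τ x ∈ Icc (0 : Fin (n + 1) → ℝ) 1 := by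
  refine ⟨fun i => ?_, fun i => ?_⟩
  · refine Fin.cases ?_ (fun l => ?_) i
    · change (0 : ℝ) ≤ (τ : ℝ)
      exact_mod_cast h0
    · exact hx.1 l
  · refine Fin.cases ?_ (fun l => ?_) i
    · change (τ : ℝ) ≤ 1
      exact_mod_cast h1
    · exact hx.2 l

private theorem ng_pos {n : ℕ} {h : (Fin n → ℝ) → ℝ} (hc : ContinuousOn h (Icc 0 1))
    (hp : ∀ x ∈ Icc (0 : Fin n → ℝ) 1, 0 < h x) :
    0 < ∫ x in Icc (0 : Fin n → ℝ) 1, h x := by
  obtain ⟨x₀, hx₀, hmin⟩ := isCompact_Icc.exists_isMinOn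
    ⟨(0 : Fin n → ℝ), left_mem_Icc.2 zero_le_one⟩ hc
  have h1 : ∫ _x in Icc (0 : Fin n → ℝ) 1, h x₀ ≤ ∫ x in Icc (0 : Fin n → ℝ) 1, h x :=
    setIntegral_mono_on (continuousOn_const.integrableOn_compact isCompact_Icc)
      (hc.integrableOn_compact isCompact_Icc) measurableSet_Icc fun x hx => hmin hx
  rw [setIntegral_const, ng_vol, one_smul] at h1
  exact lt_of_lt_of_le (hp x₀ hx₀) h1

private theorem ng_ngC (n : ℕ) (Q G : PCode) (K : ℕ) (τ : QCode) (x : NG) (s : ℚ)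
    (hs : pcPoly (n + 1) (if x.1.1 = true then G else pcNeg G) = C s * pcPoly (n + 1) G) :
    pcPoly (n + 1) (ngC n Q G K τ x) = C s * pcPoly (n + 1) G -
      pcPoly (n + 1) Q ^ K * (C (qval x.1.2.1) + ∑ l : Fin n, pderiv l.succ
        (fl n l * pcPoly (n + 1) (x.1.2.2.getD l []))) +
        (X 0 - C (qval τ)) * pcPoly (n + 1) x.2.1 := by
  rw [ngC, pcPoly_append, pcPoly_append, hs, pcPoly_neg, pcPoly_mul, pcPoly_pow, pcPoly_append,
    pcPoly_constC, pcPoly_divEC, pcPoly_mul, pcPoly_append, pcPoly_neg, pcPoly_tC, pcPoly_constC]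
  ring

private theorem ng_val {n : ℕ} (τ s : ℚ) (x : Fin n → ℝ) (G F Q U : P1 n) (K : ℕ) :
    aeval (pt n τ x) (C s * G - Q ^ K * F + (X 0 - C τ) * U) =
      (s : ℝ) * aeval (pt n τ x) G - aeval (pt n τ x) Q ^ K * aeval (pt n τ x) F := by
  have h4 : pt n τ x 0 = ((τ : ℚ) : ℝ) := rfl
  rw [map_add, map_sub, map_mul, map_mul, map_mul, map_sub, map_pow, aeval_C, aeval_C, aeval_X,
    h4, eq_ratCast, eq_ratCast, sub_self, zero_mul, add_zero]

/-- A certificate determines the sign of the integral. -/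
theorem ng_sign {n : ℕ} {Q G : PCode} {K : ℕ} {τ : QCode} (hτ0 : 0 ≤ qval τ) (hτ1 : qval τ ≤ 1)
    (hQ : ∀ x ∈ Icc (0 : Fin n → ℝ) 1, 0 < aeval (pt n (qval τ) x) (pcPoly (n + 1) Q)) {x : NG}
    (h : checkNG n Q G K τ x) :
    0 < (if x.1.1 = true then (1 : ℝ) else -1) * JJ n (pcPoly (n + 1) Q) (pcPoly (n + 1) G) K (qval τ) := by
  obtain ⟨⟨b, a, E⟩, U, c⟩ := x
  obtain ⟨ha, hpos⟩ := h
  have ha0 : (0 : ℝ) ≤ (qval a : ℝ) := by
    have h1 := (qleP_iff (qnat 0) a).1 ha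
    rw [qval_qnat, Nat.cast_zero] at h1
    exact_mod_cast h1
  obtain ⟨s, hs, hs1⟩ : ∃ s : ℚ, ((s : ℝ) = if b = true then (1 : ℝ) else -1) ∧
      pcPoly (n + 1) (if b = true then G else pcNeg G) = C s * pcPoly (n + 1) G := by
    by_cases hb : b = true
    · refine ⟨1, ?_, ?_⟩
      · rw [if_pos hb, Rat.cast_one]
      · rw [if_pos hb, C_1, one_mul]
    · refine ⟨-1, ?_, ?_⟩
      · rw [if_neg hb, Rat.cast_neg, Rat.cast_one]
      · rw [if_neg hb, pcPoly_neg, C_neg, C_1, neg_one_mul]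
  change 0 < (if b = true then (1 : ℝ) else -1) * _
  rw [← hs]
  have hng := ng_ngC n Q G K τ ((b, (a, E)), (U, c)) s hs1
  obtain ⟨F, hF⟩ : ∃ F : P1 n, F = C (qval a) +
      ∑ l : Fin n, pderiv l.succ (fl n l * pcPoly (n + 1) (E.getD l [])) := ⟨_, rfl⟩
  have hng2 : pcPoly (n + 1) (ngC n Q G K τ ((b, (a, E)), (U, c))) =
      C s * pcPoly (n + 1) G - pcPoly (n + 1) Q ^ K * F +
        (X 0 - C (qval τ)) * pcPoly (n + 1) U := by
    rw [hng, hF]
  have hlt : ∀ x ∈ Icc (0 : Fin n → ℝ) 1,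
      0 < (s : ℝ) * (aeval (pt n (qval τ) x) (pcPoly (n + 1) G) /
        aeval (pt n (qval τ) x) (pcPoly (n + 1) Q) ^ K) - aeval (pt n (qval τ) x) F := by
    intro x hx
    have h1 := posC_sound hpos (pt n (qval τ) x) (ng_mem hτ0 hτ1 hx)
    rw [hng2, ng_val] at h1
    have h2 := pow_pos (hQ x hx) K
    have h3 : (s : ℝ) * (aeval (pt n (qval τ) x) (pcPoly (n + 1) G) /
        aeval (pt n (qval τ) x) (pcPoly (n + 1) Q) ^ K) - aeval (pt n (qval τ) x) F =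
        ((s : ℝ) * aeval (pt n (qval τ) x) (pcPoly (n + 1) G) -
          aeval (pt n (qval τ) x) (pcPoly (n + 1) Q) ^ K * aeval (pt n (qval τ) x) F) /
          aeval (pt n (qval τ) x) (pcPoly (n + 1) Q) ^ K := by
      field_simp
    rw [h3]
    exact div_pos h1 h2
  have hcG : ContinuousOn (fun x => aeval (pt n (qval τ) x) (pcPoly (n + 1) G) /
      aeval (pt n (qval τ) x) (pcPoly (n + 1) Q) ^ K) (Icc (0 : Fin n → ℝ) 1) :=
    ng_contOn hQ _ K
  have hcF : ContinuousOn (fun x => aeval (pt n (qval τ) x) F) (Icc (0 : Fin n → ℝ) 1) :=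
    (ng_cont_pt n (qval τ) F).continuousOn
  have hI : 0 < ∫ x in Icc (0 : Fin n → ℝ) 1, ((s : ℝ) * (aeval (pt n (qval τ) x)
      (pcPoly (n + 1) G) / aeval (pt n (qval τ) x) (pcPoly (n + 1) Q) ^ K) -
        aeval (pt n (qval τ) x) F) :=
    ng_pos ((continuousOn_const.mul hcG).sub hcF) hlt
  have hI2 : ∫ x in Icc (0 : Fin n → ℝ) 1, ((s : ℝ) * (aeval (pt n (qval τ) x) (pcPoly (n + 1) G) /
        aeval (pt n (qval τ) x) (pcPoly (n + 1) Q) ^ K) - aeval (pt n (qval τ) x) F) =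
      (s : ℝ) * JJ n (pcPoly (n + 1) Q) (pcPoly (n + 1) G) K (qval τ) - (qval a : ℝ) := by
    rw [integral_sub ((hcG.integrableOn_compact isCompact_Icc).const_mul _)
      (hcF.integrableOn_compact isCompact_Icc), integral_const_mul, hF, integral_exact]
    rfl
  rw [hI2] at hI
  linarith

/-- Positive integrals have certificates. -/
theorem ng_pos_iff {n : ℕ} {Q G : PCode} {K : ℕ} {τ : QCode} (hτ0 : 0 ≤ qval τ) (hτ1 : qval τ ≤ 1)
    (hQ : ∀ x ∈ Icc (0 : Fin n → ℝ) 1, 0 < aeval (pt n (qval τ) x) (pcPoly (n + 1) Q)) :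
    (∃ x : NG, x.1.1 = true ∧ checkNG n Q G K τ x) ↔
      0 < JJ n (pcPoly (n + 1) Q) (pcPoly (n + 1) G) K (qval τ) := by
  constructor
  · rintro ⟨x, hb, hx⟩
    have h := ng_sign hτ0 hτ1 hQ hx
    rw [if_pos hb, one_mul] at h
    exact h
  · intro h
    obtain ⟨x, hx⟩ := checkNG_complete (K := K) hQ h.ne'
    have h1 := ng_sign hτ0 hτ1 hQ hx
    refine ⟨x, ?_, hx⟩
    by_contra hb
    rw [if_neg hb] at h1
    linarith

end Pool.Agent.Lib.MP_bbe012_lc.PM
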