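import Pool.Agent.Lib.MP_bbe012_lc.PM.NeA
import Pool.Agent.Lib.MP_bbe012_lc.HC.Main

/-!
# The sign of the integral of a bounded fraction over the open cube
-/

namespace Pool.Agent.Lib.MP_bbe012_lc.PM

open MvPolynomial MeasureTheory Set PP PG Filter Topology

/-- The code of `k / (k + 1)`. -/
def rhoC (k : ℕ) : QCode := ((k, 0), k)

/-- The code of `ρ (2 x_i - 1)`, with the variables shifted by one. -/
def scC (k i : ℕ) : PCode :=
  pcMul (constC (rhoC k)) (pcMul (pcNat 2) (pcVar (i + 1)) ++ pcNeg (pcNat 1))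

/-- The code of `p(ρ (2 x - 1))`. -/
def scaleC (m k : ℕ) (p : PCode) : PCode := pcSubst m (scC k) p

/-- The number `k / (k + 1)`. -/
noncomputable def rho (k : ℕ) : ℝ := (k : ℝ) / ((k : ℝ) + 1)

theorem qval_rhoC (k : ℕ) : ((qval (rhoC k) : ℚ) : ℝ) = rho k := by
  simp [qval, rhoC, rho]

theorem rho_lt_one (k : ℕ) : rho k < 1 := by
  unfold rho
  rw [div_lt_one (by positivity)]
  linarith

theorem rho_nonneg (k : ℕ) : 0 ≤ rho k := by unfold rho; positivity

theorem rho_pos {k : ℕ} (hk : 0 < k) : 0 < rho k := by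
  unfold rho
  have : (0 : ℝ) < k := by exact_mod_cast hk
  positivity

theorem aeval_scaleC (m k : ℕ) (p : PCode) (τ : ℚ) (y : Fin m → ℝ) :
    aeval (pt m τ y) (pcPoly (m + 1) (scaleC m k p)) = pcEval m p fun i => rho k * (2 * y i - 1) := by
  have h1 : ∀ i : Fin m, aeval (pt m τ y) (pcPoly (m + 1) (scC k i)) = rho k * (2 * y i - 1) := by
    intro i
    have h2 : pt m τ y i.succ = y i := rfl
    have h3 : (⟨(i : ℕ) + 1, by omega⟩ : Fin (m + 1)) = i.succ := rfl
    rw [scC, pcPoly_mul, pcPoly_constC, pcPoly_append, pcPoly_mul, pcPoly_neg, pcPoly_nat, pcPoly_nat,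
      pcPoly_var (by omega : (i : ℕ) + 1 < m + 1), h3, map_mul, map_add, map_mul, map_neg, aeval_C, aeval_C,
      aeval_C, aeval_X, h2, eq_ratCast, eq_ratCast, eq_ratCast, qval_rhoC]
    push_cast
    ring
  rw [scaleC, pcPoly_subst, pcEval, ← AlgHom.comp_apply, comp_aeval]
  congr 2
  funext i
  exact h1 i

theorem mem_cube_of_rho {m k : ℕ} {y : Fin m → ℝ} (hy : y ∈ Icc (0 : Fin m → ℝ) 1) :
    (fun i => rho k * (2 * y i - 1)) ∈ cube m := by
  intro i
  have h1 := hy.1 i
  have h2 := hy.2 i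
  simp only [Pi.zero_apply, Pi.one_apply] at h1 h2
  have h3 := rho_lt_one k
  have h4 := rho_nonneg k
  have h5 : |rho k * (2 * y i - 1)| < 1 := by
    rw [abs_mul, abs_of_nonneg h4]
    have h6 : |2 * y i - 1| ≤ 1 := abs_le.mpr ⟨by linarith, by linarith⟩
    calc rho k * |2 * y i - 1| ≤ rho k * 1 := mul_le_mul_of_nonneg_left h6 h4
      _ < 1 := by linarith
  exact abs_lt.mp h5

/-- The change of variables `x = ρ (2 y - 1)`. -/
theorem integral_scale {m : ℕ} {ρ : ℝ} (hρ : 0 < ρ) (f : (Fin m → ℝ) → ℝ) :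
    ∫ x in Icc (fun _ : Fin m => -ρ) (fun _ => ρ), f x =
      (2 * ρ) ^ m * ∫ y in Icc (0 : Fin m → ℝ) 1, f fun i => ρ * (2 * y i - 1) := by
  have h2 : (0 : ℝ) < 2 * ρ := by positivity
  have e1 : ∫ y in Icc (0 : Fin m → ℝ) 1, f (fun i => ρ * (2 * y i - 1)) =
      ∫ y : Fin m → ℝ, (Icc (fun _ : Fin m => -ρ) (fun _ => ρ)).indicator f ((2 * ρ) • y - fun _ => ρ) := by
    rw [← integral_indicator measurableSet_Icc]
    congr 1
    funext y
    have h3 : ((2 * ρ) • y - fun _ => ρ) = fun i => ρ * (2 * y i - 1) := by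
      funext i
      simp only [Pi.sub_apply, Pi.smul_apply, smul_eq_mul]
      ring
    rw [h3]
    by_cases hy : y ∈ Icc (0 : Fin m → ℝ) 1
    · rw [indicator_of_mem hy, indicator_of_mem]
      refine ⟨fun i => ?_, fun i => ?_⟩
      · have := hy.1 i
        simp only [Pi.zero_apply] at this
        nlinarith
      · have := hy.2 i
        simp only [Pi.one_apply] at this
        nlinarith
    · rw [indicator_of_notMem hy, indicator_of_notMem]
      intro h4
      apply hy
      refine ⟨fun i => ?_, fun i => ?_⟩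
      · have := h4.1 i
        simp only [Pi.zero_apply] at this ⊢
        by_contra hc
        push Not at hc
        nlinarith
      · have := h4.2 i
        simp only [Pi.one_apply] at this ⊢
        by_contra hc
        push Not at hc
        nlinarith
  rw [e1]
  have e2 := Measure.integral_comp_smul (volume : Measure (Fin m → ℝ))
    (fun z => (Icc (fun _ : Fin m => -ρ) (fun _ => ρ)).indicator f (z - fun _ => ρ)) (2 * ρ)
  rw [e2, integral_sub_right_eq_self (fun z => (Icc (fun _ : Fin m => -ρ) (fun _ => ρ)).indicator f z),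
    integral_indicator measurableSet_Icc, Module.finrank_fin_fun, abs_of_pos (by positivity), smul_eq_mul,
    ← mul_assoc, mul_inv_cancel₀ (by positivity), one_mul]

theorem volume_sym {m : ℕ} {ρ : ℝ} (hρ : 0 < ρ) :
    volume.real (Icc (fun _ : Fin m => -ρ) (fun _ => ρ)) = (2 * ρ) ^ m := by
  have h := integral_scale (m := m) hρ fun _ => (1 : ℝ)
  rw [setIntegral_const, setIntegral_const, ng_vol] at h
  simpa using h

end Pool.Agent.Lib.MP_bbe012_lc.PM
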