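import Pool.Agent.Lib.MP_bbe012_lc.PM.NeB

/-!
# Certificates for positive integrals of bounded fractions over the open cube
-/

namespace Pool.Agent.Lib.MP_bbe012_lc.PM

open MvPolynomial MeasureTheory Set PP PG HC Filter Topology

theorem volume_cube (m : ℕ) : volume.real (cube m : Set (Fin m → ℝ)) = 2 ^ m := by
  rw [Sum_cube_eq_pi, Measure.real, Real.volume_pi_Ioo]
  simp only [sub_neg_eq_add, Finset.prod_const, Finset.card_univ, Fintype.card_fin]
  rw [← ENNReal.ofReal_pow (by norm_num), ENNReal.toReal_ofReal (by positivity)]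
  norm_num

theorem sym_subset_cube {m : ℕ} {ρ : ℝ} (hρ : ρ < 1) : Icc (fun _ : Fin m => -ρ) (fun _ => ρ) ⊆ cube m := by
  intro x hx i
  have h1 : -ρ ≤ x i := hx.1 i
  have h2 : x i ≤ ρ := hx.2 i
  exact ⟨by linarith, by linarith⟩

/-- The part of the integral near the boundary of the cube is small. -/
theorem near_boundary {m : ℕ} {f : (Fin m → ℝ) → ℝ} {C : ℝ} (hi : IntegrableOn f (cube m))
    (hb : ∀ z ∈ cube m, |f z| ≤ C) {ρ : ℝ} (h0 : 0 < ρ) (h1 : ρ < 1) :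
    |(∫ z in cube m, f z) - ∫ z in Icc (fun _ : Fin m => -ρ) (fun _ => ρ), f z| ≤ C * (2 ^ m - (2 * ρ) ^ m) := by
  have hsub := sym_subset_cube (m := m) h1
  have hfin : volume (cube m : Set (Fin m → ℝ)) ≠ ⊤ := by
    have h2 := (isBounded_cube (n := m)).measure_lt_top (μ := volume)
    exact h2.ne
  have e1 : (∫ z in cube m, f z) - ∫ z in Icc (fun _ : Fin m => -ρ) (fun _ => ρ), f z =
      ∫ z in cube m \ Icc (fun _ : Fin m => -ρ) (fun _ => ρ), f z := by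
    rw [setIntegral_sdiff measurableSet_Icc hi hsub]
  rw [e1]
  have h3 : ‖∫ z in cube m \ Icc (fun _ : Fin m => -ρ) (fun _ => ρ), f z‖ ≤
      C * volume.real (cube m \ Icc (fun _ : Fin m => -ρ) (fun _ => ρ)) := by
    refine norm_setIntegral_le_of_norm_le_const ?_ ?_
    · exact lt_of_le_of_lt (measure_mono sdiff_subset) hfin.lt_top
    · intro z hz
      exact hb z hz.1
  rw [Real.norm_eq_abs] at h3
  refine h3.trans_eq ?_
  rw [measureReal_sdiff hsub measurableSet_Icc hfin, volume_cube, volume_sym h0]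

/-- The data `(k, q)` are admissible. -/
def okKQ (m C k q : ℕ) : Prop := 0 < k ∧ C * (q + 1) * (k + 1) ^ m ≤ k ^ m * (C * (q + 1) + 1)

instance (m C k q : ℕ) : Decidable (okKQ m C k q) := by unfold okKQ; infer_instance

theorem okKQ_iff {m C k q : ℕ} (hk : 0 < k) :
    okKQ m C k q ↔ (C : ℝ) ≤ rho k ^ m * (C + 1 / ((q : ℝ) + 1)) := by
  have h1 : (0 : ℝ) < (k : ℝ) + 1 := by positivity
  have h2 : (0 : ℝ) < (q : ℝ) + 1 := by positivity
  have h3 : (0 : ℝ) < ((k : ℝ) + 1) ^ m := by positivity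
  have e1 : rho k ^ m * (C + 1 / ((q : ℝ) + 1)) =
      (k : ℝ) ^ m * (C * ((q : ℝ) + 1) + 1) / (((k : ℝ) + 1) ^ m * ((q : ℝ) + 1)) := by
    unfold rho
    rw [div_pow]
    field_simp
  have e2 : (C : ℝ) ≤ rho k ^ m * (C + 1 / ((q : ℝ) + 1)) ↔
      (C : ℝ) * (((k : ℝ) + 1) ^ m * ((q : ℝ) + 1)) ≤ (k : ℝ) ^ m * (C * ((q : ℝ) + 1) + 1) := by
    rw [e1, le_div_iff₀ (by positivity)]
  rw [e2, okKQ]
  constructor
  · rintro ⟨-, h⟩
    have h4 : ((C * (q + 1) * (k + 1) ^ m : ℕ) : ℝ) ≤ ((k ^ m * (C * (q + 1) + 1) : ℕ) : ℝ) := by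
      exact_mod_cast h
    push_cast at h4
    linarith
  · intro h
    refine ⟨hk, ?_⟩
    have h4 : ((C * (q + 1) * (k + 1) ^ m : ℕ) : ℝ) ≤ ((k ^ m * (C * (q + 1) + 1) : ℕ) : ℝ) := by
      push_cast
      linarith
    exact_mod_cast h4

/-- The code of the numerator of `f(ρ (2 y - 1)) - 1 / (q + 1)`. -/
def numC (m k q : ℕ) (A D : PCode) : PCode :=
  scaleC m k A ++ pcNeg (pcMul (constC ((1, 0), q)) (scaleC m k D))

theorem JJ_numC {m k q : ℕ} {A D : PCode} (hD : ∀ z ∈ cube m, 0 < pcEval m D z) :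
    JJ m (pcPoly (m + 1) (scaleC m k D)) (pcPoly (m + 1) (numC m k q A D)) 1 (qval (qnat 0)) =
      (∫ y in Icc (0 : Fin m → ℝ) 1, pcEval m A (fun i => rho k * (2 * y i - 1)) /
        pcEval m D fun i => rho k * (2 * y i - 1)) - 1 / ((q : ℝ) + 1) := by
  have hQ : ∀ x ∈ Icc (0 : Fin m → ℝ) 1, 0 < aeval (pt m (qval (qnat 0)) x) (pcPoly (m + 1) (scaleC m k D)) := by
    intro x hx
    rw [aeval_scaleC]
    exact hD _ (mem_cube_of_rho hx)
  have hc := ng_contOn hQ (pcPoly (m + 1) (scaleC m k A)) 1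
  have h1 : ∀ x ∈ Icc (0 : Fin m → ℝ) 1,
      aeval (pt m (qval (qnat 0)) x) (pcPoly (m + 1) (numC m k q A D)) /
        aeval (pt m (qval (qnat 0)) x) (pcPoly (m + 1) (scaleC m k D)) ^ 1 =
      aeval (pt m (qval (qnat 0)) x) (pcPoly (m + 1) (scaleC m k A)) /
        aeval (pt m (qval (qnat 0)) x) (pcPoly (m + 1) (scaleC m k D)) ^ 1 - 1 / ((q : ℝ) + 1) := by
    intro x hx
    have h2 := (hQ x hx).ne'
    have h3 : ((qval ((1, 0), q) : ℚ) : ℝ) = 1 / ((q : ℝ) + 1) := by simp [qval]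
    rw [numC, pcPoly_append, pcPoly_neg, pcPoly_mul, pcPoly_constC, map_add, map_neg, map_mul, aeval_C,
      eq_ratCast, h3, pow_one]
    field_simp
    ring
  rw [JJ, setIntegral_congr_fun measurableSet_Icc h1, integral_sub (hc.integrableOn_compact isCompact_Icc)
    (continuousOn_const.integrableOn_compact isCompact_Icc), setIntegral_const, ng_vol, one_smul]
  congr 1
  refine setIntegral_congr_fun measurableSet_Icc fun x _ => ?_
  simp only [pow_one, aeval_scaleC]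

/-- Positive integrals have certificates. -/
theorem cube_pos_iff {m : ℕ} {A D : PCode} {C : ℕ} (hD : ∀ z ∈ cube m, 0 < pcEval m D z)
    (hb : ∀ z ∈ cube m, |pcEval m A z / pcEval m D z| ≤ C)
    (hi : IntegrableOn (fun z => pcEval m A z / pcEval m D z) (cube m)) :
    (∃ k q : ℕ, ∃ x : NG, okKQ m C k q ∧ x.1.1 = true ∧
      checkNG m (scaleC m k D) (numC m k q A D) 1 (qnat 0) x) ↔
      0 < ∫ z in cube m, pcEval m A z / pcEval m D z := by
  obtain ⟨f, hf⟩ : ∃ f : (Fin m → ℝ) → ℝ, f = fun z => pcEval m A z / pcEval m D z := ⟨_, rfl⟩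
  obtain ⟨v, hv⟩ : ∃ v : ℝ, v = ∫ z in cube m, pcEval m A z / pcEval m D z := ⟨_, rfl⟩
  have hτ0 : 0 ≤ qval (qnat 0) := by rw [qval_qnat]; norm_num
  have hτ1 : qval (qnat 0) ≤ 1 := by rw [qval_qnat]; norm_num
  have hQ : ∀ k : ℕ, ∀ x ∈ Icc (0 : Fin m → ℝ) 1,
      0 < aeval (pt m (qval (qnat 0)) x) (pcPoly (m + 1) (scaleC m k D)) := by
    intro k x hx
    rw [aeval_scaleC]
    exact hD _ (mem_cube_of_rho hx)
  have hC0 : (0 : ℝ) ≤ C := Nat.cast_nonneg C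
  have key : ∀ k q : ℕ, (∃ x : NG, x.1.1 = true ∧ checkNG m (scaleC m k D) (numC m k q A D) 1 (qnat 0) x) ↔
      1 / ((q : ℝ) + 1) < ∫ y in Icc (0 : Fin m → ℝ) 1, f fun i => rho k * (2 * y i - 1) := by
    intro k q
    rw [ng_pos_iff hτ0 hτ1 (hQ k), JJ_numC hD, sub_pos, hf]
  have hnear : ∀ k : ℕ, 0 < k →
      |v - (2 * rho k) ^ m * ∫ y in Icc (0 : Fin m → ℝ) 1, f fun i => rho k * (2 * y i - 1)| ≤
        C * (2 ^ m - (2 * rho k) ^ m) := by
    intro k hk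
    rw [← integral_scale (rho_pos hk), hv]
    have h := near_boundary (f := f) (by rw [hf]; exact hi) (by rw [hf]; exact hb) (rho_pos hk) (rho_lt_one k)
    rw [hf] at h ⊢
    exact h
  rw [← hv]
  have hm2 : (0 : ℝ) < 2 ^ m := by positivity
  constructor
  · rintro ⟨k, q, x, hkq, hx1, hx2⟩
    have hk := hkq.1
    have h1 := (key k q).mp ⟨x, hx1, hx2⟩
    have h2 := (okKQ_iff hk).mp hkq
    have h3 := hnear k hk
    have hr : 0 < rho k ^ m := pow_pos (rho_pos hk) m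
    obtain ⟨J, hJ⟩ : ∃ J : ℝ, J = ∫ y in Icc (0 : Fin m → ℝ) 1, f fun i => rho k * (2 * y i - 1) := ⟨_, rfl⟩
    rw [← hJ] at h1 h3
    have h4 := (abs_le.mp h3).1
    rw [mul_pow] at h4
    have h5 : rho k ^ m * (1 / ((q : ℝ) + 1)) < rho k ^ m * J := mul_lt_mul_of_pos_left h1 hr
    have h6 : 2 ^ m * (rho k ^ m * (1 / ((q : ℝ) + 1))) < 2 ^ m * (rho k ^ m * J) :=
      mul_lt_mul_of_pos_left h5 hm2
    have h7 : 2 ^ m * (C : ℝ) ≤ 2 ^ m * (rho k ^ m * (C + 1 / ((q : ℝ) + 1))) :=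
      mul_le_mul_of_nonneg_left h2 hm2.le
    nlinarith
  · intro hv0
    obtain ⟨q, hq⟩ : ∃ q : ℕ, 1 / ((q : ℝ) + 1) < v / (2 * 2 ^ m) :=
      exists_nat_one_div_lt (by positivity)
    have hq0 : 0 < 1 / ((q : ℝ) + 1) := by positivity
    have hlim : Tendsto (fun k : ℕ => rho k ^ m) atTop (𝓝 1) := by
      have h1 : Tendsto (fun k : ℕ => rho k) atTop (𝓝 1) := by
        have h2 : Tendsto (fun k : ℕ => 1 - 1 / ((k : ℝ) + 1)) atTop (𝓝 (1 - 0)) :=
          tendsto_const_nhds.sub tendsto_one_div_add_atTop_nhds_zero_nat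
        rw [sub_zero] at h2
        refine h2.congr fun k => ?_
        unfold rho
        field_simp
        ring
      simpa using h1.pow m
    have hA : ∀ᶠ k : ℕ in atTop, (C : ℝ) < rho k ^ m * (C + 1 / ((q : ℝ) + 1)) := by
      have h1 : Tendsto (fun k : ℕ => rho k ^ m * (C + 1 / ((q : ℝ) + 1))) atTop
          (𝓝 (1 * (C + 1 / ((q : ℝ) + 1)))) := hlim.mul_const _
      exact h1.eventually_const_lt (by linarith)
    have hB : ∀ᶠ k : ℕ in atTop, C * 2 ^ m * (1 - rho k ^ m) < v / 2 := by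
      have h1 : Tendsto (fun k : ℕ => C * 2 ^ m * (1 - rho k ^ m)) atTop (𝓝 (C * 2 ^ m * (1 - 1))) :=
        (tendsto_const_nhds.sub hlim).const_mul _
      rw [sub_self, mul_zero] at h1
      exact h1.eventually_lt_const (by linarith)
    obtain ⟨k, ⟨h1, h2⟩, hk⟩ := ((hA.and hB).and (eventually_gt_atTop 0)).exists
    have h3 := hnear k hk
    have hr : 0 < rho k ^ m := pow_pos (rho_pos hk) m
    have hr1 : rho k ^ m ≤ 1 := pow_le_one₀ (rho_nonneg k) (rho_lt_one k).le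
    have h4 : 1 / ((q : ℝ) + 1) < ∫ y in Icc (0 : Fin m → ℝ) 1, f fun i => rho k * (2 * y i - 1) := by
      obtain ⟨J, hJ⟩ : ∃ J : ℝ, J = ∫ y in Icc (0 : Fin m → ℝ) 1, f fun i => rho k * (2 * y i - 1) := ⟨_, rfl⟩
      rw [← hJ] at h3 ⊢
      have h5 := (abs_le.mp h3).2
      rw [mul_pow] at h5
      by_contra hc
      push Not at hc
      have h6 : rho k ^ m * J ≤ rho k ^ m * (1 / ((q : ℝ) + 1)) := mul_le_mul_of_nonneg_left hc hr.le
      have h7 : rho k ^ m * (1 / ((q : ℝ) + 1)) ≤ 1 * (1 / ((q : ℝ) + 1)) :=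
        mul_le_mul_of_nonneg_right hr1 hq0.le
      have h8 : 2 ^ m * (rho k ^ m * J) ≤ 2 ^ m * (1 / ((q : ℝ) + 1)) :=
        mul_le_mul_of_nonneg_left (by linarith) hm2.le
      have h9 : 2 ^ m * (1 / ((q : ℝ) + 1)) < v / 2 := by
        have := mul_lt_mul_of_pos_left hq hm2
        calc 2 ^ m * (1 / ((q : ℝ) + 1)) < 2 ^ m * (v / (2 * 2 ^ m)) := this
          _ = v / 2 := by field_simp
      nlinarith
    obtain ⟨x, hx1, hx2⟩ := (key k q).mpr h4
    exact ⟨k, q, x, (okKQ_iff hk).mpr h1.le, hx1, hx2⟩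

end Pool.Agent.Lib.MP_bbe012_lc.PM
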