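import Pool.Agent.Lib.MP_bbe012_lc.PM.Ne
import Pool.Agent.Lib.MP_bbe012_lc.Total

/-!
# Constant integrals, real and imaginary parts of polynomials
-/

namespace Pool.Agent.Lib.MP_bbe012_lc.PM

open MvPolynomial MeasureTheory Set PP PG HC Filter Topology

/-- The explicit integral (in `0` variables) with a given rational value. -/
def cstI (q : QCode) : IntCode := (0, ((constC q, pcNat 1), []))

private theorem NvA_int (q : QCode) (x : Fin 0 → ℝ) : integrand (cstI q) x = ((qval q : ℚ) : ℝ) := by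
  have h1 : pcEval 0 (constC q) x = ((qval q : ℚ) : ℝ) := by
    rw [pcEval, pcPoly_constC, aeval_C, eq_ratCast]
  have h2 : pcEval 0 (pcNat 1) x = 1 := by rw [pcEval_nat, Nat.cast_one]
  change pcEval 0 (constC q) x / pcEval 0 (pcNat 1) x = _
  rw [h1, h2, div_one]

private theorem NvA_dom (q : QCode) : domain (cstI q) = Icc (0 : Fin 0 → ℝ) 1 := by
  have h1 : Icc (0 : Fin 0 → ℝ) 1 = univ := by
    ext x
    simp only [mem_Icc, mem_univ, iff_true]
    exact ⟨fun i => i.elim0, fun i => i.elim0⟩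
  rw [h1]
  ext x
  refine ⟨fun _ => mem_univ _, fun _ c hc => ?_⟩
  exact absurd hc (List.not_mem_nil)

theorem admissible_cstI (q : QCode) : Admissible (cstI q) := by
  refine ⟨?_, ?_⟩
  · change pcPoly 0 (pcNat 1) ≠ 0
    rw [pcPoly_nat, Nat.cast_one, C_1]
    exact one_ne_zero
  · rw [NvA_dom]
    have h1 : integrand (cstI q) = fun _ : Fin 0 → ℝ => ((qval q : ℚ) : ℝ) := funext (NvA_int q)
    have h2 : IntegrableOn (fun _ : Fin 0 → ℝ => ((qval q : ℚ) : ℝ)) (Icc (0 : Fin 0 → ℝ) 1) :=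
      continuousOn_const.integrableOn_compact isCompact_Icc
    rw [h1]
    exact h2

theorem value_cstI (q : QCode) : value (cstI q) = ((qval q : ℚ) : ℝ) := by
  have h1 : integrand (cstI q) = fun _ : Fin 0 → ℝ => ((qval q : ℚ) : ℝ) := funext (NvA_int q)
  rw [value, NvA_dom, h1]
  have h2 : (∫ _x in Icc (0 : Fin 0 → ℝ) 1, ((qval q : ℚ) : ℝ)) = ((qval q : ℚ) : ℝ) := by
    rw [setIntegral_const, ng_vol, one_smul]
  exact h2

/-- Every polynomial in `x` and `w` is `U + w V` modulo `w ^ 2 + 1`. -/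
theorem exists_UVW {n : ℕ} (T : MvPolynomial (Fin (n + 1)) ℚ) :
    ∃ U V : MvPolynomial (Fin n) ℚ, ∃ W : MvPolynomial (Fin (n + 1)) ℚ,
      T = rename Fin.castSucc U + (X (Fin.last n) * rename Fin.castSucc V +
        (X (Fin.last n) * X (Fin.last n) + 1) * W) := by
  induction T using MvPolynomial.induction_on with
  | C a =>
    refine ⟨C a, 0, 0, ?_⟩
    rw [rename_C, map_zero]
    ring
  | add p q hp hq =>
    obtain ⟨U, V, W, h⟩ := hp
    obtain ⟨U', V', W', h'⟩ := hq
    refine ⟨U + U', V + V', W + W', ?_⟩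
    rw [map_add, map_add, h, h']
    ring
  | mul_X p i hp =>
    obtain ⟨U, V, W, h⟩ := hp
    refine Fin.lastCases ?_ (fun j => ?_) i
    · refine ⟨-V, U, rename Fin.castSucc V + W * X (Fin.last n), ?_⟩
      rw [map_neg]
      nth_rw 1 [h]
      ring
    · refine ⟨U * X j, V * X j, W * X j.castSucc, ?_⟩
      rw [map_mul, map_mul, rename_X]
      nth_rw 1 [h]
      ring

/-- The point `(v, i)`. -/
noncomputable def ptI {n : ℕ} (v : Fin n → ℝ) : Fin (n + 1) → ℂ := Fin.snoc (fun j => (v j : ℂ)) Complex.I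

theorem ptI_last {n : ℕ} (v : Fin n → ℝ) : ptI v (Fin.last n) = Complex.I := by simp [ptI]

theorem ptI_castSucc {n : ℕ} (v : Fin n → ℝ) (j : Fin n) : ptI v j.castSucc = (v j : ℂ) := by simp [ptI]

theorem aeval_ptI {n : ℕ} (v : Fin n → ℝ) (U : MvPolynomial (Fin n) ℚ) :
    aeval (ptI v) (rename Fin.castSucc U) = ((aeval v U : ℝ) : ℂ) := by
  rw [aeval_rename]
  have h1 : (ptI v ∘ Fin.castSucc) = algebraMap ℝ ℂ ∘ v := by
    funext j
    exact ptI_castSucc v j
  rw [h1]
  exact aeval_algebraMap_apply ℂ v U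

theorem aeval_UVW {n : ℕ} (v : Fin n → ℝ) {T : MvPolynomial (Fin (n + 1)) ℚ} {U V : MvPolynomial (Fin n) ℚ}
    {W : MvPolynomial (Fin (n + 1)) ℚ} (h : T = rename Fin.castSucc U + (X (Fin.last n) * rename Fin.castSucc V +
        (X (Fin.last n) * X (Fin.last n) + 1) * W)) :
    aeval (ptI v) T = ((aeval v U : ℝ) : ℂ) + Complex.I * ((aeval v V : ℝ) : ℂ) := by
  rw [h, map_add, map_add, map_mul, map_mul, map_add, map_mul, map_one, aeval_X, ptI_last, aeval_ptI, aeval_ptI,
    Complex.I_mul_I]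
  ring

theorem ne_zero_iff {a b : ℝ} : ((a : ℂ) + Complex.I * (b : ℂ) ≠ 0) ↔ 0 < a * a + b * b := by
  constructor
  · intro h
    by_contra hc
    have h1 : a * a + b * b ≤ 0 := not_lt.mp hc
    have h2 : a = 0 := by nlinarith [mul_self_nonneg a, mul_self_nonneg b]
    have h3 : b = 0 := by nlinarith [mul_self_nonneg a, mul_self_nonneg b]
    exact h (by rw [h2, h3]; simp)
  · intro h h0
    have h1 := congrArg Complex.re h0
    have h2 := congrArg Complex.im h0
    simp at h1 h2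
    rw [h1, h2] at h
    simp at h

private theorem NvA_cont {m : ℕ} (p : MvPolynomial (Fin m) ℚ) :
    Continuous fun x : Fin m → ℝ => aeval x p := by
  have h : (fun x : Fin m → ℝ => aeval x p) =
      fun x => ∑ d ∈ p.support, algebraMap ℚ ℝ (coeff d p) * ∏ i, x i ^ d i := by
    funext x
    rw [aeval_def, eval₂_eq']
  rw [h]
  fun_prop

/-- A polynomial which is positive at a point is positive on a box with rational corners around it. -/
theorem exists_box {n : ℕ} (p : MvPolynomial (Fin n) ℚ) {v : Fin n → ℝ} (h : 0 < aeval v p) :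
    ∃ lo hi : Fin n → ℚ, (∀ j, ((lo j : ℚ) : ℝ) < v j ∧ v j < ((hi j : ℚ) : ℝ)) ∧
      ∀ y ∈ Icc (0 : Fin n → ℝ) 1,
        0 < aeval (fun j => ((lo j : ℚ) : ℝ) + (((hi j : ℚ) : ℝ) - ((lo j : ℚ) : ℝ)) * y j) p := by
  have h1 := (NvA_cont p).continuousAt (x := v)
  have h2 : ∀ᶠ y in 𝓝 v, 0 < aeval y p := h1.eventually_const_lt h
  obtain ⟨ε, hε, hball⟩ := Metric.eventually_nhds_iff.mp h2
  choose lo hlo using fun j => exists_rat_btwn (show v j - ε / 2 < v j by linarith)
  choose hi hhi using fun j => exists_rat_btwn (show v j < v j + ε / 2 by linarith)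
  refine ⟨lo, hi, fun j => ⟨(hlo j).2, (hhi j).1⟩, fun y hy => hball ?_⟩
  rw [dist_pi_lt_iff hε]
  intro j
  have a1 := hlo j
  have a2 := hhi j
  have a3 : 0 ≤ y j := hy.1 j
  have a4 : y j ≤ 1 := hy.2 j
  rw [Real.dist_eq, abs_lt]
  constructor
  · nlinarith
  · nlinarith

end Pool.Agent.Lib.MP_bbe012_lc.PM
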