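import Pool.Agent.Lib.MP_bbe012_lc.PM.NvA

/-!
# Certificates for polynomials in periods which do not vanish
-/

namespace Pool.Agent.Lib.MP_bbe012_lc.PM

open MvPolynomial MeasureTheory Set PP PG HC Filter Topology

/-- The explicit integrals of the real parts, then those of the imaginary parts. -/
def numI (x : PCode × List PeriodCode) (j : ℕ) : IntCode :=
  if j < x.2.length then (x.2.getD j default).1 else (x.2.getD (j - x.2.length) default).2

/-- Bounds of a number with their certificates. -/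
abbrev BndC := (QCode × QCode) × (PosCert × PosCert)

/-- Certificates: polynomials, a certificate of positivity, and bounds. -/
abbrev NvCert := ((PCode × PCode) × (PCode × PCert)) × List BndC

/-- The code of `G(a + w b)`. -/
def subG (k : ℕ) (G : PCode) : PCode :=
  pcSubst k (fun i => pcVar i ++ pcMul (pcVar (k + k)) (pcVar (k + i))) G

/-- The code of `G(a + w b) - U - w V - (w ^ 2 + 1) W`. -/
def uvwC (k : ℕ) (G U V W : PCode) : PCode :=
  subG k G ++ pcNeg (pcTrunc (k + k) U ++ (pcMul (pcVar (k + k)) (pcTrunc (k + k) V) ++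
    pcMul (pcMul (pcVar (k + k)) (pcVar (k + k)) ++ pcNat 1) W))

/-- The bounds of index `j`. -/
def bnd (L : List BndC) (j : ℕ) : BndC := L.getD j ((qnat 0, qnat 0), default)

/-- The code of `lo_j + (hi_j - lo_j) y_j`. -/
def affC (L : List BndC) (j : ℕ) : PCode :=
  constC (bnd L j).1.1 ++ pcMul (constC (qadd (bnd L j).1.2 (qneg (bnd L j).1.1))) (pcVar j)

/-- Verification of a certificate. -/
def nvChk (x : PCode × List PeriodCode) (c : NvCert) : Prop :=
  pcIsZero (x.2.length + x.2.length + 1) (uvwC x.2.length x.1 c.1.1.1 c.1.1.2 c.1.2.1) ∧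
    ((∀ j < x.2.length + x.2.length, ltChk (cstI (bnd c.2 j).1.1) (numI x j) (bnd c.2 j).2.1 ∧
      ltChk (numI x j) (cstI (bnd c.2 j).1.2) (bnd c.2 j).2.2) ∧
      posC (x.2.length + x.2.length) (pcSubst (x.2.length + x.2.length) (affC c.2)
        (pcMul c.1.1.1 c.1.1.1 ++ pcMul c.1.1.2 c.1.1.2)) c.1.2.2)

instance (x : PCode × List PeriodCode) (c : NvCert) : Decidable (nvChk x c) := by unfold nvChk; infer_instance

/-- The values of the integrals. -/
noncomputable def numV (x : PCode × List PeriodCode) : Fin (x.2.length + x.2.length) → ℝ :=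
  fun j => value (numI x j)

theorem numI_left (x : PCode × List PeriodCode) (i : Fin x.2.length) : numI x i = (x.2.get i).1 := by
  rw [numI, if_pos i.2]
  congr 1
  rw [List.getD_eq_getElem _ _ i.2]; rfl

theorem numI_right (x : PCode × List PeriodCode) (i : Fin x.2.length) :
    numI x (x.2.length + i) = (x.2.get i).2 := by
  rw [numI, if_neg (by omega), Nat.add_sub_cancel_left]
  congr 1
  rw [List.getD_eq_getElem _ _ i.2]; rfl

theorem adm_numI {x : PCode × List PeriodCode} (hx : ∀ X ∈ x.2, PeriodAdmissible X) {j : ℕ}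
    (hj : j < x.2.length + x.2.length) : Admissible (numI x j) := by
  by_cases h : j < x.2.length
  · have h1 := numI_left x ⟨j, h⟩
    change numI x j = _ at h1
    rw [h1]
    exact (hx _ (List.get_mem _ _)).1
  · have h2 : j - x.2.length < x.2.length := by omega
    have h1 := numI_right x ⟨j - x.2.length, h2⟩
    change numI x (x.2.length + (j - x.2.length)) = _ at h1
    rw [show x.2.length + (j - x.2.length) = j by omega] at h1
    rw [h1]
    exact (hx _ (List.get_mem _ _)).2

/-- The value of `G(a + w b)` at `w = i`. -/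
theorem aeval_subG (x : PCode × List PeriodCode) :
    aeval (ptI (numV x)) (pcPoly (x.2.length + x.2.length + 1) (subG x.2.length x.1)) =
      aeval (fun i : Fin x.2.length => period (x.2.get i)) (pcPoly x.2.length x.1) := by
  rw [subG, pcPoly_subst, ← AlgHom.comp_apply, comp_aeval]
  congr 2
  funext i
  have hi := i.2
  have h1 : (⟨(i : ℕ), by omega⟩ : Fin (x.2.length + x.2.length + 1)) = (Fin.castAdd x.2.length i).castSucc := rfl
  have h2 : (⟨x.2.length + (i : ℕ), by omega⟩ : Fin (x.2.length + x.2.length + 1)) =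
      (Fin.natAdd x.2.length i).castSucc := rfl
  have h3 : (⟨x.2.length + x.2.length, by omega⟩ : Fin (x.2.length + x.2.length + 1)) = Fin.last _ := rfl
  have h4 : numV x (Fin.castAdd x.2.length i) = value (x.2.get i).1 := by
    have := numI_left x i
    rw [numV]
    change value (numI x i) = _
    rw [this]
  have h5 : numV x (Fin.natAdd x.2.length i) = value (x.2.get i).2 := by
    have := numI_right x i
    rw [numV]
    change value (numI x (x.2.length + i)) = _
    rw [this]
  rw [pcPoly_append, pcPoly_mul, pcPoly_var (by omega : (i : ℕ) < x.2.length + x.2.length + 1),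
    pcPoly_var (by omega : x.2.length + x.2.length < x.2.length + x.2.length + 1),
    pcPoly_var (by omega : x.2.length + (i : ℕ) < x.2.length + x.2.length + 1), h1, h2, h3, map_add, map_mul,
    aeval_X, aeval_X, aeval_X, ptI_last, ptI_castSucc, ptI_castSucc, h4, h5, period, mul_comm]
  exact (Complex.mk_eq_add_mul_I _ _).symm

theorem uvwC_iff (k : ℕ) (G U V W : PCode) :
    pcIsZero (k + k + 1) (uvwC k G U V W) ↔ pcPoly (k + k + 1) (subG k G) =
      rename Fin.castSucc (pcPoly (k + k) U) + (X (Fin.last (k + k)) * rename Fin.castSucc (pcPoly (k + k) V) +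
        (X (Fin.last (k + k)) * X (Fin.last (k + k)) + 1) * pcPoly (k + k + 1) W) := by
  have h3 : (⟨k + k, by omega⟩ : Fin (k + k + 1)) = Fin.last _ := rfl
  rw [pcIsZero_iff, uvwC, pcPoly_append, pcPoly_neg, pcPoly_append, pcPoly_append, pcPoly_mul, pcPoly_mul,
    pcPoly_append, pcPoly_mul, pcPoly_trunc_hP, pcPoly_trunc_hP, pcPoly_nat,
    pcPoly_var (by omega : k + k < k + k + 1), h3, Nat.cast_one, C_1, ← sub_eq_add_neg, sub_eq_zero]
  exact Iff.rfl

theorem aeval_affC {n : ℕ} (L : List BndC) (U V : PCode) (y : Fin n → ℝ) :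
    aeval y (pcPoly n (pcSubst n (affC L) (pcMul U U ++ pcMul V V))) =
      aeval (fun j : Fin n => ((qval (bnd L j).1.1 : ℚ) : ℝ) + (((qval (bnd L j).1.2 : ℚ) : ℝ) -
        ((qval (bnd L j).1.1 : ℚ) : ℝ)) * y j) (pcPoly n U * pcPoly n U + pcPoly n V * pcPoly n V) := by
  rw [pcPoly_subst, pcPoly_append, pcPoly_mul, pcPoly_mul, ← AlgHom.comp_apply, comp_aeval]
  congr 2
  funext j
  have h3 : (⟨(j : ℕ), j.2⟩ : Fin n) = j := rfl
  rw [affC, pcPoly_append, pcPoly_mul, pcPoly_constC, pcPoly_constC, pcPoly_var j.2, h3, map_add, map_mul,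
    aeval_C, aeval_C, aeval_X, qval_qadd, eq_ratCast, eq_ratCast]
  have h4 : qval (qneg (bnd L j).1.1) = - qval (bnd L j).1.1 := by
    simp only [qval, qneg]
    ring
  rw [h4]
  push_cast
  ring

/-- The certificates characterise the polynomials which do not vanish. -/
theorem nvChk_iff {x : PCode × List PeriodCode} (hx : ∀ X ∈ x.2, PeriodAdmissible X) :
    (∃ c, nvChk x c) ↔ ¬ Vanishes x := by
  unfold Vanishes
  rw [← aeval_subG]
  constructor
  · rintro ⟨⟨⟨⟨U, V⟩, W, pc⟩, L⟩, h1, h2, h3⟩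
    have h4 := (uvwC_iff _ _ _ _ _).mp h1
    rw [aeval_UVW (numV x) h4, ← Ne, ne_zero_iff]
    have h5 : ∀ j : Fin (x.2.length + x.2.length), ((qval (bnd L j).1.1 : ℚ) : ℝ) < numV x j ∧
        numV x j < ((qval (bnd L j).1.2 : ℚ) : ℝ) := by
      intro j
      obtain ⟨h6, h7⟩ := h2 j j.2
      have h8 := (ltChk_iff (adm_numI hx j.2) (admissible_cstI _)).mp ⟨_, h6⟩
      have h9 := (ltChk_iff (admissible_cstI _) (adm_numI hx j.2)).mp ⟨_, h7⟩
      rw [value_cstI] at h8 h9
      exact ⟨h8, h9⟩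
    have h6 := posC_sound h3 (fun j => (numV x j - ((qval (bnd L j).1.1 : ℚ) : ℝ)) /
      (((qval (bnd L j).1.2 : ℚ) : ℝ) - ((qval (bnd L j).1.1 : ℚ) : ℝ))) (by
        refine ⟨fun j => ?_, fun j => ?_⟩
        · have := h5 j
          change 0 ≤ _
          exact div_nonneg (by linarith) (by linarith)
        · have := h5 j
          change _ ≤ (1 : ℝ)
          rw [div_le_one (by linarith)]
          linarith)
    rw [aeval_affC] at h6
    have h7 : (fun j : Fin (x.2.length + x.2.length) => ((qval (bnd L j).1.1 : ℚ) : ℝ) +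
        (((qval (bnd L j).1.2 : ℚ) : ℝ) - ((qval (bnd L j).1.1 : ℚ) : ℝ)) *
          ((numV x j - ((qval (bnd L j).1.1 : ℚ) : ℝ)) /
            (((qval (bnd L j).1.2 : ℚ) : ℝ) - ((qval (bnd L j).1.1 : ℚ) : ℝ)))) = numV x := by
      funext j
      have := h5 j
      rw [mul_div_cancel₀ _ (by linarith : (((qval (bnd L j).1.2 : ℚ) : ℝ) - ((qval (bnd L j).1.1 : ℚ) : ℝ)) ≠ 0)]
      ring
    rw [h7, map_add, map_mul, map_mul] at h6
    exact h6
  · intro h
    obtain ⟨U, V, W, h1⟩ := exists_UVW (pcPoly (x.2.length + x.2.length + 1) (subG x.2.length x.1))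
    rw [aeval_UVW (numV x) h1, ← Ne, ne_zero_iff, ← map_mul, ← map_mul, ← map_add] at h
    obtain ⟨Uc, hU⟩ := exists_pcPoly U
    obtain ⟨Vc, hV⟩ := exists_pcPoly V
    obtain ⟨Wc, hW⟩ := exists_pcPoly W
    obtain ⟨lo, hi, h2, h3⟩ := exists_box _ h
    choose lc hlc using fun j => exists_qval (lo j)
    choose uc huc using fun j => exists_qval (hi j)
    have h4 : ∀ j : Fin (x.2.length + x.2.length), ∃ c1 : PosCert, ltChk (cstI (lc j)) (numI x j) c1 := by
      intro j
      rw [ltChk_iff (adm_numI hx j.2) (admissible_cstI _), value_cstI, hlc]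
      exact (h2 j).1
    have h5 : ∀ j : Fin (x.2.length + x.2.length), ∃ c2 : PosCert, ltChk (numI x j) (cstI (uc j)) c2 := by
      intro j
      rw [ltChk_iff (admissible_cstI _) (adm_numI hx j.2), value_cstI, huc]
      exact (h2 j).2
    choose c1 hc1 using h4
    choose c2 hc2 using h5
    obtain ⟨L, hL⟩ : ∃ L : List BndC, L = List.ofFn fun j => ((lc j, uc j), (c1 j, c2 j)) := ⟨_, rfl⟩
    have hb : ∀ j : Fin (x.2.length + x.2.length), bnd L j = ((lc j, uc j), (c1 j, c2 j)) := by
      intro j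
      rw [bnd, hL, List.getD_eq_getElem?_getD]
      simp
    have h6 : ∀ y ∈ Icc (0 : Fin (x.2.length + x.2.length) → ℝ) 1, 0 < aeval y (pcPoly (x.2.length + x.2.length)
        (pcSubst (x.2.length + x.2.length) (affC L) (pcMul Uc Uc ++ pcMul Vc Vc))) := by
      intro y hy
      rw [aeval_affC, hU, hV]
      have h7 := h3 y hy
      have h8 : (fun j : Fin (x.2.length + x.2.length) => ((qval (bnd L j).1.1 : ℚ) : ℝ) +
          (((qval (bnd L j).1.2 : ℚ) : ℝ) - ((qval (bnd L j).1.1 : ℚ) : ℝ)) * y j) =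
          fun j => ((lo j : ℚ) : ℝ) + (((hi j : ℚ) : ℝ) - ((lo j : ℚ) : ℝ)) * y j := by
        funext j
        rw [hb j, hlc, huc]
      rw [h8]
      exact h7
    obtain ⟨pc, hpc⟩ := posC_complete h6
    refine ⟨(((Uc, Vc), (Wc, pc)), L), ?_, ?_, hpc⟩
    · rw [uvwC_iff, hU, hV, hW]
      exact h1
    · intro j hj
      have h9 := hb ⟨j, hj⟩
      change bnd L j = _ at h9
      change ltChk (cstI (bnd L j).1.1) (numI x j) (bnd L j).2.1 ∧
        ltChk (numI x j) (cstI (bnd L j).1.2) (bnd L j).2.2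
      rw [h9]
      exact ⟨hc1 ⟨j, hj⟩, hc2 ⟨j, hj⟩⟩

end Pool.Agent.Lib.MP_bbe012_lc.PM
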