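import Pool.Agent.Lib.MP_bbe012_lc.PM.Dx
import Pool.Agent.Lib.MP_bbe012_lc.TotalComp

/-!
# Primitive recursive predicates on codes: values of fixed polynomials
-/

namespace Pool.Agent.Lib.MP_bbe012_lc.PM

open MvPolynomial MeasureTheory Set PP PG

/-- Every rational point has a code. Proof: `exists_qval`, `List.ofFn`. -/
theorem exists_ptq {s : ℕ} (θ : Fin s → ℚ) : ∃ x : List QCode, ptq s x = θ := by
  choose c hc using fun i : Fin s => exists_qval (θ i)
  refine ⟨List.ofFn c, ?_⟩
  funext i
  unfold ptq
  rw [getD_ofFn, hc]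

/-- Every family of coefficients has a code. Proof: `exists_qval`, `List.ofFn` along `Fintype.equivFin`. -/
theorem exists_cfq {n D : ℕ} (c : (Fin n → Fin (D + 1)) → ℚ) : ∃ x : List QCode, cfq x = c := by
  choose q hq using fun a => exists_qval (c a)
  refine ⟨List.ofFn fun i => q ((Fintype.equivFin (Fin n → Fin (D + 1))).symm i), ?_⟩
  funext a
  unfold cfq
  rw [getD_ofFn, Equiv.symm_apply_apply, hq]

/-- The code of the value. Proof: `pcEval_point` (Adv.lean), whose statement is over the reals; `point s x = cst (ptq s x)`. -/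
theorem qval_evalCode (s : ℕ) (x : List QCode) (p : PCode) : qval (evalCode s x p) = eval (ptq s x) (pcPoly s p) := by
  rw [evalCode, ← coeff_pcPoly, pcPoly_subst]
  have h1 : expVec 0 [] = 0 := by ext i; exact i.elim0
  rw [h1]
  have h2 : ∀ P : MvPolynomial (Fin s) ℚ,
      aeval (fun i : Fin s => pcPoly 0 [(x.getD i (qnat 0), [])]) P =
        C (eval (fun i : Fin s => qval (x.getD i (qnat 0))) P) := by
    intro P
    induction P using MvPolynomial.induction_on with
    | C a => simp
    | add p q hp hq => rw [map_add, hp, hq, map_add, C_add]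
    | mul_X p i hp => rw [map_mul, hp, aeval_X, pcPoly_const, map_mul, eval_X, C_mul]
  rw [h2, coeff_C, if_pos rfl]
  rfl

/-- Proof: let `p` be a code of `δ` (`exists_pcPoly`); `qval_evalCode`, `qval_eq_zero_iff`, `pr_evalCode` (TotalComp.lean), equality of natural numbers is primitive recursive (`Primrec.eq`), negation. -/
theorem nz_pr {s : ℕ} (δ : MvPolynomial (Fin s) ℚ) : PrimrecPred fun x : List QCode => eval (ptq s x) δ ≠ 0 := by
  obtain ⟨p, rfl⟩ := exists_pcPoly δ
  have he : Primrec fun x : List QCode => evalCode s x p :=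
    pr_evalCode (Primrec.const s) Primrec.id (Primrec.const p)
  have h1 : PrimrecPred fun x : List QCode => (evalCode s x p).1.1 = (evalCode s x p).1.2 :=
    Primrec.eq.comp (Primrec.fst.comp (Primrec.fst.comp he)) (Primrec.snd.comp (Primrec.fst.comp he))
  refine h1.not.of_eq fun x => ?_
  rw [← qval_evalCode, ne_eq, qval_eq_zero_iff]

/-- The code of a linear form. -/
private def linC (N : ℕ) (L : List PCode) (c : List QCode) : PCode :=
  pcSumRange N fun i => pcMul [(c.getD i (qnat 0), [])] (L.getD i [])

private theorem exists_linC {s n D : ℕ} (ρ : (Fin n → Fin (D + 1)) → MvPolynomial (Fin s) ℚ) :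
    ∃ L : List PCode, ∀ x c : List QCode,
      eval (ptq s x) (pcPoly s (linC (Fintype.card (Fin n → Fin (D + 1))) L c)) =
        ∑ a, cfq c a * eval (ptq s x) (ρ a) := by
  choose p hp using fun a => exists_pcPoly (ρ a)
  refine ⟨List.ofFn fun i => p ((Fintype.equivFin (Fin n → Fin (D + 1))).symm i), fun x c => ?_⟩
  rw [linC, pcPoly_sumRange, map_sum, ← Equiv.sum_comp (Fintype.equivFin (Fin n → Fin (D + 1)))]
  refine Finset.sum_congr rfl fun a _ => ?_
  rw [pcPoly_mul, pcPoly_const, map_mul, eval_C, getD_ofFn, Equiv.symm_apply_apply, hp]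
  rfl

private theorem pr_linC (N : ℕ) (L : List PCode) : Primrec fun c : List QCode => linC N L c := by
  have h1 : Primrec fun q : List QCode × ℕ => ([(q.1.getD q.2 (qnat 0), [])] : PCode) :=
    pr_const1 ((Primrec.list_getD (qnat 0)).comp Primrec.fst Primrec.snd)
  have h2 : Primrec fun q : List QCode × ℕ => L.getD q.2 [] :=
    (Primrec.list_getD []).comp (Primrec.const L) Primrec.snd
  exact pr_sumRange (g := fun (c : List QCode) i => pcMul [(c.getD i (qnat 0), [])] (L.getD i []))
    (Primrec.const N) (pr_mul h1 h2).to₂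

/-- Linear forms in the coefficients, with polynomial coefficients in `θ`.

Proof. For a list `L` of codes of polynomials in `s` variables (`L.getD i []` is a code of `ρ a` for `i = Fintype.equivFin _ a`; `exists_pcPoly`, `List.ofFn`) let `lin c L = pcSumRange L.length fun i => pcMul [(c.getD i (qnat 0), [])] (L.getD i [])`, so `eval (ptq s x) (pcPoly s (lin c L)) = ∑ a, cfq c a * eval (ptq s x) (ρ a)`
(`pcPoly_sumRange`-like lemma in the library, `pcPoly_mul`, `pcPoly_const`). The statement is that the value of `lin c L ++ pcNeg (lin c' L')` is zero: `qval_evalCode`, `qval_eq_zero_iff`; primitive recursive by `pr_sumRange`, `pr_mul`, `pr_const1`, `pr_neg`, `pr_append`, `pr_evalCode`, `Primrec.list_getD`. -/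
theorem lin_pr {s n n' D : ℕ} (ρ : (Fin n → Fin (D + 1)) → MvPolynomial (Fin s) ℚ)
    (ρ' : (Fin n' → Fin (D + 1)) → MvPolynomial (Fin s) ℚ) :
    PrimrecPred fun p : List QCode × (List QCode × List QCode) =>
      ∑ a, cfq p.2.1 a * eval (ptq s p.1) (ρ a) = ∑ a, cfq p.2.2 a * eval (ptq s p.1) (ρ' a) := by
  obtain ⟨L, hL⟩ := exists_linC ρ
  obtain ⟨L', hL'⟩ := exists_linC ρ'
  have h1 : Primrec fun p : List QCode × (List QCode × List QCode) =>
      linC (Fintype.card (Fin n → Fin (D + 1))) L p.2.1 :=
    (pr_linC _ L).comp (Primrec.fst.comp Primrec.snd)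
  have h2 : Primrec fun p : List QCode × (List QCode × List QCode) =>
      linC (Fintype.card (Fin n' → Fin (D + 1))) L' p.2.2 :=
    (pr_linC _ L').comp (Primrec.snd.comp Primrec.snd)
  have he : Primrec fun p : List QCode × (List QCode × List QCode) => evalCode s p.1
      (linC (Fintype.card (Fin n → Fin (D + 1))) L p.2.1 ++
        pcNeg (linC (Fintype.card (Fin n' → Fin (D + 1))) L' p.2.2)) :=
    pr_evalCode (Primrec.const s) Primrec.fst (pr_append h1 (pr_neg h2))
  have h3 : PrimrecPred fun p : List QCode × (List QCode × List QCode) =>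
      (evalCode s p.1 (linC (Fintype.card (Fin n → Fin (D + 1))) L p.2.1 ++
        pcNeg (linC (Fintype.card (Fin n' → Fin (D + 1))) L' p.2.2))).1.1 =
      (evalCode s p.1 (linC (Fintype.card (Fin n → Fin (D + 1))) L p.2.1 ++
        pcNeg (linC (Fintype.card (Fin n' → Fin (D + 1))) L' p.2.2))).1.2 :=
    Primrec.eq.comp (Primrec.fst.comp (Primrec.fst.comp he)) (Primrec.snd.comp (Primrec.fst.comp he))
  refine h3.of_eq fun p => ?_
  rw [← qval_eq_zero_iff, qval_evalCode, pcPoly_append, pcPoly_neg, map_add, map_neg, hL, hL',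
    ← sub_eq_add_neg, sub_eq_zero]

end Pool.Agent.Lib.MP_bbe012_lc.PM
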