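import Pool.Agent.Lib.MP_bbe012_lc.PM.Dx
import Pool.Agent.Lib.MP_bbe012_lc.TotalComp

/-!
# Primitive recursive predicates on codes: membership in the family
-/

namespace Pool.Agent.Lib.MP_bbe012_lc.PM

open MvPolynomial MeasureTheory Set PP PG

/-- The polynomial `D(θ, x)`, where `p` is a code of `D` and `x` is a list of codes for the coordinates of `θ`. -/
def spc (s n : ℕ) (x : List QCode) (p : PCode) : PCode :=
  pcSubst (s + n) (fun i => if i < s then [(x.getD i (qnat 0), [])] else pcVar (i - s)) p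

/-- Proof. `pcPoly_subst`: `aeval (fun i : Fin (s + n) => pcPoly n (...)) (rename finSumFinEquiv D)`, `aeval_rename`; for `i = Fin.castAdd n j` the polynomial is `C (ptq s x j)` (`pcPoly_const`), for `i = Fin.natAdd s j` it is `X j` (`pcPoly_var`); both sides are `aeval`s of `D` at the same family
(`Sum.rec`), see `finSumFinEquiv_apply_left`, `finSumFinEquiv_apply_right`. -/
theorem pcPoly_spc {s n : ℕ} (x : List QCode) {p : PCode} {D : Pz s n} (hp : pcPoly (s + n) p = rename finSumFinEquiv D) :
    pcPoly n (spc s n x p) = spz D (ptq s x) := by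
  rw [spc, pcPoly_subst, hp, aeval_rename, spz]
  have h : (fun i : Fin (s + n) => pcPoly n
      (if (i : ℕ) < s then [(x.getD i (qnat 0), [])] else pcVar (i - s))) ∘ finSumFinEquiv =
      Sum.elim (fun i => C (ptq s x i)) X := by
    funext u
    rcases u with i | j
    · simp only [Function.comp_apply, finSumFinEquiv_apply_left, Fin.val_castAdd, i.2, if_true,
        Sum.elim_inl]
      rw [pcPoly_const]
      rfl
    · have h1 : ¬ s + (j : ℕ) < s := by omega
      have h2 : s + (j : ℕ) - s = j := by omega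
      simp only [Function.comp_apply, finSumFinEquiv_apply_right, Fin.val_natAdd, h1, if_false,
        Sum.elim_inr, h2]
      rw [pcPoly_var j.2]
  rw [h]

private theorem isZero_sub {n : ℕ} (a b : PCode) :
    pcIsZero n (a ++ pcNeg b) ↔ pcPoly n a = pcPoly n b := by
  rw [pcIsZero_iff, pcPoly_append, pcPoly_neg, ← sub_eq_add_neg, sub_eq_zero]

private theorem pr_spc {α : Type} [Primcodable α] (s n : ℕ) {x : α → List QCode} {p : α → PCode}
    (hx : Primrec x) (hp : Primrec p) : Primrec fun a => spc s n (x a) (p a) := by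
  have h1 : Primrec fun q : α × ℕ => ([((x q.1).getD q.2 (qnat 0), [])] : PCode) :=
    pr_const1 ((Primrec.list_getD (qnat 0)).comp (hx.comp Primrec.fst) Primrec.snd)
  have h2 : Primrec fun q : α × ℕ => pcVar (q.2 - s) :=
    pr_var (Primrec.nat_sub.comp Primrec.snd (Primrec.const s))
  have h3 : Primrec fun q : α × ℕ => if q.2 < s then
      ([((x q.1).getD q.2 (qnat 0), [])] : PCode) else pcVar (q.2 - s) :=
    Primrec.ite (Primrec.nat_lt.comp Primrec.snd (Primrec.const s)) h1 h2
  exact pr_subst (L := fun a i => if i < s then ([((x a).getD i (qnat 0), [])] : PCode)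
    else pcVar (i - s)) (Primrec.const (s + n)) h3.to₂ hp

/-- Membership in the family is primitive recursive.

Proof. Let `q` be a code of `rename finSumFinEquiv F.Q`, `Lc` a list of codes of `rename finSumFinEquiv l`, `l ∈ F.L`, and `M` a list of codes of the monomials `monomial (fx a) 1`, at the place `Fintype.equivFin _ a` (`exists_pcPoly`, `List.ofFn`; or explicit: `[(qnat 1, List.ofFn fun i => (a i : ℕ))]`). All conditions are of the form `pcIsZero F.n _`
(`pcIsZero_iff`, `pcPoly_append`, `pcPoly_neg`, `sub_eq_zero`), for the numerator: `I.2.1.1 ++ pcNeg (pcSumRange M.length fun i => pcMul [(c.getD i (qnat 0), [])] (M.getD i []))`. Primitive recursive: `pr_isZero`, `pr_subst`, `pr_append`, `pr_neg`, `pr_sumRange`, `pr_mul`, `pr_const1`, `Primrec.ite`; the quantifiers over lists: `PrimrecRel.forall_mem_list`,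
`PrimrecRel.exists_mem_list`; the quantifiers over the fixed list `F.L` are finite conjunctions and disjunctions (induction on the list, or quantifiers over the constant list `Lc`). -/
theorem match_pr {s : ℕ} (F : Fam s) (D : ℕ) :
    PrimrecPred fun p : List QCode × (List QCode × IntCode) => MatchM F D (ptq s p.1) (cfq p.2.1) p.2.2 := by
  classical
  obtain ⟨q, hq⟩ := exists_pcPoly (rename finSumFinEquiv F.Q)
  choose cl hcl using fun l : Pz s F.n => exists_pcPoly (rename finSumFinEquiv l)
  choose mc hmc using fun a : Fin F.n → Fin (D + 1) =>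
    exists_pcPoly (monomial (fx a) (1 : ℚ))
  set Lc : List PCode := F.L.map cl with hLc
  set N := Fintype.card (Fin F.n → Fin (D + 1)) with hN
  set Mc : List PCode := List.ofFn fun j : Fin N =>
    mc ((Fintype.equivFin (Fin F.n → Fin (D + 1))).symm j) with hMc
  have hMcget : ∀ j : Fin N, Mc.getD j [] =
      mc ((Fintype.equivFin (Fin F.n → Fin (D + 1))).symm j) := by
    intro j
    have hj : (j : ℕ) < Mc.length := by rw [hMc, List.length_ofFn]; exact j.2
    rw [List.getD_eq_getElem _ _ hj]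
    simp only [hMc, List.getElem_ofFn]
  have hnum : ∀ c : List QCode, pcPoly F.n (pcSumRange N fun i =>
      pcMul [(c.getD i (qnat 0), [])] (Mc.getD i [])) =
      ∑ a : Fin F.n → Fin (D + 1), monomial (fx a) (cfq c a) := by
    intro c
    rw [pcPoly_sumRange]
    have h1 : ∀ j : Fin N, pcPoly F.n (pcMul [(c.getD j (qnat 0), [])] (Mc.getD j [])) =
        monomial (fx ((Fintype.equivFin (Fin F.n → Fin (D + 1))).symm j))
          (cfq c ((Fintype.equivFin (Fin F.n → Fin (D + 1))).symm j)) := by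
      intro j
      rw [pcPoly_mul, pcPoly_const, hMcget, hmc, C_mul_monomial, mul_one]
      unfold cfq
      rw [Equiv.apply_symm_apply]
    rw [Finset.sum_congr rfl fun j _ => h1 j]
    exact (Equiv.sum_comp (Fintype.equivFin (Fin F.n → Fin (D + 1))).symm
      (fun a => monomial (fx a) (cfq c a)))
  have key : ∀ p : List QCode × (List QCode × IntCode),
      (MatchM F D (ptq s p.1) (cfq p.2.1) p.2.2 ↔
      (p.2.2.1 = F.n ∧ pcIsZero F.n (p.2.2.2.1.2 ++ pcNeg (spc s F.n p.1 q)) ∧
        (∀ t ∈ p.2.2.2.2, ∃ d ∈ Lc, pcIsZero F.n (t.2 ++ pcNeg (spc s F.n p.1 d))) ∧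
        (∀ d ∈ Lc, ∃ t ∈ p.2.2.2.2, pcIsZero F.n (t.2 ++ pcNeg (spc s F.n p.1 d))) ∧
        pcIsZero F.n (p.2.2.2.1.1 ++ pcNeg (pcSumRange N fun i =>
          pcMul [(p.2.1.getD i (qnat 0), [])] (Mc.getD i []))))) := by
    intro p
    simp only [isZero_sub, pcPoly_spc _ hq, hnum, MatchM]
    have e1 : ∀ l : Pz s F.n, pcPoly F.n (spc s F.n p.1 (cl l)) = spz l (ptq s p.1) :=
      fun l => pcPoly_spc _ (hcl l)
    have e2 : ∀ t : Bool × PCode, (∃ d ∈ Lc, pcPoly F.n t.2 = pcPoly F.n (spc s F.n p.1 d)) ↔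
        ∃ l ∈ F.L, pcPoly F.n t.2 = spz l (ptq s p.1) := by
      intro t
      rw [hLc]
      constructor
      · rintro ⟨d, hd, h⟩
        obtain ⟨l, hl, rfl⟩ := List.mem_map.mp hd
        exact ⟨l, hl, by rw [h, e1]⟩
      · rintro ⟨l, hl, h⟩
        exact ⟨cl l, List.mem_map.mpr ⟨l, hl, rfl⟩, by rw [h, e1]⟩
    have e3 : (∀ d ∈ Lc, ∃ t ∈ p.2.2.2.2, pcPoly F.n t.2 = pcPoly F.n (spc s F.n p.1 d)) ↔
        ∀ l ∈ F.L, ∃ t ∈ p.2.2.2.2, pcPoly F.n t.2 = spz l (ptq s p.1) := by
      rw [hLc]
      constructor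
      · intro h l hl
        obtain ⟨t, ht, h1⟩ := h (cl l) (List.mem_map.mpr ⟨l, hl, rfl⟩)
        exact ⟨t, ht, by rw [h1, e1]⟩
      · intro h d hd
        obtain ⟨l, hl, rfl⟩ := List.mem_map.mp hd
        obtain ⟨t, ht, h1⟩ := h l hl
        exact ⟨t, ht, by rw [h1, e1]⟩
    rw [e3]
    simp only [e2]
  have hI : Primrec fun p : List QCode × (List QCode × IntCode) => p.2.2 :=
    Primrec.snd.comp Primrec.snd
  have hS : Primrec fun p : List QCode × (List QCode × IntCode) => p.2.2.2.2 := pr_iS.comp hI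
  have h1 : PrimrecPred fun p : List QCode × (List QCode × IntCode) => p.2.2.1 = F.n :=
    Primrec.eq.comp (pr_iv.comp hI) (Primrec.const F.n)
  have h2 : PrimrecPred fun p : List QCode × (List QCode × IntCode) =>
      pcIsZero F.n (p.2.2.2.1.2 ++ pcNeg (spc s F.n p.1 q)) :=
    pr_isZero (Primrec.const F.n) (pr_append (pr_iQ.comp hI)
      (pr_neg (pr_spc s F.n Primrec.fst (Primrec.const q))))
  have h3 : PrimrecPred fun p : List QCode × (List QCode × IntCode) =>
      ∀ t ∈ p.2.2.2.2, ∃ d ∈ Lc, pcIsZero F.n (t.2 ++ pcNeg (spc s F.n p.1 d)) := by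
    have r1 : PrimrecRel fun (d : PCode) (z : (Bool × PCode) × (List QCode × (List QCode × IntCode))) =>
        pcIsZero F.n (z.1.2 ++ pcNeg (spc s F.n z.2.1 d)) :=
      pr_isZero (Primrec.const F.n) (pr_append (Primrec.snd.comp (Primrec.fst.comp Primrec.snd))
        (pr_neg (pr_spc s F.n (Primrec.fst.comp (Primrec.snd.comp Primrec.snd)) Primrec.fst)))
    have r2 : PrimrecRel fun (t : Bool × PCode) (p : List QCode × (List QCode × IntCode)) =>
        ∃ d ∈ Lc, pcIsZero F.n (t.2 ++ pcNeg (spc s F.n p.1 d)) :=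
      r1.exists_mem_list.comp (Primrec.const Lc) Primrec.id
    exact r2.forall_mem_list.comp hS Primrec.id
  have h4 : PrimrecPred fun p : List QCode × (List QCode × IntCode) =>
      ∀ d ∈ Lc, ∃ t ∈ p.2.2.2.2, pcIsZero F.n (t.2 ++ pcNeg (spc s F.n p.1 d)) := by
    have r1 : PrimrecRel fun (t : Bool × PCode) (z : PCode × (List QCode × (List QCode × IntCode))) =>
        pcIsZero F.n (t.2 ++ pcNeg (spc s F.n z.2.1 z.1)) :=
      pr_isZero (Primrec.const F.n) (pr_append (Primrec.snd.comp Primrec.fst)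
        (pr_neg (pr_spc s F.n (Primrec.fst.comp (Primrec.snd.comp Primrec.snd))
          (Primrec.fst.comp Primrec.snd))))
    have r2 : PrimrecRel fun (d : PCode) (p : List QCode × (List QCode × IntCode)) =>
        ∃ t ∈ p.2.2.2.2, pcIsZero F.n (t.2 ++ pcNeg (spc s F.n p.1 d)) :=
      r1.exists_mem_list.comp (hS.comp Primrec.snd) Primrec.id
    exact r2.forall_mem_list.comp (Primrec.const Lc) Primrec.id
  have h5 : PrimrecPred fun p : List QCode × (List QCode × IntCode) =>
      pcIsZero F.n (p.2.2.2.1.1 ++ pcNeg (pcSumRange N fun i =>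
          pcMul [(p.2.1.getD i (qnat 0), [])] (Mc.getD i []))) := by
    have g1 : Primrec fun z : (List QCode × (List QCode × IntCode)) × ℕ =>
        ([(z.1.2.1.getD z.2 (qnat 0), [])] : PCode) :=
      pr_const1 ((Primrec.list_getD (qnat 0)).comp
        (Primrec.fst.comp (Primrec.snd.comp Primrec.fst)) Primrec.snd)
    have g2 : Primrec fun z : (List QCode × (List QCode × IntCode)) × ℕ => Mc.getD z.2 [] :=
      (Primrec.list_getD []).comp (Primrec.const Mc) Primrec.snd
    exact pr_isZero (Primrec.const F.n) (pr_append (pr_iP.comp hI) (pr_neg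
      (pr_sumRange (g := fun (p : List QCode × (List QCode × IntCode)) i =>
        pcMul [(p.2.1.getD i (qnat 0), [])] (Mc.getD i [])) (Primrec.const N)
        (pr_mul g1 g2).to₂)))
  exact (h1.and (h2.and (h3.and (h4.and h5)))).of_eq fun p => (key p).symm

end Pool.Agent.Lib.MP_bbe012_lc.PM
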