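import Mathlib

/-!
# Searches
-/

namespace Pool.Agent.Lib.MP_bbe012_lc.PM

/-- Semidecision by search. Proof. `PrimrecPred R` gives a decidable relation; `g a` = search for `n` with `(Encodable.decode n).map (R a ·) = some true` (`Nat.rfindOpt`, `Partrec.rfindOpt`, or `Nat.rfind`; see `dom_search`/`partrec_hcSearch` in HC/Search.lean, `decideG` in PG/CDec.lean for the pattern), then map to `()`. -/
theorem search_unit {α β : Type} [Primcodable α] [Primcodable β] {R : α → β → Prop}
    (hR : PrimrecPred fun p : α × β => R p.1 p.2) :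
    ∃ g : α →. Unit, Partrec g ∧ ∀ a, (g a).Dom ↔ ∃ b, R a b := by
  classical
  have h1 : Primrec fun y : α × ℕ => Encodable.decode (α := β) y.2 := Primrec.decode.comp Primrec.snd
  have h2 : PrimrecPred fun y : (α × ℕ) × β => R y.1.1 y.2 :=
    hR.comp (Primrec.pair (Primrec.fst.comp Primrec.fst) Primrec.snd)
  have h : Primrec₂ fun (a : α) (m : ℕ) =>
      (Encodable.decode (α := β) m).bind fun b => if R a b then some () else none :=
    Primrec.option_bind h1 ((Primrec.ite h2 (Primrec.const (some ())) (Primrec.const none)).to₂)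
  refine ⟨fun a => Nat.rfindOpt fun m =>
      (Encodable.decode (α := β) m).bind fun b => if R a b then some () else none,
    Partrec.rfindOpt h.to_comp, fun a => ?_⟩
  refine Nat.rfindOpt_dom.trans ⟨?_, ?_⟩
  · rintro ⟨m, u, hu⟩
    obtain ⟨b, _, hb⟩ := Option.bind_eq_some_iff.mp hu
    split_ifs at hb with hc
    exact ⟨b, hc⟩
  · rintro ⟨b, hb⟩
    refine ⟨Encodable.encode b, (), ?_⟩
    rw [Encodable.encodek]
    change (if R a b then some () else none) = some ()
    rw [if_pos hb]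

/-- Finite unions. Proof: induction on the finite type (`Finite.induction_empty_option`, or on the cardinality, or on a list with all elements): the empty case is the nowhere defined function (`Partrec.none`), the step is `Partrec.merge'`. -/
theorem union_unit {α ι : Type} [Primcodable α] [Finite ι] (P : ι → α → Prop)
    (h : ∀ i, ∃ g : α →. Unit, Partrec g ∧ ∀ a, (g a).Dom ↔ P i a) :
    ∃ g : α →. Unit, Partrec g ∧ ∀ a, (g a).Dom ↔ ∃ i, P i a := by
  have key : ∀ ι : Type, Finite ι → ∀ P : ι → α → Prop,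
      (∀ i, ∃ g : α →. Unit, Partrec g ∧ ∀ a, (g a).Dom ↔ P i a) →
      ∃ g : α →. Unit, Partrec g ∧ ∀ a, (g a).Dom ↔ ∃ i, P i a := by
    intro ι hι
    refine Finite.induction_empty_option (P := fun ι : Type => ∀ P : ι → α → Prop,
      (∀ i, ∃ g : α →. Unit, Partrec g ∧ ∀ a, (g a).Dom ↔ P i a) →
      ∃ g : α →. Unit, Partrec g ∧ ∀ a, (g a).Dom ↔ ∃ i, P i a) ?_ ?_ ?_ ι
    · intro ι₁ ι₂ e h1 P hP
      obtain ⟨g, hg, hd⟩ := h1 (fun i => P (e i)) fun i => hP (e i)
      refine ⟨g, hg, fun a => (hd a).trans ⟨?_, ?_⟩⟩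
      · rintro ⟨i, hi⟩
        exact ⟨e i, hi⟩
      · rintro ⟨i, hi⟩
        exact ⟨e.symm i, by simpa using hi⟩
    · intro P _
      refine ⟨fun _ => Part.none, Partrec.none, fun a => ⟨fun h => h.elim, ?_⟩⟩
      rintro ⟨i, _⟩
      exact i.elim
    · intro ι _ ih P hP
      obtain ⟨g, hg, hd⟩ := ih (fun i => P (some i)) fun i => hP (some i)
      obtain ⟨g', hg', hd'⟩ := hP none
      obtain ⟨k, hk, hkd⟩ := Partrec.merge' hg hg'
      refine ⟨k, hk, fun a => (hkd a).2.trans ?_⟩
      rw [hd, hd']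
      constructor
      · rintro (⟨i, hi⟩ | hi)
        · exact ⟨some i, hi⟩
        · exact ⟨none, hi⟩
      · rintro ⟨i | i, hi⟩
        · exact Or.inr hi
        · exact Or.inl ⟨i, hi⟩
  exact key ι inferInstance P h

/-- The algorithm, from a semidecision of equality (sound, perhaps not complete) and a complete semidecision of inequality. Proof: `Partrec.merge'` for `g₁` mapped to `true` and `g₂` mapped to `false`. -/
theorem merge_bool {α : Type} [Primcodable α] {E G : α → Prop} {g₁ g₂ : α →. Unit} (h₁ : Partrec g₁) (h₂ : Partrec g₂)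
    (hG : ∀ a, (g₁ a).Dom ↔ G a) (hE : ∀ a, (g₂ a).Dom ↔ E a) :
    ∃ f : α →. Bool, Partrec f ∧ (∀ a, ∀ b ∈ f a, (b = true ∧ G a) ∨ (b = false ∧ E a)) ∧
      ∀ a, (f a).Dom ↔ G a ∨ E a := by
  have e1 : Partrec fun a => (g₁ a).map fun _ => true :=
    h₁.map ((Computable.const true).to₂)
  have e2 : Partrec fun a => (g₂ a).map fun _ => false :=
    h₂.map ((Computable.const false).to₂)
  obtain ⟨k, hk, hkd⟩ := Partrec.merge' e1 e2
  refine ⟨k, hk, fun a b hb => ?_, fun a => ?_⟩
  · rcases (hkd a).1 b hb with h | h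
    · obtain ⟨u, hu, hub⟩ := (Part.mem_map_iff _).mp h
      exact Or.inl ⟨hub.symm, (hG a).mp (Part.dom_iff_mem.mpr ⟨u, hu⟩)⟩
    · obtain ⟨u, hu, hub⟩ := (Part.mem_map_iff _).mp h
      exact Or.inr ⟨hub.symm, (hE a).mp (Part.dom_iff_mem.mpr ⟨u, hu⟩)⟩
  · refine (hkd a).2.trans ?_
    have q1 : ((g₁ a).map fun _ => true).Dom ↔ (g₁ a).Dom := Iff.rfl
    have q2 : ((g₂ a).map fun _ => false).Dom ↔ (g₂ a).Dom := Iff.rfl
    rw [q1, q2, hG, hE]

end Pool.Agent.Lib.MP_bbe012_lc.PM
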