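import Pool.Agent.Lib.MP_bbe012_lc.PM.An

/-!
# The integrals over the region: integrability and the consequences of a span identity
-/

namespace Pool.Agent.Lib.MP_bbe012_lc.PM

open MvPolynomial MeasureTheory Set PP PG Filter Topology

theorem vx_vl_add {s n : ℕ} (D D' : Pz s n) (θ : Fin s → ℝ) (x : Fin n → ℝ) :
    vl (D + D') θ x = vl D θ x + vl D' θ x := map_add _ _ _

theorem vx_vl_sub {s n : ℕ} (D D' : Pz s n) (θ : Fin s → ℝ) (x : Fin n → ℝ) :
    vl (D - D') θ x = vl D θ x - vl D' θ x := map_sub _ _ _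

theorem vx_vl_mul {s n : ℕ} (D D' : Pz s n) (θ : Fin s → ℝ) (x : Fin n → ℝ) :
    vl (D * D') θ x = vl D θ x * vl D' θ x := map_mul _ _ _

theorem vx_vl_pow {s n : ℕ} (D : Pz s n) (k : ℕ) (θ : Fin s → ℝ) (x : Fin n → ℝ) :
    vl (D ^ k) θ x = vl D θ x ^ k := map_pow _ _ _

theorem vx_vl_sum {s n : ℕ} {ι : Type} (S : Finset ι) (D : ι → Pz s n) (θ : Fin s → ℝ)
    (x : Fin n → ℝ) : vl (∑ i ∈ S, D i) θ x = ∑ i ∈ S, vl (D i) θ x := map_sum _ _ _

theorem vx_vl_up {s n : ℕ} (G : Pz s n) (θ : Fin s → ℝ) (t : ℝ) (x : Fin n → ℝ) :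
    vl (up G) (Fin.snoc θ t : Fin (s + 1) → ℝ) x = vl G θ x := by
  rw [vl, up, aeval_rename, vl]
  congr 1
  congr 1
  ext i
  rcases i with i | i
  · simp
  · simp

theorem vx_vl_par {s n : ℕ} (c : MvPolynomial (Fin s) ℚ) (θ : Fin s → ℝ) (x : Fin n → ℝ) :
    vl (par n c) θ x = aeval θ c := by
  rw [vl, par, aeval_rename]
  congr 1

theorem vx_vl_cont {s n : ℕ} (D : Pz s n) (θ : Fin s → ℝ) : Continuous fun x => vl D θ x := by
  unfold vl
  induction D using MvPolynomial.induction_on with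
  | C a => simp only [aeval_C]; exact continuous_const
  | add p q hp hq => simp only [map_add]; exact hp.add hq
  | mul_X p i hp =>
    simp only [map_mul, aeval_X]
    refine hp.mul ?_
    rcases i with i | i
    · exact continuous_const
    · exact continuous_apply i

theorem vx_hh_pos {s n r : ℕ} (p : Fin r → Pz s n) (θ : Fin s → ℝ) {x : Fin n → ℝ}
    (hx : x ∈ rg p θ) : 0 < vl (hh p) θ x := by
  have e : vl (hh p) θ x = (∏ j, vl (p j) θ x) * ∏ i, (1 - x i ^ 2) := by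
    rw [hh, vx_vl_mul]
    congr 1
    · exact map_prod _ _ _
    · rw [vl, map_prod]
      refine Finset.prod_congr rfl fun i _ => ?_
      rw [map_sub, map_one, map_pow, aeval_X]
      rfl
  rw [e]
  refine mul_pos (Finset.prod_pos fun j _ => hx.2 j) (Finset.prod_pos fun i _ => ?_)
  have := hx.1 i
  linarith

theorem vx_rg_open {s n r : ℕ} (p : Fin r → Pz s n) (θ : Fin s → ℝ) : IsOpen (rg p θ) := by
  have e : rg p θ = (⋂ i, {x : Fin n → ℝ | x i ^ 2 < 1}) ∩ ⋂ j, {x | 0 < vl (p j) θ x} := by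
    ext x
    simp only [rg, mem_ofPred_eq, mem_inter_iff, mem_iInter]
  rw [e]
  refine (isOpen_iInter_of_finite fun i => ?_).inter (isOpen_iInter_of_finite fun j => ?_)
  · exact isOpen_lt ((continuous_apply i).pow 2) continuous_const
  · exact isOpen_lt continuous_const (vx_vl_cont (p j) θ)

theorem vx_rg_meas {s n r : ℕ} (p : Fin r → Pz s n) (θ : Fin s → ℝ) : MeasurableSet (rg p θ) :=
  (vx_rg_open p θ).measurableSet

theorem vx_rg_sub {s n r : ℕ} (p : Fin r → Pz s n) (θ : Fin s → ℝ) :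
    rg p θ ⊆ Icc (fun _ => -1) (fun _ => 1) := by
  intro x hx
  refine ⟨fun i => ?_, fun i => ?_⟩
  · have := hx.1 i
    change -1 ≤ x i
    nlinarith
  · have := hx.1 i
    change x i ≤ 1
    nlinarith

theorem vx_rg_vol {s n r : ℕ} (p : Fin r → Pz s n) (θ : Fin s → ℝ) : volume (rg p θ) < ⊤ :=
  (measure_mono (vx_rg_sub p θ)).trans_lt isCompact_Icc.measure_lt_top

theorem vx_bound {s n r : ℕ} (p : Fin r → Pz s n) (θ : Fin s → ℝ) {f : (Fin n → ℝ) → ℝ}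
    (hf : Continuous f) : ∃ C : ℝ, 0 < C ∧ ∀ x ∈ rg p θ, |f x| ≤ C := by
  obtain ⟨C, hC⟩ := (isCompact_Icc (a := fun _ : Fin n => (-1 : ℝ))
    (b := fun _ => 1)).exists_bound_of_continuousOn hf.continuousOn
  exact ⟨max C 1, by positivity, fun x hx => (hC x (vx_rg_sub p θ hx)).trans (le_max_left _ _)⟩

theorem vx_int {s n r : ℕ} (p : Fin r → Pz s n) (θ : Fin s → ℝ) {f : (Fin n → ℝ) → ℝ}
    (hf : Continuous f) {τ : ℝ} (hτ : 0 ≤ τ) :
    IntegrableOn (fun x => f x * vl (hh p) θ x ^ τ) (rg p θ) := by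
  obtain ⟨C1, hC1, h1⟩ := vx_bound p θ hf
  obtain ⟨C2, hC2, h2⟩ := vx_bound p θ (vx_vl_cont (hh p) θ)
  refine Measure.integrableOn_of_bounded (M := C1 * C2 ^ τ) (vx_rg_vol p θ).ne ?_ ?_
  · exact (hf.measurable.mul ((vx_vl_cont (hh p) θ).measurable.pow_const τ)).aestronglyMeasurable
  · refine (ae_restrict_mem (vx_rg_meas p θ)).mono fun x hx => ?_
    rw [norm_mul]
    have hp := vx_hh_pos p θ hx
    have h3 : ‖vl (hh p) θ x ^ τ‖ ≤ C2 ^ τ := by
      rw [Real.norm_of_nonneg (Real.rpow_nonneg hp.le _)]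
      exact Real.rpow_le_rpow hp.le ((le_abs_self _).trans (h2 x hx)) hτ
    exact mul_le_mul (h1 x hx) h3 (norm_nonneg _) hC1.le

/-- Integrability of the integrand of `FI`. -/
theorem vx_FI_int {s n r : ℕ} (p : Fin r → Pz s n) (G : Pz (s + 1) n) (k : ℕ) (θ : Fin s → ℝ) {t : ℝ}
    (ht : (k : ℝ) ≤ t) :
    IntegrableOn (fun x => vl G (Fin.snoc θ t : Fin (s + 1) → ℝ) x * vl (hh p) θ x ^ (t - k))
      (rg p θ) :=
  vx_int p θ (vx_vl_cont G _) (by linarith)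

/-- The consequence of a span identity for the integrals. -/
theorem FI_span {s n r m : ℕ} (p : Fin r → Pz s n) {δ : MvPolynomial (Fin (s + 1)) ℚ}
    {w : Pz (s + 1) n} {K k k₀ : ℕ} {c : Fin m → MvPolynomial (Fin (s + 1)) ℚ}
    {e : Fin m → Pz (s + 1) n} {g : Fin n → Pz (s + 1) n} (hk : k ≤ K + 1) (hk₀ : k₀ ≤ K + 1)
    (hid : par n δ * w * up (hh p) ^ (K + 1 - k) =
      (∑ b, par n (c b) * e b) * up (hh p) ^ (K + 1 - k₀) + dv (hh p) K g)
    (θ : Fin s → ℝ) {t : ℝ} (ht : (K : ℝ) + 1 < t) :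
    aeval (Fin.snoc θ t : Fin (s + 1) → ℝ) δ * FI p w k θ t =
      ∑ b, aeval (Fin.snoc θ t : Fin (s + 1) → ℝ) (c b) * FI p (e b) k₀ θ t := by
  have hk' : (k : ℝ) ≤ K + 1 := by exact_mod_cast hk
  have hk₀' : (k₀ : ℝ) ≤ K + 1 := by exact_mod_cast hk₀
  have h0 := FI_dv p K g ht θ
  have hpow : ∀ κ : ℕ, κ ≤ K + 1 → ∀ x ∈ rg p θ,
      vl (hh p) θ x ^ (K + 1 - κ) * vl (hh p) θ x ^ (t - ((K + 1 : ℕ) : ℝ)) =
        vl (hh p) θ x ^ (t - κ) := by
    intro κ hκ x hx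
    have hp := vx_hh_pos p θ hx
    rw [← Real.rpow_natCast, ← Real.rpow_add hp, Nat.cast_sub hκ]
    congr 1
    ring
  have h1 : FI p (dv (hh p) K g) (K + 1) θ t = ∫ x in rg p θ,
      (aeval (Fin.snoc θ t : Fin (s + 1) → ℝ) δ *
        (vl w (Fin.snoc θ t : Fin (s + 1) → ℝ) x * vl (hh p) θ x ^ (t - k)) -
      ∑ b, aeval (Fin.snoc θ t : Fin (s + 1) → ℝ) (c b) *
        (vl (e b) (Fin.snoc θ t : Fin (s + 1) → ℝ) x * vl (hh p) θ x ^ (t - k₀))) := by
    rw [FI]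
    refine setIntegral_congr_fun (vx_rg_meas p θ) fun x hx => ?_
    have h2 : vl (dv (hh p) K g) (Fin.snoc θ t : Fin (s + 1) → ℝ) x =
        aeval (Fin.snoc θ t : Fin (s + 1) → ℝ) δ * vl w (Fin.snoc θ t : Fin (s + 1) → ℝ) x *
          vl (hh p) θ x ^ (K + 1 - k) -
        (∑ b, aeval (Fin.snoc θ t : Fin (s + 1) → ℝ) (c b) *
          vl (e b) (Fin.snoc θ t : Fin (s + 1) → ℝ) x) * vl (hh p) θ x ^ (K + 1 - k₀) := by
      have h3 := congrArg (fun D => vl D (Fin.snoc θ t : Fin (s + 1) → ℝ) x) hid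
      simp only [vx_vl_add, vx_vl_mul, vx_vl_pow, vx_vl_sum, vx_vl_par, vx_vl_up] at h3
      rw [h3]; ring
    change vl (dv (hh p) K g) (Fin.snoc θ t : Fin (s + 1) → ℝ) x *
      vl (hh p) θ x ^ (t - ((K + 1 : ℕ) : ℝ)) = _
    rw [h2, sub_mul, mul_assoc (aeval (Fin.snoc θ t : Fin (s + 1) → ℝ) δ * _),
      hpow k hk x hx, mul_assoc (∑ b, _), hpow k₀ hk₀ x hx, mul_assoc, Finset.sum_mul]
    congr 1
    exact Finset.sum_congr rfl fun b _ => by ring
  have i1 : IntegrableOn (fun x => aeval (Fin.snoc θ t : Fin (s + 1) → ℝ) δ *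
        (vl w (Fin.snoc θ t : Fin (s + 1) → ℝ) x * vl (hh p) θ x ^ (t - k))) (rg p θ) :=
    (vx_FI_int p w k θ (by linarith)).const_mul _
  have i2 : ∀ b, IntegrableOn (fun x => aeval (Fin.snoc θ t : Fin (s + 1) → ℝ) (c b) *
        (vl (e b) (Fin.snoc θ t : Fin (s + 1) → ℝ) x * vl (hh p) θ x ^ (t - k₀))) (rg p θ) :=
    fun b => (vx_FI_int p (e b) k₀ θ (by linarith)).const_mul _
  rw [h1, integral_sub i1 (integrable_finsetSum _ fun b _ => i2 b), integral_const_mul,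
    integral_finsetSum _ (fun b _ => i2 b)] at h0
  simp only [integral_const_mul] at h0
  exact sub_eq_zero.mp h0

end Pool.Agent.Lib.MP_bbe012_lc.PM
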